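import Pool.Agent.Lib.MP_776403_ag.SD.UN.SpecF

/-!
# THEOREM UN, module FHc: the Hilbert function of a regular sequence of forms
-/

set_option autoImplicit false

open MvPolynomial

noncomputable section

namespace Pool.Agent.Lib.MP_776403_ag.SD.UN

open LI

namespace FHcAux

variable {N : ℕ}

/-- Homogeneous components of a product with a form. -/
theorem hc_mul (A G : Sx N) (e k : ℕ) (hG : G.IsHomogeneous e) :
    homogeneousComponent k (A * G) =
      (if e ≤ k then homogeneousComponent (k - e) A else 0) * G := by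
  have h1 : A * G = ∑ m ∈ Finset.range (A.totalDegree + 1), homogeneousComponent m A * G := by
    rw [← Finset.sum_mul, sum_homogeneousComponent]
  have h2 : ∀ m, homogeneousComponent k (homogeneousComponent m A * G) =
      if k = m + e then homogeneousComponent m A * G else 0 := fun m =>
    homogeneousComponent_of_mem ((homogeneousComponent_isHomogeneous m A).mul hG)
  rw [h1, map_sum]
  simp only [h2]
  split_ifs with hk
  · by_cases hm : k - e ∈ Finset.range (A.totalDegree + 1)
    · rw [Finset.sum_eq_single_of_mem (k - e) hm, if_pos (by omega)]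
      intro m _ hne
      rw [if_neg (by omega)]
    · have h3 : homogeneousComponent (k - e) A = 0 := by
        refine homogeneousComponent_eq_zero _ _ ?_
        rw [Finset.mem_range, not_lt] at hm
        omega
      rw [h3, zero_mul]
      refine Finset.sum_eq_zero fun m hm' => ?_
      rw [if_neg]
      rintro rfl
      rw [Nat.add_sub_cancel] at hm
      exact hm hm'
  · rw [zero_mul]
    refine Finset.sum_eq_zero fun m _ => ?_
    rw [if_neg (by omega)]

theorem isHom_span {r : ℕ} (f : Fin r → Sx N) (e : Fin r → ℕ) (hf : ∀ i, (f i).IsHomogeneous (e i)) :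
    IsHom (Ideal.span (Set.range f)) := by
  intro F hF m
  obtain ⟨c, rfl⟩ := Ideal.mem_span_range_iff_exists_fun.mp hF
  rw [map_sum]
  refine Ideal.sum_mem _ fun i _ => ?_
  rw [hc_mul (c i) (f i) (e i) m (hf i)]
  exact Ideal.mul_mem_left _ _ (Ideal.subset_span (Set.mem_range_self i))

/-- a form of degree `k` in `J + (g)` -/
theorem dec (J : Ideal (Sx N)) (hJ : IsHom J) (g : Sx N) (δ : ℕ) (hg : g.IsHomogeneous δ) (k : ℕ) (F : Sx N)
    (hF : F.IsHomogeneous k) (h : F ∈ Ideal.span {g} ⊔ J) :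
    ∃ a : Sx N, (δ ≤ k → a.IsHomogeneous (k - δ)) ∧ (¬ δ ≤ k → a = 0) ∧ F - a * g ∈ J := by
  obtain ⟨x, hx, b, hb, rfl⟩ := Submodule.mem_sup.1 h
  obtain ⟨c, rfl⟩ := Ideal.mem_span_singleton'.1 hx
  refine ⟨if δ ≤ k then homogeneousComponent (k - δ) c else 0, fun h1 => ?_, fun h1 => ?_, ?_⟩
  · rw [if_pos h1]
    exact homogeneousComponent_isHomogeneous _ _
  · rw [if_neg h1]
  · have h2 : homogeneousComponent k (c * g + b) = c * g + b := homogeneousComponent_eq_self hF
    rw [← hc_mul c g δ k hg, ← h2, map_add, add_sub_cancel_left]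
    exact hJ b hb k

theorem fin_gr (J : Ideal (Sx N)) (k : ℕ) : Module.Finite ℂ (gr J k) := by
  have hfin : Module.Finite ℂ (homogeneousSubmodule (Fin (N + 1)) ℂ k) :=
    Module.Finite.iff_fg.2 (homogeneousSubmodule_fg (Fin (N + 1)) ℂ k)
  unfold gr
  exact Module.Finite.map _ _

/-- the projection -/
def pr (J J' : Ideal (Sx N)) (h : J ≤ J') : (Sx N ⧸ J) →ₗ[ℂ] (Sx N ⧸ J') := (Ideal.Quotient.factorₐ ℂ h).toLinearMap

theorem pr_mk (J J' : Ideal (Sx N)) (h : J ≤ J') (F : Sx N) :
    pr J J' h (Ideal.Quotient.mk J F) = Ideal.Quotient.mk J' F := rfl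

theorem map_gr (J J' : Ideal (Sx N)) (h : J ≤ J') (k : ℕ) : (gr J k).map (pr J J' h) = gr J' k := by
  unfold gr
  rw [← Submodule.map_comp]
  rfl

theorem rn (J J' : Ideal (Sx N)) (h : J ≤ J') (k : ℕ) :
    Module.finrank ℂ (gr J' k) + Module.finrank ℂ (gr J k ⊓ LinearMap.ker (pr J J' h) : Submodule ℂ (Sx N ⧸ J)) =
      Module.finrank ℂ (gr J k) := by
  have := fin_gr J k
  have h1 := LinearMap.finrank_range_add_finrank_ker ((pr J J' h).domRestrict (gr J k))
  rw [LinearMap.range_domRestrict, map_gr] at h1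
  rw [← h1]
  congr 1
  rw [← Submodule.map_comap_subtype, Submodule.finrank_map_subtype_eq]
  rfl

theorem mem_gr (J : Ideal (Sx N)) (k : ℕ) (w : Sx N ⧸ J) :
    w ∈ gr J k ↔ ∃ F : Sx N, F.IsHomogeneous k ∧ Ideal.Quotient.mk J F = w := by
  unfold gr
  rw [Submodule.mem_map]
  rfl

/-- multiplication by `g` -/
def mg (J : Ideal (Sx N)) (g : Sx N) : (Sx N ⧸ J) →ₗ[ℂ] (Sx N ⧸ J) := LinearMap.mulRight ℂ (Ideal.Quotient.mk J g)

theorem step (J : Ideal (Sx N)) (hJ : IsHom J) (g : Sx N) (δ : ℕ) (hg : g.IsHomogeneous δ)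
    (hreg : ∀ z : Sx N, g * z ∈ J → z ∈ J) (k : ℕ) :
    Module.finrank ℂ (gr (Ideal.span {g} ⊔ J) k) + (if δ ≤ k then Module.finrank ℂ (gr J (k - δ)) else 0) =
      Module.finrank ℂ (gr J k) := by
  have hle : J ≤ Ideal.span {g} ⊔ J := le_sup_right
  rw [← rn J _ hle k]
  congr 1
  split_ifs with hk
  · have hinj : Function.Injective (mg J g) := by
      rw [injective_iff_map_eq_zero]
      intro w hw
      obtain ⟨z, rfl⟩ := Ideal.Quotient.mk_surjective w
      have h1 : Ideal.Quotient.mk J (z * g) = 0 := by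
        rw [map_mul]
        exact hw
      rw [Ideal.Quotient.eq_zero_iff_mem] at h1 ⊢
      rw [mul_comm] at h1
      exact hreg z h1
    rw [(Submodule.equivMapOfInjective (mg J g) hinj (gr J (k - δ))).finrank_eq]
    have h3 : (gr J (k - δ)).map (mg J g) = gr J k ⊓ LinearMap.ker (pr J (Ideal.span {g} ⊔ J) hle) := by
      ext w
      rw [Submodule.mem_map, Submodule.mem_inf, LinearMap.mem_ker, mem_gr]
      constructor
      · rintro ⟨a', ha', rfl⟩
        obtain ⟨a, ha, rfl⟩ := (mem_gr J (k - δ) a').1 ha'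
        refine ⟨⟨a * g, ?_, ?_⟩, ?_⟩
        · have h4 := ha.mul hg
          rwa [Nat.sub_add_cancel hk] at h4
        · rw [map_mul]
          rfl
        · change Ideal.Quotient.mk (Ideal.span {g} ⊔ J) (a * g) = 0
          rw [Ideal.Quotient.eq_zero_iff_mem]
          exact Ideal.mul_mem_left _ _ ((le_sup_left : Ideal.span {g} ≤ Ideal.span {g} ⊔ J) (Ideal.mem_span_singleton_self g))
      · rintro ⟨⟨F, hF, rfl⟩, h4⟩
        rw [pr_mk, Ideal.Quotient.eq_zero_iff_mem] at h4
        obtain ⟨a, ha, _, h5⟩ := dec J hJ g δ hg k F hF h4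
        refine ⟨Ideal.Quotient.mk J a, (mem_gr J (k - δ) _).2 ⟨a, ha hk, rfl⟩, ?_⟩
        change Ideal.Quotient.mk J (a * g) = Ideal.Quotient.mk J F
        exact (Ideal.Quotient.eq.2 h5).symm
    rw [h3]
  · have h3 : gr J k ⊓ LinearMap.ker (pr J (Ideal.span {g} ⊔ J) hle) = ⊥ := by
      rw [eq_bot_iff]
      rintro w ⟨hw, h4⟩
      obtain ⟨F, hF, rfl⟩ := (mem_gr J k w).1 hw
      change Ideal.Quotient.mk (Ideal.span {g} ⊔ J) F = 0 at h4
      rw [Ideal.Quotient.eq_zero_iff_mem] at h4
      obtain ⟨a, _, ha, h5⟩ := dec J hJ g δ hg k F hF h4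
      rw [ha hk, zero_mul, sub_zero] at h5
      rw [Submodule.mem_bot, Ideal.Quotient.eq_zero_iff_mem]
      exact h5
    rw [h3, finrank_bot]

/-- The number of monomials of degree `k` in `n + 1` variables, zero for `k < 0`. -/
def bb (n : ℕ) (k : ℤ) : ℤ := if 0 ≤ k then ((n + k.toNat).choose n : ℤ) else 0

theorem b_nat (n t : ℕ) : bb n (t : ℤ) = ((n + t).choose n : ℤ) := by
  unfold bb
  rw [if_pos (Int.natCast_nonneg t)]
  simp

theorem b_neg (n : ℕ) (k : ℤ) (h : k < 0) : bb n k = 0 := by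
  unfold bb
  rw [if_neg (by omega)]

/-- The alternating sum over the subsets of `s`. -/
def HH {ι : Type} [DecidableEq ι] (d : ι → ℕ) (s : Finset ι) (N : ℕ) (k : ℤ) : ℤ :=
  ∑ A ∈ s.powerset, (-1) ^ A.card * bb N (k - ((∑ i ∈ A, d i : ℕ) : ℤ))

theorem H_insert {ι : Type} [DecidableEq ι] (d : ι → ℕ) (s : Finset ι) (a : ι) (ha : a ∉ s)
    (N : ℕ) (k : ℤ) : HH d (insert a s) N k = HH d s N k - HH d s N (k - (d a : ℤ)) := by
  unfold HH
  rw [Finset.sum_powerset_insert ha, sub_eq_add_neg, ← Finset.sum_neg_distrib]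
  congr 1
  refine Finset.sum_congr rfl fun A hA => ?_
  have haA : a ∉ A := fun h => ha (Finset.mem_powerset.1 hA h)
  rw [Finset.card_insert_of_notMem haA, Finset.sum_insert haA, pow_succ]
  have h1 : k - ((d a + ∑ i ∈ A, d i : ℕ) : ℤ) = k - (d a : ℤ) - ((∑ i ∈ A, d i : ℕ) : ℤ) := by
    push_cast
    ring
  rw [h1]
  ring

theorem hcG_H {r : ℕ} (e : Fin r → ℕ) (N k : ℕ) : hcG e N k = HH e Finset.univ N (k : ℤ) := by
  unfold hcG HH
  rw [Finset.powerset_univ]
  refine Finset.sum_congr rfl fun A _ => ?_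
  congr 1
  split_ifs with h
  · have h1 : (k : ℤ) - ((∑ i ∈ A, e i : ℕ) : ℤ) = ((k - ∑ i ∈ A, e i : ℕ) : ℤ) := by
      rw [Nat.cast_sub h]
    rw [h1, b_nat]
  · rw [b_neg]
    omega

theorem H_map {r : ℕ} (e : Fin (r + 1) → ℕ) (s : Finset (Fin r)) (N : ℕ) : ∀ k : ℤ,
    HH e (s.map Fin.castSuccEmb) N k = HH (fun i => e i.castSucc) s N k := by
  induction s using Finset.induction_on with
  | empty =>
    intro k
    simp [HH]
  | insert a s ha ih =>
    intro k
    rw [Finset.map_insert, H_insert, H_insert _ _ _ ha, ih, ih]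
    · rfl
    · simpa using ha

theorem hcG_rec {r : ℕ} (e : Fin (r + 1) → ℕ) (N k : ℕ) :
    hcG e N k = hcG (fun i : Fin r => e i.castSucc) N k -
      (if e (Fin.last r) ≤ k then hcG (fun i : Fin r => e i.castSucc) N (k - e (Fin.last r)) else 0) := by
  have h1 : (Finset.univ : Finset (Fin (r + 1))) = insert (Fin.last r) (Finset.univ.map Fin.castSuccEmb) := by
    ext i
    refine Fin.lastCases ?_ (fun j => ?_) i <;> simp
  have h2 : Fin.last r ∉ (Finset.univ.map Fin.castSuccEmb : Finset (Fin (r + 1))) := by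
    simp [Fin.castSucc_ne_last]
  rw [hcG_H, h1, H_insert _ _ _ h2, H_map, H_map, ← hcG_H]
  congr 1
  split_ifs with h
  · rw [hcG_H, Nat.cast_sub h]
  · unfold HH
    refine Finset.sum_eq_zero fun A _ => ?_
    rw [b_neg, mul_zero]
    have h3 : (0 : ℤ) ≤ ((∑ i ∈ A, e i.castSucc : ℕ) : ℤ) := Int.natCast_nonneg _
    omega

end FHcAux

open FHcAux in
theorem tFHc : S_FHc := by
  intro N r
  induction r with
  | zero =>
    intro f e _ hf _ k
    have h1 := tKosI N (Fin 0) e f hf k
    have h2 : (K1 N e k).map (Phi1 f) = ⊥ := by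
      rw [eq_bot_iff]
      rintro _ ⟨a, _, rfl⟩
      change ∑ i, a i * f i ∈ _
      simp
    rw [h2, finrank_bot, add_zero] at h1
    rw [h1, hcG_H]
    simp [HH, b_nat]
  | succ r ih =>
    intro f e he hf hreg k
    have hIH := ih (fun i => f i.castSucc) (fun i => e i.castSucc) (fun i => he _) (fun i => hf _)
      (fun j z => by
        have h1 := hreg j.castSucc z
        have h2 : f '' {i | i < j.castSucc} = (fun i : Fin r => f i.castSucc) '' {i | i < j} := by
          ext x
          constructor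
          · rintro ⟨i, hi, rfl⟩
            have h3 : i ≠ Fin.last r := fun h => absurd (h ▸ hi : Fin.last r < j.castSucc) (by
              rw [not_lt]
              exact Fin.le_last _)
            obtain ⟨i', rfl⟩ := Fin.exists_castSucc_eq.2 h3
            exact ⟨i', Fin.castSucc_lt_castSucc_iff.1 hi, rfl⟩
          · rintro ⟨i, hi, rfl⟩
            exact ⟨i.castSucc, Fin.castSucc_lt_castSucc_iff.2 hi, rfl⟩
        rwa [h2] at h1)
    have h3 : f '' {i | i < Fin.last r} = Set.range fun i : Fin r => f i.castSucc := by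
      ext x
      constructor
      · rintro ⟨i, hi, rfl⟩
        obtain ⟨i', rfl⟩ := Fin.exists_castSucc_eq.2 (ne_of_lt hi)
        exact ⟨i', rfl⟩
      · rintro ⟨i, rfl⟩
        exact ⟨i.castSucc, Fin.castSucc_lt_last i, rfl⟩
    have h4 : Ideal.span (Set.range f) = Ideal.span {f (Fin.last r)} ⊔ Ideal.span (Set.range fun i : Fin r => f i.castSucc) := by
      rw [← Ideal.span_insert]
      congr 1
      ext x
      constructor
      · rintro ⟨i, rfl⟩
        refine Fin.lastCases (Or.inl rfl) (fun j => Or.inr ⟨j, rfl⟩) i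
      · rintro (rfl | ⟨j, rfl⟩)
        · exact ⟨_, rfl⟩
        · exact ⟨_, rfl⟩
    have h5 := step (Ideal.span (Set.range fun i : Fin r => f i.castSucc)) (isHom_span _ (fun i => e i.castSucc) fun i => hf _)
      (f (Fin.last r)) (e (Fin.last r)) (hf _) (fun z hz => by
        have h6 := hreg (Fin.last r) z
        rw [h3] at h6
        exact h6 hz) k
    rw [h4, hcG_rec, ← hIH k]
    split_ifs at h5 ⊢ with h7
    · rw [← hIH (k - e (Fin.last r)), ← h5]
      push_cast
      ring
    · rw [← h5]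
      simp

end Pool.Agent.Lib.MP_776403_ag.SD.UN
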