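import Pool.Agent.Lib.MP_776403_ag.SD.UN.SpecF
import Pool.Agent.Lib.MP_776403_ag.SD.J.Sur
import Pool.Agent.Lib.MP_776403_ag.SD.J.Asm
import Pool.Agent.Lib.MP_776403_ag.SD.J.Pid
import Pool.Agent.Lib.MP_776403_ag.SD.J.Fit
import Pool.Agent.Lib.MP_776403_ag.SD.LI.Pa
import Pool.Agent.Lib.MP_776403_ag.SD.LI.TS

/-!
# THEOREM UN, module U6b (helper44): the equations of a free line
-/

set_option autoImplicit false

open MvPolynomial

noncomputable section

namespace Pool.Agent.Lib.MP_776403_ag.SD.UN

open LI LI.TSAux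

namespace U6bAux

variable {N : ℕ}

/-! ### The gradients of the coefficients -/

theorem linS_X (x : Vx N) (j : Fin (N + 1)) :
    linS x (X j) = Polynomial.C (C (x j)) + Polynomial.C (X j) * Polynomial.X := by
  unfold linS
  rw [aeval_X]

theorem lin_X (x v : Vx N) (j : Fin (N + 1)) :
    lin x v (X j) = Polynomial.C (x j) + Polynomial.C (v j) * Polynomial.X := by
  unfold lin
  rw [aeval_X]

/-- The gradient of the coefficients of `F(x + t v)`. -/
theorem grad_coeff (x z : Vx N) (l : Fin (N + 1)) (F : Sx N) :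
    eval z (pderiv l ((linS x F).coeff 0)) = 0 ∧
    ∀ n, eval z (pderiv l ((linS x F).coeff (n + 1))) = (lin x z (pderiv l F)).coeff n := by
  classical
  induction F using MvPolynomial.induction_on with
  | C a =>
    have h1 : linS x (C a) = Polynomial.C (C a) := by
      unfold linS
      rw [MvPolynomial.aeval_C]
      rfl
    refine ⟨?_, fun n => ?_⟩
    · rw [h1, Polynomial.coeff_C_zero]
      simp
    · rw [h1, Polynomial.coeff_C_succ]
      simp
  | add p q hp hq =>
    refine ⟨?_, fun n => ?_⟩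
    · simp only [map_add, Polynomial.coeff_add, hp.1, hq.1, add_zero]
    · simp only [map_add, Polynomial.coeff_add, hp.2, hq.2]
  | mul_X p j hp =>
    have hz : ∀ n, eval z ((linS x p).coeff n) = (lin x z p).coeff n := fun n =>
      (mLinS N x p n).2.1 z
    have h0 : (linS x (p * X j)).coeff 0 = (linS x p).coeff 0 * C (x j) := by
      rw [map_mul, linS_X, mul_add, Polynomial.coeff_add, ← mul_assoc, Polynomial.coeff_mul_C,
        Polynomial.coeff_mul_X_zero, add_zero]
    have hs : ∀ n, (linS x (p * X j)).coeff (n + 1) =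
        (linS x p).coeff (n + 1) * C (x j) + (linS x p).coeff n * X j := by
      intro n
      rw [map_mul, linS_X, mul_add, Polynomial.coeff_add, ← mul_assoc, Polynomial.coeff_mul_C,
        Polynomial.coeff_mul_X, Polynomial.coeff_mul_C]
    have hd : eval z (pderiv l (X j : Sx N)) = if l = j then 1 else 0 := by
      rw [pderiv_X]
      by_cases h : l = j
      · subst h
        simp
      · rw [if_neg h, Pi.single_eq_of_ne (fun h' => h h'.symm), map_zero]
    have hdl : lin x z (pderiv l (X j : Sx N)) = if l = j then 1 else 0 := by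
      rw [pderiv_X]
      by_cases h : l = j
      · subst h
        simp
      · rw [if_neg h, Pi.single_eq_of_ne (fun h' => h h'.symm), map_zero]
    have hr : lin x z (pderiv l (p * X j)) = (if l = j then lin x z p else 0) +
        (lin x z (pderiv l p) * Polynomial.C (x j) +
          lin x z (pderiv l p) * Polynomial.C (z j) * Polynomial.X) := by
      rw [Derivation.leibniz, map_add, smul_eq_mul, smul_eq_mul, map_mul, map_mul, hdl, lin_X]
      split_ifs <;> ring
    refine ⟨?_, fun n => ?_⟩
    · rw [h0, Derivation.leibniz, pderiv_C, smul_zero, zero_add, smul_eq_mul, map_mul, hp.1,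
        mul_zero]
    · rw [hs, map_add, map_add, Derivation.leibniz, Derivation.leibniz, pderiv_C, smul_zero,
        zero_add, smul_eq_mul, smul_eq_mul, smul_eq_mul, map_mul, map_add, map_mul, map_mul, hd,
        hp.2, hz, eval_C, eval_X, hr, Polynomial.coeff_add, Polynomial.coeff_add,
        Polynomial.coeff_mul_C]
      rcases n with _ | n
      · rw [hp.1, Polynomial.coeff_mul_X_zero]
        split_ifs
        · ring
        · rw [Polynomial.coeff_zero]
          ring
      · rw [hp.2, Polynomial.coeff_mul_X, Polynomial.coeff_mul_C]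
        split_ifs
        · ring
        · rw [Polynomial.coeff_zero]
          ring

/-! ### Colengths -/

/-- The colength of a module which contains the rows of a matrix. -/
theorem colen_le {β : Type} [Fintype β] [DecidableEq β]
    (M : Submodule (Polynomial ℂ) (β → Polynomial ℂ)) (D : Polynomial ℂ) (hD : D ≠ 0)
    (hDM : ∀ e : β → Polynomial ℂ, (fun b => D * e b) ∈ M)
    (V : Matrix β β (Polynomial ℂ)) (hV : ∀ i, V i ∈ M) (hdet : V.det ≠ 0) :
    Module.finrank ℂ ((β → Polynomial ℂ) ⧸ M) ≤ V.det.natDegree := by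
  obtain ⟨q, ⟨ε⟩⟩ : ∃ q, Nonempty (Fin q ≃ β) := ⟨_, ⟨(Fintype.equivFin β).symm⟩⟩
  let φ : (β → Polynomial ℂ) ≃ₗ[Polynomial ℂ] (Fin q → Polynomial ℂ) :=
    LinearEquiv.funCongrLeft (Polynomial ℂ) (Polynomial ℂ) ε
  have hφ : ∀ (m : β → Polynomial ℂ) (i : Fin q), φ m i = m (ε i) := fun m i => rfl
  let M' : Submodule (Polynomial ℂ) (Fin q → Polynomial ℂ) := M.map φ.toLinearMap
  have hmem : ∀ m, m ∈ M → φ m ∈ M' := fun m hm => ⟨m, hm, rfl⟩
  have hsp : Submodule.span (Polynomial ℂ) (M' : Set (Fin q → Polynomial ℂ)) = M' :=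
    Submodule.span_eq M'
  have hDM' : ∀ e : Fin q → Polynomial ℂ, (fun b => D * e b) ∈
      Submodule.span (Polynomial ℂ) (M' : Set (Fin q → Polynomial ℂ)) := by
    intro e
    rw [hsp]
    have h1 := hmem _ (hDM fun b => e (ε.symm b))
    have h2 : φ (fun b => D * e (ε.symm b)) = fun b => D * e b := by
      funext i
      rw [hφ, Equiv.symm_apply_apply]
    rwa [h2] at h1
  obtain ⟨_, hfr⟩ := jFit jPid q (M' : Set (Fin q → Polynomial ℂ)) D hD hDM'
  rw [hsp] at hfr
  set A : Ideal (Polynomial ℂ) := Ideal.span {p | ∃ e : Fin q → (Fin q → Polynomial ℂ),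
    (∀ i, e i ∈ (M' : Set (Fin q → Polynomial ℂ))) ∧ p = Matrix.det (Matrix.of e)} with hA
  have hVA : V.det ∈ A := by
    refine Ideal.subset_span ⟨fun i => φ (V (ε i)), fun i => hmem _ (hV _), ?_⟩
    have h1 : Matrix.of (fun i => φ (V (ε i))) = V.submatrix ε ε := by
      ext1 i j
      rfl
    rw [h1, Matrix.det_submatrix_equiv_self]
  have hAb : A ≠ ⊥ := by
    intro h
    rw [h, Ideal.mem_bot] at hVA
    exact hdet hVA
  obtain ⟨w, _, hw, hwd⟩ := jPid A hAb
  have e1 : ((β → Polynomial ℂ) ⧸ M) ≃ₗ[Polynomial ℂ] ((Fin q → Polynomial ℂ) ⧸ M') :=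
    Submodule.Quotient.equiv M M' φ rfl
  have e2 : Module.finrank ℂ ((β → Polynomial ℂ) ⧸ M) =
      Module.finrank ℂ ((Fin q → Polynomial ℂ) ⧸ M') :=
    LinearEquiv.finrank_eq (e1.restrictScalars ℂ)
  rw [e2, hfr, hwd]
  have hdvd : w ∣ V.det := by
    rw [← Ideal.mem_span_singleton, ← hw]
    exact hVA
  exact Polynomial.natDegree_le_of_dvd hdvd hdet

/-- The degree of a determinant whose rows have the degrees `≤ δ i`. -/
theorem det_deg {β : Type} [Fintype β] [DecidableEq β] (V : Matrix β β (Polynomial ℂ)) (δ : β → ℕ)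
    (h : ∀ i j, (V i j).natDegree ≤ δ i) : V.det.natDegree ≤ ∑ i, δ i := by
  rw [Matrix.det_apply]
  refine Polynomial.natDegree_sum_le_of_forall_le _ _ fun σ _ => ?_
  refine (Polynomial.natDegree_smul_le _ _).trans ?_
  refine (Polynomial.natDegree_prod_le _ _).trans ?_
  refine (Finset.sum_le_sum fun i _ => h (σ i) i).trans ?_
  exact le_of_eq (Equiv.sum_comp σ δ)

/-- A basis adapted to a subspace. -/
theorem exists_adapted {E : Type} [AddCommGroup E] [Module ℂ E] [FiniteDimensional ℂ E]
    (U W : Submodule ℂ E) (hUW : U ≤ W) (β : Type) [Fintype β]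
    (hβ : Fintype.card β = Module.finrank ℂ W) :
    ∃ (τ : β → E) (S : Finset β), LinearIndependent ℂ τ ∧ (∀ i, τ i ∈ W) ∧
      (∀ i, i ∉ S → τ i ∈ U) ∧ S.card + Module.finrank ℂ U = Fintype.card β := by
  classical
  obtain ⟨U', hU'⟩ := Submodule.exists_isCompl (U.comap W.subtype)
  let b1 := Module.finBasis ℂ (U.comap W.subtype)
  let b2 := Module.finBasis ℂ U'
  have hli : LinearIndependent ℂ (Sum.elim (fun i => (b1 i : W)) (fun i => (b2 i : W))) := by
    refine LinearIndependent.sum_type ?_ ?_ ?_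
    · exact b1.linearIndependent.map' (Submodule.subtype _) (Submodule.ker_subtype _)
    · exact b2.linearIndependent.map' (Submodule.subtype _) (Submodule.ker_subtype _)
    · refine Disjoint.mono ?_ ?_ hU'.disjoint
      · rw [Submodule.span_le]
        rintro _ ⟨i, rfl⟩
        exact (b1 i).2
      · rw [Submodule.span_le]
        rintro _ ⟨i, rfl⟩
        exact (b2 i).2
  have hd : Module.finrank ℂ (U.comap W.subtype) = Module.finrank ℂ U :=
    LinearEquiv.finrank_eq (Submodule.comapSubtypeEquivOfLe hUW)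
  have hsum := Submodule.finrank_add_eq_of_isCompl hU'
  have hc : Fintype.card β = Fintype.card (Fin (Module.finrank ℂ (U.comap W.subtype)) ⊕
      Fin (Module.finrank ℂ U')) := by
    rw [Fintype.card_sum, Fintype.card_fin, Fintype.card_fin, hβ, ← hsum]
  let ε := Fintype.equivOfCardEq hc
  refine ⟨fun i => ((Sum.elim (fun i => (b1 i : W)) (fun i => (b2 i : W)) (ε i) : W) : E),
    Finset.univ.filter fun i => ∃ j, ε i = Sum.inr j, ?_, ?_, ?_, ?_⟩
  · have h1 := hli.comp ε ε.injective
    exact h1.map' W.subtype (Submodule.ker_subtype _)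
  · intro i
    exact Subtype.coe_prop _
  · intro i hi
    have h2 : ¬ ∃ j, ε i = Sum.inr j := by
      intro h
      exact hi (Finset.mem_filter.mpr ⟨Finset.mem_univ _, h⟩)
    rcases h : ε i with j | j
    · simp only [h, Sum.elim_inl]
      exact (b1 j).2
    · exact absurd ⟨j, h⟩ h2
  · have hinj : Function.Injective fun j : Fin (Module.finrank ℂ U') =>
        ε.symm (Sum.inr j : Fin (Module.finrank ℂ (U.comap W.subtype)) ⊕
          Fin (Module.finrank ℂ U')) := fun j j' h =>
      Sum.inr_injective (ε.symm.injective h)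
    have h3 : (Finset.univ.filter fun i => ∃ j, ε i = Sum.inr j) =
        (Finset.univ : Finset (Fin (Module.finrank ℂ U'))).map ⟨_, hinj⟩ := by
      ext i
      simp only [Finset.mem_filter, Finset.mem_univ, true_and, Finset.mem_map]
      constructor
      · rintro ⟨j, hj⟩
        refine ⟨j, ?_⟩
        change ε.symm (Sum.inr j) = i
        rw [← hj, Equiv.symm_apply_apply]
      · rintro ⟨j, rfl⟩
        exact ⟨j, Equiv.apply_symm_apply _ _⟩
    rw [h3, Finset.card_map, Finset.card_univ, Fintype.card_fin, hβ, ← hsum, hd]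
    omega

/-! ### Saturation of the conormal module -/

/-- An ideal of `ℂ[t]` whose elements have no common zero is everything. -/
theorem eq_top (A : Ideal (Polynomial ℂ))
    (h : ∀ t0 : ℂ, ∃ p ∈ A, p.eval t0 ≠ 0) : A = ⊤ := by
  obtain ⟨g, hg⟩ := (IsPrincipalIdealRing.principal A).principal
  have hA : A = Ideal.span {g} := hg
  by_cases hd : g.degree = 0
  · rw [hA, Ideal.span_singleton_eq_top]
    exact Polynomial.isUnit_iff_degree_eq_zero.2 hd
  · obtain ⟨t0, ht⟩ := IsAlgClosed.exists_root g hd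
    obtain ⟨p, hp, hp0⟩ := h t0
    rw [hA, Ideal.mem_span_singleton] at hp
    obtain ⟨q, rfl⟩ := hp
    exfalso
    apply hp0
    rw [Polynomial.eval_mul, ht.eq_zero, zero_mul]

/-- The conormal module is saturated. -/
theorem satE {c : ℕ} {I : Ideal (Sx N)} (hS : Smooth I c) {x z : Vx N} (hl : IsLine I x z)
    (L : Loc I x c) :
    divM (lin x z L.dt)
      (Matrix.of fun (b : Fin c) (j : L.Bc) => lin x z (L.coef b j.1)).transpose ≤ L.E z := by
  classical
  intro e he
  obtain ⟨hD0, -, hG, -⟩ := mCrL N c I x z x 0 L (by rw [zero_smul, add_zero]) hl.2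
  have he' : ∀ j : L.Bc, lin x z L.dt ∣ ∑ b, lin x z (L.coef b j.1) * e b := he
  choose q hq using he'
  obtain ⟨w, hwB, hw⟩ : ∃ w : Fin (N + 1) → Polynomial ℂ, (∀ b, w (L.B b) = e b) ∧
      ∀ l, lin x z L.dt * w l = ∑ b, lin x z (L.coef b l) * e b := by
    refine ⟨fun l => if h : ∃ b, L.B b = l then e h.choose else q ⟨l, h⟩, fun b => ?_,
      fun l => ?_⟩
    · have h : ∃ b', L.B b' = L.B b := ⟨b, rfl⟩
      simp only [dif_pos h]
      rw [L.injB h.choose_spec]
    · by_cases h : ∃ b, L.B b = l
      · simp only [dif_pos h]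
        obtain ⟨b', hb'⟩ := h
        have h2 : (⟨b', hb'⟩ : ∃ b, L.B b = l).choose = b' := by
          apply L.injB
          rw [(⟨b', hb'⟩ : ∃ b, L.B b = l).choose_spec, hb']
        rw [h2, ← hb']
        have h3 : ∀ b, L.coef b (L.B b') = if b = b' then L.dt else 0 := fun b =>
          CrLAux.adj_M L b b'
        rw [Finset.sum_eq_single b']
        · rw [h3, if_pos rfl]
        · intro b _ hb
          rw [h3, if_neg hb, map_zero, zero_mul]
        · intro h
          exact absurd (Finset.mem_univ _) h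
      · simp only [dif_neg h]
        exact (hq ⟨l, h⟩).symm
  -- `w` is a combination of gradients
  have hw2 : ∀ l, lin x z L.dt * w l =
      ∑ i, (∑ b, lin x z (L.M.adjugate b i) * e b) * lin x z (pderiv l (L.F i)) := by
    intro l
    rw [hw]
    simp only [Loc.coef, map_sum, map_mul, Finset.sum_mul]
    rw [Finset.sum_comm]
    exact Finset.sum_congr rfl fun i _ => Finset.sum_congr rfl fun b _ => by ring
  have key : (L.E z).comap (LinearMap.toSpanSingleton (Polynomial ℂ) _ e) = ⊤ := by
    refine eq_top _ fun t0 => ?_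
    have hy : x + t0 • z ∈ zer I := mem_zer_line hl t0
    have hy0 : x + t0 • z ≠ 0 := line_ne_zero' hl t0
    obtain ⟨L'⟩ := mLoc N c I hS _ hy hy0
    refine ⟨lin x z L'.dt, ?_, ?_⟩
    · obtain ⟨-, -, hG', -⟩ := mCrL N c I x z _ t0 L' rfl hl.2
      rw [Submodule.mem_comap, LinearMap.toSpanSingleton_apply]
      have h1 : ∀ l, lin x z L'.dt * w l =
          ∑ b', lin x z (L'.coef b' l) * w (L'.B b') := by
        intro l
        refine mul_left_cancel₀ hD0 ?_
        calc lin x z L.dt * (lin x z L'.dt * w l)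
            = lin x z L'.dt * (lin x z L.dt * w l) := by ring
          _ = ∑ i, (∑ b, lin x z (L.M.adjugate b i) * e b) *
                (lin x z L'.dt * lin x z (pderiv l (L.F i))) := by
              rw [hw2, Finset.mul_sum]
              exact Finset.sum_congr rfl fun i _ => by ring
          _ = ∑ i, ∑ b', lin x z (L'.coef b' l) *
                ((∑ b, lin x z (L.M.adjugate b i) * e b) *
                  lin x z (pderiv (L'.B b') (L.F i))) := by
              refine Finset.sum_congr rfl fun i _ => ?_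
              rw [hG' (L.F i) (L.memF i) l, Finset.mul_sum]
              exact Finset.sum_congr rfl fun b' _ => by ring
          _ = lin x z L.dt * ∑ b', lin x z (L'.coef b' l) * w (L'.B b') := by
              rw [Finset.sum_comm, Finset.mul_sum]
              refine Finset.sum_congr rfl fun b' _ => ?_
              rw [← Finset.mul_sum, ← hw2]
              ring
      have h2 : lin x z L'.dt • e = ∑ i,
          (∑ b', lin x z (L'.M.adjugate b' i) * w (L'.B b')) •
            (fun b => lin x z (pderiv (L.B b) (L'.F i))) := by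
        funext b
        rw [Pi.smul_apply, smul_eq_mul, Finset.sum_apply, ← hwB b, h1]
        simp only [Loc.coef, map_sum, map_mul, Finset.sum_mul, Pi.smul_apply, smul_eq_mul]
        rw [Finset.sum_comm]
        exact Finset.sum_congr rfl fun i _ => Finset.sum_congr rfl fun b' _ => by ring
      rw [h2]
      exact Submodule.sum_mem _ fun i _ => Submodule.smul_mem _ _
        (Submodule.subset_span ⟨L'.F i, L'.memF i, rfl⟩)
    · rw [lin_eval]
      exact L'.detx
  have h1 : (1 : Polynomial ℂ) ∈ (L.E z).comap (LinearMap.toSpanSingleton (Polynomial ℂ) _ e) := by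
    rw [key]; trivial
  rw [Submodule.mem_comap, LinearMap.toSpanSingleton_apply, one_smul] at h1
  exact h1

/-! ### The tangent vectors which are constant along the line -/

/-- The vectors which are tangent along the whole line. -/
def Tc (I : Ideal (Sx N)) (x z : Vx N) : Submodule ℂ (Vx N) where
  carrier := {τ | ∀ F ∈ I, ∑ l, lin x z (pderiv l F) * Polynomial.C (τ l) = 0}
  zero_mem' := fun F _ => by simp
  add_mem' := fun {τ τ'} h h' F hF => by
    have e : ∑ l, lin x z (pderiv l F) * Polynomial.C ((τ + τ') l) =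
        ∑ l, lin x z (pderiv l F) * Polynomial.C (τ l) +
          ∑ l, lin x z (pderiv l F) * Polynomial.C (τ' l) := by
      rw [← Finset.sum_add_distrib]
      exact Finset.sum_congr rfl fun l _ => by
        rw [Pi.add_apply, Polynomial.C_add, mul_add]
    rw [e, h F hF, h' F hF, add_zero]
  smul_mem' := fun r τ h F hF => by
    have e : ∑ l, lin x z (pderiv l F) * Polynomial.C ((r • τ) l) =
        Polynomial.C r * ∑ l, lin x z (pderiv l F) * Polynomial.C (τ l) := by
      rw [Finset.mul_sum]
      exact Finset.sum_congr rfl fun l _ => by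
        rw [Pi.smul_apply, smul_eq_mul, Polynomial.C_mul]; ring
    rw [e, h F hF, mul_zero]

theorem Tc_le (I : Ideal (Sx N)) (x z : Vx N) : Tc I x z ≤ TS I x := by
  intro τ h F hF
  have h1 := congrArg (Polynomial.eval 0) (h F hF)
  rw [Polynomial.eval_finsetSum, Polynomial.eval_zero] at h1
  rw [← h1]
  unfold dp grad
  refine Finset.sum_congr rfl fun l _ => ?_
  rw [Polynomial.eval_mul, Polynomial.eval_C, lin_eval, zero_smul, add_zero]

/-- The space of the gradients of the equations of the line. -/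
def Gs (I : Ideal (Sx N)) (x z : Vx N) : Submodule ℂ (Vx N) :=
  Submodule.span ℂ {u : Vx N | ∃ F ∈ I, ∃ n : ℕ, u = grad ((linS x F).coeff n) z}

/-- Vectors orthogonal to the gradients of the equations are tangent along the line. -/
theorem orth_le {I : Ideal (Sx N)} (hh : IsHom I) (x z : Vx N) (μ : ℂ) :
    (bd N).orthogonal (Gs I x z) ≤ Tc I x (z + μ • x) := by
  intro τ hτ
  rw [mem_orth] at hτ
  have h0 : ∀ F ∈ I, ∀ n, ∑ l, (lin x z (pderiv l F)).coeff n * τ l = 0 := by
    intro F hF n
    have h1 := hτ _ (Submodule.subset_span ⟨F, hF, n + 1, rfl⟩)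
    rw [← h1]
    unfold dp grad
    exact Finset.sum_congr rfl fun l _ => by rw [(grad_coeff x z l F).2 n]
  have h1 : ∀ F ∈ I, ∀ m : ℕ, F.IsHomogeneous m →
      ∑ l, lin x (z + μ • x) (pderiv l F) * Polynomial.C (τ l) = 0 := by
    intro F hF m hm
    refine poly_ext fun t => ?_
    rw [Polynomial.eval_finsetSum, Polynomial.eval_zero]
    have h2 : ∀ l, (lin x (z + μ • x) (pderiv l F) * Polynomial.C (τ l)).eval t =
        ∑ j ∈ Finset.range (m - 1 + 1), ((lin x z (pderiv l F)).coeff j * τ l) *
          ((1 + t * μ) ^ (m - 1 - j) * t ^ j) := by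
      intro l
      have h3 : x + t • (z + μ • x) = (1 + t * μ) • x + t • z := by module
      have h4 := ((eLinB N x z (pderiv l F)).2.1 (m - 1) hm.pderiv).2.2 (1 + t * μ) t
      rw [Polynomial.eval_mul, Polynomial.eval_C, lin_eval, h3, h4, Finset.sum_mul]
      exact Finset.sum_congr rfl fun j _ => by ring
    rw [Finset.sum_congr rfl fun l _ => h2 l, Finset.sum_comm]
    refine Finset.sum_eq_zero fun j _ => ?_
    rw [← Finset.sum_mul, h0 F hF j, zero_mul]
  intro F hF
  have h2 : ∑ l, lin x (z + μ • x) (pderiv l F) * Polynomial.C (τ l) =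
      ∑ m ∈ Finset.range (F.totalDegree + 1),
        ∑ l, lin x (z + μ • x) (pderiv l (homogeneousComponent m F)) * Polynomial.C (τ l) := by
    rw [Finset.sum_comm]
    refine Finset.sum_congr rfl fun l _ => ?_
    rw [← Finset.sum_mul, ← map_sum, ← map_sum, sum_homogeneousComponent]
  rw [h2]
  exact Finset.sum_eq_zero fun m _ =>
    h1 _ (hh F hF m) m (homogeneousComponent_isHomogeneous m F)

theorem card_Bc {I : Ideal (Sx N)} {x : Vx N} {c : ℕ} (L : Loc I x c) :
    Fintype.card L.Bc + c = N + 1 := by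
  classical
  have h1 := CrLAux.sum_split L (fun _ => (1 : ℕ))
  simp only [Finset.sum_const, Finset.card_univ, Fintype.card_fin, smul_eq_mul, mul_one] at h1
  omega

/-- A tangent vector at `x` whose coordinates outside `B` are zero is zero. -/
theorem ts_inj {I : Ideal (Sx N)} {x : Vx N} {c : ℕ} (L : Loc I x c) {y : Vx N}
    (hy : y ∈ TS I x) (h0 : ∀ j : L.Bc, y j.1 = 0) : y = 0 := by
  classical
  have h1 : (Matrix.of fun i b => eval x (pderiv (L.B b) (L.F i))).mulVec (fun b => y (L.B b)) =
      0 := by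
    funext i
    have h2 := hy (L.F i) (L.memF i)
    unfold dp at h2
    rw [CrLAux.sum_split L] at h2
    have h3 : ∑ j : L.Bc, grad (L.F i) x j.1 * y j.1 = 0 :=
      Finset.sum_eq_zero fun j _ => by rw [h0 j, mul_zero]
    rw [h3, add_zero] at h2
    exact h2
  have hdet : (Matrix.of fun i b => eval x (pderiv (L.B b) (L.F i))).det ≠ 0 := by
    have h2 := L.detx
    rw [RingHom.map_det] at h2
    exact h2
  have h2 := Matrix.eq_zero_of_mulVec_eq_zero hdet h1
  funext l
  by_cases h : ∃ b, L.B b = l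
  · obtain ⟨b, rfl⟩ := h
    exact congrFun h2 b
  · exact h0 ⟨l, h⟩

end U6bAux

open U6bAux

/-- (U6b) The equations of a free line. -/
theorem tU6b : S_U6b := by
  intro N c a I hI hh hS x z hl hdeg hfree
  classical
  have hx0 : x ≠ 0 := hl.1.ne_zero 0
  have hxI : x ∈ zer I := by
    have := hl.2 1 0
    rwa [one_smul, zero_smul, add_zero] at this
  obtain ⟨L⟩ := mLoc N c I hS x hxI hx0
  obtain ⟨μ, hμ⟩ := mGood N c I x z L
  have hl' : IsLine I x (z + μ • x) := LI.PaAux.isLine_add hl μ
  -- the degree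
  have hsur := (jSur mHom mCrL (eLineI eLinB)) N c I hI hh hS x (z + μ • x) hl' L hμ
  have ha : a = c + Module.finrank ℂ ((Fin c → Polynomial ℂ) ⧸ L.E (z + μ • x)) := by
    have hd : DegEq I c a x z := hdeg
    unfold DegEq at hd
    rw [← JAsmAux.lineI_add x z μ] at hd
    obtain ⟨m, h1, h2⟩ := (hd.and hsur).exists
    have e6 : c * (m + 1) = c * m + c := by ring
    omega
  -- the two modules
  obtain ⟨hD, -, hG, hW⟩ := mCrL N c I x (z + μ • x) x 0 L (by rw [zero_smul, add_zero]) hl'.2
  obtain ⟨hf1, hf2, hf3⟩ := (eAdj ePhi) (Fin c) L.Bc (lin x (z + μ • x) L.dt)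
    (Matrix.of fun (b : Fin c) (j : L.Bc) => lin x (z + μ • x) (L.coef b j.1)) hD
  have h1 := (ColTAux.quot_le (satE hS hl' L) hf2).2
  -- the adapted basis
  obtain ⟨hTSd, -, -, -, -⟩ := LI.tTS eCN mPerp N c I hI hh hS x hxI hx0
  have hcB := card_Bc L
  obtain ⟨τ, S, hτli, hτT, hτU, hτS⟩ := exists_adapted (Tc I x (z + μ • x)) (TS I x)
    (Tc_le I x _) L.Bc (by omega)
  have hσ : ∀ κ, ∃ σ : Vx N, (κ ∉ S → σ = 0) ∧
      ∀ F ∈ I, ∑ l, lin x (z + μ • x) (pderiv l F) *
        (Polynomial.C (τ κ l) + Polynomial.C (σ l) * Polynomial.X) = 0 := by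
    intro κ
    by_cases hκ : κ ∈ S
    · obtain ⟨τ', hτ'⟩ := hfree (τ κ) (hτT κ)
      refine ⟨τ' + μ • τ κ, fun h => absurd hκ h, fun F hF => ?_⟩
      refine poly_ext fun t => ?_
      rw [Polynomial.eval_finsetSum, Polynomial.eval_zero]
      have h3 : x + t • (z + μ • x) = (1 + t * μ) • x + t • z := by module
      have h4 := hτ' (1 + t * μ) t F hF
      rw [← h3] at h4
      rw [← h4]
      unfold dp grad
      refine Finset.sum_congr rfl fun l _ => ?_
      rw [Polynomial.eval_mul, Polynomial.eval_add, Polynomial.eval_mul, Polynomial.eval_C,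
        Polynomial.eval_C, Polynomial.eval_X, lin_eval]
      simp only [Pi.add_apply, Pi.smul_apply, smul_eq_mul]
      ring
    · refine ⟨0, fun _ => rfl, fun F hF => ?_⟩
      have h3 := hτU κ hκ F hF
      simp only [Pi.zero_apply, Polynomial.C_0, zero_mul, add_zero]
      exact h3
  choose σ hσ0 hσF using hσ
  let V : Matrix L.Bc L.Bc (Polynomial ℂ) := Matrix.of fun κ j =>
    Polynomial.C (τ κ j.1) + Polynomial.C (σ κ j.1) * Polynomial.X
  have hV : ∀ κ j, V κ j = Polynomial.C (τ κ j.1) + Polynomial.C (σ κ j.1) * Polynomial.X :=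
    fun κ j => rfl
  have hVM : ∀ κ, V κ ∈ divM (lin x (z + μ • x) L.dt)
      (Matrix.of fun (b : Fin c) (j : L.Bc) => lin x (z + μ • x) (L.coef b j.1)) := by
    intro κ b
    obtain ⟨-, h3⟩ := hW (fun l => Polynomial.C (τ κ l) + Polynomial.C (σ κ l) * Polynomial.X)
      (fun i => hσF κ (L.F i) (L.memF i))
    have h4 := h3 b
    refine ⟨-(Polynomial.C (τ κ (L.B b)) + Polynomial.C (σ κ (L.B b)) * Polynomial.X), ?_⟩
    rw [mul_neg, h4, neg_neg]
    rfl
  have hdet : V.det ≠ 0 := by
    intro h0
    have h3 : (V.map (Polynomial.eval 0)).det = 0 := by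
      have h4 := (Polynomial.evalRingHom (0 : ℂ)).map_det V
      rw [h0, map_zero] at h4
      exact h4.symm
    obtain ⟨v, hv0, hv⟩ := Matrix.exists_vecMul_eq_zero_iff.2 h3
    have h5 : ∑ κ, v κ • τ κ = 0 := by
      refine ts_inj L (Submodule.sum_mem _ fun κ _ => Submodule.smul_mem _ _ (hτT κ)) fun j => ?_
      have h6 := congrFun hv j
      rw [Pi.zero_apply] at h6
      rw [← h6, Finset.sum_apply]
      refine Finset.sum_congr rfl fun κ _ => ?_
      change v κ * τ κ j.1 = v κ * Polynomial.eval 0 (V κ j)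
      rw [hV, Polynomial.eval_add, Polynomial.eval_mul, Polynomial.eval_C, Polynomial.eval_X,
        mul_zero, add_zero]
    exact hv0 (funext (Fintype.linearIndependent_iff.1 hτli v h5))
  have h2 := colen_le _ (lin x (z + μ • x) L.dt) hD (fun e b => by
    refine Finset.dvd_sum fun j _ => ?_
    exact ⟨(Matrix.of fun (b : Fin c) (j : L.Bc) => lin x (z + μ • x) (L.coef b j.1)) b j * e j,
      by ring⟩) V hVM hdet
  have h3 : V.det.natDegree ≤ S.card := by
    refine (det_deg V (fun κ => if κ ∈ S then 1 else 0) fun κ j => ?_).trans ?_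
    · rw [hV]
      by_cases hκ : κ ∈ S
      · rw [if_pos hκ]
        refine (Polynomial.natDegree_add_le _ _).trans (max_le ?_ ?_)
        · rw [Polynomial.natDegree_C]
          exact Nat.zero_le _
        · exact (Polynomial.natDegree_C_mul_le _ _).trans Polynomial.natDegree_X_le
      · rw [if_neg hκ, hσ0 κ hκ, Pi.zero_apply, Polynomial.C_0, zero_mul, add_zero,
          Polynomial.natDegree_C]
    · rw [Finset.sum_ite_mem, Finset.univ_inter, Finset.sum_const, smul_eq_mul, mul_one]
  -- the gradients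
  have h4 : Module.finrank ℂ ((bd N).orthogonal (Gs I x z)) ≤
      Module.finrank ℂ (Tc I x (z + μ • x)) := Submodule.finrank_mono (orth_le hh x z μ)
  have h5 := LinearMap.BilinForm.finrank_orthogonal bd_nd (Gs I x z)
  rw [Module.finrank_fin_fun] at h5
  change a ≤ Module.finrank ℂ (Gs I x z)
  omega

end Pool.Agent.Lib.MP_776403_ag.SD.UN
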