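import Pool.Agent.Lib.MP_776403_ag.SD.UN.SpecF

/-!
# THEOREM UN, module U6v (helper2): the cone of the lines through a general point is a smooth complete
intersection.
-/

set_option autoImplicit false

open MvPolynomial

noncomputable section

namespace Pool.Agent.Lib.MP_776403_ag.SD.UN

open LI

namespace U6vAux

variable {N : ℕ}

/-! ### Dot product, gradients -/

theorem dp_add (a y y' : Vx N) : dp a (y + y') = dp a y + dp a y' := by
  simp only [dp, Pi.add_apply, mul_add, Finset.sum_add_distrib]

theorem dp_smul (a : Vx N) (r : ℂ) (y : Vx N) : dp a (r • y) = r * dp a y := by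
  simp only [dp, Pi.smul_apply, smul_eq_mul, Finset.mul_sum]
  exact Finset.sum_congr rfl fun i _ => by ring

theorem dp_add_left (a b y : Vx N) : dp (a + b) y = dp a y + dp b y := by
  simp only [dp, Pi.add_apply, add_mul, Finset.sum_add_distrib]

theorem dp_smul_left (a : Vx N) (r : ℂ) (y : Vx N) : dp (r • a) y = r * dp a y := by
  simp only [dp, Pi.smul_apply, smul_eq_mul, Finset.mul_sum]
  exact Finset.sum_congr rfl fun i _ => by ring

theorem dp_zero_left (y : Vx N) : dp (0 : Vx N) y = 0 := by
  simp [dp]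

theorem dp_sum_left {ι : Type} (s : Finset ι) (a : ι → Vx N) (y : Vx N) :
    dp (∑ i ∈ s, a i) y = ∑ i ∈ s, dp (a i) y := by
  simp only [dp, Finset.sum_apply, Finset.sum_mul]
  exact Finset.sum_comm

theorem eval_lf (a z : Vx N) : eval z (lf a) = dp a z := by
  simp [lf, dp]

theorem lf_hom (a : Vx N) : (lf a).IsHomogeneous 1 := by
  unfold lf
  refine IsHomogeneous.sum _ _ _ fun i _ => ?_
  have h := (isHomogeneous_C (Fin (N + 1)) (a i)).mul (isHomogeneous_X ℂ i)
  rwa [zero_add] at h

theorem grad_lf (a z : Vx N) : grad (lf a) z = a := by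
  funext i
  simp [grad, lf, pderiv_X, Pi.single_apply]

theorem grad_zero (z : Vx N) : grad (0 : Sx N) z = 0 := by
  funext i
  simp [grad]

/-- chain rule -/
theorem lin_der (x v : Vx N) (F : Sx N) : Polynomial.derivative (lin x v F) =
    ∑ i, Polynomial.C (v i) * lin x v (pderiv i F) := by
  induction F using MvPolynomial.induction_on with
  | C a =>
    have h : lin x v (C a) = Polynomial.C a := by
      unfold lin
      rw [MvPolynomial.aeval_C]
      rfl
    rw [h, Polynomial.derivative_C]
    simp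
  | add p q hp hq =>
    simp only [map_add, hp, hq, mul_add, Finset.sum_add_distrib]
  | mul_X p j hp =>
    have hX : lin x v (X j) = Polynomial.C (x j) + Polynomial.C (v j) * Polynomial.X := by
      unfold lin
      rw [MvPolynomial.aeval_X]
    have hd : Polynomial.derivative (lin x v (X j)) = Polynomial.C (v j) := by
      rw [hX]
      simp
    rw [map_mul, Polynomial.derivative_mul, hp, hd]
    have h1 : ∀ i, pderiv i (p * X j) = pderiv i p * X j + (if i = j then p else 0) := by
      intro i
      rw [Derivation.leibniz, pderiv_X]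
      by_cases h : i = j
      · subst h
        simp only [Pi.single_eq_same, if_true, smul_eq_mul]
        ring
      · rw [if_neg h, Pi.single_eq_of_ne (fun h' => h h'.symm)]
        simp only [smul_eq_mul]
        ring
    have h2 : ∀ i, Polynomial.C (v i) * lin x v (pderiv i (p * X j)) =
        Polynomial.C (v i) * lin x v (pderiv i p) * lin x v (X j) +
          (if i = j then Polynomial.C (v j) * lin x v p else 0) := by
      intro i
      rw [h1, map_add, map_mul]
      by_cases h : i = j
      · subst h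
        simp only [if_true]
        ring
      · simp only [if_neg h, map_zero]
        ring
    simp only [h2, Finset.sum_add_distrib, Finset.sum_mul]
    rw [Finset.sum_ite_eq' Finset.univ j, if_pos (Finset.mem_univ j)]
    ring

/-- the linear coefficient -/
theorem lin_coeff_one (x v : Vx N) (F : Sx N) : (lin x v F).coeff 1 = dp (grad F x) v := by
  have h1 : (Polynomial.derivative (lin x v F)).eval 0 = (lin x v F).coeff 1 := by
    rw [← Polynomial.coeff_zero_eq_eval_zero, Polynomial.coeff_derivative]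
    simp
  rw [← h1, lin_der, Polynomial.eval_finsetSum]
  unfold dp grad
  refine Finset.sum_congr rfl fun i _ => ?_
  rw [Polynomial.eval_mul, Polynomial.eval_C, lin_eval, zero_smul, add_zero]
  ring

/-- gradients of the elements of an ideal generated by polynomials which vanish at `y` -/
theorem grad_span {ι : Type} {g : ι → Sx N} {y : Vx N} (hS : ∀ e, eval y (g e) = 0) {F : Sx N}
    (hF : F ∈ Ideal.span (Set.range g)) :
    eval y F = 0 ∧ grad F y ∈ Submodule.span ℂ (Set.range fun e => grad (g e) y) := by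
  refine Submodule.span_induction (p := fun F _ => eval y F = 0 ∧
    grad F y ∈ Submodule.span ℂ (Set.range fun e => grad (g e) y)) ?_ ?_ ?_ ?_ hF
  · rintro s ⟨e, rfl⟩
    exact ⟨hS e, Submodule.subset_span ⟨e, rfl⟩⟩
  · exact ⟨map_zero _, by rw [grad_zero]; exact Submodule.zero_mem _⟩
  · rintro a b _ _ ⟨h1, h2⟩ ⟨h3, h4⟩
    exact ⟨by rw [map_add, h1, h3, add_zero], by rw [grad_add]; exact Submodule.add_mem _ h2 h4⟩
  · rintro a b _ ⟨h1, h2⟩
    refine ⟨by rw [smul_eq_mul, map_mul, h1, mul_zero], ?_⟩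
    rw [smul_eq_mul, grad_mul_of_zero h1]
    exact Submodule.smul_mem _ _ h2

/-- gradients of the elements of `ptI y * J`, `J` vanishing at `y` -/
theorem grad_mulI {J : Ideal (Sx N)} {y : Vx N} (hJ : ∀ f ∈ J, eval y f = 0) {F : Sx N}
    (hF : F ∈ ptI y * J) : grad F y = 0 := by
  refine Submodule.mul_induction_on hF ?_ ?_
  · intro m hm j hj
    have hm' : eval y m = 0 := RingHom.mem_ker.1 hm
    rw [grad_mul_of_zero (hJ j hj), hm', zero_smul]
  · intro a b ha hb
    rw [grad_add, ha, hb, add_zero]

/-! ### Homogeneous ideals -/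

theorem span_hom (s : Set (Sx N)) (hs : ∀ f ∈ s, ∃ m : ℕ, f.IsHomogeneous m) :
    IsHom (Ideal.span s) := by
  intro F hF m
  let _ := MvPolynomial.gradedAlgebra (σ := Fin (N + 1)) (R := ℂ)
  have h1 : (Ideal.span s).IsHomogeneous (homogeneousSubmodule (Fin (N + 1)) ℂ) := by
    refine Ideal.homogeneous_span _ _ ?_
    intro f hf
    obtain ⟨n, hn⟩ := hs f hf
    exact ⟨n, hn⟩
  exact homogeneousComponent_mem_of_mem h1 hF m

/-! ### The ideal of the lines -/

section

variable {I : Ideal (Sx N)} {x : Vx N}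

theorem JL_eval {z : Vx N} (h : ∀ s t : ℂ, s • x + t • z ∈ zer I) :
    ∀ f ∈ JL I x, eval z f = 0 := by
  intro f hf
  refine Submodule.span_induction (p := fun f _ => eval z f = 0) ?_ (map_zero _) ?_ ?_ hf
  · rintro _ ⟨F, hF, n, rfl⟩
    rw [(mLinS N x F n).2.1 z, (eLinB N x z F).2.2 I h hF, Polynomial.coeff_zero]
  · intro a b _ _ ha hb
    rw [map_add, ha, hb, add_zero]
  · intro a b _ hb
    rw [smul_eq_mul, map_mul, hb, mul_zero]

theorem line_of_JL (hh : IsHom I) {z : Vx N} (h : ∀ f ∈ JL I x, eval z f = 0) (s t : ℂ) :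
    s • x + t • z ∈ zer I := by
  have h0 : ∀ F ∈ I, lin x z F = 0 := by
    intro F hF
    refine Polynomial.ext fun n => ?_
    rw [← (mLinS N x F n).2.1 z, Polynomial.coeff_zero]
    exact h _ (Ideal.subset_span ⟨F, hF, n, rfl⟩)
  intro F hF
  rw [← sum_homogeneousComponent F, map_sum]
  refine Finset.sum_eq_zero fun m _ => ?_
  rw [((eLinB N x z (homogeneousComponent m F)).2.1 m
    (homogeneousComponent_isHomogeneous m F)).2.2 s t, h0 _ (hh F hF m)]
  simp

end

/-! ### Transport of the Hilbert function -/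

theorem hcG_equiv {ι κ : Type} [Fintype ι] [Fintype κ] (e : ι ≃ κ) (d : κ → ℕ) (k : ℕ) :
    hcG (d ∘ e) N k = hcG d N k := by
  classical
  unfold hcG
  refine Fintype.sum_equiv (Equiv.finsetCongr e) _ _ fun A => ?_
  rw [Equiv.finsetCongr_apply, Finset.card_map, Finset.sum_map]
  rfl

/-! ### A nonzero point -/

theorem exists_pt {J : Ideal (Sx N)} (hp : J.IsPrime) (hh : IsHom J) {D : ℕ}
    (hD : DimGe J (D + 1)) : ∃ z ∈ zer J, z ≠ 0 := by
  by_contra hc
  push Not at hc
  have hX : ∀ i, (X i : Sx N) ∈ J := by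
    intro i
    refine (tNull N J hp hh).1 _ fun z hz => ?_
    rw [hc z hz]
    simp
  obtain ⟨i, hi⟩ := hD
  have h1 := hi.ne_zero 0
  exact h1 (Ideal.Quotient.eq_zero_iff_mem.2 (hX _))

end U6vAux

open U6vAux

theorem tU6v : S_U6b → S_FCI → S_U6v := by
  intro hU hC N c I d hI hh hS hd1 x lam ξ J₀ hT hdeg hfree F hF hloc
  classical
  set g := gT d F x with hg
  have hcard : Fintype.card (Ex d) = ∑ i, d i := by
    rw [Fintype.card_sigma]
    exact Finset.sum_congr rfl fun i _ => Fintype.card_fin _
  -- the equations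
  have hgJ : ∀ e, g e ∈ JL I x := fun e =>
    Ideal.subset_span ⟨F e.1, (hF e.1).1, e.2.1 + 1, rfl⟩
  have hghom : ∀ e, (g e).IsHomogeneous (e.2.1 + 1) := fun e =>
    (mLinS N x (F e.1) (e.2.1 + 1)).2.2.1
  have hlam : ∀ z : Vx N, dp lam z = 0 → (∀ s t : ℂ, s • x + t • z ∈ zer I) → z ≠ 0 →
      IsLine I x z := by
    intro z hz hl hz0
    refine ⟨?_, hl⟩
    rw [LinearIndependent.pair_iff]
    intro s t hst
    have h1 : dp lam (s • x + t • z) = s := by
      rw [dp_add, dp_smul, dp_smul, hT.cn.lamx, hz, mul_one, mul_zero, add_zero]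
    have h2 : s = 0 := by
      rw [← h1, hst]
      simp [dp]
    refine ⟨h2, ?_⟩
    rw [h2, zero_smul, zero_add] at hst
    exact (smul_eq_zero.1 hst).resolve_right hz0
  have hlam0 : ∀ z ∈ zer J₀, dp lam z = 0 := fun z hz => by
    rw [← eval_lf]
    exact hz _ hT.cn.lamJ
  -- independence of the gradients
  have hind1 : ∀ z ∈ zer J₀, z ≠ 0 → LinearIndependent ℂ fun e => grad (g e) z := by
    intro z hz hz0
    have hl := hT.cn.line z hz
    have hIL := hlam z (hlam0 z hz) hl hz0
    have hJz := JL_eval hl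
    have h1 := hU N c (∑ i, d i) I hI hh hS x z hIL (hdeg z hz hz0) (hfree z hIL)
    rw [linearIndependent_iff_card_le_finrank_span, hcard]
    refine h1.trans ?_
    refine Submodule.finrank_mono ?_
    rw [Submodule.span_le]
    rintro _ ⟨G, hG, n, rfl⟩
    have h2 : (linS x G).coeff n ∈ Ideal.span (Set.range g) ⊔ ptI z * JL I x :=
      hloc z hz hz0 (Ideal.subset_span ⟨G, hG, n, rfl⟩)
    obtain ⟨u, hu, v, hv, huv⟩ := Submodule.mem_sup.1 h2
    rw [← huv, grad_add, grad_mulI hJz hv, add_zero]
    exact (grad_span (fun e => hJz _ (hgJ e)) hu).2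
  have hgx : ∀ z ∈ zer J₀, ∀ e, dp (grad (g e) z) x = 0 := by
    intro z hz e
    have h1 : lin z x (g e) = 0 := by
      refine poly_ext fun s => ?_
      rw [lin_eval, Polynomial.eval_zero]
      refine JL_eval (I := I) (x := x) ?_ _ (hgJ e)
      intro s' t'
      have h2 : s' • x + t' • (z + s • x) = (s' + t' * s) • x + t' • z := by
        rw [smul_add, add_smul, mul_smul]
        abel
      rw [h2]
      exact hT.cn.line z hz _ _
    rw [← lin_coeff_one, h1, Polynomial.coeff_zero]
  have hind : ∀ z ∈ zer J₀, z ≠ 0 →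
      LinearIndependent ℂ (fun o : Option (Ex d) => o.elim lam fun e => grad (g e) z) := by
    intro z hz hz0
    rw [Fintype.linearIndependent_iff]
    intro a ha
    rw [Fintype.sum_option] at ha
    simp only [Option.elim_none, Option.elim_some] at ha
    have h0 : a none = 0 := by
      have h1 : dp (a none • lam + ∑ e, a (some e) • grad (g e) z) x = a none := by
        rw [dp_add_left, dp_smul_left, hT.cn.lamx, dp_sum_left]
        rw [Finset.sum_eq_zero fun e _ => by rw [dp_smul_left, hgx z hz e, mul_zero]]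
        ring
      rw [← h1, ha, dp_zero_left]
    rw [h0, zero_smul, zero_add] at ha
    have h2 := (Fintype.linearIndependent_iff.1 (hind1 z hz hz0)) (fun e => a (some e)) ha
    intro o
    cases o with
    | none => exact h0
    | some e => exact h2 e
  -- the family indexed by `Fin r`
  set f₀ : Option (Ex d) → Sx N := fun o => o.elim (lf lam) g with hf₀
  set e₀ : Option (Ex d) → ℕ := fun o => o.elim 1 fun e => e.2.1 + 1 with he₀
  have hcard' : Fintype.card (Option (Ex d)) = ∑ i, d i + 1 := by
    rw [Fintype.card_option, hcard]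
  let κ : Option (Ex d) ≃ Fin (∑ i, d i + 1) := Fintype.equivFinOfCardEq hcard'
  have hf₀J : ∀ o, f₀ o ∈ J₀ := by
    intro o
    cases o with
    | none => exact hT.cn.lamJ
    | some e =>
      exact (tNull N J₀ hT.cn.prime hT.cn.hom).1 _ fun z hz => JL_eval (hT.cn.line z hz) _ (hgJ e)
  have hf₀h : ∀ o, (f₀ o).IsHomogeneous (e₀ o) := by
    intro o
    cases o with
    | none => exact lf_hom lam
    | some e => exact hghom e
  have hf₀g : ∀ z : Vx N, (fun o => grad (f₀ o) z) =
      fun o : Option (Ex d) => o.elim lam fun e => grad (g e) z := by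
    intro z
    funext o
    cases o with
    | none => exact grad_lf lam z
    | some e => rfl
  obtain ⟨hprime, hhf⟩ := hC N (∑ i, d i + 1) (f₀ ∘ κ.symm) (e₀ ∘ κ.symm) J₀
    (fun i => by
      show 1 ≤ e₀ (κ.symm i)
      cases κ.symm i with
      | none => exact le_refl _
      | some e => exact Nat.le_add_left _ _)
    (fun i => hf₀h _) hT.cn.prime hT.cn.hom (fun i => hf₀J _) hT.dim
    (fun z hz hz0 => by
      have h1 := hind z hz hz0
      rw [← hf₀g z] at h1
      exact h1.comp κ.symm κ.symm.injective)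
  have hrange : Set.range (f₀ ∘ κ.symm) = Set.range g ∪ {lf lam} := by
    rw [EquivLike.range_comp f₀ κ.symm]
    ext p
    constructor
    · rintro ⟨o, rfl⟩
      cases o with
      | none => exact Or.inr rfl
      | some e => exact Or.inl ⟨e, rfl⟩
    · rintro (⟨e, rfl⟩ | h)
      · exact ⟨some e, rfl⟩
      · exact ⟨none, (Set.mem_singleton_iff.1 h).symm⟩
  rw [hrange] at hprime hhf
  set J : Ideal (Sx N) := Ideal.span (Set.range g) ⊔ Ideal.span {lf lam} with hJ
  have hJs : Ideal.span (Set.range g ∪ {lf lam}) = J := Ideal.span_union _ _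
  rw [hJs] at hprime hhf
  have hJhom : IsHom J := by
    rw [← hJs]
    refine span_hom _ ?_
    rintro p (⟨e, rfl⟩ | h)
    · exact ⟨_, hghom e⟩
    · rw [Set.mem_singleton_iff.1 h]
      exact ⟨1, lf_hom lam⟩
  have hJJ₀ : J ≤ J₀ := by
    rw [← hJs, Ideal.span_le]
    rintro p (⟨e, rfl⟩ | h)
    · exact hf₀J (some e)
    · rw [Set.mem_singleton_iff.1 h]
      exact hT.cn.lamJ
  have hgJJ : Ideal.span (Set.range g) ≤ J := le_sup_left
  have hlamJ : lf lam ∈ J := Ideal.mem_sup_right (Ideal.subset_span rfl)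
  obtain ⟨z₀, hz₀, hz₀0⟩ := exists_pt hT.cn.prime hT.cn.hom (D := ∑ i, d i + 1) hT.dim
  -- all equations of the lines are in `J`
  have hJL : JL I x ≤ J := by
    have hnp : (ptI z₀).IsPrime := RingHom.ker_isPrime _
    have hJfg : (JL I x).FG := IsNoetherian.noetherian _
    obtain ⟨h, hh1, hhJ⟩ := Submodule.exists_sub_one_mem_and_smul_le_of_fg_of_le_sup
      (I := ptI z₀) (N := Ideal.span (Set.range g)) (N' := JL I x) (P := JL I x) hJfg le_rfl
      (hloc z₀ hz₀ hz₀0)
    have hhn : h ∉ ptI z₀ := by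
      intro hx
      have h1 : (1 : Sx N) ∈ ptI z₀ := by
        have := Ideal.sub_mem _ hx hh1
        rwa [sub_sub_cancel] at this
      exact hnp.ne_top ((Ideal.eq_top_iff_one _).2 h1)
    have hhJn : h ∉ J := fun hx => hhn (RingHom.mem_ker.2 (hz₀ _ (hJJ₀ hx)))
    intro G hG
    have h2 : h * G ∈ Ideal.span (Set.range g) :=
      hhJ (Submodule.smul_mem_pointwise_smul G h (JL I x) hG)
    exact (hprime.mem_or_mem (hgJJ h2)).resolve_left hhJn
  have hline : ∀ z ∈ zer J, ∀ s t : ℂ, s • x + t • z ∈ zer I := fun z hz =>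
    line_of_JL hh fun f hf => hz f (hJL hf)
  have hcn : Cn I x lam J :=
    { x0 := hT.cn.x0
      xI := hT.cn.xI
      lamx := hT.cn.lamx
      prime := hprime
      hom := hJhom
      lamJ := hlamJ
      line := hline }
  refine ⟨J, hcn, hd1, hghom, ?_, rfl, ?_, ⟨z₀, fun f hf => hz₀ f (hJJ₀ hf), hz₀0, hind z₀ hz₀ hz₀0⟩, ?_⟩
  · -- tangent space
    intro v
    have hev : ∀ e : Ex d, e.2.1 = 0 → eval v (g e) = dp (ξ e.1) v := by
      intro e he
      have h1 : g e = (linS x (F e.1)).coeff 1 := by
        show (linS x (F e.1)).coeff (e.2.1 + 1) = _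
        rw [he]
      rw [h1, (mLinS N x (F e.1) 1).2.1 v, lin_coeff_one, (hF e.1).2]
    constructor
    · intro h
      obtain ⟨hfr, hmem, -⟩ := eCN N c I hS x hT.cn.xI hT.cn.x0
      have hle : Submodule.span ℂ (Set.range ξ) ≤ CN I x := by
        rw [Submodule.span_le]
        rintro _ ⟨i, rfl⟩
        rw [← (hF i).2]
        exact hmem _ (hF i).1
      have heq : Submodule.span ℂ (Set.range ξ) = CN I x := by
        refine Submodule.eq_of_le_of_finrank_eq hle ?_
        rw [hfr, finrank_span_eq_card hT.ind, Fintype.card_fin]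
      intro G hG
      have h1 : grad G x ∈ Submodule.span ℂ (Set.range ξ) := by
        rw [heq]
        exact hmem G hG
      refine Submodule.span_induction (p := fun φ _ => dp φ v = 0) ?_ (dp_zero_left v) ?_ ?_ h1
      · rintro _ ⟨i, rfl⟩
        have h2 := h ⟨i, ⟨0, hd1 i⟩⟩ rfl
        rwa [hev _ rfl] at h2
      · intro a b _ _ ha hb
        rw [dp_add_left, ha, hb, add_zero]
      · intro r a _ ha
        rw [dp_smul_left, ha, mul_zero]
    · intro hv e he
      rw [hev e he, ← (hF e.1).2]
      exact hv _ (hF e.1).1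
  · intro z hz hz0
    refine hfree z (hlam z ?_ (hline z hz) hz0)
    rw [← eval_lf]
    exact hz _ hlamJ
  · intro k
    rw [hhf k, ← hcG_equiv κ.symm e₀ k]

end Pool.Agent.Lib.MP_776403_ag.SD.UN
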