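import Pool.Agent.Lib.MP_776403_ag.SD.UN.SpecF

/-!
# THEOREM UN: derivations extend
-/

set_option autoImplicit false

open MvPolynomial

noncomputable section

namespace Pool.Agent.Lib.MP_776403_ag.SD.UN

namespace FDeAux

/-- Lifting along a square zero extension. -/
theorem lift {B L E : Type} [CommRing B] [CommRing L] [CommRing E] [Algebra B L]
    [Algebra.FormallySmooth B L] (χ : B →+* E) (p : E →+* L) (hp : Function.Surjective p)
    (hk : ∀ a b, p a = 0 → p b = 0 → a * b = 0) (h : ∀ b, p (χ b) = algebraMap B L b) :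
    ∃ ψ : L →+* E, (∀ a, p (ψ a) = a) ∧ ∀ b, ψ (algebraMap B L b) = χ b := by
  let : Algebra B E := χ.toAlgebra
  let g : E →ₐ[B] L := { p with commutes' := h }
  have hg : Function.Surjective g := hp
  have hn : IsNilpotent (RingHom.ker (g : E →+* L)) := by
    refine ⟨2, ?_⟩
    rw [pow_two, Submodule.zero_eq_bot, eq_bot_iff, Ideal.mul_le]
    intro a ha b hb
    rw [Ideal.mem_bot]
    exact hk a b ha hb
  refine ⟨(Algebra.FormallySmooth.liftOfSurjective (AlgHom.id B L) g hg hn : L →+* E), ?_, ?_⟩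
  · intro a
    exact Algebra.FormallySmooth.liftOfSurjective_apply (AlgHom.id B L) g hg hn a
  · intro b
    exact AlgHom.commutes (Algebra.FormallySmooth.liftOfSurjective (AlgHom.id B L) g hg hn) b

/-- The fraction field of a finitely generated domain is formally smooth over a subring. -/
theorem smooth {B R : Type} [CommRing B] [IsDomain B] [Algebra ℂ B] [CommRing R] [IsDomain R]
    [Algebra ℂ R] [Algebra.FiniteType ℂ R] [Algebra B R] [IsScalarTower ℂ B R]
    (hinj : Function.Injective (algebraMap B R)) :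
    Algebra.FormallySmooth B (FractionRing R) := by
  have : FaithfulSMul B R := (faithfulSMul_iff_algebraMap_injective B R).mpr hinj
  have : FaithfulSMul B (FractionRing R) := by
    rw [faithfulSMul_iff_algebraMap_injective, IsScalarTower.algebraMap_eq B R (FractionRing R)]
    exact (IsFractionRing.injective R (FractionRing R)).comp hinj
  let : Algebra (FractionRing B) (FractionRing R) := FractionRing.liftAlgebra B (FractionRing R)
  have : IsScalarTower B (FractionRing B) (FractionRing R) :=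
    FractionRing.isScalarTower_liftAlgebra B (FractionRing R)
  have : IsScalarTower ℂ (FractionRing B) (FractionRing R) := by
    refine IsScalarTower.of_algebraMap_eq fun x => ?_
    rw [IsScalarTower.algebraMap_apply ℂ B (FractionRing B),
      ← IsScalarTower.algebraMap_apply B (FractionRing B) (FractionRing R),
      ← IsScalarTower.algebraMap_apply ℂ B (FractionRing R)]
  have : Algebra.EssFiniteType R (FractionRing R) :=
    Algebra.EssFiniteType.of_isLocalization _ (nonZeroDivisors R)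
  have : Algebra.EssFiniteType ℂ (FractionRing R) := Algebra.EssFiniteType.comp ℂ R _
  have : Algebra.EssFiniteType (FractionRing B) (FractionRing R) :=
    Algebra.EssFiniteType.of_comp ℂ (FractionRing B) (FractionRing R)
  have : CharZero (FractionRing B) :=
    charZero_of_injective_algebraMap (algebraMap ℂ (FractionRing B)).injective
  have : Algebra.FormallySmooth (FractionRing B) (FractionRing R) :=
    Algebra.FormallySmooth.of_perfectField
  have : Algebra.FormallySmooth B (FractionRing B) :=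
    Algebra.FormallySmooth.of_isLocalization (nonZeroDivisors B)
  exact Algebra.FormallySmooth.comp B (FractionRing B) (FractionRing R)

/-- Values in the dual numbers. -/
theorem dual {σ : Type} [Fintype σ] {L : Type} [CommRing L] [Algebra ℂ L] (a b : σ → L)
    (G : MvPolynomial σ ℂ) :
    aeval (fun i => (TrivSqZeroExt.inl (a i) + TrivSqZeroExt.inr (b i) : TrivSqZeroExt L L)) G =
      TrivSqZeroExt.inl (aeval a G) +
        TrivSqZeroExt.inr (∑ i, aeval a (pderiv i G) * b i) := by
  classical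
  induction G using MvPolynomial.induction_on with
  | C c =>
    simp [TrivSqZeroExt.algebraMap_eq_inl']
  | add p q hp hq =>
    rw [map_add, hp, hq, map_add]
    simp only [map_add, add_mul, Finset.sum_add_distrib, TrivSqZeroExt.inl_add,
      TrivSqZeroExt.inr_add]
    abel
  | mul_X p j hp =>
    rw [map_mul, hp, aeval_X, map_mul, aeval_X]
    ext
    · simp
    · have e : ∀ i, aeval a (pderiv i (p * X j)) * b i =
          (if i = j then aeval a p * b j else 0) + a j * (aeval a (pderiv i p) * b i) := by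
        intro i
        by_cases h : i = j
        · subst h
          rw [Derivation.leibniz, pderiv_X_self]
          simp only [smul_eq_mul, mul_one, map_add, map_mul, aeval_X, if_true]
          ring
        · have h' : j ≠ i := fun h' => h h'.symm
          rw [Derivation.leibniz, pderiv_X_of_ne h']
          simp only [smul_eq_mul, mul_zero, zero_add, map_mul, aeval_X, h, if_false]
          ring
      simp only [e, Finset.sum_add_distrib, Finset.sum_ite_eq', Finset.mem_univ, if_true,
        ← Finset.mul_sum]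
      simp only [TrivSqZeroExt.snd_mul, TrivSqZeroExt.fst_add, TrivSqZeroExt.fst_inl,
        TrivSqZeroExt.fst_inr, add_zero, TrivSqZeroExt.snd_add, TrivSqZeroExt.snd_inl,
        TrivSqZeroExt.snd_inr, zero_add, smul_eq_mul, MulOpposite.smul_eq_mul_unop,
        MulOpposite.unop_op]
      ring

end FDeAux

open FDeAux

theorem tFDe : S_FDe := by
  classical
  intro N I 𝔮 hI hq hiff w hw
  have := hI
  have := hq
  let ρ : (Sx N ⧸ I) →+* (Sxx N ⧸ 𝔮) :=
    Ideal.quotientMap 𝔮 ((rename (R := ℂ) (Sum.inl : Fin (N + 1) → Fin (N + 1) ⊕ Fin (N + 1))) :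
      Sx N →+* Sxx N) (fun F hF => (hiff F).mpr hF)
  have hρ : ∀ F : Sx N, ρ (Ideal.Quotient.mk I F) = Ideal.Quotient.mk 𝔮 (rename Sum.inl F) :=
    fun F => rfl
  have hinj : Function.Injective ρ := by
    rw [injective_iff_map_eq_zero]
    intro a ha
    obtain ⟨F, rfl⟩ := Ideal.Quotient.mk_surjective a
    rw [hρ, Ideal.Quotient.eq_zero_iff_mem] at ha
    exact Ideal.Quotient.eq_zero_iff_mem.mpr ((hiff F).mp ha)
  let : Algebra (Sx N ⧸ I) (Sxx N ⧸ 𝔮) := ρ.toAlgebra
  have : IsScalarTower ℂ (Sx N ⧸ I) (Sxx N ⧸ 𝔮) := by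
    refine IsScalarTower.of_algebraMap_eq (R := ℂ) (S := Sx N ⧸ I) (A := Sxx N ⧸ 𝔮) fun x => ?_
    change Ideal.Quotient.mk 𝔮 (C x) = ρ (Ideal.Quotient.mk I (C x))
    rw [hρ, rename_C]
  have : Algebra.FormallySmooth (Sx N ⧸ I) (FractionRing (Sxx N ⧸ 𝔮)) := smooth hinj
  set L := FractionRing (Sxx N ⧸ 𝔮) with hL
  let Φ : Sxx N →ₐ[ℂ] L := (IsScalarTower.toAlgHom ℂ (Sxx N ⧸ 𝔮) L).comp (Ideal.Quotient.mkₐ ℂ 𝔮)
  have hΦ0 : ∀ G, Φ G = 0 ↔ G ∈ 𝔮 := by
    intro G
    change algebraMap (Sxx N ⧸ 𝔮) L (Ideal.Quotient.mk 𝔮 G) = 0 ↔ G ∈ 𝔮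
    rw [map_eq_zero_iff _ (IsFractionRing.injective (Sxx N ⧸ 𝔮) L), Ideal.Quotient.eq_zero_iff_mem]
  -- the map to the dual numbers
  let θ : Sx N →ₐ[ℂ] TrivSqZeroExt L L := aeval fun i =>
    TrivSqZeroExt.inl (Φ (X (Sum.inl i))) + TrivSqZeroExt.inr (Φ (rename Sum.inl (w i)))
  have hθ : ∀ F : Sx N, θ F = TrivSqZeroExt.inl (Φ (rename Sum.inl F)) +
      TrivSqZeroExt.inr (Φ (rename Sum.inl (∑ i, pderiv i F * w i))) := by
    intro F
    have h1 : ∀ F : Sx N, aeval (fun i => Φ (X (Sum.inl i))) F = Φ (rename Sum.inl F) := by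
      intro F
      have : (aeval (fun i => Φ (X (Sum.inl i))) : Sx N →ₐ[ℂ] L) =
          Φ.comp (rename Sum.inl) := by
        ext i
        simp
      rw [this]
      rfl
    rw [show θ F = _ from dual _ _ F, h1]
    simp only [map_sum, map_mul, h1]
  have hθI : ∀ F ∈ I, θ F = 0 := by
    intro F hF
    rw [hθ, (hΦ0 _).mpr ((hiff F).mpr hF), (hΦ0 _).mpr ((hiff _).mpr (hw F hF))]
    simp
  let χ : (Sx N ⧸ I) →+* TrivSqZeroExt L L := Ideal.Quotient.lift I (θ : Sx N →+* _) hθI
  have hχ : ∀ F : Sx N, χ (Ideal.Quotient.mk I F) = θ F := fun F => rfl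
  obtain ⟨ψ, hψ1, hψ2⟩ := lift χ (TrivSqZeroExt.fstHom ℂ L L : TrivSqZeroExt L L →+* L)
    (fun a => ⟨TrivSqZeroExt.inl a, by simp⟩)
    (fun a b ha hb => by
      have ha' : a.fst = 0 := ha
      have hb' : b.fst = 0 := hb
      ext
      · simp [ha', hb']
      · simp [ha', hb'])
    (fun b => by
      obtain ⟨F, rfl⟩ := Ideal.Quotient.mk_surjective b
      rw [hχ, hθ]
      change _ = algebraMap (Sxx N ⧸ 𝔮) L (ρ (Ideal.Quotient.mk I F))
      rw [hρ]
      simp [Φ])
  have hψΦ : ∀ F : Sx N, ψ (Φ (rename Sum.inl F)) = θ F := by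
    intro F
    rw [← hχ, ← hψ2]
    rfl
  let δ : Fin (N + 1) ⊕ Fin (N + 1) → L := fun i => (ψ (Φ (X i))).snd
  have hψ : ∀ G : Sxx N, ψ (Φ G) = TrivSqZeroExt.inl (Φ G) +
      TrivSqZeroExt.inr (∑ i, Φ (pderiv i G) * δ i) := by
    intro G
    have h1 : (ψ.comp (Φ : Sxx N →+* L)) = ((aeval (fun i =>
        (TrivSqZeroExt.inl (Φ (X i)) + TrivSqZeroExt.inr (δ i) : TrivSqZeroExt L L)) :
        Sxx N →ₐ[ℂ] TrivSqZeroExt L L) : Sxx N →+* TrivSqZeroExt L L) := by
      apply MvPolynomial.ringHom_ext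
      · intro c
        have h2 := hψΦ (C c)
        rw [rename_C] at h2
        rw [RingHom.comp_apply]
        change ψ (Φ (C c)) = aeval _ (C c)
        rw [h2, hθ]
        simp [TrivSqZeroExt.algebraMap_eq_inl']
      · intro i
        rw [RingHom.comp_apply]
        change ψ (Φ (X i)) = aeval _ (X i)
        rw [aeval_X]
        ext
        · simp only [TrivSqZeroExt.fst_add, TrivSqZeroExt.fst_inl, TrivSqZeroExt.fst_inr, add_zero]
          exact hψ1 _
        · simp [δ]
    have h3 : ∀ G : Sxx N, aeval (fun i => Φ (X i)) G = Φ G := by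
      intro G
      have : (aeval (fun i => Φ (X i)) : Sxx N →ₐ[ℂ] L) = Φ := by
        ext i
        simp
      rw [this]
    have h2 := RingHom.congr_fun h1 G
    rw [RingHom.comp_apply] at h2
    change ψ (Φ G) = aeval _ G at h2
    rw [h2, dual]
    simp only [h3]
  have hδ : ∀ i, δ (Sum.inl i) = Φ (rename Sum.inl (w i)) := by
    intro i
    have h1 := hψΦ (X i)
    rw [rename_X] at h1
    simp only [δ, h1]
    simp [θ]
  -- denominators
  obtain ⟨s, hs⟩ := IsLocalization.exist_integer_multiples_of_finite (nonZeroDivisors (Sxx N ⧸ 𝔮))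
    (fun i : Fin (N + 1) => δ (Sum.inr i))
  choose H' hH' using hs
  obtain ⟨h, hh⟩ := Ideal.Quotient.mk_surjective (s : Sxx N ⧸ 𝔮)
  have hH'' : ∀ i, ∃ G : Sxx N, Ideal.Quotient.mk 𝔮 G = H' i := fun i =>
    Ideal.Quotient.mk_surjective _
  choose H hH using hH''
  refine ⟨h, H, ?_, ?_⟩
  · intro hmem
    have h1 : (s : Sxx N ⧸ 𝔮) = 0 := by
      rw [← hh]
      exact Ideal.Quotient.eq_zero_iff_mem.mpr hmem
    exact nonZeroDivisors.ne_zero s.2 h1
  · intro G hG
    have h1 := hψ G
    rw [(hΦ0 G).mpr hG, map_zero] at h1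
    have h2 := congrArg TrivSqZeroExt.snd h1
    simp only [TrivSqZeroExt.snd_zero, TrivSqZeroExt.snd_add, TrivSqZeroExt.snd_inl,
      TrivSqZeroExt.snd_inr, zero_add, Fintype.sum_sum_type] at h2
    have h4 : ∀ i, Φ (H i) = Φ h * δ (Sum.inr i) := by
      intro i
      have h5 := hH' i
      change algebraMap (Sxx N ⧸ 𝔮) L (Ideal.Quotient.mk 𝔮 (H i)) =
        algebraMap (Sxx N ⧸ 𝔮) L (Ideal.Quotient.mk 𝔮 h) * δ (Sum.inr i)
      rw [hH, h5, hh, Algebra.smul_def]
    rw [← hΦ0]
    simp only [map_add, map_sum, map_mul, h4]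
    have h6 : (0 : L) = Φ h * (∑ i, Φ (pderiv (Sum.inl i) G) * δ (Sum.inl i) +
        ∑ i, Φ (pderiv (Sum.inr i) G) * δ (Sum.inr i)) := by
      rw [← h2, mul_zero]
    rw [h6, mul_add, Finset.mul_sum, Finset.mul_sum]
    congr 1
    · refine Finset.sum_congr rfl fun i _ => ?_
      rw [hδ]
      ring
    · refine Finset.sum_congr rfl fun i _ => ?_
      ring

end Pool.Agent.Lib.MP_776403_ag.SD.UN
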