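import Pool.Agent.Lib.MP_776403_ag.SD.UN.SpecF
import Pool.Agent.Lib.MP_776403_ag.SD.LI.TS

/-! # THEOREM UN, module FU6a: all lines through general points are free -/

set_option autoImplicit false

open MvPolynomial

noncomputable section

namespace Pool.Agent.Lib.MP_776403_ag.SD.UN

open LI

namespace FU6aAux

variable {N : ℕ}

/-- the polynomials vanishing on a set of pairs -/
def qI (Z : Set (Vx N × Vx N)) : Ideal (Sxx N) where
  carrier := {G | ∀ p ∈ Z, eval (Sum.elim p.1 p.2) G = 0}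
  zero_mem' := fun p _ => map_zero _
  add_mem' := fun {F G} hF hG p hp => by rw [map_add, hF p hp, hG p hp, add_zero]
  smul_mem' := fun G F hF p hp => by rw [smul_eq_mul, map_mul, hF p hp, mul_zero]

theorem mem_qI {Z : Set (Vx N × Vx N)} {G : Sxx N} :
    G ∈ qI Z ↔ ∀ p ∈ Z, eval (Sum.elim p.1 p.2) G = 0 := Iff.rfl

/-- the first components are dense in the zero set of `I` -/
def Dom (I : Ideal (Sx N)) (Z : Set (Vx N × Vx N)) : Prop :=
  ∀ g : Sx N, g ∉ I → ∃ p ∈ Z, eval p.1 g ≠ 0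

theorem eval_inl (p : Vx N × Vx N) (F : Sx N) :
    eval (Sum.elim p.1 p.2) (rename Sum.inl F : Sxx N) = eval p.1 F := by
  rw [eval_rename, Sum.elim_comp_inl]

/-- the substitution `F (s u + t v)` -/
def gl (s t : ℂ) : Sx N →ₐ[ℂ] Sxx N := aeval fun i => C s * X (Sum.inl i) + C t * X (Sum.inr i)

theorem eval_gl (s t : ℂ) (p : Vx N × Vx N) (F : Sx N) :
    eval (Sum.elim p.1 p.2) (gl s t F) = eval (s • p.1 + t • p.2) F := by
  induction F using MvPolynomial.induction_on with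
  | C a => simp [gl]
  | add f g hf hg => rw [map_add, map_add, map_add, hf, hg]
  | mul_X f i hf =>
    rw [map_mul, map_mul, map_mul, hf]
    simp [gl]

theorem pd_inl (s t : ℂ) (i : Fin (N + 1)) (F : Sx N) :
    pderiv (Sum.inl i) (gl s t F) = C s * gl s t (pderiv i F) := by
  induction F using MvPolynomial.induction_on with
  | C a => simp [gl]
  | add f g hf hg => rw [map_add, map_add, map_add, map_add, hf, hg, mul_add]
  | mul_X f k hf =>
    have e : gl s t (X k : Sx N) = C s * X (Sum.inl k) + C t * X (Sum.inr k) := by simp [gl]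
    have e2 : pderiv (Sum.inl i) (gl s t (X k : Sx N)) = C s * gl s t (pderiv i (X k)) := by
      rw [e, map_add, pderiv_C_mul, pderiv_C_mul, pderiv_X, pderiv_X, pderiv_X]
      by_cases h : i = k
      · subst h
        simp
      · have h' : k ≠ i := fun h' => h h'.symm
        simp [h']
    rw [map_mul, Derivation.leibniz, Derivation.leibniz, hf, e2, map_add, smul_eq_mul, smul_eq_mul,
      smul_eq_mul, smul_eq_mul, map_mul, map_mul]
    ring

theorem pd_inr (s t : ℂ) (i : Fin (N + 1)) (F : Sx N) :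
    pderiv (Sum.inr i) (gl s t F) = C t * gl s t (pderiv i F) := by
  induction F using MvPolynomial.induction_on with
  | C a => simp [gl]
  | add f g hf hg => rw [map_add, map_add, map_add, map_add, hf, hg, mul_add]
  | mul_X f k hf =>
    have e : gl s t (X k : Sx N) = C s * X (Sum.inl k) + C t * X (Sum.inr k) := by simp [gl]
    have e2 : pderiv (Sum.inr i) (gl s t (X k : Sx N)) = C t * gl s t (pderiv i (X k)) := by
      rw [e, map_add, pderiv_C_mul, pderiv_C_mul, pderiv_X, pderiv_X, pderiv_X]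
      by_cases h : i = k
      · subst h
        simp
      · have h' : k ≠ i := fun h' => h h'.symm
        simp [h']
    rw [map_mul, Derivation.leibniz, Derivation.leibniz, hf, e2, map_add, smul_eq_mul, smul_eq_mul,
      smul_eq_mul, smul_eq_mul, map_mul, map_mul]
    ring

/-- the bad pairs -/
def Bad (I : Ideal (Sx N)) : Set (Vx N × Vx N) := {p | IsLine I p.1 p.2 ∧ ¬ FreeL I p.1 p.2}

theorem bad_zer {I : Ideal (Sx N)} {p : Vx N × Vx N} (hp : p ∈ Bad I) : p.1 ∈ zer I ∧ p.1 ≠ 0 := by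
  refine ⟨?_, ?_⟩
  · have := hp.1.2 1 0
    rwa [one_smul, zero_smul, add_zero] at this
  · exact hp.1.1.ne_zero 0

/-- (1) the maximal ideal of a dominating set is prime -/
theorem prime_q {I : Ideal (Sx N)} (hI : I.IsPrime) {Z : Set (Vx N × Vx N)} (hZ : Dom I Z)
    (hmax : ∀ Z' ⊆ Z, Dom I Z' → ¬ qI Z < qI Z') : (qI Z).IsPrime := by
  refine Ideal.isPrime_iff.2 ⟨?_, ?_⟩
  · rw [Ideal.ne_top_iff_one]
    intro h
    obtain ⟨p, hp, -⟩ := hZ 1 ((Ideal.ne_top_iff_one _).1 hI.ne_top)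
    have := h p hp
    rw [map_one] at this
    exact one_ne_zero this
  · intro F G hFG
    by_contra hcon
    rw [not_or] at hcon
    obtain ⟨hF, hG⟩ := hcon
    have key : ∀ F : Sxx N, F ∉ qI Z → ∃ g : Sx N, g ∉ I ∧
        ∀ p ∈ Z, eval (Sum.elim p.1 p.2) F = 0 → eval p.1 g = 0 := by
      intro F hF
      have hnd : ¬ Dom I {p ∈ Z | eval (Sum.elim p.1 p.2) F = 0} := by
        intro hd
        refine hmax {p ∈ Z | eval (Sum.elim p.1 p.2) F = 0} (fun p hp => hp.1) hd ?_
        refine lt_of_le_of_ne (fun G hG p hp => hG p hp.1) ?_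
        intro he
        apply hF
        rw [he]
        exact fun p hp => hp.2
      unfold Dom at hnd
      push Not at hnd
      obtain ⟨g, hg, hg2⟩ := hnd
      exact ⟨g, hg, fun p hp h => hg2 p ⟨hp, h⟩⟩
    obtain ⟨g1, h1, h1'⟩ := key F hF
    obtain ⟨g2, h2, h2'⟩ := key G hG
    have h12 : g1 * g2 ∉ I := fun h => (hI.mem_or_mem h).elim h1 h2
    obtain ⟨p, hp, hpe⟩ := hZ _ h12
    apply hpe
    have h := hFG p hp
    rw [map_mul, mul_eq_zero] at h
    rw [map_mul, mul_eq_zero]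
    rcases h with h | h
    · exact Or.inl (h1' p hp h)
    · exact Or.inr (h2' p hp h)

end FU6aAux

open FU6aAux

theorem tFU6a : S_FU6a := by
  intro hFDe N c I hI hIh hS
  by_contra hcon
  push Not at hcon
  have hDom : Dom I (Bad I) := by
    intro g hg
    obtain ⟨x, v, hl, hx, hf⟩ := hcon g hg
    exact ⟨(x, v), ⟨hl, hf⟩, hx⟩
  obtain ⟨q, ⟨Z, hZB, hZ, rfl⟩, hmax⟩ := (set_has_maximal_iff_noetherian.2
    (inferInstanceAs (IsNoetherianRing (Sxx N))))
    {q : Ideal (Sxx N) | ∃ Z : Set (Vx N × Vx N), Z ⊆ Bad I ∧ Dom I Z ∧ qI Z = q}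
    ⟨qI (Bad I), Bad I, subset_rfl, hDom, rfl⟩
  have hq : (qI Z).IsPrime := prime_q hI hZ fun Z' hZ' hd =>
    hmax _ ⟨Z', hZ'.trans hZB, hd, rfl⟩
  have hqI : ∀ F : Sx N, (rename Sum.inl F : Sxx N) ∈ qI Z ↔ F ∈ I := by
    intro F
    constructor
    · intro h
      by_contra hF
      obtain ⟨p, hp, hpe⟩ := hZ F hF
      apply hpe
      rw [← eval_inl]
      exact h p hp
    · intro hF p hp
      rw [eval_inl]
      exact (bad_zer (hZB hp)).1 F hF
  obtain ⟨⟨x₀, v₀⟩, hp0, -⟩ := hZ 1 ((Ideal.ne_top_iff_one _).1 hI.ne_top)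
  obtain ⟨hx0, hx0'⟩ := bad_zer (hZB hp0)
  obtain ⟨L⟩ := mLoc N c I hS x₀ hx0 hx0'
  have hΔ : L.dt ∉ I := fun h => L.detx (hx0 _ h)
  obtain ⟨hcr1, hcr2⟩ := mCr N c I hI hIh hS x₀ L
  choose h H hh hH using fun j : L.Bc => hFDe N I (qI Z) hI hq hqI (L.cr j.1) (hcr1 j.1)
  have hprod : (rename Sum.inl L.dt : Sxx N) * ∏ j : L.Bc, h j ∉ qI Z := by
    intro hm
    rcases hq.mem_or_mem hm with hm | hm
    · exact hΔ ((hqI _).1 hm)
    · rw [Ideal.IsPrime.prod_mem_iff] at hm
      obtain ⟨j, -, hj⟩ := hm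
      exact hh j hj
  rw [mem_qI] at hprod
  push Not at hprod
  obtain ⟨⟨x, v⟩, hpZ, hpe⟩ := hprod
  rw [map_mul, eval_inl, map_prod] at hpe
  have hpe1 : eval x L.dt ≠ 0 := left_ne_zero_of_mul hpe
  have hpe2 : ∀ j : L.Bc, eval (Sum.elim x v) (h j) ≠ 0 := fun j =>
    Finset.prod_ne_zero_iff.1 (right_ne_zero_of_mul hpe) j (Finset.mem_univ _)
  obtain ⟨hx, hx'⟩ := bad_zer (hZB hpZ)
  refine (hZB hpZ).2 ?_
  intro τ hτ
  obtain ⟨-, -, h3, -, -⟩ := tTS eCN mPerp N c I hI hIh hS x hx hx'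
  obtain ⟨w, hw, hwτ⟩ := h3 τ hτ
  have hc := hcr2 w hw
  have hA : ∀ i, τ i = ∑ b : L.Bc, (τ b.1 / eval x L.dt) * eval x (L.cr b.1 i) := by
    intro i
    have h := hx _ (hc i)
    rw [map_sub, map_mul, map_sum, hwτ, sub_eq_zero] at h
    rw [← mul_right_inj' hpe1, h, Finset.mul_sum]
    refine Finset.sum_congr rfl fun b _ => ?_
    rw [map_mul, hwτ]
    field_simp
  refine ⟨fun i => ∑ b : L.Bc, (τ b.1 / eval x L.dt) * (eval (Sum.elim x v) (H b i) /
    eval (Sum.elim x v) (h b)), ?_⟩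
  intro s t F hF
  have hG : gl s t F ∈ qI Z := by
    intro p hp
    rw [eval_gl]
    exact (hZB hp).1.2 s t F hF
  have hb : ∀ b : L.Bc, ∑ i, eval (s • x + t • v) (pderiv i F) * (s * eval x (L.cr b.1 i) +
      t * (eval (Sum.elim x v) (H b i) / eval (Sum.elim x v) (h b))) = 0 := by
    intro b
    have h1 := hH b _ hG (x, v) hpZ
    simp only [pd_inl, pd_inr, map_add, map_sum, map_mul, eval_C] at h1
    have e1 : ∀ F : Sx N, eval (Sum.elim x v) (gl s t F) = eval (s • x + t • v) F :=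
      fun F => eval_gl s t (x, v) F
    have e2 : ∀ F : Sx N, eval (Sum.elim x v) (rename Sum.inl F : Sxx N) = eval x F :=
      fun F => eval_inl (x, v) F
    simp only [e1, e2] at h1
    rw [← mul_right_inj' (hpe2 b), mul_zero, ← h1, Finset.mul_sum, ← Finset.sum_add_distrib]
    refine Finset.sum_congr rfl fun i _ => ?_
    have := hpe2 b
    field_simp
  have hfin : dp (grad F (s • x + t • v)) (s • τ + t • fun i => ∑ b : L.Bc, (τ b.1 / eval x L.dt) *
      (eval (Sum.elim x v) (H b i) / eval (Sum.elim x v) (h b))) =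
      ∑ b : L.Bc, (τ b.1 / eval x L.dt) * ∑ i, eval (s • x + t • v) (pderiv i F) *
        (s * eval x (L.cr b.1 i) + t * (eval (Sum.elim x v) (H b i) / eval (Sum.elim x v) (h b))) := by
    unfold dp grad
    simp only [Finset.mul_sum]
    rw [Finset.sum_comm]
    refine Finset.sum_congr rfl fun i _ => ?_
    simp only [Pi.add_apply, Pi.smul_apply, smul_eq_mul]
    rw [hA i, Finset.mul_sum, Finset.mul_sum, ← Finset.sum_add_distrib, Finset.mul_sum]
    refine Finset.sum_congr rfl fun b _ => ?_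
    ring
  rw [hfin]
  exact Finset.sum_eq_zero fun b _ => by rw [hb b, mul_zero]

end Pool.Agent.Lib.MP_776403_ag.SD.UN
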