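import Pool.Agent.Lib.MP_776403_ag.SD.UN.Spec5
import Pool.Agent.Lib.MP_776403_ag.SD.E.MapL

/-! THEOREM UN, part U5: the Taylor forms generate the ideal of the lines at a line of type `d`. -/

set_option autoImplicit false

open MvPolynomial

noncomputable section

namespace Pool.Agent.Lib.MP_776403_ag.SD.UN

open LI

namespace U5Aux

/-- The lowest coefficient of `∑ r_i h_i`. -/
private theorem low_coeff {c : ℕ} (r h : Fin c → Polynomial ℂ) (ρ : ℕ)
    (hlow : ∀ i, ∀ n < ρ, (h i).coeff n = 0) :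
    (∑ i, r i * h i).coeff ρ = ∑ i, (r i).coeff 0 * (h i).coeff ρ := by
  rw [Polynomial.finsetSum_coeff]
  refine Finset.sum_congr rfl fun i _ => ?_
  rw [Polynomial.coeff_mul, Finset.sum_eq_single (0, ρ)]
  · intro p hp hne
    have h1 : p.1 + p.2 = ρ := Finset.HasAntidiagonal.mem_antidiagonal.mp hp
    have h2 : p.2 < ρ := by
      rcases Nat.lt_or_ge p.2 ρ with h3 | h3
      · exact h3
      · exact absurd (Prod.ext (show p.1 = 0 by omega) (show p.2 = ρ by omega)) hne
    rw [hlow i p.2 h2, mul_zero]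
  · intro hn
    exact absurd (Finset.HasAntidiagonal.mem_antidiagonal.mpr (zero_add ρ)) hn

end U5Aux

theorem tU5Of : S_U5Of := by
  intro h5c h5d N c I d hp hh hs x z hl s hty F hF
  by_contra hcon
  obtain ⟨f, hf, hfW⟩ := SetLike.not_le_iff_exists.mp hcon
  set W : Ideal (Sx N) := Ideal.span (Set.range (gT d F x)) ⊔ ptI z * JL I x with hW
  have hfW' : f ∉ W.restrictScalars ℂ := hfW
  obtain ⟨lam, hlam1, hlam2⟩ := Submodule.exists_le_ker_of_notMem hfW'
  have hker : ∀ w ∈ W, lam w = 0 := fun w hw => LinearMap.mem_ker.mp (hlam2 hw)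
  have hkJ : ∀ w ∈ ptI z * JL I x, lam w = 0 := fun w hw =>
    hker w (Ideal.mem_sup_right hw)
  obtain ⟨m1, -, -⟩ := eMapL (Fin (N + 1)) z (JL I x) lam hkJ
  obtain ⟨h, hdeg, hh5⟩ := h5d N c I d hp hh hs x z hl s hty lam hkJ
  obtain ⟨c1, -, c3⟩ := h5c N c I d hp hh hs x z hl s hty
  -- all `h i` vanish
  have h0 : ∀ (n : ℕ) (i : Fin c), (h i).coeff n = 0 := by
    intro n
    induction n using Nat.strong_induction_on with
    | _ ρ ih =>
      intro i₀
      obtain ⟨r, hr⟩ := c1 (F i₀) (hF i₀).1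
      have hr0 := c3 (F i₀) (hF i₀).1 r hr i₀ (hF i₀).2
      have h1 := hh5 (F i₀) (hF i₀).1 r hr
      have h2 : (mapL lam (linS x (F i₀))).coeff (ρ + 1) = (h i₀).coeff ρ := by
        rw [h1, Polynomial.coeff_X_mul, U5Aux.low_coeff r h ρ fun i n hn => ih n hn i]
        rw [Finset.sum_eq_single i₀]
        · rw [hr0 i₀, if_pos rfl, one_mul]
        · intro i _ hi
          rw [hr0 i, if_neg hi, zero_mul]
        · intro hn
          exact absurd (Finset.mem_univ _) hn
      rcases Nat.lt_or_ge ρ (d i₀) with hρ | hρ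
      · rw [← h2, m1]
        exact hker _ (Ideal.mem_sup_left (Ideal.subset_span ⟨⟨i₀, ⟨ρ, hρ⟩⟩, rfl⟩))
      · refine Polynomial.coeff_eq_zero_of_degree_lt ?_
        refine lt_of_lt_of_le (Polynomial.mem_degreeLT.mp (hdeg i₀)) ?_
        exact_mod_cast hρ
  have h0' : ∀ i, h i = 0 := fun i => Polynomial.ext fun n => by
    rw [h0 n i, Polynomial.coeff_zero]
  -- `lam` vanishes on the generators
  have hgen : ∀ G ∈ I, ∀ n : ℕ, lam ((linS x G).coeff n) = 0 := by
    intro G hG n
    obtain ⟨r, hr⟩ := c1 G hG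
    have h1 := hh5 G hG r hr
    have h2 : ∑ i, r i * h i = 0 := Finset.sum_eq_zero fun i _ => by rw [h0' i, mul_zero]
    rw [← m1, h1, h2, mul_zero, Polynomial.coeff_zero]
  have hall : ∀ g ∈ JL I x, lam g = 0 := by
    intro g hg
    unfold JL at hg
    induction hg using Submodule.span_induction with
    | mem g hg =>
      obtain ⟨G, hG, n, rfl⟩ := hg
      exact hgen G hG n
    | zero => exact map_zero lam
    | add a b _ _ ha hb => rw [map_add, ha, hb, add_zero]
    | smul q g hg ih =>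
      have h1 : q - C (eval z q) ∈ ptI z := by
        unfold ptI
        rw [RingHom.mem_ker, map_sub, eval_C, sub_self]
      have h2 := hkJ _ (Ideal.mul_mem_mul h1 (show g ∈ JL I x from hg))
      rw [sub_mul, map_sub, sub_eq_zero] at h2
      rw [smul_eq_mul, h2, C_mul', map_smul, ih, smul_zero]
  exact hlam1 (hall f hf)

end Pool.Agent.Lib.MP_776403_ag.SD.UN
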