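import Pool.Agent.Lib.MP_776403_ag.SD.UN.Spec5

/-! # THEOREM UN, (5a): Cramer's rule for sections on a line -/

set_option autoImplicit false

open MvPolynomial

noncomputable section

namespace Pool.Agent.Lib.MP_776403_ag.SD.UN

open LI

theorem t5a : S_Hom → S_Cr → S_LinB → S_5a := by
  intro hHom hCr hLinB N c I hp hI hS x z y hline σ τ hy L
  obtain ⟨h1, -, h3, -⟩ := hHom N c I y 0 L
  refine ⟨?_, ?_⟩
  · intro h0
    have h4 : eval y L.dt ≠ 0 := L.detx
    have h5 := ((hLinB N x z L.dt).2.1 L.dg h1).2.2 σ τ
    rw [h0] at h5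
    simp only [Polynomial.coeff_zero, zero_mul, Finset.sum_const_zero] at h5
    rw [← hy] at h5
    exact h4 h5
  · intro n s hs l
    have h4 : ∑ k, s k * lin x z (L.cr l k) = 0 :=
      hs.2 (L.cr l) ((hCr N c I hp hI hS y L).1 l) L.dg (fun k => h3 l k)
    have h5 : ∀ k, s k * lin x z (L.cr l k) =
        (if k = l then s k * lin x z L.dt else 0) -
          ∑ b, if L.B b = k then s (L.B b) * lin x z (L.coef b l) else 0 := by
      intro k
      rw [Loc.cr, map_sub, map_sum, mul_sub, Finset.mul_sum]
      congr 1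
      · split_ifs with h
        · rfl
        · rw [map_zero, mul_zero]
      · refine Finset.sum_congr rfl fun b _ => ?_
        split_ifs with h
        · rw [h]
        · rw [map_zero, mul_zero]
    rw [Finset.sum_congr rfl fun k _ => h5 k, Finset.sum_sub_distrib,
      Finset.sum_ite_eq' Finset.univ l, if_pos (Finset.mem_univ l), Finset.sum_comm] at h4
    have h6 : ∀ b, (∑ k, if L.B b = k then s (L.B b) * lin x z (L.coef b l) else 0) =
        s (L.B b) * lin x z (L.coef b l) := by
      intro b
      rw [Finset.sum_ite_eq Finset.univ (L.B b), if_pos (Finset.mem_univ _)]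
    rw [Finset.sum_congr rfl fun b _ => h6 b, sub_eq_zero] at h4
    rw [mul_comm, h4]
    simp only [Loc.coef, map_sum, map_mul, Finset.mul_sum, Finset.sum_mul]
    rw [Finset.sum_comm]
    refine Finset.sum_congr rfl fun i _ => Finset.sum_congr rfl fun b _ => ?_
    ring

end Pool.Agent.Lib.MP_776403_ag.SD.UN

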