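import Pool.Agent.Lib.MP_776403_ag.SD.UN.Spec5
import Pool.Agent.Lib.MP_776403_ag.SD.Bas

/-!
# THEOREM UN, (5b): sections of the conormal bundle on a line are combinations of gradients
-/

set_option autoImplicit false

open MvPolynomial

noncomputable section

namespace Pool.Agent.Lib.MP_776403_ag.SD.UN

open LI

theorem t5b (hLoc : S_Loc) (h5a : S_5a) : S_5b := by
  intro N c I hI hhom hsm x z hz n s hs
  obtain ⟨J, hJ⟩ : ∃ J : Ideal (Polynomial ℂ), ∀ p : Polynomial ℂ, p ∈ J ↔ p • s ∈ GM I x z :=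
    ⟨(GM I x z).comap (LinearMap.toSpanSingleton (Polynomial ℂ) _ s), fun p => by
      rw [Submodule.mem_comap, LinearMap.toSpanSingleton_apply]⟩
  -- the ideal `J` has no zero
  have key : ∀ t0 : ℂ, ∃ p ∈ J, Polynomial.eval t0 p ≠ 0 := by
    intro t0
    have hmem : x + t0 • z ∈ zer I := by
      have h := hz.2 1 t0
      rwa [one_smul] at h
    have hne : x + t0 • z ≠ 0 := by
      intro h0
      have h := LinearIndependent.pair_iff.1 hz.1 1 t0 (by rwa [one_smul])
      exact one_ne_zero h.1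
    obtain ⟨L⟩ := hLoc N c I hsm (x + t0 • z) hmem hne
    obtain ⟨-, hq⟩ := h5a N c I hI hhom hsm x z (x + t0 • z) hz 1 t0 (by rw [one_smul]) L
    have hq' := hq n s hs
    refine ⟨lin x z L.dt, (hJ _).2 ?_, ?_⟩
    · have e : lin x z L.dt • s = ∑ i, (∑ b, s (L.B b) * lin x z (L.M.adjugate b i)) •
          (fun l => lin x z (pderiv l (L.F i)) : Fin (N + 1) → Polynomial ℂ) := by
        funext l
        rw [Finset.sum_apply]
        simp only [Pi.smul_apply, smul_eq_mul]
        exact hq' l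
      rw [e]
      refine Submodule.sum_mem _ fun i _ => Submodule.smul_mem _ _ ?_
      exact Submodule.subset_span ⟨L.F i, L.memF i, rfl⟩
    · rw [lin_eval]
      exact L.detx
  have hJ1 : J = ⊤ := by
    obtain ⟨g, hg⟩ := (IsPrincipalIdealRing.principal J).principal
    have hdeg : g.degree = 0 := by
      by_contra hd
      obtain ⟨t0, ht0⟩ := IsAlgClosed.exists_root g hd
      obtain ⟨p, hp, hpe⟩ := key t0
      rw [hg] at hp
      obtain ⟨q, rfl⟩ := Submodule.mem_span_singleton.1 hp
      apply hpe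
      rw [smul_eq_mul, Polynomial.eval_mul, ht0, mul_zero]
    have hu : IsUnit g := Polynomial.isUnit_iff_degree_eq_zero.2 hdeg
    rw [Ideal.eq_top_iff_one, hg]
    refine Submodule.mem_span_singleton.2 ?_
    obtain ⟨v, hv⟩ := hu.exists_left_inv
    exact ⟨v, hv⟩
  have h1 : (1 : Polynomial ℂ) ∈ J := by
    rw [hJ1]
    exact Submodule.mem_top
  have h2 := (hJ 1).1 h1
  rwa [one_smul] at h2

end Pool.Agent.Lib.MP_776403_ag.SD.UN
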