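import Pool.Agent.Lib.MP_776403_ag.SD.UN.Spec5
import Pool.Agent.Lib.MP_776403_ag.SD.Minor

/-!
# THEOREM UN, (5c): gradients along a line are combinations of the sections of a type
-/

set_option autoImplicit false

open MvPolynomial

noncomputable section

namespace Pool.Agent.Lib.MP_776403_ag.SD.UN

open LI

namespace U5cAux

/-- Cramer's rule. -/
theorem cramer (hM : S_Minor) {ι : Type} [Fintype ι] [DecidableEq ι] {m : ℕ}
    (g : ι → Fin m → Polynomial ℂ) (s : Fin m → Polynomial ℂ)
    (hi : LinearIndependent ℂ (fun i k => (g i k).eval 0))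
    (hspan : ∀ t : ℂ, ∃ a : ι → ℂ, ∀ k, (s k).eval t = ∑ i, a i * (g i k).eval t) :
    ∃ (D : Polynomial ℂ) (L : ι → Polynomial ℂ), D ≠ 0 ∧ ∀ k, D * s k = ∑ i, L i * g i k := by
  obtain ⟨B, hB⟩ := hM ι m (fun i k => (g i k).eval 0) hi
  let A : Matrix ι ι (Polynomial ℂ) := Matrix.of fun i j => g i (B j)
  have hev : ∀ t : ℂ, (A.det).eval t = (Matrix.of fun i j => (g i (B j)).eval t).det := by
    intro t
    have h := RingHom.map_det (Polynomial.evalRingHom t) A
    rw [Polynomial.coe_evalRingHom] at h
    rw [h]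
    rfl
  have hD : A.det ≠ 0 := by
    intro h0
    have h1 := hev 0
    rw [h0, Polynomial.eval_zero] at h1
    exact hB h1.symm
  let L : ι → Polynomial ℂ := A.transpose.cramer fun j => s (B j)
  have hL : ∀ j, ∑ i, L i * g i (B j) = A.det * s (B j) := by
    intro j
    have h := congrFun (Matrix.mulVec_cramer A.transpose fun j => s (B j)) j
    rw [Matrix.det_transpose] at h
    rw [Pi.smul_apply, smul_eq_mul] at h
    rw [← h]
    refine Finset.sum_congr rfl fun i _ => ?_
    exact mul_comm _ _
  refine ⟨A.det, L, hD, fun k => ?_⟩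
  have h0 : A.det * (A.det * s k - ∑ i, L i * g i k) = 0 := by
    refine Polynomial.funext fun t => ?_
    rw [Polynomial.eval_mul, Polynomial.eval_zero]
    by_cases ht : A.det.eval t = 0
    · rw [ht, zero_mul]
    · have h1 : (A.det * s k - ∑ i, L i * g i k).eval t = 0 := by
        obtain ⟨a, ha⟩ := hspan t
        have h2 : Matrix.vecMul (fun i => A.det.eval t * a i - (L i).eval t)
            (Matrix.of fun i j => (g i (B j)).eval t) = 0 := by
          funext j
          have h3 := congrArg (Polynomial.eval t) (hL j)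
          rw [Polynomial.eval_finsetSum, Polynomial.eval_mul, ha (B j), Finset.mul_sum] at h3
          show ∑ i, (A.det.eval t * a i - (L i).eval t) * (g i (B j)).eval t = 0
          have h4 : ∑ i, (A.det.eval t * a i - (L i).eval t) * (g i (B j)).eval t =
              ∑ i, A.det.eval t * (a i * (g i (B j)).eval t) - ∑ i, (L i * g i (B j)).eval t := by
            rw [← Finset.sum_sub_distrib]
            refine Finset.sum_congr rfl fun i _ => ?_
            rw [Polynomial.eval_mul]
            ring
          rw [h4, h3, sub_self]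
        have h5 := Matrix.eq_zero_of_vecMul_eq_zero (by rw [← hev]; exact ht) h2
        have h6 : ∀ i, (L i).eval t = A.det.eval t * a i := fun i =>
          (sub_eq_zero.1 (congrFun h5 i)).symm
        rw [Polynomial.eval_sub, Polynomial.eval_mul, Polynomial.eval_finsetSum, ha k, Finset.mul_sum,
          ← Finset.sum_sub_distrib]
        refine Finset.sum_eq_zero fun i _ => ?_
        rw [Polynomial.eval_mul, h6]
        ring
      rw [h1, mul_zero]
  exact sub_eq_zero.1 ((mul_eq_zero.1 h0).resolve_left hD)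

/-- Division. -/
theorem div {ι : Type} [Fintype ι] {m : ℕ}
    (g : ι → Fin m → Polynomial ℂ) (s : Fin m → Polynomial ℂ)
    (hi : ∀ t : ℂ, LinearIndependent ℂ (fun i k => (g i k).eval t)) :
    ∀ (r : ℕ) (D : Polynomial ℂ) (L : ι → Polynomial ℂ), D.natDegree = r → D ≠ 0 →
      (∀ k, D * s k = ∑ i, L i * g i k) → ∃ L' : ι → Polynomial ℂ, ∀ k, s k = ∑ i, L' i * g i k := by
  intro r
  induction r with
  | zero =>
    intro D L hr hD h
    obtain ⟨a, rfl⟩ := Polynomial.natDegree_eq_zero.1 hr
    have ha : a ≠ 0 := by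
      rintro rfl
      exact hD (map_zero _)
    refine ⟨fun i => Polynomial.C a⁻¹ * L i, fun k => ?_⟩
    have h1 : ∑ i, Polynomial.C a⁻¹ * L i * g i k = Polynomial.C a⁻¹ * (Polynomial.C a * s k) := by
      rw [h k, Finset.mul_sum]
      exact Finset.sum_congr rfl fun i _ => mul_assoc _ _ _
    rw [h1, ← mul_assoc, ← map_mul, inv_mul_cancel₀ ha, map_one, one_mul]
  | succ r ih =>
    intro D L hr hD h
    have hdeg : D.degree ≠ 0 := by
      intro h0
      rw [Polynomial.degree_eq_natDegree hD, hr] at h0
      have : r + 1 = 0 := by exact_mod_cast h0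
      omega
    obtain ⟨t, ht⟩ := IsAlgClosed.exists_root D hdeg
    obtain ⟨D', hD'⟩ := Polynomial.dvd_iff_isRoot.2 ht
    have hD'0 : D' ≠ 0 := by
      rintro rfl
      exact hD (by rw [hD', mul_zero])
    have h1 : ∀ i, (L i).eval t = 0 := by
      have h2 := Fintype.linearIndependent_iff.1 (hi t) (fun i => (L i).eval t) (by
        funext k
        rw [Finset.sum_apply, Pi.zero_apply]
        have h3 := congrArg (Polynomial.eval t) (h k)
        rw [Polynomial.eval_mul, ht.eq_zero, zero_mul, Polynomial.eval_finsetSum] at h3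
        rw [h3]
        refine Finset.sum_congr rfl fun i _ => ?_
        rw [Polynomial.eval_mul]
        rfl)
      exact h2
    choose L' hL' using fun i => Polynomial.dvd_iff_isRoot.2 (h1 i)
    refine ih D' L' ?_ hD'0 fun k => ?_
    · rw [hD', Polynomial.natDegree_mul (Polynomial.X_sub_C_ne_zero t) hD'0,
        Polynomial.natDegree_X_sub_C] at hr
      omega
    · have h4 : (Polynomial.X - Polynomial.C t) * (D' * s k) =
          (Polynomial.X - Polynomial.C t) * ∑ i, L' i * g i k := by
        rw [← mul_assoc, ← hD', h k, Finset.mul_sum]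
        refine Finset.sum_congr rfl fun i _ => ?_
        rw [← mul_assoc, ← hL' i]
      exact mul_left_cancel₀ (Polynomial.X_sub_C_ne_zero t) h4

/-- The value of a section at a finite point of the line. -/
theorem hval_one {N : ℕ} (s : Fin (N + 1) → Polynomial ℂ) (n : ℕ) (hn : 1 ≤ n)
    (h : ∀ i, s i ∈ Polynomial.degreeLT ℂ n) (t : ℂ) :
    hval s n 1 t = fun k => (s k).eval t := by
  funext k
  have hd : (s k).natDegree < n := by
    by_cases h0 : s k = 0
    · rw [h0, Polynomial.natDegree_zero]
      omega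
    · have h1 := h k
      rw [Polynomial.mem_degreeLT, Polynomial.degree_eq_natDegree h0] at h1
      exact_mod_cast h1
  rw [Polynomial.eval_eq_sum_range' hd]
  show ∑ j ∈ Finset.range n, (s k).coeff j * 1 ^ (n - 1 - j) * t ^ j = _
  refine Finset.sum_congr rfl fun j _ => ?_
  rw [one_pow, mul_one]

end U5cAux

open U5cAux in
theorem t5c : S_SecVal → S_CN → S_5c := by
  intro hSV hCN N c I d hp hh hsm x z hl s hT
  have hv : ∀ (t : ℂ) (i : Fin c), hval (s i) (d i) 1 t = fun k => (s i k).eval t := fun t i =>
    hval_one (s i) (d i) (hT.one_le i) (hT.sec i).1 t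
  have hind : ∀ t : ℂ, LinearIndependent ℂ (fun (i : Fin c) k => (s i k).eval t) := by
    intro t
    have h1 := hT.ind 1 t (Or.inl one_ne_zero)
    rwa [funext (hv t)] at h1
  have hmem : ∀ (t : ℂ) (i : Fin c), (fun k => (s i k).eval t) ∈ CN I (x + t • z) := by
    intro t i
    have h1 := (hSV N c I hp hh hsm x z hl (d i) (s i) (hT.sec i).1).1 (hT.sec i) 1 t
      (Or.inl one_ne_zero)
    rwa [hv t i, one_smul] at h1
  have hspan : ∀ (t : ℂ), ∀ u ∈ CN I (x + t • z), ∃ a : Fin c → ℂ,
      ∀ k, u k = ∑ i, a i * (s i k).eval t := by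
    intro t u hu
    have h1 : Submodule.span ℂ (Set.range fun (i : Fin c) k => (s i k).eval t) =
        CN I (x + t • z) := by
      refine Submodule.eq_of_le_of_finrank_eq ?_ ?_
      · rw [Submodule.span_le]
        rintro _ ⟨i, rfl⟩
        exact hmem t i
      · rw [finrank_span_eq_card (hind t), Fintype.card_fin,
          (hCN N c I hsm _ (mem_zer_line hl t) (line_ne_zero' hl t)).1]
    rw [← h1, Submodule.mem_span_range_iff_exists_fun] at hu
    obtain ⟨a, ha⟩ := hu
    refine ⟨a, fun k => ?_⟩
    rw [← ha, Finset.sum_apply]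
    rfl
  have huniq : ∀ t : ℂ, ∀ a : Fin c → ℂ, (∀ k, ∑ i, a i * (s i k).eval t = 0) → ∀ i, a i = 0 := by
    intro t a ha
    refine Fintype.linearIndependent_iff.1 (hind t) a ?_
    funext k
    rw [Finset.sum_apply]
    exact ha k
  refine ⟨?_, ?_, ?_⟩
  · intro F hF
    obtain ⟨D, L, hD, hL⟩ := cramer tMinor s (fun l => lin x z (pderiv l F)) (hind 0) (by
      intro t
      have h1 := (hCN N c I hsm _ (mem_zer_line hl t) (line_ne_zero' hl t)).2.1 F hF
      obtain ⟨a, ha⟩ := hspan t _ h1
      refine ⟨a, fun k => ?_⟩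
      rw [← ha k]
      exact lin_eval x z _ t)
    exact div s (fun l => lin x z (pderiv l F)) hind D.natDegree D L rfl hD hL
  · intro r hr
    funext i
    refine Polynomial.funext fun t => ?_
    rw [Pi.zero_apply, Polynomial.eval_zero]
    refine huniq t (fun i => (r i).eval t) (fun k => ?_) i
    have h1 := congrArg (Polynomial.eval t) (hr k)
    rw [Polynomial.eval_finsetSum, Polynomial.eval_zero] at h1
    rw [← h1]
    exact Finset.sum_congr rfl fun i _ => Polynomial.eval_mul.symm
  · intro F _ r hr i₀ hi₀ i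
    have h1 := huniq 0 (fun i => (r i).eval 0 - if i = i₀ then 1 else 0) (fun k => by
      have h2 := congrArg (Polynomial.eval 0) (hr k)
      rw [lin_eval, zero_smul, add_zero, Polynomial.eval_finsetSum] at h2
      have h3 : grad F x k = (s i₀ k).eval 0 := by
        rw [hi₀ k, Polynomial.coeff_zero_eq_eval_zero]
      have h4 : ∑ i, ((r i).eval 0 - if i = i₀ then 1 else 0) * (s i k).eval 0 =
          ∑ i, (r i * s i k).eval 0 - (s i₀ k).eval 0 := by
        simp only [sub_mul, Finset.sum_sub_distrib, ite_mul, one_mul, zero_mul, Finset.sum_ite_eq',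
          Finset.mem_univ, if_true, Polynomial.eval_mul]
      rw [h4, ← h2, ← h3]
      exact sub_self _) i
    rw [Polynomial.coeff_zero_eq_eval_zero]
    exact sub_eq_zero.1 h1

end Pool.Agent.Lib.MP_776403_ag.SD.UN
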