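import Pool.Agent.Lib.MP_776403_ag.SD.UN.Spec5
import Pool.Agent.Lib.MP_776403_ag.SD.Bas
import Pool.Agent.Lib.MP_776403_ag.SD.E.Hom

/-!
# THEOREM UN, (5d): functionals on the ideal of the lines are sections of the dual
-/

set_option autoImplicit false

open MvPolynomial

noncomputable section

namespace Pool.Agent.Lib.MP_776403_ag.SD.UN

open LI

namespace D5Aux

variable {N : ℕ}

/-- The entries of the adjugate matrix are homogeneous (copy of a step of `eHom`). -/
theorem adj_hom {c : ℕ} {I : Ideal (Sx N)} {x : Vx N} (L : Loc I x c) (b i : Fin c) :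
    (L.M.adjugate b i).IsHomogeneous (L.dg - (L.f i - 1)) := by
  classical
  have hM : ∀ i b, (L.M i b).IsHomogeneous (L.f i - 1) := fun i b => (L.homF i).pderiv
  rw [Matrix.adjugate_apply]
  have h1 := HomAux.det_hom (L.M.updateRow i (Pi.single b 1))
    (Function.update (fun k => L.f k - 1) i 0) (by
      intro k l
      by_cases hk : k = i
      · subst hk
        rw [Matrix.updateRow_self, Function.update_self]
        by_cases hl : l = b
        · subst hl
          rw [Pi.single_eq_same]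
          exact isHomogeneous_one _ _
        · rw [Pi.single_eq_of_ne hl]
          exact isHomogeneous_zero _ _ _
      · rw [Matrix.updateRow_ne hk, Function.update_of_ne hk]
        exact hM k l)
  have h2 : ∑ k, Function.update (fun k => L.f k - 1) i 0 k = L.dg - (L.f i - 1) := by
    have h3 : L.dg = (L.f i - 1) + ∑ k ∈ Finset.univ.erase i, (L.f k - 1) :=
      (Finset.add_sum_erase _ (fun k => L.f k - 1) (Finset.mem_univ i)).symm
    rw [h3, ← Finset.add_sum_erase _ _ (Finset.mem_univ i), Function.update_self, zero_add,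
      Nat.add_sub_cancel_left]
    refine Finset.sum_congr rfl fun k hk => ?_
    rw [Function.update_of_ne (Finset.ne_of_mem_erase hk)]
  rwa [h2] at h1

/-! Pairs (vector, value), abstractly. -/

section

variable {R E : Type} [CommRing R] [AddCommGroup E] [Module R E]

theorem pair_smul {M : Submodule R (E × R)} {e : E} {p : R} (g : R) (h : (e, p) ∈ M) :
    (g • e, g * p) ∈ M := by
  have h1 := M.smul_mem g h
  rwa [Prod.smul_mk, smul_eq_mul] at h1

theorem pair_sum {M : Submodule R (E × R)} {ι : Type} [Fintype ι] {e : ι → E} {p : ι → R}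
    (g : ι → R) (h : ∀ i, (e i, p i) ∈ M) : (∑ i, g i • e i, ∑ i, g i * p i) ∈ M := by
  have h1 : (∑ i, g i • e i, ∑ i, g i * p i) = ∑ i, (g i • e i, g i * p i) := by
    rw [prod_mk_sum]
  rw [h1]
  exact M.sum_mem fun i _ => pair_smul (g i) (h i)

theorem pair_lift {S : Set (E × R)} {S' : Set E} (hS : ∀ e ∈ S', ∃ p, (e, p) ∈ S) {e : E}
    (he : e ∈ Submodule.span R S') : ∃ p, (e, p) ∈ Submodule.span R S := by
  induction he using Submodule.span_induction with
  | mem e he =>
    obtain ⟨p, hp⟩ := hS e he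
    exact ⟨p, Submodule.subset_span hp⟩
  | zero => exact ⟨0, Submodule.zero_mem _⟩
  | add u w _ _ hu hw =>
    obtain ⟨p, hp⟩ := hu
    obtain ⟨q, hq⟩ := hw
    exact ⟨p + q, Submodule.add_mem _ hp hq⟩
  | smul g w _ hw =>
    obtain ⟨q, hq⟩ := hw
    exact ⟨g * q, pair_smul g hq⟩

theorem pair_dvd {S : Set (E × R)} {X : R} (hS : ∀ q ∈ S, X ∣ q.2) {q : E × R}
    (hq : q ∈ Submodule.span R S) : X ∣ q.2 := by
  induction hq using Submodule.span_induction with
  | mem q hq => exact hS q hq
  | zero => exact dvd_zero _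
  | add u w _ _ hu hw => exact dvd_add hu hw
  | smul g w _ hw => exact hw.mul_left g

theorem pair_rel {S : Set (E × R)} (D : R) (φ : E →ₗ[R] R) (hS : ∀ q ∈ S, D * q.2 = φ q.1)
    {q : E × R} (hq : q ∈ Submodule.span R S) : D * q.2 = φ q.1 := by
  induction hq using Submodule.span_induction with
  | mem q hq => exact hS q hq
  | zero => rw [Prod.snd_zero, Prod.fst_zero, mul_zero, map_zero]
  | add u w _ _ hu hw => rw [Prod.snd_add, mul_add, hu, hw, Prod.fst_add, map_add]
  | smul g w _ hw =>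
    rw [Prod.smul_snd, Prod.smul_fst, smul_eq_mul, mul_left_comm, hw, map_smul, smul_eq_mul]

end

/-- The linear functional `e ↦ X ∑_b p_b e_(B b)`. -/
def fn {c : ℕ} (B : Fin c → Fin (N + 1)) (p : Fin c → Polynomial ℂ) :
    (Fin (N + 1) → Polynomial ℂ) →ₗ[Polynomial ℂ] Polynomial ℂ :=
  Polynomial.X (R := ℂ) • ∑ b, p b • LinearMap.proj (B b)

theorem fn_apply {c : ℕ} (B : Fin c → Fin (N + 1)) (p : Fin c → Polynomial ℂ)
    (e : Fin (N + 1) → Polynomial ℂ) : fn B p e = Polynomial.X * ∑ b, p b * e (B b) := by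
  unfold fn
  rw [LinearMap.smul_apply, smul_eq_mul, LinearMap.sum_apply]
  refine congrArg _ (Finset.sum_congr rfl fun b _ => ?_)
  rw [LinearMap.smul_apply, LinearMap.proj_apply, smul_eq_mul]

/-- The gradient along the line. -/
def gl (x z : Vx N) (F : Sx N) : Fin (N + 1) → Polynomial ℂ := fun l => lin x z (pderiv l F)

theorem gl_apply (x z : Vx N) (F : Sx N) (l : Fin (N + 1)) : gl x z F l = lin x z (pderiv l F) :=
  rfl

/-- The generating pairs. -/
def PS (I : Ideal (Sx N)) (x z : Vx N) (θ : Sx N → Polynomial ℂ) :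
    Set ((Fin (N + 1) → Polynomial ℂ) × Polynomial ℂ) := {q | ∃ F ∈ I, q = (gl x z F, θ F)}

/-- The module of the pairs (gradient along the line, value of the functional). -/
def PM (I : Ideal (Sx N)) (x z : Vx N) (θ : Sx N → Polynomial ℂ) :
    Submodule (Polynomial ℂ) ((Fin (N + 1) → Polynomial ℂ) × Polynomial ℂ) :=
  Submodule.span (Polynomial ℂ) (PS I x z θ)

theorem pm_gen {I : Ideal (Sx N)} {x z : Vx N} {θ : Sx N → Polynomial ℂ} {F : Sx N} (hF : F ∈ I) :
    (gl x z F, θ F) ∈ PM I x z θ :=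
  Submodule.subset_span ⟨F, hF, rfl⟩

theorem pm_lift {I : Ideal (Sx N)} {x z : Vx N} {θ : Sx N → Polynomial ℂ}
    {e : Fin (N + 1) → Polynomial ℂ} (he : e ∈ GM I x z) : ∃ p, (e, p) ∈ PM I x z θ := by
  refine pair_lift ?_ he
  rintro e ⟨F, hF, rfl⟩
  exact ⟨θ F, F, hF, rfl⟩

theorem pm_X {I : Ideal (Sx N)} {x z : Vx N} {θ : Sx N → Polynomial ℂ}
    (hX : ∀ F ∈ I, Polynomial.X ∣ θ F) {q : (Fin (N + 1) → Polynomial ℂ) × Polynomial ℂ}
    (hq : q ∈ PM I x z θ) : Polynomial.X ∣ q.2 := by
  refine pair_dvd ?_ hq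
  rintro q ⟨F, hF, rfl⟩
  exact hX F hF

/-- The pairs satisfy one linear relation, so the second member is determined by the first. -/
theorem pm_rel {c : ℕ} {I : Ideal (Sx N)} {x z : Vx N} {θ : Sx N → Polynomial ℂ}
    (D : Polynomial ℂ) (B : Fin c → Fin (N + 1)) (p : Fin c → Polynomial ℂ)
    (h : ∀ F ∈ I, D * θ F = Polynomial.X * ∑ b, p b * lin x z (pderiv (B b) F))
    {q : (Fin (N + 1) → Polynomial ℂ) × Polynomial ℂ} (hq : q ∈ PM I x z θ) :
    D * q.2 = fn B p q.1 := by
  refine pair_rel D (fn B p) ?_ hq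
  rintro q ⟨F, hF, rfl⟩
  rw [fn_apply]
  exact h F hF

end D5Aux

open D5Aux

theorem t5d : S_Loc → S_Hom → S_LinB → S_LinS → S_mapL → S_Th1 → S_5a → S_5b → S_5d := by
  intro hLoc hHom hLinB hLinS hmapL hTh1 h5a h5b N c I d hI hhom hsm x z hline s hTy lam hlam
  -- the points
  have hxI : x ∈ zer I := by
    have h := hline.2 1 0
    rwa [one_smul, zero_smul, add_zero] at h
  have hzI : z ∈ zer I := by
    have h := hline.2 0 1
    rwa [one_smul, zero_smul, zero_add] at h
  have hx0 : x ≠ 0 := by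
    intro h0
    have h := LinearIndependent.pair_iff.1 hline.1 1 0 (by rw [h0, smul_zero, zero_smul, add_zero])
    exact one_ne_zero h.1
  have hz0 : z ≠ 0 := by
    intro h0
    have h := LinearIndependent.pair_iff.1 hline.1 0 1 (by rw [h0, smul_zero, zero_smul, add_zero])
    exact one_ne_zero h.2
  -- the functional
  obtain ⟨hco, hadd, hmul⟩ := hmapL (Fin (N + 1)) z (JL I x) lam hlam
  obtain ⟨θ, hθ⟩ : ∃ θ : Sx N → Polynomial ℂ, ∀ F, θ F = mapL lam (linS x F) := ⟨_, fun _ => rfl⟩
  have hθc : ∀ (F : Sx N) (n : ℕ), (θ F).coeff n = lam ((linS x F).coeff n) := fun F n => by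
    rw [hθ, hco]
  have hmem : ∀ F ∈ I, ∀ n : ℕ, (linS x F).coeff n ∈ JL I x := fun F hF n =>
    Ideal.subset_span ⟨F, hF, n, rfl⟩
  have hmap : ∀ G : Sx N, (linS x G).map (eval z) = lin x z G := by
    intro G
    ext n
    rw [Polynomial.coeff_map]
    exact (hLinS N x G n).2.1 z
  have hθadd : ∀ F ∈ I, ∀ G ∈ I, θ (F + G) = θ F + θ G := fun F _ G _ => by
    rw [hθ, hθ, hθ, map_add, hadd]
  have hθmul : ∀ G : Sx N, ∀ F ∈ I, θ (G * F) = lin x z G * θ F := fun G F hF => by
    rw [hθ, hθ, map_mul, hmul _ _ (hmem F hF), hmap]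
  have hθdeg : ∀ F ∈ I, ∀ m : ℕ, F.IsHomogeneous m → (θ F).natDegree ≤ m := by
    intro F _ m hm
    rw [Polynomial.natDegree_le_iff_coeff_eq_zero]
    intro n hn
    rw [hθc, ((hLinS N x F n).2.2.2.1 m hm).2 hn, map_zero]
  have hθX : ∀ F ∈ I, Polynomial.X ∣ θ F := by
    intro F hF
    rw [Polynomial.X_dvd_iff, hθc, (hLinS N x F 0).2.2.2.2, hxI F hF, map_zero, map_zero]
  -- (1) the value is determined by the gradient
  obtain ⟨L⟩ := hLoc N c I hsm x hxI hx0
  have hD0 : lin x z L.dt ≠ 0 :=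
    (h5a N c I hI hhom hsm x z x hline 1 0 (by rw [one_smul, zero_smul, add_zero]) L).1
  have hrel := (hTh1 N c I x z L hI hline.2 θ hθadd hθmul hθdeg hθX).2
  have huniq : ∀ (e : Fin (N + 1) → Polynomial ℂ) (p p' : Polynomial ℂ),
      (e, p) ∈ PM I x z θ → (e, p') ∈ PM I x z θ → p = p' := by
    intro e p p' hp hp'
    have h1 := pm_rel _ _ _ hrel hp
    have h2 := pm_rel _ _ _ hrel hp'
    exact mul_left_cancel₀ hD0 (h1.trans h2.symm)
  -- the values on the sections
  have hP : ∀ i, ∃ p, (s i, p) ∈ PM I x z θ := fun i =>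
    pm_lift (h5b N c I hI hhom hsm x z hline (d i) (s i) (hTy.sec i))
  choose P hP using hP
  have hPX : ∀ i, ∃ h, P i = Polynomial.X * h := fun i => pm_X hθX (hP i)
  choose h hh using hPX
  refine ⟨h, fun i => ?_, fun F hF r hr => ?_⟩
  · -- (3) the degree
    obtain ⟨L'⟩ := hLoc N c I hsm z hzI hz0
    obtain ⟨hD', hq⟩ := h5a N c I hI hhom hsm x z z hline 0 1
      (by rw [one_smul, zero_smul, zero_add]) L'
    have hqi := hq (d i) (s i) (hTy.sec i)
    have hdt : L'.dt.IsHomogeneous L'.dg := (hHom N c I z x L').1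
    have hdg : (lin x z L'.dt).natDegree = L'.dg := by
      obtain ⟨h1, h2, -⟩ := (hLinB N x z L'.dt).2.1 L'.dg hdt
      refine le_antisymm h1 (Polynomial.le_natDegree_of_ne_zero ?_)
      rw [h2]
      exact L'.detx
    have hle : ∀ j, L'.f j - 1 ≤ L'.dg := (hHom N c I z x L').2.2.2.2.1
    obtain ⟨Q, hQ⟩ : ∃ Q : Fin c → Polynomial ℂ,
      ∀ j, Q j = ∑ b, s i (L'.B b) * lin x z (L'.M.adjugate b j) := ⟨_, fun _ => rfl⟩
    have hsdeg : ∀ l, (s i l).natDegree ≤ d i - 1 := by
      intro l
      have h1 := (hTy.sec i).1 l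
      rw [Polynomial.mem_degreeLT] at h1
      by_cases h0 : s i l = 0
      · rw [h0, Polynomial.natDegree_zero]
        exact Nat.zero_le _
      · have h2 := (Polynomial.natDegree_lt_iff_degree_lt h0).2 h1
        omega
    have hQdeg : ∀ j, (Q j).natDegree ≤ (d i - 1) + (L'.dg - (L'.f j - 1)) := by
      intro j
      rw [hQ]
      refine Polynomial.natDegree_sum_le_of_forall_le _ _ fun b _ => ?_
      refine Polynomial.natDegree_mul_le.trans (add_le_add (hsdeg _) ?_)
      exact ((hLinB N x z _).2.1 _ (adj_hom L' b j)).1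
    have heq : lin x z L'.dt * P i = ∑ j, Q j * θ (L'.F j) := by
      have h1 : lin x z L'.dt • s i = ∑ j, Q j • gl x z (L'.F j) := by
        funext l
        rw [Finset.sum_apply, Pi.smul_apply, smul_eq_mul, hqi l]
        refine Finset.sum_congr rfl fun j _ => ?_
        rw [Pi.smul_apply, smul_eq_mul, hQ, gl_apply]
      refine huniq _ _ _ (pair_smul (lin x z L'.dt) (hP i)) ?_
      rw [h1]
      exact pair_sum Q fun j => pm_gen (L'.memF j)
    have hRdeg : (∑ j, Q j * θ (L'.F j)).natDegree ≤ d i + L'.dg := by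
      refine Polynomial.natDegree_sum_le_of_forall_le _ _ fun j _ => ?_
      by_cases hf : L'.f j = 0
      · -- the equation is a constant, so zero
        have h1 : L'.F j = C (coeff 0 (L'.F j)) := by
          have h2 := L'.homF j
          rw [hf] at h2
          exact totalDegree_eq_zero_iff_eq_C.1 (Nat.le_zero.1 h2.totalDegree_le)
        have h3 : coeff 0 (L'.F j) = 0 := by
          have h4 := hzI _ (L'.memF j)
          rw [h1, eval_C] at h4
          exact h4
        have h5 : L'.F j = 0 := by rw [h1, h3, map_zero]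
        have h6 : θ (L'.F j) = 0 := by
          have h7 := hθmul 0 (L'.F j) (L'.memF j)
          rw [zero_mul, map_zero, zero_mul] at h7
          rw [h5]
          exact h7
        rw [h6, mul_zero, Polynomial.natDegree_zero]
        exact Nat.zero_le _
      · refine Polynomial.natDegree_mul_le.trans ((add_le_add (hQdeg j)
          (hθdeg _ (L'.memF j) _ (L'.homF j))).trans ?_)
        have h1 := hle j
        have h2 := hTy.one_le i
        omega
    rw [Polynomial.mem_degreeLT]
    by_cases h0 : h i = 0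
    · rw [h0, Polynomial.degree_zero]
      exact WithBot.bot_lt_coe _
    · rw [← Polynomial.natDegree_lt_iff_degree_lt h0]
      have hX0 : (Polynomial.X : Polynomial ℂ) ≠ 0 := Polynomial.X_ne_zero
      have h1 : (lin x z L'.dt * P i).natDegree = L'.dg + (1 + (h i).natDegree) := by
        rw [hh i, Polynomial.natDegree_mul hD' (mul_ne_zero hX0 h0),
          Polynomial.natDegree_mul hX0 h0, Polynomial.natDegree_X, hdg]
      rw [heq] at h1
      omega
  · -- (2) the formula
    rw [← hθ]
    have h1 : θ F = ∑ i, r i * P i := by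
      have h2 : gl x z F = ∑ i, r i • s i := by
        funext l
        rw [Finset.sum_apply, gl_apply, hr l]
        refine Finset.sum_congr rfl fun i _ => ?_
        rw [Pi.smul_apply, smul_eq_mul]
      refine huniq (gl x z F) _ _ (pm_gen hF) ?_
      rw [h2]
      exact pair_sum r hP
    rw [h1, Finset.mul_sum]
    refine Finset.sum_congr rfl fun i _ => ?_
    rw [hh i]
    ring

end Pool.Agent.Lib.MP_776403_ag.SD.UN
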