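import Pool.Agent.Lib.MP_776403_ag.SD.LI.Spec
import Pool.Agent.Lib.MP_776403_ag.SD.H.Defs
import Pool.Agent.Lib.MP_776403_ag.SD.WG.Defs
import Pool.Agent.Lib.MP_776403_ag.SD.W.Defs

/-!
# THEOREM UN: `n ≥ 2 deg X + 1`, no other hypothesis (note 4775).  Interfaces between the parts.

`a = c + s = ∑ d i`.  `J` = prime cone of lines through `x`, cut by the hyperplane `lam = 0`,
`lam(x) = 1`; affine dimension `N - a`.
-/

set_option autoImplicit false

open MvPolynomial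

noncomputable section

namespace Pool.Agent.Lib.MP_776403_ag.SD.UN

open LI

variable {N : ℕ}

/-! ## Definitions -/

/-- `X = V(I)` has dimension `n` and degree `D`: the Hilbert function grows like `D m^n / n!`. -/
def HasDeg (I : Ideal (Sx N)) (n D : ℕ) : Prop :=
  Filter.Tendsto (fun m : ℕ => (Module.finrank ℂ (gr I m) : ℝ) / (m : ℝ) ^ n) Filter.atTop
    (nhds ((D : ℝ) / (n.factorial : ℝ)))

/-- NUMBERS (output of U3, helper47): the Chern roots of the conormal bundle are `- d i`, all lines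
have degree `≥ ∑ d i`, and there are lines of degree `∑ d i` through every point. -/
structure Nm (I : Ideal (Sx N)) {c : ℕ} (d : Fin c → ℕ) : Prop where
  pos : 1 ≤ c
  one_le : ∀ i, 1 ≤ d i
  prime : I.IsPrime
  hom : IsHom I
  nd : ∀ F ∈ I, F.IsHomogeneous 1 → F = 0
  smooth : Smooth I c
  large : 2 * (∑ i, d i) + c + 1 ≤ N
  numW : ∀ J : Ideal (Sx N), J.IsPrime → IsHom J → I ≤ J → NumErr I J d c
  cov : ∀ y ∈ zer I, y ≠ 0 → ∃ v : Vx N, IsLine I y v ∧ DegEq I c (∑ i, d i) y v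
  low : ∀ (x v : Vx N) (b : ℕ), IsLine I x v → DegEq I c b x v → ∑ i, d i ≤ b
  clos : ∀ (x : Vx N) (P : Ideal (Sx N)), x ≠ 0 → P.IsPrime → IsHom P → DimGe P (c + 2) →
    (∀ z ∈ zer P, ∀ s t : ℂ, s • x + t • z ∈ zer I) → ∀ v ∈ zer P,
    LinearIndependent ℂ ![x, v] → DegEq I c (∑ i, d i) x v

/-- Sections `s i` of `N_X^*(b i)` on the line `span (x, v)`, independent at every point. -/
structure Ty (I : Ideal (Sx N)) (x v : Vx N) {c : ℕ} (b : Fin c → ℕ)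
    (s : Fin c → (Fin (N + 1) → Polynomial ℂ)) : Prop where
  one_le : ∀ i, 1 ≤ b i
  sec : ∀ i, s i ∈ Sec I x v (b i)
  ind : ∀ σ τ : ℂ, (σ ≠ 0 ∨ τ ≠ 0) → LinearIndependent ℂ fun i => hval (s i) (b i) σ τ

/-- The ideal of the lines through `x`: the coefficients of the `F(x + t v)`, `F ∈ I`. -/
def JL (I : Ideal (Sx N)) (x : Vx N) : Ideal (Sx N) :=
  Ideal.span {f | ∃ F ∈ I, ∃ n : ℕ, f = (linS x F).coeff n}

/-- The index set of the equations of the lines through `x`: `⟨i, j⟩` stands for the coefficient of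
`t^(j + 1)` of `F_i (x + t v)`, `j < d i`. -/
abbrev Ex {c : ℕ} (d : Fin c → ℕ) : Type := Σ i : Fin c, Fin (d i)

/-- The coefficient of `t^(j + 1)` of `F_i (x + t v)`, a form of degree `j + 1` in `v`. -/
def gT {c : ℕ} (d : Fin c → ℕ) (F : Fin c → Sx N) (x : Vx N) (e : Ex d) : Sx N :=
  (linS x (F e.1)).coeff (e.2.1 + 1)

/-- The line `span (x, v)` is free: every tangent vector at `x` moves it. -/
def FreeL (I : Ideal (Sx N)) (x v : Vx N) : Prop :=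
  ∀ τ ∈ TS I x, ∃ τ' : Vx N, ∀ s t : ℂ, s • τ + t • τ' ∈ TS I (s • x + t • v)

/-- `J` is a cone of lines through `x` in the hyperplane `lam = 0`. -/
structure Cn (I : Ideal (Sx N)) (x lam : Vx N) (J : Ideal (Sx N)) : Prop where
  x0 : x ≠ 0
  xI : x ∈ zer I
  lamx : dp lam x = 1
  prime : J.IsPrime
  hom : IsHom J
  lamJ : lf lam ∈ J
  line : ∀ z ∈ zer J, ∀ s t : ℂ, s • x + t • z ∈ zer I

/-- THE CONE OF THE LINES THROUGH `x` IS A SMOOTH COMPLETE INTERSECTION (output of U6). -/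
structure LC (I : Ideal (Sx N)) {c : ℕ} (d : Fin c → ℕ) (x lam : Vx N) (g : Ex d → Sx N)
    (J : Ideal (Sx N)) : Prop where
  cn : Cn I x lam J
  one_le : ∀ i, 1 ≤ d i
  hom : ∀ e, (g e).IsHomogeneous (e.2.1 + 1)
  tan : ∀ v : Vx N, (∀ e : Ex d, e.2.1 = 0 → eval v (g e) = 0) ↔ v ∈ TS I x
  eq : J = Ideal.span (Set.range g) ⊔ Ideal.span {lf lam}
  free : ∀ z ∈ zer J, z ≠ 0 → FreeL I x z
  ind : ∃ z ∈ zer J, z ≠ 0 ∧
    LinearIndependent ℂ (fun o : Option (Ex d) => o.elim lam fun e => grad (g e) z)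
  hf : ∀ k, (Module.finrank ℂ (gr J k) : ℤ) =
    hcG (fun o : Option (Ex d) => o.elim 1 fun e => e.2.1 + 1) N k

/-- A LARGE FAMILY OF LINES OF TYPE `d` THROUGH `x` with fixed values `ξ i` at `x` (output of V3);
`∑ d i + 2`: every component of dimension `≥ N - ∑ d i` meets it. -/
structure FT (I : Ideal (Sx N)) {c : ℕ} (d : Fin c → ℕ) (x lam : Vx N) (ξ : Fin c → Vx N)
    (J₀ : Ideal (Sx N)) : Prop where
  cn : Cn I x lam J₀
  dim : DimGe J₀ (∑ i, d i + 2)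
  ind : LinearIndependent ℂ ξ
  ty : ∀ z ∈ zer J₀, z ≠ 0 → ∃ s : Fin c → (Fin (N + 1) → Polynomial ℂ),
    Ty I x z d s ∧ ∀ i l, (s i l).coeff 0 = ξ i l

/-! ## The parts -/

/-- (U3) NUMBERS from the degree.  `c ≥ 2`.  (helper47) -/
def S_U3 : Prop :=
  ∀ (N n c D : ℕ) (I : Ideal (Sx N)), N = n + c → 2 ≤ c → I.IsPrime → IsHom I →
    (∀ F ∈ I, F.IsHomogeneous 1 → F = 0) → Smooth I c → HasDeg I n D → 2 * D + 1 ≤ n →
    ∃ d : Fin c → ℕ, Nm I d ∧ ∑ i, d i ≤ D ∧ D = ∏ i, d i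

/-- (V3) PLAN V, parts (2), (3) (helper60): all `d i ≥ 2`, and a large family of lines of type `d`
through every point.  (`2 deg X + 1 ≤ n`, `deg X = ∏ d i`.) -/
def S_V3 : Prop :=
  ∀ (N c : ℕ) (I : Ideal (Sx N)) (d : Fin c → ℕ), 2 ≤ c → Nm I d → ∑ i, d i ≤ ∏ i, d i →
    2 * (∏ i, d i) + c + 1 ≤ N → (∀ i, 2 ≤ d i) ∧
    ∀ x ∈ zer I, x ≠ 0 → ∃ (lam : Vx N) (ξ : Fin c → Vx N) (J₀ : Ideal (Sx N)),
      FT I d x lam ξ J₀

/-- (U5) The Taylor forms generate the ideal of the lines locally at a line of type `d`.  `F i ∈ I` has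
the gradient `s i (0)` at `x`.  (helper7) -/
def S_U5 : Prop :=
  ∀ (N c : ℕ) (I : Ideal (Sx N)) (d : Fin c → ℕ), I.IsPrime → IsHom I → Smooth I c →
    ∀ x z : Vx N, IsLine I x z → ∀ s : Fin c → (Fin (N + 1) → Polynomial ℂ), Ty I x z d s →
    ∀ F : Fin c → Sx N, (∀ i, F i ∈ I ∧ ∀ l, grad (F i) x l = (s i l).coeff 0) →
    JL I x ≤ Ideal.span (Set.range (gT d F x)) ⊔ ptI z * JL I x

/-- (U6a) All lines through general points are free. -/
def S_U6a : Prop :=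
  ∀ (N c : ℕ) (I : Ideal (Sx N)), I.IsPrime → IsHom I → Smooth I c →
    ∃ g : Sx N, g ∉ I ∧ ∀ x v : Vx N, IsLine I x v → eval x g ≠ 0 → FreeL I x v

/-- (U6b) The equations of a free line of degree `a` have a gradient space of dimension `≥ a`. -/
def S_U6b : Prop :=
  ∀ (N c a : ℕ) (I : Ideal (Sx N)), I.IsPrime → IsHom I → Smooth I c → ∀ x z : Vx N,
    IsLine I x z → DegEq I c a x z → FreeL I x z →
    a ≤ Module.finrank ℂ (Submodule.span ℂ {u : Vx N | ∃ F ∈ I, ∃ n : ℕ,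
      u = grad ((linS x F).coeff n) z})

/-- (U6) The cone of the lines through a general point is a smooth complete intersection.
(helper44) -/
def S_U6 : Prop :=
  ∀ (N c : ℕ) (I : Ideal (Sx N)) (d : Fin c → ℕ), Nm I d → ∀ (x lam : Vx N) (ξ : Fin c → Vx N)
    (J₀ : Ideal (Sx N)), FT I d x lam ξ J₀ → (∀ z : Vx N, IsLine I x z → FreeL I x z) →
    ∀ F : Fin c → Sx N, (∀ i, F i ∈ I ∧ grad (F i) x = ξ i) →
    (∀ z ∈ zer J₀, z ≠ 0 → JL I x ≤ Ideal.span (Set.range (gT d F x)) ⊔ ptI z * JL I x) →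
    ∃ J : Ideal (Sx N), LC I d x lam (gT d F x) J

/-- (U7) RegBound from the lines through one point. -/
def S_U7 : Prop :=
  ∀ (N c : ℕ) (I : Ideal (Sx N)) (d : Fin c → ℕ), I.IsPrime → IsHom I → Smooth I c →
    ∀ (x lam : Vx N) (g : Ex d → Sx N) (J : Ideal (Sx N)), LC I d x lam g J → RegBound I d

/-- THEOREM UN. -/
def S_UN : Prop :=
  ∀ (N n c D : ℕ) (I : Ideal (Sx N)), N = n + c → 1 ≤ c → I.IsPrime → IsHom I →
    (∀ F ∈ I, F.IsHomogeneous 1 → F = 0) → Smooth I c → HasDeg I n D → 2 * D + 1 ≤ n →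
    ∃ (d : Fin c → ℕ) (G : Fin c → Sx N), (∀ i, 2 ≤ d i ∧ (G i).IsHomogeneous (d i)) ∧
      I = Ideal.span (Set.range G)

end Pool.Agent.Lib.MP_776403_ag.SD.UN
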