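import Pool.Agent.Lib.MP_776403_ag.SD.UN.SpecT

/-!
# THEOREM UN, part U7 (helper7): RegBound from the lines through ONE point

`LC I d x lam g J`: the cone `zer J` of the lines through `x` is a smooth complete intersection of forms
of the degrees `1` (`lam`) and `j + 1` (`g ⟨i, j⟩`, `j < d i`), all lines are free.  A regular function `f` of
degree `k` has a Taylor expansion `τ = ∑ λ_r ε^r ∈ ℂ[y][[ε]]` at `x`; its leading form `λ_r` satisfies `D_x λ_r = 0`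
(Euler), and if `r = k + m` then all derivatives of `λ_r` of order `< m` vanish on the lines, so `λ_r ∈ J^m`; counting
gives `RegBound`.

Statements with complete proofs in the docstrings; `S_Xyz` is proved in the file `SD/UN/Xyz.lean`
(theorem `SD.UN.tXyz`).
-/

set_option autoImplicit false

open MvPolynomial

noncomputable section

namespace Pool.Agent.Lib.MP_776403_ag.SD.UN

open LI

variable {N : ℕ}

/-! ## 1. Regular functions and their expansions -/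

/-- `D_w P = ∑ w_l ∂_l P`. -/
def Dw (w : Fin (N + 1) → Sx N) (P : Sx N) : Sx N := ∑ l, w l * pderiv l P

/-- `P / Q` is a regular function of degree `k` on the punctured cone over `X`, and `Q (x) ≠ 0`. -/
structure RF (I : Ideal (Sx N)) (x : Vx N) (k : ℕ) (P Q : Sx N) : Prop where
  hom : ∃ e : ℕ, P.IsHomogeneous (e + k) ∧ Q.IsHomogeneous e
  ne : eval x Q ≠ 0
  loc : ∀ y ∈ zer I, y ≠ 0 → ∃ (P' Q' : Sx N) (e : ℕ), P'.IsHomogeneous (e + k) ∧
    Q'.IsHomogeneous e ∧ eval y Q' ≠ 0 ∧ P * Q' - P' * Q ∈ I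

/-- (RA) Regular functions as fractions with a common denominator.

PROOF.  `IsReg` at `x` for `f i`: `P⁰_i / Q_i`, `Q_i (x) ≠ 0`, `f i = P⁰_i / Q_i` on the punctured cone (in the form
`f i z * Q_i z = P⁰_i z`).  `Q = ∏ Q_i`, `P_i = P⁰_i ∏_(j ≠ i) Q_j`: `f i z * Q z = P_i z`; degrees: `Q` of degree
`e = ∑ e_i`, `P_i` of degree `e + k`.  For `a`: `P_a = ∑ C (a i) * P_i`.  `loc` at `y`: `IsReg` at `y` for all `f i`:
`P'_i / Q'_i`; `Q' = ∏ Q'_i`, `P' = ∑_i C (a i) P'_i ∏_(j ≠ i) Q'_j`; the form `P_a Q' - P' Q` vanishes on the punctured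
cone (both `P_a Q'` and `P' Q` are `(∑ a_i f_i) Q Q'` there), so it is in `I` (`S_Null`, second part; `x` is a point).
Last claim: let `P_a ∈ I`, `y ∈ zer I`, `y ≠ 0`, `P'`, `Q'` as before: `P' Q ∈ I`, `Q ∉ I` (`Q (x) ≠ 0`), so `P' ∈ I` and
`(∑ a_i f_i)(y) Q'(y) = P'(y) = 0`, `Q'(y) ≠ 0`.  For the other `y` `f i y = 0` (`IsReg`).  So `∑ a_i f_i = 0` and
`a = 0`. -/
def S_RA : Prop :=
  ∀ (N : ℕ) (I : Ideal (Sx N)), I.IsPrime → IsHom I → ∀ x ∈ zer I, x ≠ 0 → ∀ (k r : ℕ)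
    (f : Fin r → (Vx N → ℂ)), (∀ i, IsReg I k (f i)) → LinearIndependent ℂ f →
    ∃ (P : Fin r → Sx N) (Q : Sx N), (∀ a : Fin r → ℂ, RF I x k (∑ i, C (a i) * P i) Q) ∧
      ∀ a : Fin r → ℂ, ∑ i, C (a i) * P i ∈ I → a = 0

/-- (RR) Restriction to a line.

PROOF.  `lin = lin x z`; `lin` kills `I` (`S_LinB`, `IsLine`).  `lin Q ≠ 0` (constant coefficient `Q (x)`).  The ideal
`{p | lin Q ∣ p * lin P}` of `ℂ[t]` contains for every `t₀` the polynomial `lin Q'`, `(lin Q').eval t₀ = Q'(x + t₀ z) ≠ 0`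
(`loc` at `y = x + t₀ z ∈ zer I`, `≠ 0`: `lin P * lin Q' = lin P' * lin Q`), so it has no zero and contains `1`:
`lin P = lin Q * ρ`.  Degree: `loc` at `y = z` (`z ∈ zer I`, `z ≠ 0`): `lin Q'` has degree exactly `e` (coefficient `Q'(z)`,
`S_LinB`) and `ρ * lin Q' = lin P'` (cancel `lin Q`) has degree `≤ e + k`. -/
def S_RR : Prop :=
  ∀ (N k : ℕ) (I : Ideal (Sx N)) (x z : Vx N) (P Q : Sx N), IsLine I x z → RF I x k P Q →
    ∃ ρ : Polynomial ℂ, ρ.natDegree ≤ k ∧ lin x z Q * ρ = lin x z P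

/-- (RD) Derivatives of regular functions along tangent fields.

PROOF.  `Dw w` is a derivation; `Dw w I ⊆ I` (`w ∈ TF I`: definition; commute the factors).  Degrees: if `P` is a form
of degree `e + k` then `Dw w P` is a form of degree `e + k + m` (if `e + k = 0` then `P` is a constant and `Dw w P = 0`),
`Dw w Q` of degree `e + m` (`0` if `e = 0`); `Q * Dw w P - P * Dw w Q` has degree `2 e + k + m`, `Q * Q` degree `2 e`.
`loc`: with `P'`, `Q'` at `y` take `Q' * Dw w P' - P' * Dw w Q'` and `Q' * Q'`: from `E = P Q' - P' Q ∈ I`,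
`Dw w E = P Dw Q' + Q' Dw P - P' Dw Q - Q Dw P' ∈ I`; multiply by `Q Q'` and replace `P Q Q' Dw Q'` by `P' Q^2 Dw Q'` and
`P' Q Q' Dw Q` by `P Q'^2 Dw Q` (modulo `I`, by `E`): `(Q Dw P - P Dw Q) Q'^2 - (Q' Dw P' - P' Dw Q') Q^2 ∈ I`. -/
def S_RD : Prop :=
  ∀ (N k m : ℕ) (I : Ideal (Sx N)) (x : Vx N) (P Q : Sx N), RF I x k P Q →
    ∀ w ∈ TF I, (∀ l, (w l).IsHomogeneous (m + 1)) →
    RF I x (k + m) (Q * Dw w P - P * Dw w Q) (Q * Q)

/-- `ev_z`, `z` a point with the coordinates `z_j`, `j ∉ B`. -/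
def evz {r : ℕ} {B : Fin r → Fin (N + 1)} (z : Vx N) (p : PowerSeries (Ay B)) : PowerSeries ℂ :=
  PowerSeries.map (eval fun j : Bn B => z j.1) p

/-- (RT) The formal parametrization of `X` at `x`.

PROOF.  `Par`: `L.F i ∈ I` vanishes at `x ∈ zer I`, `L.injB`, `L.detx`.  (b) `L.h * G ∈ span (range L.F)` (`L.mul`), so
`T L.h * T G = 0`; `T L.h ≠ 0` (constant coefficient `C (h(x)) ≠ 0`), `A[[ε]]` is a domain.  (c) `S_TKer`: `h F ∈ span ⊆ I`,
`h ∉ I` (`h (x) ≠ 0`), `I` prime.  (d) `S_TUn` with `ψ F = ` the power series of the polynomial `lin x z F`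
(`Polynomial.coeToPowerSeries.algHom` or `Polynomial.coeToPowerSeries.ringHom` composed with `lin x z`), `y_j = z_j`:
`lin x z (X j) = x_j + z_j t`, `lin x z (L.F i) = 0` (line in `X`, `S_LinB`), constant coefficient `F(x)`.
(e) `S_TCh`: `∑ w_l ∂_l (L.F i) ∈ I` (`w ∈ TF I`), so its `T` is `0` by (b). -/
def S_RT : Prop :=
  ∀ (N c : ℕ) (I : Ideal (Sx N)), I.IsPrime → IsHom I → ∀ (x : Vx N) (L : Loc I x c),
    Par x L.F L.B ∧ ∀ T : Sx N →ₐ[ℂ] PowerSeries (Ay L.B), PT x L.F L.B T →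
      (∀ F ∈ I, T F = 0) ∧ (∀ F, T F = 0 → F ∈ I) ∧
      (∀ z : Vx N, (∀ s t : ℂ, s • x + t • z ∈ zer I) → ∀ F : Sx N,
        evz z (T F) = (lin x z F : PowerSeries ℂ)) ∧
      ∀ w ∈ TF I, ∀ F : Sx N,
        PowerSeries.X * T (Dw w F) = ∑ j : Bn L.B, T (w j.1) * Dy j (T F)

/-- (RQ) Expansions of fractions.

PROOF.  `T Q` is a unit of `A[[ε]]` (constant coefficient `C (Q(x))`, a unit of `A`): `τ = (T Q)⁻¹ T P`, unique.
Homogeneity: the coefficient `n` of `τ` is determined recursively by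
`C (Q(x)) τ_n = (T P)_n - ∑_(i < n) (T Q)_(n-i) τ_i`, homogeneous of degree `n` (`PT.hom`), strong induction.  Derivative:
apply `𝒟 = ∑_j T(w_j) Dy j` (a derivation of `A[[ε]]`) to `T Q τ = T P`: `𝒟(T Q) τ + T Q 𝒟 τ = 𝒟(T P)`, `𝒟(T F) = ε T(D_w F)`
(hypothesis); multiply by `T Q` and use `T Q τ = T P`: `T Q^2 𝒟 τ = ε (T Q T(D_w P) - T P T(D_w Q)) = ε T(Q^2) τ'`; cancel the
unit. -/
def S_RQ : Prop :=
  ∀ (N r : ℕ) (x : Vx N) (f : Fin r → Sx N) (B : Fin r → Fin (N + 1))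
    (T : Sx N →ₐ[ℂ] PowerSeries (Ay B)), PT x f B T → ∀ P Q : Sx N, eval x Q ≠ 0 →
    (∃ τ : PowerSeries (Ay B), T Q * τ = T P) ∧ T Q ≠ 0 ∧
    (∀ (n : ℕ) (τ : PowerSeries (Ay B)), T Q * τ = T P → (PowerSeries.coeff n τ).IsHomogeneous n) ∧
    ∀ w : Fin (N + 1) → Sx N,
      (∀ F : Sx N, PowerSeries.X * T (Dw w F) = ∑ j : Bn B, T (w j.1) * Dy j (T F)) →
      ∀ τ τ' : PowerSeries (Ay B), T Q * τ = T P → T (Q * Q) * τ' = T (Q * Dw w P - P * Dw w Q) →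
        PowerSeries.X * τ' = ∑ j : Bn B, T (w j.1) * Dy j τ

/-! ## 2. The order along a free line -/

/-- (RF1) TANGENT FIELDS WITH PRESCRIBED RESTRICTION TO A LINE.

PROOF.  Let `𝔟 ⊆ S` be the ideal generated by the forms `G` (of any degree `e`) with property `(*)`: there is `w ∈ TF I` with
entries homogeneous of degree `e + 1` and `eval (s x + t z) (w l) = eval (s x + t z) G * (s τ + t τ')_l` for all `s, t`, `l`.  A form
which vanishes on the line has `(*)` (`w = 0`).  For a point `y = σ x + θ z ≠ 0` of the line and `L : Loc I y c` the form `L.dt` has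
`(*)`: choose linear forms `ℓ_j`, `j : L.Bc`, with `ℓ_j (s x + t z) = s τ_j + t τ'_j` (`x, z` independent) and
`w l = ∑_j ℓ_j * L.cr j l`, in `TF I` (`S_Cr`), homogeneous of degree `L.dg + 1` (`S_Hom`): at `p = s x + t z` the vector
`v = s τ + t τ' ∈ TS I p` is orthogonal to the `grad F_i (p)`, `F_i = L.F i`, so by Cramer (`M_coef`, `adj_M` in `E/CrL.lean`)
`Δ(p) v_(B b) = - ∑_j coef b j (p) v_j`, i.e. `Δ(p) v_l = ∑_j v_j (L.cr j l)(p)` for all `l`.  So the zeros of `𝔟` are `0` only (a point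
outside the line is separated by a linear form vanishing on the line).  `S_D6'`: all forms of degree `e ≥ e₀` are in `𝔟`; such a
form `G` is (take components) a combination `∑ A_i G_i` with forms `A_i`, `G_i` with `(*)` and `deg A_i + deg G_i = e`, so `G` has `(*)`
(`TF I` is a module).  Apply this to `G = α^e`, `α` a linear form with `α(s x + t z) = s`, and to `α'^e`, `α'(s x + t z) = t`; then
`lin x z (w l) = C (τ l) + C (τ' l) X` resp. `X^e * (…)` (compare values at all `t`, `s = 1`). -/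
def S_RF1 : Prop :=
  ∀ (N c : ℕ) (I : Ideal (Sx N)), I.IsPrime → IsHom I → Smooth I c → ∀ x z : Vx N, IsLine I x z →
    ∀ τ τ' : Vx N, (∀ s t : ℂ, s • τ + t • τ' ∈ TS I (s • x + t • z)) →
    ∃ e₀ : ℕ, ∀ e ≥ e₀, ∃ w w' : Fin (N + 1) → Sx N, w ∈ TF I ∧ w' ∈ TF I ∧
      (∀ l, (w l).IsHomogeneous (e + 1) ∧ (w' l).IsHomogeneous (e + 1)) ∧
      ∀ l, lin x z (w l) = Polynomial.C (τ l) + Polynomial.C (τ' l) * Polynomial.X ∧
        lin x z (w' l) = Polynomial.X ^ e * (Polynomial.C (τ l) + Polynomial.C (τ' l) * Polynomial.X)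

/-- Iterated derivatives. -/
def DyL {r : ℕ} {B : Fin r → Fin (N + 1)} (l : List (Bn B)) (p : PowerSeries (Ay B)) :
    PowerSeries (Ay B) := l.foldr Dy p

/-- (RO1) ITERATED FIELDS, ALGEBRA.

PROOF.  Induction on `μ`.  For `μ = 0`: the sum is `τ 0` (one function, empty list, empty product).  Step: let
`E_μ = X^μ τ_μ - ∑_(j : Fin μ → Bn B) (∏_i W i (j i)) DyL (reversed list of j) τ_0`, an element of the `A[[ε]]`-span
`𝒩_μ` of the `DyL l τ_0`, `l.length < μ`.  `X^(μ+1) τ_(μ+1) = X^μ ∑_j' W μ j' Dy j' τ_μ = ∑_j' W μ j' Dy j' (X^μ τ_μ)` (`Dy` commutes with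
multiplication by `X^μ`), and `Dy j' (p * DyL l τ_0) = Dy j' p * DyL l τ_0 + p * DyL (j' :: l) τ_0`: `Dy j'` maps `𝒩_μ` to
`𝒩_(μ+1)`, and on the main terms it gives the main terms of `μ + 1` (`Fin.snoc`, the new index in front of the list) and
elements of `𝒩_(μ+1)`.  `(List.ofFn j).reverse` for `Fin.snoc j j'` is `j' :: (List.ofFn j).reverse`. -/
def S_RO1 : Prop :=
  ∀ (N r : ℕ) (B : Fin r → Fin (N + 1)) (μ : ℕ) (W : ℕ → Bn B → PowerSeries (Ay B))
    (τ : ℕ → PowerSeries (Ay B)),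
    (∀ i < μ, PowerSeries.X * τ (i + 1) = ∑ j : Bn B, W i j * Dy j (τ i)) →
    PowerSeries.X ^ μ * τ μ -
      ∑ j : Fin μ → Bn B, (∏ i : Fin μ, W i (j i)) * DyL (List.ofFn j).reverse (τ 0) ∈
      Submodule.span (PowerSeries (Ay B)) {p | ∃ l : List (Bn B), l.length < μ ∧ p = DyL l (τ 0)}

/-- (RO2) Tensor powers of an invertible matrix are injective.

PROOF.  Induction on `μ`: for fixed `κ_0` and fixed `j_1, …`, or: `t(j) = ∑_κ (∏ V⁻¹ (j_i, κ_i)) ∑_j' (∏ V κ_i j'_i) t(j')`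
(`Finset.prod_univ_sum`, `Matrix.mul_apply`); over a domain with `det V ≠ 0` use the adjugate:
`∑_κ (∏_i adj(V) (j_i, κ_i)) ∑_j' (∏_i V κ_i j'_i) t(j') = (det V)^μ t(j)`. -/
def S_RO2 : Prop :=
  ∀ (β R : Type) [Fintype β] [DecidableEq β] [CommRing R] [IsDomain R] (V : Matrix β β R),
    V.det ≠ 0 → ∀ (μ : ℕ) (t : (Fin μ → β) → R),
    (∀ κ : Fin μ → β, ∑ j : Fin μ → β, (∏ i, V (κ i) (j i)) * t j = 0) → t = 0

/-- (RO) THE ORDER ALONG A FREE LINE.

PROOF.  `L`, `T` as in `S_RT`; `A[[ε]]`, `ℂ[[ε]]` are domains, `ev = evz z` is a ring homomorphism (`PowerSeries.map`).  CLAIM: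
`ev (DyL l τ) = 0` for all lists `l` of length `< m`; by strong induction on the length `μ < m`.
(1) For `κ : Bn L.B` let `τ^κ ∈ TS I x` with `τ^κ_j = [j = κ]` for `j : Bn L.B` (`τ^κ = Δ(x)⁻¹ (cr κ l (x))_l`, `S_Cr`, or
dimension), `τ'^κ` from `FreeL`, `V κ j = τ^κ_j + ε τ'^κ_j ∈ ℂ[[ε]]`; the constant coefficient of `det V` is `1`, so `det V ≠ 0`.
(2) Let `e` be `≥` all the `e₀` of `S_RF1` for the pairs `(τ^κ, τ'^κ)`, `w^κ`, `w'^κ` the fields.
(3) Let `κ : Fin μ → Bn L.B`.  Starting from `(P_0, Q_0) = (P, Q)` define `(P_(i+1), Q_(i+1)) = (Q_i D_w P_i - P_i D_w Q_i, Q_i^2)`, `w = w^(κ i)`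
(for `i ≥ μ` anything), `RF I x (k + i e) P_i Q_i` (`S_RD` with `m = e`); `τ_i` with `T Q_i τ_i = T P_i` (`S_RQ`), `τ_0 = τ`;
`X τ_(i+1) = ∑_j T(w_j) Dy j τ_i` (`S_RQ`, `S_RT` (e)).  In the same way `P'_i, Q'_i, τ'_i` with the `w'`.
`S_RO1` and the induction hypothesis (`ev` kills `DyL l τ`, `l.length < μ`, hence the span), `ev (T(w^κ_j)) = lin x z (w^κ_j) = V κ j`
(`S_RT` (d)) and `ev (T(w'^κ_j)) = X^e V κ j`: with `t(j) = ev (DyL (List.ofFn j).reverse τ)`, `Σ = ∑_j (∏_i V (κ i) (j i)) t(j)`: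
`X^μ ev(τ_μ) = Σ`, `X^μ ev(τ'_μ) = X^(e μ) Σ`.  So `ev(τ'_μ) = X^(e μ) ev(τ_μ)`.
(4) `ρ`, `ρ'` of `S_RR` for `(P_μ, Q_μ)`, `(P'_μ, Q'_μ)` (degrees `k + μ e`): `ev(τ_μ) = ρ`, `ev(τ'_μ) = ρ'` in `ℂ[[ε]]` (apply `ev` to
`T Q τ = T P`, `ev (T F) = lin F`, cancel `lin Q_μ ≠ 0`).  So `ρ' = X^(e μ) ρ`, and `natDegree ρ' ≤ k + μ e` gives `ρ = 0` or
`natDegree ρ ≤ k`.
(5) `X^(k+m) ∣ τ_0`, and `X^a ∣ τ_i` implies `X^a ∣ X τ_(i+1)` (`Dy` preserves divisibility by `X^a`), so `X^(a-1) ∣ τ_(i+1)`: `X^(k+m-μ) ∣ τ_μ`,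
`k + m - μ ≥ k + 1`, so `X^(k+1) ∣ ρ`, `ρ = 0`.  So `Σ = 0` for all `κ`; `S_RO2`: `t = 0`; every list of length `μ` is the
reverse of some `List.ofFn j`. -/
def S_RO : Prop :=
  ∀ (N c k m : ℕ) (I : Ideal (Sx N)), I.IsPrime → IsHom I → Smooth I c → ∀ (x z : Vx N)
    (L : Loc I x c) (T : Sx N →ₐ[ℂ] PowerSeries (Ay L.B)), PT x L.F L.B T → IsLine I x z →
    FreeL I x z → ∀ P Q : Sx N, RF I x k P Q → ∀ τ : PowerSeries (Ay L.B), T Q * τ = T P →
    PowerSeries.X ^ (k + m) ∣ τ → ∀ l : List (Bn L.B), l.length < m → evz z (DyL l τ) = 0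

/-! ## 3. Leading forms -/

/-- Iterated partial derivatives. -/
def pdL {σ : Type} (l : List σ) (F : MvPolynomial σ ℂ) : MvPolynomial σ ℂ :=
  l.foldr (fun j G => pderiv j G) F

/-- The possible leading forms of degree `r` of regular functions of degree `k`. -/
def LFm {c : ℕ} {I : Ideal (Sx N)} {x : Vx N} (L : Loc I x c) (J : Ideal (Sx N)) (k r : ℕ) :
    Submodule ℂ (Ay L.B) where
  carrier := {p | p.IsHomogeneous r ∧ ∑ j : Bn L.B, C (x j.1) * pderiv j p = 0 ∧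
    ∀ l : List (Bn L.B), k + l.length < r → ∀ z ∈ zer J, z ≠ 0 →
      eval (fun j : Bn L.B => z j.1) (pdL l p) = 0}
  zero_mem' := by
    refine ⟨isHomogeneous_zero _ _ _, by simp, fun l hl z _ _ => ?_⟩
    have h : pdL l (0 : Ay L.B) = 0 := by
      clear hl
      induction l with
      | nil => rfl
      | cons a l ih =>
        show pderiv a (pdL l 0) = 0
        rw [ih, map_zero]
    rw [h, map_zero]
  add_mem' := by
    rintro p q ⟨h1, h2, h3⟩ ⟨h1', h2', h3'⟩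
    refine ⟨h1.add h1', ?_, fun l hl z hz hz0 => ?_⟩
    · simp only [map_add, mul_add, Finset.sum_add_distrib, h2, h2', add_zero]
    · have h : pdL l (p + q) = pdL l p + pdL l q := by
        clear hl
        induction l with
        | nil => rfl
        | cons a l ih =>
          show pderiv a (pdL l (p + q)) = pderiv a (pdL l p) + pderiv a (pdL l q)
          rw [ih, map_add]
      rw [h, map_add, h3 l hl z hz hz0, h3' l hl z hz hz0, add_zero]
  smul_mem' := by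
    rintro a p ⟨h1, h2, h3⟩
    have hs : ∀ q : Ay L.B, a • q = C a * q := fun q => by rw [smul_eq_C_mul]
    refine ⟨?_, ?_, fun l hl z hz hz0 => ?_⟩
    · rw [hs]
      have := (isHomogeneous_C (Bn L.B) a).mul h1
      rwa [zero_add] at this
    · have h : ∀ j : Bn L.B, C (x j.1) * pderiv j (a • p) = C a * (C (x j.1) * pderiv j p) := by
        intro j
        rw [hs, pderiv_C_mul]
        ring
      rw [Finset.sum_congr rfl fun j _ => h j, ← Finset.mul_sum, h2, mul_zero]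
    · have h : pdL l (a • p) = a • pdL l p := by
        clear hl
        induction l with
        | nil => rfl
        | cons b l ih =>
          show pderiv b (pdL l (a • p)) = a • pderiv b (pdL l p)
          rw [ih, Derivation.map_smul]
      rw [h, smul_eval, h3 l hl z hz hz0, mul_zero]

/-- (RE) LEADING FORMS.

PROOF.  (1) homogeneous: `S_RQ`.  (2) EULER: `w l = X l`; `w ∈ TF I` (`∑ X_l ∂_l F = n F` for forms of degree `n`,
components), `D_w P = (e + k) P`, `D_w Q = e Q`, so `Q D_w P - P D_w Q = k P Q`, and `k τ` is its expansion over `Q^2`: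
`ε k τ = ∑_j T(X_j) Dy j τ = ∑_j (x_j + ε y_j) Dy j τ` (`S_RQ`, `S_RT` (e), `PT.var`).  The coefficient of `ε^r`, when `ε^r ∣ τ`:
`0 = ∑_j C (x_j) pderiv j (coeff r τ)` (the coefficients `r - 1` of `τ` and of `Dy j τ` vanish).
(3) If `k + l.length < r`, put `m = r - k`: `l.length < m`, `ε^(k+m) ∣ τ`; for `z ∈ zer J`, `z ≠ 0`: `IsLine I x z` (`Cn.line`; independence:
`dp lam x = 1`, `dp lam z = 0` as `lf lam ∈ J`), `FreeL` (`LC.free`); `S_RO`: `evz z (DyL l τ) = 0`, its coefficient `r` is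
`eval z (pdL l (coeff r τ))`. -/
def S_RE : Prop :=
  ∀ (N c k : ℕ) (I : Ideal (Sx N)) (d : Fin c → ℕ), I.IsPrime → IsHom I → Smooth I c →
    ∀ (x lam : Vx N) (g : Ex d → Sx N) (J : Ideal (Sx N)), LC I d x lam g J → ∀ (L : Loc I x c)
    (T : Sx N →ₐ[ℂ] PowerSeries (Ay L.B)), PT x L.F L.B T → ∀ P Q : Sx N, RF I x k P Q →
    ∀ τ : PowerSeries (Ay L.B), T Q * τ = T P → ∀ r : ℕ, PowerSeries.X ^ r ∣ τ →
    PowerSeries.coeff r τ ∈ LFm L J k r

/-- (RZ) POLYNOMIALS ALL OF WHOSE DERIVATIVES OF ORDER `< m` ARE IN `J`.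

PROOF.  `J = span (range G)`.  By induction on `j ≤ m` we show `F ∈ J^j`.  Let `j < m`, `F ∈ J^j`: there is
`p ∈ MvPolynomial ι S`, homogeneous of degree `j`, with `F = ∑_β c_β G^β` (`β` the exponents of `p`, `c_β ∈ S`)
(`Ideal.mem_span_pow_iff_exists_isHomogeneous` or `Ideal.span_pow`…).  For `v ∈ ℂ^(N+1)` let `D = dd v = ∑ C (v_l) ∂_l`.  `D^j F` is a
combination of iterated partial derivatives of order `j < m`, so it is in `J`.  `D^j (c G_1 ⋯ G_j) ≡ j! c D G_1 ⋯ D G_j` modulo `J`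
(Leibniz: if some factor is not differentiated the term is in `J`; prove by induction on `j` that `D^i (J^j) ⊆ J^(j-i)` and
`D^j (c G_1 ⋯ G_j) ≡ j! c ∏ D G_i` modulo `J`).  So for `z ∈ zer J`: `∑_β c_β(z) ∏_o (dp (grad (G o) z) v)^(β_o) = 0` for all `v`.
Let `z` be a zero of `J` where the gradients of the `G o` are independent: then the numbers `dp (grad (G o) z) v`, `o : ι`, take all
values, so the polynomial `∑ c_β(z) Y^β` vanishes identically and `c_β(z) = 0`.  Some minor `M` (size `card ι`) of the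
Jacobian matrix of `G` does not vanish at the given point `z₁`, so `M ∉ J`; and `c_β(z) M(z) = 0` for all `z ∈ zer J`, so
`c_β M ∈ J` (`S_Null`), `c_β ∈ J`, and `F ∈ J^(j+1)`. -/
def S_RZ : Prop :=
  ∀ (N m : ℕ) (J : Ideal (Sx N)), J.IsPrime → IsHom J → ∀ (ι : Type) [Fintype ι] [DecidableEq ι]
    (G : ι → Sx N), J = Ideal.span (Set.range G) →
    (∃ z ∈ zer J, LinearIndependent ℂ fun o => grad (G o) z) →
    ∀ F : Sx N, (∀ l : List (Fin (N + 1)), l.length < m → pdL l F ∈ J) → F ∈ J ^ m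

/-- The ideal of the linear equations: `T_x X ∩ {lam = 0}`. -/
def aI {c : ℕ} (d : Fin c → ℕ) (lam : Vx N) (g : Ex d → Sx N) : Ideal (Sx N) :=
  Ideal.span {lf lam} ⊔ Ideal.span (g '' {e | e.2.1 = 0})

/-- The degree `r` part of `J^m` modulo the linear equations. -/
def grm (𝔞 J : Ideal (Sx N)) (r m : ℕ) : Submodule ℂ (Sx N ⧸ 𝔞) :=
  (homogeneousSubmodule (Fin (N + 1)) ℂ r ⊓ (J ^ m ⊔ 𝔞).restrictScalars ℂ).map
    (Ideal.Quotient.mkₐ ℂ 𝔞).toLinearMap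

/-- (RI) LEADING FORMS ARE IN `J^(r-k)`.

PROOF.  `R : Ay L.B → Sx N` the renaming `y_j ↦ X_j`; `R p` is a form of degree `r`, `pderiv l (R p) = R (pderiv l p)` for `l ∉ B` and `0` for
`l ∈ B`, so `pdL l (R p)` is `0` or `R (pdL l' p)`; `eval z (R q) = eval (z_j)_j q`.  So for `l.length < r - k` the form `pdL l (R p)` (of degree
`r - l.length`) vanishes on `zer J` except `0`, so it is in `J` (`S_Null`, second part, `LC.ind` gives a point).  `S_RZ` with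
`ι = Option (Ex d)`, `G o = o.elim (lf lam) g` (`J = span (range G)` by `LC.eq`; `grad (lf lam) z = lam`, `LC.ind`): `R p ∈ J^(r-k)`.
So `p ↦ mk (R p)` maps `LFm L J k r` linearly into `grm (aI d lam g) J r (r - k)`.
INJECTIVE: let `R p ∈ aI`.  All elements of `aI` vanish at the `v ∈ TS I x` with `dp lam v = 0` (`LC.tan`).  Let `u : Bn L.B → ℂ`.  There is
`v' ∈ TS I x` with `v'_j = u_j` for `j : Bn L.B` (`Δ(x) ≠ 0`: solve `∑_l ∂_l F_i (x) v'_l = 0` for the `v'_(B b)`; `TS I x` is the orthogonal space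
of the `grad (L.F i) x`, which span `CN I x`: `S_CN`).  `v = v' - dp lam v' • x ∈ TS I x` (`x ∈ TS I x`, `S_TS`), `dp lam v = 0`.
`p(u) = p(u - dp lam v' • x_B)`: the polynomial `t ↦ p(u + t x_B)` has the derivative `(∑ x_j ∂_j p)(u + t x_B) = 0`, so it is
constant.  So `p(u) = eval v (R p) = 0` for all `u`: `p = 0`.
`finrank (LFm …) ≤ finrank (grm …)`: injective linear map into a finite-dimensional space; finite-dimensionality of `LFm`: it
is contained in `homogeneousSubmodule`. -/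
def S_RI : Prop :=
  ∀ (N c k r : ℕ) (I : Ideal (Sx N)) (d : Fin c → ℕ), I.IsPrime → IsHom I → Smooth I c →
    ∀ (x lam : Vx N) (g : Ex d → Sx N) (J : Ideal (Sx N)), LC I d x lam g J → ∀ L : Loc I x c,
    Module.Finite ℂ (LFm L J k r) ∧
    Module.finrank ℂ (LFm L J k r) ≤ Module.finrank ℂ (grm (aI d lam g) J r (r - k))

/-! ## 4. Counting -/

/-- The equations of degree `≥ 2`. -/
abbrev Ex2 {c : ℕ} (d : Fin c → ℕ) : Type := {e : Ex d // e.2.1 ≠ 0}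

/-- The exponents `α` with `|α| ≥ m` and degree `≤ r`. -/
def mu {c : ℕ} (d : Fin c → ℕ) (r m : ℕ) : Finset (Ex2 d → ℕ) :=
  (Fintype.piFinset fun _ => Finset.range (r + 1)).filter fun α =>
    m ≤ ∑ e, α e ∧ ∑ e, α e * (e.1.2.1 + 1) ≤ r

/-- (RJ) THE DIMENSION OF `J^m`.

PROOF.  `𝔞 = aI d lam g`, `G_e = g e`, `e : Ex2 d`; `J = 𝔞 ⊔ span (range G)` (`LC.eq`), so `J^j ⊔ 𝔞 = (span (range G))^j ⊔ 𝔞`.
`V_j = grm 𝔞 J r j` (a subspace of the degree `r` part of `S / 𝔞`, finite-dimensional), `V_(j+1) ≤ V_j`.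
(1) `V_j = 0` for `j > r`: `(span (range G))^j` is generated by the `G^α`, `|α| = j`, forms of degree `≥ 2 j > r` (if `F = ∑ c_α G^α + a`,
`F` a form of degree `r`, take components of degree `r`: `F ∈ 𝔞`, because `𝔞` is homogeneous).
(2) `dim V_j ≤ dim V_(j+1) + ∑_(α : |α| = j, deg α ≤ r) dim (gr J (r - deg α))`: the linear map
`⊕_α S_(r - deg α) → V_j / V_(j+1)`, `(c_α) ↦ ∑ c_α G^α`, is surjective (components of degree `r`; the `α` with `deg α > r` do not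
contribute) and kills `⊕_α J_(r - deg α)` (`J G^α ⊆ J^(j+1)`), and `dim (S_n / J_n) = finrank (gr J n)`.
Sum over `j = m, …, r`: the `α` with `|α| ≥ m`, `deg α ≤ r` (then `α e ≤ r` and `|α| ≤ r`). -/
def S_RJ : Prop :=
  ∀ (N c : ℕ) (I : Ideal (Sx N)) (d : Fin c → ℕ) (x lam : Vx N) (g : Ex d → Sx N)
    (J : Ideal (Sx N)), LC I d x lam g J → ∀ r m : ℕ,
    Module.finrank ℂ (grm (aI d lam g) J r m) ≤
      ∑ α ∈ mu d r m, Module.finrank ℂ (gr J (r - ∑ e, α e * (e.1.2.1 + 1)))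

/-- (RN) THE GENERATING FUNCTION.

PROOF.  `H(u) = hcG (deg) N u`, `deg none = 1`, `deg (some e) = e.2 + 1`.  First part: `r > 2 k`, `|α| ≥ r - k`: the degree of `α` is
`≥ 2 |α| ≥ 2 r - 2 k > r`.  Second part: with `u = r - deg α` the left side is the sum of `H(u)` over all pairs `(α, u)`,
`α : Ex2 d → ℕ`, `u ∈ ℕ` with `u + deg α - k ≤ |α|`, i.e. `u + ∑_e α_e (deg e - 1) ≤ k` (`deg e - 1 = e.1.2.1 ≥ 1`); conversely this
implies `|α| ≤ k`, `r = u + deg α ≤ k + |α| ≤ 2 k` and `α e ≤ r`.  So it is the coefficient of `T^k` in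
`(1 - T)⁻¹ ∑_u H(u) T^u ∏_(e : Ex2 d) (1 - T^(deg e - 1))⁻¹`.  `∑_u H(u) T^u = (1 - T)^(-(N+1)) (1 - T) ∏_(e : Ex d) (1 - T^(deg e))`
(expand the product over the subsets `A`; `∑ binom (N + n) N T^n = (1 - T)^(-(N+1))`,
`PowerSeries.mk_add_choose_mul_one_sub_pow_eq_one` or `invOneSubPow`).  `∏_(e : Ex d) (1 - T^(deg e)) = ∏_i ∏_(m=1)^(d i) (1 - T^m)`,
`∏_(e : Ex2 d) (1 - T^(deg e - 1)) = ∏_i ∏_(m=1)^(d i - 1) (1 - T^m)` (`d i ≥ 1`); the quotient is `∏_i (1 - T^(d i))`.  So the left side is the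
coefficient of `T^k` of `∏_i (1 - T^(d i)) (1 - T)^(-(N+1))`, which is `hci d N k`.
(To avoid divisions: prove `P * Left = Right` for the power series `Left = ∑_k left(k) T^k` after multiplication by the
products; all factors `1 - T^n`, `n ≥ 1`, are non zero divisors.) -/
def S_RN : Prop :=
  ∀ (N c : ℕ) (d : Fin c → ℕ), (∀ i, 1 ≤ d i) → ∀ k : ℕ,
    (∀ r : ℕ, 2 * k < r → mu d r (r - k) = ∅) ∧
    ∑ r ∈ Finset.range (2 * k + 1), ∑ α ∈ mu d r (r - k),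
      hcG (fun o : Option (Ex d) => o.elim 1 fun e => e.2.1 + 1) N (r - ∑ e, α e * (e.1.2.1 + 1)) =
      hci d N k

/-- (RL) LINEAR ALGEBRA: a space of power series and its leading coefficients.

PROOF.  `U_r = {a | X^r ∣ Θ a}`: `U_0 = ⊤`, `U_(R+1) = ⊥` (if `X^(R+1) ∣ Θ a` then by induction `X^r ∣ Θ a` for all `r`, as the coefficients
`r > R` are in `Λ r = ⊥`; so `Θ a = 0`, `a = 0`), and `a ↦ coeff r (Θ a)` maps `U_r` linearly to `Λ r` with the kernel `U_(r+1)`: so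
`dim U_r ≤ dim U_(r+1) + dim Λ r`. -/
def S_RL : Prop :=
  ∀ (V A : Type) [AddCommGroup V] [Module ℂ V] [Module.Finite ℂ V] [CommRing A] [Algebra ℂ A]
    (Θ : V →ₗ[ℂ] PowerSeries A) (R : ℕ) (Λ : ℕ → Submodule ℂ A), Function.Injective Θ →
    (∀ r, Module.Finite ℂ (Λ r)) → (∀ r, R < r → Λ r = ⊥) →
    (∀ (a : V) (r : ℕ), PowerSeries.X ^ r ∣ Θ a → PowerSeries.coeff r (Θ a) ∈ Λ r) →
    Module.finrank ℂ V ≤ ∑ r ∈ Finset.range (R + 1), Module.finrank ℂ (Λ r)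

/-- PROOF of `S_U7`.  `x ∈ zer I`, `x ≠ 0` (`LC.cn`), `L : Loc I x c` (`S_Loc`), `T` (`S_TEx`, `S_RT`).  Given `f : Fin r₀ → …`: `P`, `Q` of `S_RA`.
`Θ : (Fin r₀ → ℂ) → A[[ε]]`, `Θ a = (T Q)⁻¹ T(∑ a_i P_i)` (`τ` of `S_RQ` for the `P i`, `Θ a = ∑ a_i τ_i`): linear, `T Q * Θ a = T(∑ C (a i) P_i)`; injective:
`Θ a = 0` gives `T(∑ a_i P_i) = 0`, so `∑ ∈ I` (`S_RT` (c)) and `a = 0` (`S_RA`).  `Λ r = LFm L J k r` (`S_RE`), finite and
`dim Λ r ≤ dim grm (r, r - k) ≤ ∑_(α ∈ mu d r (r-k)) finrank (gr J (r - deg α))` (`S_RI`, `S_RJ`) `= ∑ hcG …` (`LC.hf`).  For `r > 2 k`: `mu` is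
empty (`S_RN`), so `dim Λ r = 0`, `Λ r = ⊥`.  `S_RL` with `R = 2 k` and `S_RN`: `r₀ ≤ hci d N k`. -/
def S_U7Of : Prop :=
  S_TEx → S_RT → S_RA → S_RQ → S_RE → S_RI → S_RJ → S_RN → S_RL → S_U7

end Pool.Agent.Lib.MP_776403_ag.SD.UN
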