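import Pool.Agent.Lib.MP_776403_ag.SD.UN.SpecF

/-!
# THEOREM UN: the dimension drops strictly along chains of primes (helper92)
-/

set_option autoImplicit false

open MvPolynomial

noncomputable section

namespace Pool.Agent.Lib.MP_776403_ag.SD.UN

open LI

namespace FDrAux

variable {N : ℕ}

/-- the coordinates generate the quotient algebra -/
theorem adj_top (P : Ideal (Sx N)) :
    Algebra.adjoin ℂ (Set.range fun j : Fin (N + 1) => Ideal.Quotient.mk P (X j)) = ⊤ := by
  rw [eq_top_iff]
  intro r _
  obtain ⟨p, rfl⟩ := Ideal.Quotient.mk_surjective r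
  induction p using MvPolynomial.induction_on with
  | C a => exact Subalgebra.algebraMap_mem _ a
  | add p q hp hq =>
    rw [map_add]
    exact Subalgebra.add_mem _ (hp trivial) (hq trivial)
  | mul_X p j hp =>
    rw [map_mul]
    exact Subalgebra.mul_mem _ (hp trivial) (Algebra.subset_adjoin ⟨j, rfl⟩)

/-- an element of the kernel of a map under which the family stays independent is transcendental -/
theorem trans {ι R R' : Type} [CommRing R] [IsDomain R] [CommRing R'] [Algebra ℂ R] [Algebra ℂ R']
    (φ : R →ₐ[ℂ] R') (x : ι → R) (hx : AlgebraicIndependent ℂ (φ ∘ x)) (a : R) (ha : a ≠ 0)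
    (h0 : φ a = 0) : Transcendental (Algebra.adjoin ℂ (Set.range x)) a := by
  have key : ∀ n : ℕ, ∀ p : Polynomial (Algebra.adjoin ℂ (Set.range x)), p.natDegree ≤ n →
      Polynomial.aeval a p = 0 → p = 0 := by
    intro n
    induction n with
    | zero =>
      intro p hn hp
      have hc := Polynomial.eq_C_of_natDegree_le_zero hn
      rw [hc, Polynomial.aeval_C] at hp
      have h1 : (p.coeff 0 : R) = 0 := hp
      have h1' : p.coeff 0 = 0 := Subtype.ext h1
      rw [hc, h1', map_zero]
    | succ n ih =>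
      intro p hn hp
      have hd := Polynomial.divX_mul_X_add p
      have h1 : Polynomial.aeval a p.divX * a + (p.coeff 0 : R) = 0 := by
        rw [← hd, map_add, map_mul, Polynomial.aeval_X, Polynomial.aeval_C] at hp
        exact hp
      have h2 : φ (p.coeff 0 : R) = 0 := by
        have h3 := congrArg φ h1
        rw [map_add, map_mul, h0, mul_zero, zero_add, map_zero] at h3
        exact h3
      have h4 : (p.coeff 0 : R) = 0 := by
        have h5 : ∀ r ∈ Algebra.adjoin ℂ (Set.range x), ∃ q : MvPolynomial ι ℂ, MvPolynomial.aeval x q = r := by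
          intro r hr
          rw [Algebra.adjoin_range_eq_range_aeval] at hr
          exact hr
        obtain ⟨q, hq⟩ := h5 _ (p.coeff 0).2
        have h6 : MvPolynomial.aeval (φ ∘ x) q = 0 := by
          rw [← h2, ← hq]
          rw [← AlgHom.comp_apply, MvPolynomial.comp_aeval]
          rfl
        have h7 : q = 0 := (algebraicIndependent_iff.1 hx) q h6
        rw [← hq, h7, map_zero]
      rw [h4, add_zero] at h1
      have h8 : Polynomial.aeval a p.divX = 0 := (mul_eq_zero.1 h1).resolve_right ha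
      have h9 : p.divX = 0 := by
        refine ih _ ?_ h8
        rw [Polynomial.natDegree_divX_eq_natDegree_tsub_one]
        omega
      have h4' : p.coeff 0 = 0 := Subtype.ext h4
      rw [← hd, h9, zero_mul, zero_add, h4', map_zero]
  intro hal
  obtain ⟨p, hp0, hp⟩ := hal
  exact hp0 (key _ p le_rfl hp)

/-- first claim -/
theorem drop (D : ℕ) (P Q : Ideal (Sx N)) (hP : P.IsPrime) (hPQ : P < Q) (hQ : DimGe Q D) :
    DimGe P (D + 1) := by
  obtain ⟨i, hi⟩ := hQ
  obtain ⟨F, hFQ, hFP⟩ := Set.exists_of_ssubset hPQ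
  have : P.IsPrime := hP
  let φ : (Sx N ⧸ P) →ₐ[ℂ] (Sx N ⧸ Q) := Ideal.Quotient.factorₐ ℂ hPQ.le
  let x : Fin D → Sx N ⧸ P := fun k => Ideal.Quotient.mk P (X (i k))
  have hx : AlgebraicIndependent ℂ (φ ∘ x) := hi
  have hF : Ideal.Quotient.mk P F ≠ 0 := fun h => hFP (Ideal.Quotient.eq_zero_iff_mem.1 h)
  have hF0 : φ (Ideal.Quotient.mk P F) = 0 := by
    change Ideal.Quotient.mk Q F = 0
    exact Ideal.Quotient.eq_zero_iff_mem.2 hFQ
  have h1 := trans φ x hx (Ideal.Quotient.mk P F) hF hF0
  have h2 : AlgebraicIndependent ℂ x := AlgebraicIndependent.of_comp φ hx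
  have h3 := (h2.option_iff_transcendental (Ideal.Quotient.mk P F)).2 h1
  have h4 := (algebraicIndependent_equiv (finSuccEquiv D)).2 h3
  have halg : Algebra.IsAlgebraic
      (Algebra.adjoin ℂ (Set.range fun j : Fin (N + 1) => Ideal.Quotient.mk P (X j)))
      (Sx N ⧸ P) := by
    refine ⟨fun r => ?_⟩
    have hr : r ∈ Algebra.adjoin ℂ (Set.range fun j : Fin (N + 1) => Ideal.Quotient.mk P (X j)) := by
      rw [adj_top]
      trivial
    exact isAlgebraic_algebraMap
      (⟨r, hr⟩ : Algebra.adjoin ℂ (Set.range fun j : Fin (N + 1) => Ideal.Quotient.mk P (X j)))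
  obtain ⟨j, hj⟩ := tTB (Fin (N + 1)) (Sx N ⧸ P) (fun j => Ideal.Quotient.mk P (X j)) halg (D + 1)
    _ h4
  exact ⟨j, hj⟩

/-- second claim -/
theorem chain (k : ℕ) : ∀ (D : ℕ) (P : Fin (k + 1) → Ideal (Sx N)), (∀ i, (P i).IsPrime) →
    StrictMono P → DimGe (P (Fin.last k)) D → D + k ≤ N + 1 := by
  induction k with
  | zero =>
    intro D P hP _ hD
    obtain ⟨i, hi⟩ := hD
    have h1 : Function.Injective i := by
      intro a b hab
      refine hi.injective ?_
      change Ideal.Quotient.mk _ (X (i a)) = Ideal.Quotient.mk _ (X (i b))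
      rw [hab]
    have h2 := Fintype.card_le_of_injective i h1
    simpa using h2
  | succ k ih =>
    intro D P hP hm hD
    have h1 : P (Fin.last k).castSucc < P (Fin.last (k + 1)) := hm (Fin.castSucc_lt_last _)
    have h2 := drop D _ _ (hP _) h1 hD
    have h3 := ih (D + 1) (fun j => P j.castSucc) (fun j => hP _)
      (fun a b hab => hm (Fin.castSucc_lt_castSucc_iff.2 hab)) h2
    omega

end FDrAux

/-- the dimension drops strictly -/
theorem tFDr : S_FDr := fun _ =>
  ⟨fun D P Q hP _ hPQ hQ => FDrAux.drop D P Q hP hPQ hQ, fun k D P hP hm hD => FDrAux.chain k D P hP hm hD⟩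

end Pool.Agent.Lib.MP_776403_ag.SD.UN
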