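import Pool.Agent.Lib.MP_776403_ag.SD.UN.SpecF
import Pool.Agent.Lib.MP_776403_ag.SD.G.GReg
import Pool.Agent.Lib.MP_776403_ag.SD.E.Pt

/-!
# THEOREM UN, part [F]: `S_FLn`, linear forms
-/

set_option autoImplicit false

open MvPolynomial

noncomputable section

namespace Pool.Agent.Lib.MP_776403_ag.SD.UN

open LI

namespace FLnAux

variable {N : ℕ}

theorem lf_hom (a : Vx N) : (lf a).IsHomogeneous 1 :=
  IsHomogeneous.sum _ _ _ fun i _ => by
    have h := (isHomogeneous_C (Fin (N + 1)) (a i)).mul (isHomogeneous_X ℂ i)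
    rwa [zero_add] at h

theorem hom_sup {𝔞 : Ideal (Sx N)} (h : IsHom 𝔞) {l : Sx N} (hl : l.IsHomogeneous 1) :
    IsHom (𝔞 ⊔ Ideal.span {l}) := by
  intro F hF m
  obtain ⟨a, ha, b, hb, rfl⟩ := Submodule.mem_sup.1 hF
  obtain ⟨c, rfl⟩ := Ideal.mem_span_singleton'.1 hb
  rw [map_add]
  refine Ideal.add_mem _ (Ideal.mem_sup_left (h a ha m)) (Ideal.mem_sup_right ?_)
  rcases m with _ | m
  · have h0 : coeff 0 l = 0 := hl.coeff_eq_zero (by simp)
    rw [homogeneousComponent_zero, ← constantCoeff_eq, map_mul, constantCoeff_eq, h0, mul_zero,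
      C_0]
    exact Ideal.zero_mem _
  · rw [mul_comm c l, Nat.add_comm m 1, PtAux.hc_mul hl]
    exact Ideal.mul_mem_right _ _ (Ideal.mem_span_singleton_self l)

theorem base {𝔞 : Ideal (Sx N)} (h : IsHom 𝔞) (hn : NoCh 𝔞 0) {y : Vx N} (hy : y ∈ zer 𝔞) :
    y = 0 := by
  by_contra hne
  obtain ⟨j, hj⟩ := Function.ne_iff.1 hne
  let Q : Ideal (Sx N) := RingHom.ker (lin 0 y)
  have hQ : Q.IsPrime := RingHom.ker_isPrime _
  have hp0 : (ptI (0 : Vx N)).IsPrime := RingHom.ker_isPrime _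
  have hle : Q ≤ ptI 0 := by
    intro F hF
    have h1 : lin 0 y F = 0 := hF
    have h2 := lin_eval 0 y F 0
    rw [h1, Polynomial.eval_zero, zero_smul, add_zero] at h2
    exact h2.symm
  have hlt : Q < ptI 0 := by
    refine lt_of_le_of_ne hle fun he => ?_
    have h1 : (X j : Sx N) ∈ ptI (0 : Vx N) := by
      change eval (0 : Vx N) (X j) = 0
      rw [eval_X]
      rfl
    rw [← he] at h1
    have h2 : lin 0 y (X j) = 0 := h1
    rw [lin, aeval_X] at h2
    have h3 := congrArg (fun q : Polynomial ℂ => q.coeff 1) h2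
    simp at h3
    exact hj h3
  refine hn ![Q, ptI 0] ?_ ?_ ?_ ?_
  · intro i
    fin_cases i
    · exact hQ
    · exact hp0
  · refine Fin.strictMono_iff_lt_succ.2 fun i => ?_
    fin_cases i
    exact hlt
  · exact fun F hF => GRegAux.lin_zero_mem h hy hF
  · exact le_rfl

/-- The coefficients of the linear forms in an ideal. -/
def W (p : Ideal (Sx N)) : Subspace ℂ (Vx N) where
  carrier := {a | lf a ∈ p}
  zero_mem' := by
    change lf 0 ∈ p
    simp [lf]
  add_mem' := fun {a b} ha hb => by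
    have e : lf (a + b) = lf a + lf b := by
      simp only [lf, Pi.add_apply, map_add, add_mul, Finset.sum_add_distrib]
    change lf (a + b) ∈ p
    rw [e]
    exact Ideal.add_mem _ ha hb
  smul_mem' := fun r a ha => by
    have e : lf (r • a) = C r * lf a := by
      simp only [lf, Pi.smul_apply, smul_eq_mul, map_mul, Finset.mul_sum, mul_assoc]
    change lf (r • a) ∈ p
    rw [e]
    exact Ideal.mul_mem_left _ _ ha

theorem le_of_top {p : Ideal (Sx N)} (h : W p = ⊤) : ptI 0 ≤ p := by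
  intro F hF
  have hX : ∀ j, (X j : Sx N) ∈ p := by
    intro j
    have h1 : (Pi.single j 1 : Vx N) ∈ W p := by
      rw [h]
      trivial
    have h2 : lf (Pi.single j 1 : Vx N) ∈ p := h1
    have h3 : lf (Pi.single j 1 : Vx N) = X j := by
      rw [lf, Finset.sum_eq_single j]
      · simp
      · intro b _ hb
        simp [Pi.single_eq_of_ne hb]
      · intro hj
        exact absurd (Finset.mem_univ j) hj
    rwa [h3] at h2
  have e : (Ideal.Quotient.mk p) = ((Ideal.Quotient.mk p).comp C).comp (eval (0 : Vx N)) := by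
    refine MvPolynomial.ringHom_ext (fun r => by simp) fun j => ?_
    simp [Ideal.Quotient.eq_zero_iff_mem.2 (hX j)]
  have h4 := RingHom.congr_fun e F
  have hF' : eval (0 : Vx N) F = 0 := hF
  rw [RingHom.comp_apply, hF', map_zero] at h4
  exact Ideal.Quotient.eq_zero_iff_mem.1 h4

theorem step {D : ℕ} {𝔞 : Ideal (Sx N)} (hn : NoCh 𝔞 (D + 1)) :
    ∃ l : Sx N, l.IsHomogeneous 1 ∧ NoCh (𝔞 ⊔ Ideal.span {l}) D := by
  classical
  let T : Set (Ideal (Sx N)) := {p | p ∈ 𝔞.minimalPrimes ∧ p ≤ ptI 0 ∧ p ≠ ptI 0}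
  have hfin : T.Finite :=
    (Ideal.finite_minimalPrimes_of_isNoetherianRing (Sx N) 𝔞).subset fun p hp => hp.1
  have hFin : Finite T := hfin
  have hne : ⋃ i : T, (W i.1 : Set (Vx N)) ≠ Set.univ := by
    intro hU
    obtain ⟨p, hp⟩ := Subspace.exists_eq_top_of_iUnion_eq_univ hU
    exact p.2.2.2 (le_antisymm p.2.2.1 (le_of_top hp))
  obtain ⟨a, ha⟩ := (Set.ne_univ_iff_exists_notMem _).1 hne
  refine ⟨lf a, lf_hom a, ?_⟩
  intro P hPp hPm hP0 hPl
  have h1 : 𝔞 ≤ P 0 := le_trans le_sup_left hP0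
  have := hPp 0
  obtain ⟨p, hp, hpP⟩ := Ideal.exists_minimalPrimes_le h1
  have hlP : lf a ∈ P 0 := hP0 (Ideal.mem_sup_right (Ideal.mem_span_singleton_self _))
  have h0l : P 0 < P (Fin.last (D + 1)) := hPm (Fin.last_pos)
  have hpT : p ∈ T := by
    refine ⟨hp, hpP.trans (h0l.le.trans hPl), fun he => ?_⟩
    rw [he] at hpP
    exact absurd (lt_of_lt_of_le h0l hPl) (not_lt_of_ge hpP)
  have hlp : lf a ∉ p := fun hl => ha (Set.mem_iUnion.2 ⟨⟨p, hpT⟩, hl⟩)
  have hlt : p < P 0 := lt_of_le_of_ne hpP fun he => hlp (he ▸ hlP)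
  refine hn (Fin.cons p P) ?_ ?_ ?_ ?_
  · intro i
    refine Fin.cases ?_ (fun i => ?_) i
    · exact hp.1.1
    · exact hPp i
  · refine Fin.strictMono_iff_lt_succ.2 fun i => ?_
    refine Fin.cases ?_ (fun i => ?_) i
    · exact hlt
    · exact hPm (Fin.castSucc_lt_succ)
  · exact hp.1.2
  · exact hPl

end FLnAux

/-- (FLn) Linear forms. -/
theorem tFLn : S_FLn := by
  intro N D
  induction D with
  | zero =>
    intro 𝔞 h hn
    exact ⟨Fin.elim0, fun i => i.elim0, fun y hy _ => FLnAux.base h hn hy⟩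
  | succ D ih =>
    intro 𝔞 h hn
    obtain ⟨l, hl, hl'⟩ := FLnAux.step hn
    obtain ⟨l', h1, h2⟩ := ih _ (FLnAux.hom_sup h hl) hl'
    refine ⟨Fin.cons l l', ?_, ?_⟩
    · intro i
      refine Fin.cases ?_ (fun i => ?_) i
      · exact hl
      · exact h1 i
    · intro y hy hz
      refine h2 y ?_ fun i => hz i.succ
      intro F hF
      obtain ⟨a, ha, b, hb, rfl⟩ := Submodule.mem_sup.1 hF
      obtain ⟨c, rfl⟩ := Ideal.mem_span_singleton'.1 hb
      have h3 : eval y l = 0 := hz 0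
      rw [map_add, map_mul, h3, mul_zero, add_zero]
      exact hy a ha

end Pool.Agent.Lib.MP_776403_ag.SD.UN
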