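import Pool.Agent.Lib.MP_776403_ag.SD.UN.SpecF

/-!
# THEOREM UN, module FRg (helper61): polynomials with independent gradients at a point
-/

set_option autoImplicit false

open MvPolynomial

noncomputable section

namespace Pool.Agent.Lib.MP_776403_ag.SD.UN

open LI

namespace FRgAux

variable {N : ℕ}

theorem grad_mul (F G : Sx N) (y : Vx N) :
    grad (F * G) y = eval y F • grad G y + eval y G • grad F y := by
  funext i
  unfold grad
  rw [Derivation.leibniz, map_add, smul_eq_mul, smul_eq_mul, map_mul, map_mul]
  rfl

theorem grad_add (F G : Sx N) (y : Vx N) : grad (F + G) y = grad F y + grad G y := by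
  funext i
  unfold grad
  rw [map_add, map_add]
  rfl

theorem grad_zero (y : Vx N) : grad (0 : Sx N) y = 0 := by
  funext i
  unfold grad
  rw [map_zero, map_zero]
  rfl

theorem grad_sum {ι : Type} (s : Finset ι) (F : ι → Sx N) (y : Vx N) :
    grad (∑ i ∈ s, F i) y = ∑ i ∈ s, grad (F i) y := by
  classical
  induction s using Finset.induction_on with
  | empty => rw [Finset.sum_empty, Finset.sum_empty, grad_zero]
  | insert a s ha ih => rw [Finset.sum_insert ha, Finset.sum_insert ha, grad_add, ih]

theorem grad_sq (z : Vx N) (F : Sx N) (hF : F ∈ (ptI z) ^ 2) : grad F z = 0 := by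
  rw [pow_two] at hF
  refine Submodule.mul_induction_on hF ?_ ?_
  · intro a ha b hb
    have ha' : eval z a = 0 := ha
    have hb' : eval z b = 0 := hb
    rw [grad_mul, ha', hb', zero_smul, zero_smul, add_zero]
  · intro a b ha hb
    rw [grad_add, ha, hb, add_zero]

theorem loc_mem (p : Ideal (Sx N)) [p.IsPrime] (I : Ideal (Sx N)) (x : Sx N)
    (h : algebraMap (Sx N) (Localization.AtPrime p) x ∈
      I.map (algebraMap (Sx N) (Localization.AtPrime p))) : ∃ u, u ∉ p ∧ u * x ∈ I := by
  obtain ⟨u, hu, hux⟩ := (IsLocalization.algebraMap_mem_map_algebraMap_iff p.primeCompl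
    (Localization.AtPrime p) I x).1 h
  exact ⟨u, hu, hux⟩

end FRgAux

open FRgAux in
theorem tFRg (hFRl : S_FRl) : S_FRg := by
  classical
  intro N r f z hz hind
  have hp : (ptI z).IsPrime := RingHom.ker_isPrime _
  have hreg : IsRegularLocalRing (Localization.AtPrime (ptI z)) :=
    IsRegularRing.isRegularLocalRing_localization (ptI z)
  have hmax : (ptI z).map (algebraMap (Sx N) (Localization.AtPrime (ptI z))) =
      IsLocalRing.maximalIdeal (Localization.AtPrime (ptI z)) :=
    Localization.AtPrime.map_eq_maximalIdeal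
  have hunit : ∀ u : Sx N, u ∉ ptI z → IsUnit (algebraMap (Sx N) (Localization.AtPrime (ptI z)) u) :=
    fun u hu => IsLocalization.map_units (Localization.AtPrime (ptI z)) (⟨u, hu⟩ : (ptI z).primeCompl)
  obtain ⟨P', hP1, hP2, hP3⟩ := hFRl r (Localization.AtPrime (ptI z))
    (fun i => algebraMap (Sx N) (Localization.AtPrime (ptI z)) (f i))
    (fun i => by rw [← hmax]; exact Ideal.mem_map_of_mem _ (hz i)) (by
      intro a ha
      obtain ⟨⟨b, hb⟩, hb2⟩ := IsLocalization.exist_integer_multiples_of_finite (ptI z).primeCompl a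
      choose g hg using hb2
      have hg' : ∀ i, algebraMap (Sx N) (Localization.AtPrime (ptI z)) (g i) =
          algebraMap (Sx N) (Localization.AtPrime (ptI z)) b * a i := fun i => by
        rw [hg i, Algebra.smul_def]
      have h1 : algebraMap (Sx N) (Localization.AtPrime (ptI z)) (∑ i, g i * f i) ∈
          ((ptI z) ^ 2).map (algebraMap (Sx N) (Localization.AtPrime (ptI z))) := by
        rw [Ideal.map_pow, hmax, map_sum]
        have h2 : ∑ i, algebraMap (Sx N) (Localization.AtPrime (ptI z)) (g i * f i) =
            algebraMap (Sx N) (Localization.AtPrime (ptI z)) b *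
              ∑ i, a i * algebraMap (Sx N) (Localization.AtPrime (ptI z)) (f i) := by
          rw [Finset.mul_sum]
          refine Finset.sum_congr rfl fun i _ => ?_
          rw [map_mul, hg' i, mul_assoc]
        rw [h2]
        exact Ideal.mul_mem_left _ _ ha
      obtain ⟨u, hu, hu2⟩ := loc_mem (ptI z) ((ptI z) ^ 2) _ h1
      have hu0 : eval z u ≠ 0 := fun h => hu h
      have h3 := grad_sq z _ hu2
      have h4 : eval z (∑ i, g i * f i) = 0 := by
        rw [map_sum]
        exact Finset.sum_eq_zero fun i _ => by rw [map_mul, hz i, mul_zero]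
      rw [grad_mul, h4, zero_smul, add_zero, grad_sum] at h3
      have h5 : ∑ i, eval z (g i) • grad (f i) z = 0 := by
        have h6 := (smul_eq_zero.1 h3).resolve_left hu0
        rw [← h6]
        refine Finset.sum_congr rfl fun i _ => ?_
        rw [grad_mul, hz i, zero_smul, add_zero]
      have h7 := Fintype.linearIndependent_iff.1 hind (fun i => eval z (g i)) h5
      intro i
      have h8 : algebraMap (Sx N) (Localization.AtPrime (ptI z)) (g i) ∈
          IsLocalRing.maximalIdeal (Localization.AtPrime (ptI z)) := by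
        rw [← hmax]
        exact Ideal.mem_map_of_mem _ (h7 i)
      rw [hg' i] at h8
      exact ((IsLocalRing.maximalIdeal.isMaximal _).isPrime.mem_or_mem h8).resolve_left fun h9 =>
        (IsLocalRing.mem_maximalIdeal _).1 h9 (hunit b hb))
  refine ⟨fun i => (P' i).comap (algebraMap (Sx N) (Localization.AtPrime (ptI z))),
    fun i => (hP1 i).comap _, ?_, ?_, ?_, ?_⟩
  · intro i j hij
    have h1 := hP2 hij
    refine lt_of_le_of_ne (Ideal.comap_mono h1.le) fun h2 => h1.ne ?_
    rw [← IsLocalization.map_under (ptI z).primeCompl (Localization.AtPrime (ptI z)) (P' i),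
      ← IsLocalization.map_under (ptI z).primeCompl (Localization.AtPrime (ptI z)) (P' j)]
    exact congrArg _ h2
  · have h1 : P' (Fin.last r) ≤ IsLocalRing.maximalIdeal (Localization.AtPrime (ptI z)) :=
      IsLocalRing.le_maximalIdeal (hP1 _).ne_top
    refine (Ideal.comap_mono h1).trans ?_
    exact (Localization.AtPrime.under_maximalIdeal (I := ptI z)).le
  · intro i
    change algebraMap (Sx N) (Localization.AtPrime (ptI z)) (f i) ∈ P' (Fin.last r)
    rw [hP3]
    exact Ideal.subset_span ⟨i, rfl⟩
  · intro F hF
    have h1 : algebraMap (Sx N) (Localization.AtPrime (ptI z)) F ∈ P' (Fin.last r) := hF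
    rw [hP3] at h1
    have h2 : Ideal.span (Set.range fun i => algebraMap (Sx N) (Localization.AtPrime (ptI z)) (f i)) =
        (Ideal.span (Set.range f)).map (algebraMap (Sx N) (Localization.AtPrime (ptI z))) := by
      rw [Ideal.map_span, ← Set.range_comp]
      rfl
    rw [h2] at h1
    obtain ⟨u, hu, hu2⟩ := loc_mem (ptI z) _ _ h1
    exact ⟨u, fun h => hu h, hu2⟩

end Pool.Agent.Lib.MP_776403_ag.SD.UN
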