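import Pool.Agent.Lib.MP_776403_ag.SD.UN.SpecF

/-! # THEOREM UN, (FRl): part of a regular system of parameters generates prime ideals -/

set_option autoImplicit false

open MvPolynomial

noncomputable section

namespace Pool.Agent.Lib.MP_776403_ag.SD.UN

open LI

open Pool.Agent.Lib.RegularUFD in
theorem tFRl : S_FRl := by
  intro r
  induction r with
  | zero =>
    intro A _ _ x _ _
    have hdom : IsDomain A := isDomain_of_regular A
    refine ⟨fun _ => ⊥, fun _ => Ideal.isPrime_bot, ?_, ?_⟩
    · intro i j hij
      have h1 := i.2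
      have h2 := j.2
      rw [Fin.lt_def] at hij
      omega
    · rw [Set.range_eq_empty, Ideal.span_empty]
  | succ r ih =>
    intro A _ _ x hx hind
    have hdom : IsDomain A := isDomain_of_regular A
    have hx2 : x 0 ∉ IsLocalRing.maximalIdeal A ^ 2 := by
      intro h
      have h1 : ∑ i, (Pi.single 0 1 : Fin (r + 1) → A) i * x i = x 0 := by
        rw [Finset.sum_eq_single 0]
        · rw [Pi.single_eq_same, one_mul]
        · intro j _ hj
          rw [Pi.single_eq_of_ne hj, zero_mul]
        · intro h
          exact absurd (Finset.mem_univ _) h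
      have h2 := hind (Pi.single 0 1) (by rw [h1]; exact h) 0
      rw [Pi.single_eq_same] at h2
      exact (Ideal.ne_top_iff_one _).1 (IsLocalRing.maximalIdeal.isMaximal A).ne_top h2
    have hx0 : x 0 ≠ 0 := by
      intro h
      exact hx2 (h ▸ Ideal.zero_mem _)
    have hreg : IsRegularLocalRing (A ⧸ Ideal.span {x 0}) := quot_regular (x 0) (hx 0) hx2
    have hπ : Function.Surjective (Ideal.Quotient.mk (Ideal.span {x 0})) :=
      Ideal.Quotient.mk_surjective
    have hm : (IsLocalRing.maximalIdeal (A ⧸ Ideal.span {x 0})).comap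
        (Ideal.Quotient.mk (Ideal.span {x 0})) = IsLocalRing.maximalIdeal A :=
      IsLocalRing.eq_maximalIdeal (Ideal.comap_isMaximal_of_surjective _ hπ)
    have hm' : IsLocalRing.maximalIdeal (A ⧸ Ideal.span {x 0}) =
        (IsLocalRing.maximalIdeal A).map (Ideal.Quotient.mk (Ideal.span {x 0})) := by
      rw [← hm, Ideal.map_comap_of_surjective _ hπ]
    have hker : Ideal.comap (Ideal.Quotient.mk (Ideal.span {x 0})) ⊥ = Ideal.span {x 0} := by
      rw [← RingHom.ker_eq_comap_bot, Ideal.mk_ker]
    have hmem : ∀ a : A, a ∈ IsLocalRing.maximalIdeal A →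
        Ideal.Quotient.mk (Ideal.span {x 0}) a ∈
          IsLocalRing.maximalIdeal (A ⧸ Ideal.span {x 0}) := by
      intro a ha
      rw [← hm] at ha
      exact ha
    obtain ⟨P', hP1, hP2, hP3⟩ := ih (A ⧸ Ideal.span {x 0})
      (fun i => Ideal.Quotient.mk (Ideal.span {x 0}) (x i.succ))
      (fun i => hmem _ (hx i.succ)) (by
        intro b hb i
        choose a ha using fun i => hπ (b i)
        obtain rfl : (fun i => Ideal.Quotient.mk (Ideal.span {x 0}) (a i)) = b := funext ha
        have h1 : Ideal.Quotient.mk (Ideal.span {x 0}) (∑ i, a i * x i.succ) ∈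
            IsLocalRing.maximalIdeal (A ⧸ Ideal.span {x 0}) ^ 2 := by
          rw [map_sum]
          simp only [map_mul]
          exact hb
        rw [hm', ← Ideal.map_pow] at h1
        have h3 := Ideal.mem_comap.2 h1
        rw [Ideal.comap_map_of_surjective _ hπ, hker] at h3
        obtain ⟨u, hu, v, hv, huv⟩ := Submodule.mem_sup.1 h3
        obtain ⟨c, rfl⟩ := Ideal.mem_span_singleton'.1 hv
        have h5 : ∑ j, (Fin.cons (-c) a : Fin (r + 1) → A) j * x j = u := by
          rw [Fin.sum_univ_succ]
          simp only [Fin.cons_zero, Fin.cons_succ]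
          rw [← huv]
          ring
        have h4 := hind (Fin.cons (-c) a) (by rw [h5]; exact hu) i.succ
        rw [Fin.cons_succ] at h4
        exact hmem _ h4)
    refine ⟨Fin.cons ⊥ fun i => (P' i).comap (Ideal.Quotient.mk (Ideal.span {x 0})),
      ?_, ?_, ?_⟩
    · intro i
      refine Fin.cases ?_ (fun j => ?_) i
      · rw [Fin.cons_zero]
        exact Ideal.isPrime_bot
      · rw [Fin.cons_succ]
        exact (hP1 j).comap _
    · rw [Fin.strictMono_iff_lt_succ]
      intro i
      refine Fin.cases ?_ (fun j => ?_) i
      · rw [Fin.castSucc_zero, Fin.cons_zero, Fin.cons_succ]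
        refine lt_of_le_of_ne bot_le fun h => hx0 ?_
        have h1 : x 0 ∈ (P' 0).comap (Ideal.Quotient.mk (Ideal.span {x 0})) := by
          rw [Ideal.mem_comap, Ideal.Quotient.eq_zero_iff_mem.2 (Ideal.mem_span_singleton_self _)]
          exact Ideal.zero_mem _
        rw [← h] at h1
        exact h1
      · rw [Fin.castSucc_succ, Fin.cons_succ, Fin.cons_succ]
        have h1 : P' j.castSucc < P' j.succ := hP2 (Fin.castSucc_lt_succ)
        refine lt_of_le_of_ne (Ideal.comap_mono h1.le) fun h => h1.ne ?_
        exact Ideal.comap_injective_of_surjective _ hπ h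
    · rw [← Fin.succ_last, Fin.cons_succ, hP3]
      have h1 : Set.range (fun i : Fin r => Ideal.Quotient.mk (Ideal.span {x 0}) (x i.succ)) =
          Ideal.Quotient.mk (Ideal.span {x 0}) '' Set.range fun i : Fin r => x i.succ := by
        rw [← Set.range_comp]
        rfl
      have h2 : Set.range x = insert (x 0) (Set.range fun i : Fin r => x i.succ) := by
        ext y
        simp only [Set.mem_range, Set.mem_insert_iff, Fin.exists_fin_succ]
        constructor
        · rintro (h | h)
          · exact Or.inl h.symm
          · exact Or.inr h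
        · rintro (h | h)
          · exact Or.inl h.symm
          · exact Or.inr h
      rw [h1, ← Ideal.map_span, Ideal.comap_map_of_surjective _ hπ, hker, h2, Ideal.span_insert,
        sup_comm]

end Pool.Agent.Lib.MP_776403_ag.SD.UN

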