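import Pool.Agent.Lib.MP_776403_ag.SD.UN.Spec

/-!
# THEOREM UN: formal parametrization at a smooth point (helper7; used in U6 and U7)

`f_1, …, f_r ∈ S` vanish at `x`, and the minor with the columns `B` of their Jacobian matrix is not zero at
`x`.  `A = ℂ[y_j : j ∉ B]`.  There is a homomorphism `T : S → A[[ε]]` with `T(X_j) = x_j + ε y_j` for `j ∉ B` and
`T(f_i) = 0`: the Taylor expansion at `x` on the manifold `f = 0` in the coordinates `X_j`, `j ∉ B`.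

Statements with complete proofs in the docstrings; `S_Xyz` is proved in the file `SD/UN/Xyz.lean`
(theorem `SD.UN.tXyz`).
-/

set_option autoImplicit false

open MvPolynomial

noncomputable section

namespace Pool.Agent.Lib.MP_776403_ag.SD.UN

open LI

variable {N r : ℕ}

/-- The coordinates outside `B`. -/
abbrev Bn (B : Fin r → Fin (N + 1)) : Type := {j : Fin (N + 1) // j ∉ Set.range B}

instance fintypeBn (B : Fin r → Fin (N + 1)) : Fintype (Bn B) := Fintype.ofFinite _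

/-- The ring `ℂ[y_j : j ∉ B]`. -/
abbrev Ay (B : Fin r → Fin (N + 1)) : Type := MvPolynomial (Bn B) ℂ

/-- The data. -/
structure Par (x : Vx N) (f : Fin r → Sx N) (B : Fin r → Fin (N + 1)) : Prop where
  zero : ∀ i, eval x (f i) = 0
  inj : Function.Injective B
  det : eval x (Matrix.det (Matrix.of fun i b => pderiv (B b) (f i))) ≠ 0

/-- `T` is the formal parametrization. -/
structure PT (x : Vx N) (f : Fin r → Sx N) (B : Fin r → Fin (N + 1))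
    (T : Sx N →ₐ[ℂ] PowerSeries (Ay B)) : Prop where
  var : ∀ j : Bn B, T (X j.1) = PowerSeries.C (C (x j.1)) + PowerSeries.C (X j) * PowerSeries.X
  zero : ∀ i, T (f i) = 0
  hom : ∀ (F : Sx N) (n : ℕ), (PowerSeries.coeff n (T F)).IsHomogeneous n
  c0 : ∀ F : Sx N, PowerSeries.coeff 0 (T F) = C (eval x F)

/-- `∂ / ∂ y_j`, coefficientwise. -/
def Dy {B : Fin r → Fin (N + 1)} (j : Bn B) (p : PowerSeries (Ay B)) : PowerSeries (Ay B) :=
  PowerSeries.mk fun n => pderiv j (PowerSeries.coeff n p)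

/-- (TEx) EXISTENCE.

PROOF.  `P(p)`: all coefficients `n` of the power series `p` are homogeneous of degree `n`; it is stable under
sums, products (`PowerSeries.coeff_mul`, antidiagonal) and holds for constants `C (C a)` and for
`C (C a) + C (X j) * X`; so for `Φ : Fin (N + 1) → A[[ε]]` with all `P(Φ_l)` we have `P(F(Φ))`, `F(Φ) = aeval Φ F`
(`MvPolynomial.induction_on`).  By induction on `k` there are `Φ^k : Fin (N + 1) → A[[ε]]` with `P`, constant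
coefficients `C (x_l)`, `Φ^k_j = x_j + ε y_j` for `j ∉ B`, `ε^(k+1) ∣ f_i(Φ^k)` for all `i`, and
`ε^(k+1) ∣ Φ^(k+1)_l - Φ^k_l`.  `k = 0`: `Φ_l = x_l` for `l ∈ B`; the constant coefficient of `f_i(Φ)` is `f_i(x) = 0`
(the constant coefficient of `F(Φ)` is `F` of the constant coefficients).  Step: let `a_i ∈ A` be the coefficient
of `ε^(k+1)` in `f_i(Φ^k)`, homogeneous of degree `k + 1`; `M = (∂_(B b) f_i (x))_(i b)` is invertible over `ℂ`; `u_b ∈ A`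
with `∑_b M_(i b) u_b = - a_i` (`u_b = - ∑_i C (M⁻¹_(b i)) a_i`, homogeneous of degree `k + 1`);
`Φ^(k+1)_(B b) = Φ^k_(B b) + ε^(k+1) u_b`.  Taylor: `F(Φ + ε^(k+1) u) ≡ F(Φ) + ε^(k+1) ∑_l u_l (∂_l F)(Φ)` modulo
`ε^(2k+2)` (for all `F`, by induction on `F`; or use that both sides define ring homomorphisms modulo `ε^(2k+2)`),
so the coefficient of `ε^(k+1)` of `f_i(Φ^(k+1))` is `a_i + ∑_b u_b ∂_(B b) f_i (x) = 0`.
Limit: `Φ_l` has the coefficient `n` of `Φ^n_l`; `ε^(k+1) ∣ Φ_l - Φ^k_l`, so `ε^(k+1) ∣ f_i(Φ)` for all `k`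
(`F(Φ) ≡ F(Φ')` if `Φ ≡ Φ'`: quotient ring), `f_i(Φ) = 0`.  `T = aeval Φ`. -/
def S_TEx : Prop :=
  ∀ (N r : ℕ) (x : Vx N) (f : Fin r → Sx N) (B : Fin r → Fin (N + 1)), Par x f B →
    ∃ T : Sx N →ₐ[ℂ] PowerSeries (Ay B), PT x f B T

/-- (TKer) THE KERNEL: `T F = 0` iff `F` is in the ideal of the `f_i` near `x`.

PROOF.  `𝔪 = ptI x` (maximal; `G ∈ 𝔪` iff `G(x) = 0`), `𝔟 = span (range f) ≤ 𝔪`.  CLAIM 1: for every `k` and `G ∈ S` there is
`p ∈ MvPolynomial (Bn B) ℂ` with `G - p((X_j - x_j)_j) ∈ 𝔟 + 𝔪^k` (and `p` of total degree `< k`).  First for `G = X_(B b) - x_(B b)`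
modulo `𝔪^2`: `f_i ≡ ∑_l ∂_l f_i (x) (X_l - x_l)` modulo `𝔪^2`; `M = (∂_(B b) f_i (x))` invertible gives
`X_(B b) - x_(B b) ∈ 𝔟 + ∑_j ℂ (X_j - x_j) + 𝔪^2`.  So `𝔪 = 𝔟 + 𝔫 + 𝔪^2`, where `𝔫` = the `ℂ`-span of the `X_j - x_j`, `j ∉ B`;
by induction `𝔪^k ⊆ 𝔟 + (products of k elements of 𝔫, ℂ-span) + 𝔪^(k+1)`, and the claim follows (`S = ℂ + 𝔪`).
CLAIM 2: if `T F = 0` then `F ∈ 𝔟 + 𝔪^k` for all `k`: `F = p(X_j - x_j) + b + m`, `T b = 0`, `ε^k ∣ T m` (elements of `𝔪`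
have `T` divisible by `ε`: `c0`), so `ε^k ∣ T(p(X_j - x_j)) = p(ε y)`; the coefficient `n` of `p(ε y)` is the
homogeneous component `p_n(y)`; so `p_n = 0` for `n < k`, `p = 0` if its total degree is `< k`.
KRULL: `R = S_𝔪` (`Localization.AtPrime`), noetherian local; in `R / 𝔟 R` the image of `F` is in all powers of the
maximal ideal, so it is `0` (`Ideal.iInf_pow_eq_bot_of_isLocalRing`): `F/1 ∈ 𝔟 R`, so `h F ∈ 𝔟` for some `h ∉ 𝔪`. -/
def S_TKer : Prop :=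
  ∀ (N r : ℕ) (x : Vx N) (f : Fin r → Sx N) (B : Fin r → Fin (N + 1)), Par x f B →
    ∀ T : Sx N →ₐ[ℂ] PowerSeries (Ay B), PT x f B T → ∀ F : Sx N, T F = 0 →
    ∃ h : Sx N, eval x h ≠ 0 ∧ h * F ∈ Ideal.span (Set.range f)

/-- (TUn) UNIQUENESS: curves in `f = 0` through `x`.

PROOF.  `ev_y : A[[ε]] → ℂ[[ε]]` (`PowerSeries.map (eval y)`), `ψ' = ev_y ∘ T`: both `ψ` and `ψ'` are algebra
homomorphisms, they agree on the `X_j`, `j ∉ B`, kill the `f_i`, and have the constant coefficients `F ↦ F(x)`.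
For every `F ∈ S` there are `G_l ∈ ℂ[[ε]]` with `ψ F - ψ' F = ∑_l (ψ X_l - ψ' X_l) G_l`, constant coefficient of `G_l` =
`∂_l F (x)` (for `F` a variable, a constant; products: `ψ(FG) - ψ'(FG) = ψF (ψG - ψ'G) + (ψF - ψ'F) ψ'G`; sums;
`MvPolynomial.induction_on`).  For `F = f_i`: `0 = ∑_b (ψ X_(B b) - ψ' X_(B b)) G_(i b)`, the determinant of
`(G_(i b))` has the constant coefficient `det (∂_(B b) f_i (x)) ≠ 0`, so it is not zero and (`ℂ[[ε]]` is a domain,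
`Matrix.eq_zero_of_mulVec_eq_zero`) `ψ X_(B b) = ψ' X_(B b)`; `ψ = ψ'` (`MvPolynomial.algHom_ext`). -/
def S_TUn : Prop :=
  ∀ (N r : ℕ) (x : Vx N) (f : Fin r → Sx N) (B : Fin r → Fin (N + 1)), Par x f B →
    ∀ T : Sx N →ₐ[ℂ] PowerSeries (Ay B), PT x f B T →
    ∀ (y : Bn B → ℂ) (ψ : Sx N →ₐ[ℂ] PowerSeries ℂ),
    (∀ j : Bn B, ψ (X j.1) = PowerSeries.C (x j.1) + PowerSeries.C (y j) * PowerSeries.X) →
    (∀ i, ψ (f i) = 0) → (∀ F, PowerSeries.coeff 0 (ψ F) = eval x F) →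
    ∀ (F : Sx N) (n : ℕ), eval y (PowerSeries.coeff n (T F)) = PowerSeries.coeff n (ψ F)

/-- (TCh) THE CHAIN RULE for vector fields `w` tangent to `f = 0`.

PROOF.  `Dy j` is additive, `Dy j (p q) = Dy j p q + p Dy j q` (coefficients), `Dy j (C (C a)) = 0`.
`E(F) = ε T(∑_l w_l ∂_l F) - ∑_j T(w_j) Dy j (T F)` is additive, `E(F G) = T F E(G) + T G E(F)`, `E(C a) = 0`; so
`E(F) = ∑_l T(∂_l F) E(X_l)` for all `F` (`MvPolynomial.induction_on`).  For `j' ∉ B`: `E(X_j') = ε T(w_j') -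
T(w_j') ε = 0`, because `Dy j (x_j' + ε y_j') = [j = j'] ε`.  `E(f_i) = ε T(∑ w_l ∂_l f_i) - 0 = 0`.  So
`∑_b T(∂_(B b) f_i) E(X_(B b)) = 0` for all `i`; the determinant of `(T(∂_(B b) f_i))` is `T` of the Jacobian
determinant, with the constant coefficient `C (det (x)) ≠ 0`, so it is not zero, and `A[[ε]]` is a domain:
`E(X_(B b)) = 0`.  So `E = 0`. -/
def S_TCh : Prop :=
  ∀ (N r : ℕ) (x : Vx N) (f : Fin r → Sx N) (B : Fin r → Fin (N + 1)), Par x f B →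
    ∀ T : Sx N →ₐ[ℂ] PowerSeries (Ay B), PT x f B T →
    ∀ w : Fin (N + 1) → Sx N, (∀ i, T (∑ l, w l * pderiv l (f i)) = 0) → ∀ F : Sx N,
    PowerSeries.X * T (∑ l, w l * pderiv l F) = ∑ j : Bn B, T (w j.1) * Dy j (T F)

end Pool.Agent.Lib.MP_776403_ag.SD.UN
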