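import Pool.Agent.Lib.MP_776403_ag.SD.UN.Spec7

/-! THEOREM UN, part U7, (RI): leading forms are in `J^(r-k)`. -/

set_option autoImplicit false

open MvPolynomial

noncomputable section

namespace Pool.Agent.Lib.MP_776403_ag.SD.UN

open LI

variable {N : ℕ}

namespace RIAux

variable {c : ℕ}

/-- The renaming `y_j ↦ X_j`. -/
def Rn (B : Fin c → Fin (N + 1)) : Ay B →ₐ[ℂ] Sx N := rename Subtype.val

theorem Rn_hom {B : Fin c → Fin (N + 1)} {p : Ay B} {r : ℕ} (hp : p.IsHomogeneous r) :
    (Rn B p).IsHomogeneous r := hp.rename_isHomogeneous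

theorem Rn_eval {B : Fin c → Fin (N + 1)} (p : Ay B) (z : Vx N) :
    eval z (Rn B p) = eval (fun j : Bn B => z j.1) p := by
  unfold Rn
  rw [eval_rename]
  rfl

theorem Rn_pd {B : Fin c → Fin (N + 1)} (p : Ay B) (j : Bn B) :
    pderiv j.1 (Rn B p) = Rn B (pderiv j p) := pderiv_rename Subtype.val_injective j p

theorem Rn_pd0 {B : Fin c → Fin (N + 1)} (p : Ay B) (l : Fin (N + 1)) (hl : l ∈ Set.range B) :
    pderiv l (Rn B p) = 0 := by
  classical
  refine pderiv_eq_zero_of_notMem_vars fun h => ?_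
  obtain ⟨j, -, hj⟩ := Finset.mem_image.mp (vars_rename _ _ h)
  exact j.2 (hj ▸ hl)

theorem pdL_zero {σ : Type} (l : List σ) : pdL l (0 : MvPolynomial σ ℂ) = 0 := by
  induction l with
  | nil => rfl
  | cons a l ih =>
    change pderiv a (pdL l 0) = 0
    rw [ih, map_zero]

theorem pdL_hom {σ : Type} (l : List σ) {p : MvPolynomial σ ℂ} {r : ℕ} (hp : p.IsHomogeneous r) :
    (pdL l p).IsHomogeneous (r - l.length) := by
  induction l with
  | nil => exact hp
  | cons a l ih =>
    have h := ih.pderiv (i := a)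
    rw [Nat.sub_sub] at h
    exact h

theorem pdL_Rn {B : Fin c → Fin (N + 1)} (p : Ay B) (l : List (Fin (N + 1))) :
    pdL l (Rn B p) = 0 ∨ ∃ l' : List (Bn B), l'.length = l.length ∧
      pdL l (Rn B p) = Rn B (pdL l' p) := by
  induction l with
  | nil => exact Or.inr ⟨[], rfl, rfl⟩
  | cons a l ih =>
    rcases ih with h | ⟨l', h1, h2⟩
    · left
      change pderiv a (pdL l (Rn B p)) = 0
      rw [h, map_zero]
    · by_cases ha : a ∈ Set.range B
      · left
        change pderiv a (pdL l (Rn B p)) = 0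
        rw [h2, Rn_pd0 _ _ ha]
      · right
        refine ⟨⟨a, ha⟩ :: l', by rw [List.length_cons, List.length_cons, h1], ?_⟩
        change pderiv a (pdL l (Rn B p)) = Rn B (pderiv ⟨a, ha⟩ (pdL l' p))
        rw [h2]
        exact Rn_pd _ ⟨a, ha⟩

theorem eval_lf (a z : Vx N) : eval z (lf a) = dp a z := by
  unfold lf dp
  rw [map_sum]
  refine Finset.sum_congr rfl fun i _ => ?_
  rw [map_mul, eval_C, eval_X]

theorem grad_lf (a z : Vx N) : grad (lf a) z = a := by
  classical
  funext j
  unfold grad lf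
  rw [map_sum, map_sum, Finset.sum_eq_single j]
  · rw [pderiv_C_mul, pderiv_X_self, mul_one, eval_C]
  · intro i _ hij
    rw [pderiv_C_mul, pderiv_X_of_ne hij, mul_zero, map_zero]
  · intro h
    exact absurd (Finset.mem_univ j) h

/-- `p (u)` does not change in the direction of `x`. -/
theorem der_aeval {σ : Type} [Fintype σ] (u x : σ → ℂ) (p : MvPolynomial σ ℂ) :
    Polynomial.derivative (aeval (fun j => Polynomial.C (u j) - Polynomial.C (x j) * Polynomial.X) p)
      = - aeval (fun j => Polynomial.C (u j) - Polynomial.C (x j) * Polynomial.X)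
        (∑ j, C (x j) * pderiv j p) := by
  classical
  induction p using MvPolynomial.induction_on with
  | C a => simp
  | add p q hp hq =>
    rw [map_add, Polynomial.derivative_add, hp, hq]
    simp only [map_add, mul_add, Finset.sum_add_distrib]
    ring
  | mul_X p i hp =>
    rw [map_mul, Polynomial.derivative_mul, hp, aeval_X]
    have h1 : ∑ j, C (x j) * pderiv j (p * X i) =
        (∑ j, C (x j) * pderiv j p) * X i + C (x i) * p := by
      rw [Finset.sum_mul]
      have h2 : C (x i) * p = ∑ j, C (x j) * (p * pderiv j (X i)) := by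
        rw [Finset.sum_eq_single i]
        · rw [pderiv_X_self, mul_one]
        · intro j _ hj
          rw [pderiv_X_of_ne (Ne.symm hj), mul_zero, mul_zero]
        · intro h
          exact absurd (Finset.mem_univ i) h
      rw [h2, ← Finset.sum_add_distrib]
      refine Finset.sum_congr rfl fun j _ => ?_
      rw [pderiv_mul]
      ring
    rw [h1, map_add, map_mul, map_mul, aeval_X, aeval_C]
    have h3 : Polynomial.derivative (Polynomial.C (u i) - Polynomial.C (x i) * Polynomial.X) =
        - Polynomial.C (x i) := by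
      simp
    rw [h3]
    have h4 : algebraMap ℂ (Polynomial ℂ) (x i) = Polynomial.C (x i) := rfl
    rw [h4]
    ring

theorem eval_aeval' {σ : Type} (u x : σ → ℂ) (p : MvPolynomial σ ℂ) (t : ℂ) :
    Polynomial.eval t
      (aeval (fun j => Polynomial.C (u j) - Polynomial.C (x j) * Polynomial.X) p) =
      eval (fun j => u j - t * x j) p := by
  induction p using MvPolynomial.induction_on with
  | C a => simp
  | add p q hp hq => rw [map_add, Polynomial.eval_add, hp, hq, map_add]
  | mul_X p i hp =>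
    rw [map_mul, Polynomial.eval_mul, hp, map_mul, aeval_X, eval_X]
    simp only [Polynomial.eval_sub, Polynomial.eval_mul, Polynomial.eval_C, Polynomial.eval_X]
    ring

theorem const_dir {σ : Type} [Fintype σ] (x : σ → ℂ) (p : MvPolynomial σ ℂ)
    (hp : ∑ j, C (x j) * pderiv j p = 0) (u : σ → ℂ) (s : ℂ) :
    eval u p = eval (fun j => u j - s * x j) p := by
  have h1 := der_aeval u x p
  rw [hp, map_zero, neg_zero] at h1
  have h2 := Polynomial.derivative_eq_zero.mp h1
  have h3 := Polynomial.eq_C_of_natDegree_eq_zero h2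
  have h4 := eval_aeval' u x p 0
  have h5 := eval_aeval' u x p s
  rw [h3, Polynomial.eval_C] at h4 h5
  rw [← h5, h4]
  simp only [zero_mul, sub_zero]

/-- Gradients of elements of `I` at `x`. -/
theorem mem_TS {I : Ideal (Sx N)} {x : Vx N} (L : Loc I x c) {v : Vx N}
    (hv : ∀ i, dp (grad (L.F i) x) v = 0) : v ∈ TS I x := by
  intro G hG
  obtain ⟨a, ha⟩ := (Ideal.mem_span_range_iff_exists_fun).mp (L.mul G hG)
  have h1 : grad (L.h * G) x = eval x L.h • grad G x := grad_mul_of_zero (L.memx G hG)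
  have h2 : grad (L.h * G) x = ∑ i, eval x (a i) • grad (L.F i) x := by
    rw [← ha, grad_sum]
    exact Finset.sum_congr rfl fun i _ => grad_mul_of_zero (L.memx _ (L.memF i))
  have h3 : eval x L.h * dp (grad G x) v = 0 := by
    have h4 : eval x L.h * dp (grad G x) v = dp (eval x L.h • grad G x) v := by
      unfold dp
      rw [Finset.mul_sum]
      refine Finset.sum_congr rfl fun i _ => ?_
      rw [Pi.smul_apply, smul_eq_mul, mul_assoc]
    have h5 : dp (∑ i, eval x (a i) • grad (L.F i) x) v =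
        ∑ i, eval x (a i) * dp (grad (L.F i) x) v := by
      unfold dp
      simp only [Finset.sum_apply, Pi.smul_apply, smul_eq_mul, Finset.sum_mul, Finset.mul_sum]
      rw [Finset.sum_comm]
      refine Finset.sum_congr rfl fun i _ => Finset.sum_congr rfl fun j _ => ?_
      ring
    rw [h4, ← h1, h2, h5]
    exact Finset.sum_eq_zero fun i _ => by rw [hv i, mul_zero]
  exact (mul_eq_zero.mp h3).resolve_left L.hx

/-- Tangent vectors with prescribed coordinates outside `B`. -/
theorem ex_TS {I : Ideal (Sx N)} {x : Vx N} (L : Loc I x c) (u : Bn L.B → ℂ) :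
    ∃ v ∈ TS I x, ∀ j : Bn L.B, v j.1 = u j := by
  classical
  set M : Matrix (Fin c) (Fin c) ℂ := Matrix.of fun i b => eval x (pderiv (L.B b) (L.F i)) with hM
  have hdet : M.det ≠ 0 := by
    have h1 : M.det = eval x (Matrix.det (Matrix.of fun i b => pderiv (L.B b) (L.F i))) := by
      rw [RingHom.map_det]
      rfl
    rw [h1]
    exact L.detx
  have hunit : IsUnit M.det := isUnit_iff_ne_zero.mpr hdet
  set u' : Vx N := fun l => if h : l ∈ Set.range L.B then 0 else u ⟨l, h⟩ with hu'
  set w : Fin c → ℂ := M⁻¹.mulVec (fun i => - dp (grad (L.F i) x) u') with hw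
  have hw2 : M.mulVec w = fun i => - dp (grad (L.F i) x) u' := by
    rw [hw, Matrix.mulVec_mulVec, Matrix.mul_nonsing_inv M hunit, Matrix.one_mulVec]
  set v : Vx N := fun l => u' l + ∑ b, if L.B b = l then w b else 0 with hv
  refine ⟨v, mem_TS L fun i => ?_, fun j => ?_⟩
  · have h1 : dp (grad (L.F i) x) v = dp (grad (L.F i) x) u' + M.mulVec w i := by
      unfold dp
      have h2 : M.mulVec w i = ∑ l, grad (L.F i) x l * ∑ b, if L.B b = l then w b else 0 := by
        simp only [Finset.mul_sum]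
        rw [Finset.sum_comm]
        unfold Matrix.mulVec dotProduct
        refine Finset.sum_congr rfl fun b _ => ?_
        rw [Finset.sum_eq_single (L.B b)]
        · rw [if_pos rfl]
          rfl
        · intro l _ hl
          rw [if_neg (Ne.symm hl), mul_zero]
        · intro h
          exact absurd (Finset.mem_univ _) h
      rw [h2, ← Finset.sum_add_distrib]
      refine Finset.sum_congr rfl fun l _ => ?_
      rw [hv]
      ring
    rw [h1, hw2]
    ring
  · have h1 : ∀ b, (if L.B b = j.1 then w b else 0) = 0 := fun b => by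
      rw [if_neg]
      intro h
      exact j.2 ⟨b, h⟩
    rw [hv]
    simp only [h1, Finset.sum_const_zero, add_zero]
    rw [hu']
    simp only [dif_neg j.2]

/-- The linear equations vanish on the tangent vectors. -/
theorem aI_van {I : Ideal (Sx N)} {d : Fin c → ℕ} {x lam : Vx N} {g : Ex d → Sx N}
    {J : Ideal (Sx N)} (h : LC I d x lam g J) {v : Vx N} (hv : v ∈ TS I x) (hl : dp lam v = 0)
    {F : Sx N} (hF : F ∈ aI d lam g) : eval v F = 0 := by
  have h1 : aI d lam g ≤ RingHom.ker (eval v) := by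
    unfold aI
    refine sup_le ?_ ?_
    · rw [Ideal.span_le]
      rintro _ rfl
      exact (eval_lf lam v).trans hl
    · rw [Ideal.span_le]
      rintro _ ⟨e, he, rfl⟩
      exact (h.tan v).mpr hv e he
  exact h1 hF

/-- Injectivity. -/
theorem inj {I : Ideal (Sx N)} {d : Fin c → ℕ} {x lam : Vx N} {g : Ex d → Sx N}
    {J : Ideal (Sx N)} (h : LC I d x lam g J) (L : Loc I x c) (hx : x ∈ TS I x)
    {p : Ay L.B} (hp : ∑ j : Bn L.B, C (x j.1) * pderiv j p = 0) (hF : Rn L.B p ∈ aI d lam g) :
    p = 0 := by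
  refine MvPolynomial.funext fun u => ?_
  obtain ⟨v', hv', hv'u⟩ := ex_TS L u
  set s : ℂ := dp lam v' with hs
  have h1 : v' - s • x ∈ TS I x := (TS I x).sub_mem hv' ((TS I x).smul_mem s hx)
  have h2 : dp lam (v' - s • x) = 0 := by
    have h3 : dp lam (v' - s • x) = dp lam v' - s * dp lam x := by
      unfold dp
      rw [Finset.mul_sum, ← Finset.sum_sub_distrib]
      refine Finset.sum_congr rfl fun i _ => ?_
      rw [Pi.sub_apply, Pi.smul_apply, smul_eq_mul]
      ring
    rw [h3, h.cn.lamx, mul_one, ← hs, sub_self]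
  have h4 := aI_van h h1 h2 hF
  rw [Rn_eval] at h4
  rw [const_dir (fun j : Bn L.B => x j.1) p hp u s, map_zero, ← h4]
  refine congrArg (fun w => eval w p) ?_
  funext j
  rw [Pi.sub_apply, Pi.smul_apply, smul_eq_mul, hv'u]

/-- `R p ∈ J^(r-k)`. -/
theorem mem_pow (hRZ : S_RZ) (hNull : S_Null) {I : Ideal (Sx N)} {d : Fin c → ℕ} {x lam : Vx N}
    {g : Ex d → Sx N} {J : Ideal (Sx N)} (h : LC I d x lam g J) (L : Loc I x c) {k r : ℕ}
    {p : Ay L.B} (hp : p ∈ LFm L J k r) : Rn L.B p ∈ J ^ (r - k) := by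
  obtain ⟨p1, -, p3⟩ := hp
  obtain ⟨z, hz, hz0, hind⟩ := h.ind
  refine hRZ N (r - k) J h.cn.prime h.cn.hom (Option (Ex d)) (fun o => o.elim (lf lam) g) ?_
    ⟨z, hz, ?_⟩ (Rn L.B p) ?_
  · have h1 : Set.range (fun o : Option (Ex d) => o.elim (lf lam) g) =
        Set.range g ∪ {lf lam} := by
      ext F
      constructor
      · rintro ⟨_ | e, rfl⟩
        · exact Or.inr rfl
        · exact Or.inl ⟨e, rfl⟩
      · rintro (⟨e, rfl⟩ | hF)
        · exact ⟨some e, rfl⟩
        · exact ⟨none, hF.symm⟩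
    rw [h1, Ideal.span_union]
    exact h.eq
  · have h1 : (fun o : Option (Ex d) => grad (o.elim (lf lam) g) z) =
        fun o : Option (Ex d) => o.elim lam fun e => grad (g e) z := by
      funext o
      rcases o with _ | e
      · exact grad_lf lam z
      · rfl
    rw [h1]
    exact hind
  · intro l hl
    rcases pdL_Rn p l with h1 | ⟨l', h1, h2⟩
    · rw [h1]
      exact J.zero_mem
    · rw [h2]
      refine (hNull N J h.cn.prime h.cn.hom).2 ⟨z, hz, hz0⟩ _ (r - l'.length)
        (Rn_hom (pdL_hom l' p1)) fun y hy hy0 => ?_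
      rw [Rn_eval]
      exact p3 l' (by omega) y hy hy0

end RIAux

open RIAux in
/-- (RI) -/
theorem tRI : S_RZ → S_Null → S_CN → LI.S_TS → S_RI := by
  intro hRZ hNull _ hTS N c k r I d hp hh hs x lam g J h L
  have hx : x ∈ TS I x := (hTS N c I hp hh hs x h.cn.xI h.cn.x0).2.1
  have hf1 : Module.Finite ℂ (homogeneousSubmodule (Bn L.B) ℂ r) :=
    Module.Finite.iff_fg.2 (homogeneousSubmodule_fg _ ℂ r)
  have hle : LFm L J k r ≤ homogeneousSubmodule (Bn L.B) ℂ r := fun p hp =>
    (mem_homogeneousSubmodule r p).mpr hp.1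
  have hfin : Module.Finite ℂ (LFm L J k r) :=
    Module.Finite.of_injective (Submodule.inclusion hle) (Submodule.inclusion_injective hle)
  refine ⟨hfin, ?_⟩
  have hf2 : Module.Finite ℂ (homogeneousSubmodule (Fin (N + 1)) ℂ r) :=
    Module.Finite.iff_fg.2 (homogeneousSubmodule_fg _ ℂ r)
  have hle2 : homogeneousSubmodule (Fin (N + 1)) ℂ r ⊓
      (J ^ (r - k) ⊔ aI d lam g).restrictScalars ℂ ≤ homogeneousSubmodule (Fin (N + 1)) ℂ r :=
    inf_le_left
  have hf3 : Module.Finite ℂ ↥(homogeneousSubmodule (Fin (N + 1)) ℂ r ⊓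
      (J ^ (r - k) ⊔ aI d lam g).restrictScalars ℂ) :=
    Module.Finite.of_injective (Submodule.inclusion hle2) (Submodule.inclusion_injective hle2)
  have hf4 : Module.Finite ℂ (grm (aI d lam g) J r (r - k)) := Module.Finite.map _ _
  have hmaps : ∀ p ∈ LFm L J k r,
      ((Ideal.Quotient.mkₐ ℂ (aI d lam g)).toLinearMap ∘ₗ (Rn L.B).toLinearMap) p ∈
        grm (aI d lam g) J r (r - k) := by
    intro p hp
    refine Submodule.mem_map_of_mem (Submodule.mem_inf.mpr ⟨?_, ?_⟩)
    · exact (mem_homogeneousSubmodule r _).mpr (Rn_hom hp.1)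
    · exact Ideal.mem_sup_left (mem_pow hRZ hNull h L hp)
  refine LinearMap.finrank_le_finrank_of_injective
    (f := ((Ideal.Quotient.mkₐ ℂ (aI d lam g)).toLinearMap ∘ₗ
      (Rn L.B).toLinearMap).restrict hmaps) ?_
  rw [← LinearMap.ker_eq_bot, LinearMap.ker_eq_bot']
  rintro ⟨p, hp⟩ h0
  have h1 : Ideal.Quotient.mk (aI d lam g) (Rn L.B p) = 0 := congrArg Subtype.val h0
  have h2 : p = 0 := inj h L hx hp.2.1 (Ideal.Quotient.eq_zero_iff_mem.mp h1)
  exact Subtype.ext h2

end Pool.Agent.Lib.MP_776403_ag.SD.UN
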