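import Pool.Agent.Lib.MP_776403_ag.SD.UN.Spec7
import Pool.Agent.Lib.MP_776403_ag.SD.LI.Cone

/-!
# RZ: polynomials all of whose derivatives of order `< m` are in `J` are in `J^m`
-/

set_option autoImplicit false

open MvPolynomial

noncomputable section

namespace Pool.Agent.Lib.MP_776403_ag.SD.UN

open LI

namespace RZAux

variable {N : ℕ}

theorem lin_C' (x v : Vx N) (a : ℂ) : lin x v (C a) = Polynomial.C a := by
  unfold lin
  rw [MvPolynomial.aeval_C]
  rfl

theorem coeff0 (x v : Vx N) (F : Sx N) : (lin x v F).coeff 0 = eval x F := by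
  induction F using MvPolynomial.induction_on with
  | C a => rw [lin_C']; simp
  | add p q hp hq => rw [map_add, Polynomial.coeff_add, hp, hq, map_add]
  | mul_X p j hp =>
    rw [map_mul, Polynomial.mul_coeff_zero, hp, map_mul]
    congr 1
    unfold lin
    rw [MvPolynomial.aeval_X]
    simp

theorem deriv_eq (x v : Vx N) (F : Sx N) :
    Polynomial.derivative (lin x v F) = ∑ l, Polynomial.C (v l) * lin x v (pderiv l F) := by
  rw [ConeAux.lin_der]
  unfold dd
  rw [map_sum]
  exact Finset.sum_congr rfl fun i _ => by rw [map_mul, lin_C']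

theorem coeff1 (x v : Vx N) (F : Sx N) : (lin x v F).coeff 1 = ∑ l, v l * grad F x l := by
  have h1 : (Polynomial.derivative (lin x v F)).coeff 0 = (lin x v F).coeff 1 := by
    rw [Polynomial.coeff_derivative]
    simp
  rw [← h1, deriv_eq, Polynomial.finsetSum_coeff]
  refine Finset.sum_congr rfl fun l _ => ?_
  rw [Polynomial.coeff_C_mul, coeff0]
  rfl

theorem coeff_small (z v : Vx N) : ∀ (i m : ℕ) (F : Sx N),
    (∀ l : List (Fin (N + 1)), l.length < m → eval z (pdL l F) = 0) → i < m →
    (lin z v F).coeff i = 0 := by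
  intro i
  induction i with
  | zero =>
    intro m F h hm
    rw [coeff0]
    exact h [] hm
  | succ i ih =>
    intro m F h hm
    have h1 : (Polynomial.derivative (lin z v F)).coeff i = 0 := by
      rw [deriv_eq, Polynomial.finsetSum_coeff]
      refine Finset.sum_eq_zero fun a _ => ?_
      rw [Polynomial.coeff_C_mul, ih (m - 1) (pderiv a F) ?_ (by omega), mul_zero]
      intro l hl
      have h2 := h (l ++ [a]) (by rw [List.length_append, List.length_singleton]; omega)
      have h3 : pdL (l ++ [a]) F = pdL l (pderiv a F) := by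
        unfold pdL
        rw [List.foldr_append]
        rfl
      rwa [h3] at h2
    rw [Polynomial.coeff_derivative] at h1
    rcases mul_eq_zero.1 h1 with h2 | h2
    · exact h2
    · exact absurd h2 (Nat.cast_add_one_ne_zero i)

theorem sum_deg {ι R : Type} [Fintype ι] [CommSemiring R] {j : ℕ} {p : MvPolynomial ι R}
    (hp : p.IsHomogeneous j) {d : ι →₀ ℕ} (hd : d ∈ p.support) : ∑ i, d i = j := by
  have h := hp (MvPolynomial.mem_support_iff.1 hd)
  rw [← h, Finsupp.weight_apply, Finsupp.sum_fintype _ _ (by simp)]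
  simp

theorem coeff_main {ι : Type} [Fintype ι] (z v : Vx N) (G : ι → Sx N)
    (hG : ∀ o, eval z (G o) = 0) (j : ℕ) (p : MvPolynomial ι (Sx N)) (hp : p.IsHomogeneous j) :
    (lin z v (eval G p)).coeff j =
      eval (fun o => (lin z v (G o)).coeff 1) (MvPolynomial.map (eval z) p) := by
  rw [MvPolynomial.eval_map, MvPolynomial.eval₂_eq', MvPolynomial.eval_eq', map_sum,
    Polynomial.finsetSum_coeff]
  refine Finset.sum_congr rfl fun d hd => ?_
  have h1 : ∀ i, lin z v (G i) = Polynomial.X * Polynomial.divX (lin z v (G i)) := by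
    intro i
    have h := Polynomial.divX_mul_X_add (lin z v (G i))
    rw [coeff0, hG i, Polynomial.C_0, add_zero] at h
    rw [mul_comm]
    exact h.symm
  have h2 : lin z v (∏ i, G i ^ d i) =
      (∏ i, Polynomial.divX (lin z v (G i)) ^ d i) * Polynomial.X ^ j := by
    rw [map_prod]
    have h3 : ∀ i, lin z v (G i ^ d i) =
        Polynomial.divX (lin z v (G i)) ^ d i * Polynomial.X ^ d i := by
      intro i
      rw [map_pow]
      conv_lhs => rw [h1 i]
      rw [mul_pow, mul_comm]
    rw [Finset.prod_congr rfl fun i _ => h3 i, Finset.prod_mul_distrib,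
      Finset.prod_pow_eq_pow_sum, sum_deg hp hd]
  rw [map_mul, h2, ← mul_assoc]
  have h4 := Polynomial.coeff_mul_X_pow
    (lin z v (coeff d p) * ∏ i, Polynomial.divX (lin z v (G i)) ^ d i) j 0
  rw [zero_add] at h4
  rw [h4, Polynomial.mul_coeff_zero, coeff0]
  congr 1
  rw [Polynomial.coeff_zero_prod]
  refine Finset.prod_congr rfl fun i _ => ?_
  rw [Polynomial.coeff_zero_eq_eval_zero, Polynomial.eval_pow, ← Polynomial.coeff_zero_eq_eval_zero,
    Polynomial.coeff_divX]

/-- Dual vectors of independent vectors. -/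
theorem dual {ι : Type} [Fintype ι] [DecidableEq ι] (a : ι → Vx N) (h : LinearIndependent ℂ a) :
    ∃ v : ι → Vx N, ∀ o o', ∑ l, v o' l * a o l = if o = o' then 1 else 0 := by
  have hr : (Matrix.of a).rank = Fintype.card ι := LinearIndependent.rank_matrix h
  have hs : Function.Surjective (Matrix.of a).mulVecLin := by
    rw [← LinearMap.range_eq_top]
    apply Submodule.eq_top_of_finrank_eq
    rw [Module.finrank_fintype_fun_eq_card]
    exact hr
  choose v hv using hs
  refine ⟨fun o' => v (Pi.single o' 1), fun o o' => ?_⟩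
  have h1 := congrFun (hv (Pi.single o' 1)) o
  rw [Matrix.mulVecLin_apply] at h1
  have h2 : ∑ l, v (Pi.single o' 1) l * a o l = (Matrix.of a).mulVec (v (Pi.single o' 1)) o := by
    unfold Matrix.mulVec dotProduct
    exact Finset.sum_congr rfl fun l _ => mul_comm _ _
  rw [h2, h1, Pi.single_apply]

end RZAux

open RZAux in
theorem tRZ : S_Null → S_RZ := by
  intro hN N m J hJ hH ι _ _ G hG hz F hF
  obtain ⟨z₁, hz₁, hi⟩ := hz
  obtain ⟨v, hv⟩ := dual _ hi
  have hGJ : ∀ o, G o ∈ J := fun o => by
    rw [hG]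
    exact Ideal.subset_span ⟨o, rfl⟩
  -- the minor
  let M : Matrix ι ι (Sx N) := Matrix.of fun o o' => ∑ l, C (v o' l) * pderiv l (G o)
  have hM : ∀ z : Vx N, eval z M.det =
      Matrix.det (Matrix.of fun o o' => ∑ l, v o' l * grad (G o) z l) := by
    intro z
    rw [RingHom.map_det]
    congr 1
    ext o o'
    simp only [M, RingHom.mapMatrix_apply, Matrix.map_apply, Matrix.of_apply, map_sum, map_mul,
      eval_C]
    rfl
  have hM1 : eval z₁ M.det ≠ 0 := by
    rw [hM]
    have h : (Matrix.of fun o o' => ∑ l, v o' l * grad (G o) z₁ l) = (1 : Matrix ι ι ℂ) := by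
      ext o o'
      rw [Matrix.of_apply, hv o o', Matrix.one_apply]
    rw [h, Matrix.det_one]
    exact one_ne_zero
  have hMJ : M.det ∉ J := fun h => hM1 (hz₁ _ h)
  have hy : ∀ z ∈ zer J, eval z M.det ≠ 0 → ∀ y : ι → ℂ, ∃ u : Vx N,
      ∀ o, (lin z u (G o)).coeff 1 = y o := by
    intro z _ hne y
    rw [hM] at hne
    set A : Matrix ι ι ℂ := Matrix.of fun o o' => ∑ l, v o' l * grad (G o) z l with hA
    refine ⟨∑ o', (A⁻¹.mulVec y) o' • v o', fun o => ?_⟩
    rw [coeff1]
    have h1 : ∑ l, (∑ o', (A⁻¹.mulVec y) o' • v o') l * grad (G o) z l =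
        A.mulVec (A⁻¹.mulVec y) o := by
      have h2 : ∀ l, (∑ o', (A⁻¹.mulVec y) o' • v o') l * grad (G o) z l =
          ∑ o', (v o' l * grad (G o) z l) * (A⁻¹.mulVec y) o' := by
        intro l
        rw [Finset.sum_apply, Finset.sum_mul]
        refine Finset.sum_congr rfl fun o' _ => ?_
        rw [Pi.smul_apply, smul_eq_mul]
        ring
      rw [Finset.sum_congr rfl fun l _ => h2 l, Finset.sum_comm]
      conv_rhs => unfold Matrix.mulVec dotProduct
      refine Finset.sum_congr rfl fun o' _ => ?_
      rw [← Finset.sum_mul]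
      rfl
    rw [h1, Matrix.mulVec_mulVec, Matrix.mul_nonsing_inv _ (isUnit_iff_ne_zero.2 hne),
      Matrix.one_mulVec]
  have key : ∀ j ≤ m, F ∈ J ^ j := by
    intro j
    induction j with
    | zero =>
      intro _
      rw [pow_zero, Ideal.one_eq_top]
      trivial
    | succ j ih =>
      intro hj
      have h1 := ih (by omega)
      rw [hG] at h1
      obtain ⟨p, hp, hpF⟩ := (Ideal.mem_span_pow_iff_exists_isHomogeneous G F).1 h1
      have hmap : ∀ z ∈ zer J, eval z M.det ≠ 0 → MvPolynomial.map (eval z) p = 0 := by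
        intro z hz hne
        apply MvPolynomial.funext
        intro y
        rw [map_zero]
        obtain ⟨u, hu⟩ := hy z hz hne y
        have h2 := coeff_main z u G (fun o => hz _ (hGJ o)) j p hp
        have h3 : (fun o => (lin z u (G o)).coeff 1) = y := funext hu
        rw [h3] at h2
        rw [← h2, hpF]
        exact coeff_small z u j m F (fun l hl => hz _ (hF l hl)) (by omega)
      have hc : ∀ d, coeff d p ∈ J := by
        intro d
        have h2 : coeff d p * M.det ∈ J := by
          refine (hN N J hJ hH).1 _ fun z hz => ?_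
          rw [map_mul]
          by_cases hne : eval z M.det = 0
          · rw [hne, mul_zero]
          · have h3 := congrArg (coeff d) (hmap z hz hne)
            rw [coeff_map, coeff_zero] at h3
            rw [h3, zero_mul]
        exact (hJ.mem_or_mem h2).resolve_right hMJ
      rw [← hpF, MvPolynomial.eval_eq', pow_succ']
      refine Ideal.sum_mem _ fun d hd => Ideal.mul_mem_mul (hc d) ?_
      have h4 : ∏ i, G i ^ d i ∈ ∏ i, J ^ d i :=
        Ideal.prod_mem_prod fun i _ => Ideal.pow_mem_pow (hGJ i) _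
      rwa [Finset.prod_pow_eq_pow_sum, sum_deg hp hd] at h4
  exact key m le_rfl

end Pool.Agent.Lib.MP_776403_ag.SD.UN
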