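import Pool.Agent.Lib.MP_776403_ag.SD.UN.Spec7

/-!
# THEOREM UN, module RN: the generating function of the bound
-/

set_option autoImplicit false

open MvPolynomial

noncomputable section

namespace Pool.Agent.Lib.MP_776403_ag.SD.UN

open LI

namespace RNAux

open Finset

/-- expansion of a product over subsets -/
theorem prodSub {ι : Type} [Fintype ι] [DecidableEq ι] (d : ι → ℕ) :
    ∑ A : Finset ι, (-1 : PowerSeries ℤ) ^ A.card * PowerSeries.X ^ (∑ i ∈ A, d i) =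
      ∏ i, (1 - (PowerSeries.X : PowerSeries ℤ) ^ d i) := by
  have h := Finset.prod_add (fun i => -((PowerSeries.X : PowerSeries ℤ) ^ d i)) (fun _ => 1)
    (Finset.univ : Finset ι)
  have h2 : ∏ i, (1 - (PowerSeries.X : PowerSeries ℤ) ^ d i) =
      ∏ i ∈ (Finset.univ : Finset ι), (-((PowerSeries.X : PowerSeries ℤ) ^ d i) + 1) := by
    refine Finset.prod_congr rfl fun i _ => by ring
  rw [h2, h, Finset.powerset_univ]
  refine Finset.sum_congr rfl fun A _ => ?_
  rw [Finset.prod_const_one, mul_one, Finset.prod_neg, Finset.prod_pow_eq_pow_sum]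

theorem gen {ι : Type} [Fintype ι] [DecidableEq ι] (d : ι → ℕ) (N : ℕ) :
    (PowerSeries.mk fun k => (∑ A : Finset ι, (-1 : ℤ) ^ A.card *
      (if ∑ i ∈ A, d i ≤ k then (Nat.choose (N + (k - ∑ i ∈ A, d i)) N : ℤ) else 0))) *
      (1 - (PowerSeries.X : PowerSeries ℤ)) ^ (N + 1) =
      ∏ i, (1 - (PowerSeries.X : PowerSeries ℤ) ^ d i) := by
  have h1 : (PowerSeries.mk fun k => (∑ A : Finset ι, (-1 : ℤ) ^ A.card *
      (if ∑ i ∈ A, d i ≤ k then (Nat.choose (N + (k - ∑ i ∈ A, d i)) N : ℤ) else 0))) =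
      (∑ A : Finset ι, (-1 : PowerSeries ℤ) ^ A.card * PowerSeries.X ^ (∑ i ∈ A, d i)) *
        PowerSeries.mk fun n => (Nat.choose (N + n) N : ℤ) := by
    ext k
    rw [Finset.sum_mul, map_sum, PowerSeries.coeff_mk]
    refine Finset.sum_congr rfl fun A _ => ?_
    have h2 : (-1 : PowerSeries ℤ) ^ A.card = PowerSeries.C ((-1 : ℤ) ^ A.card) := by
      rw [map_pow, map_neg, map_one]
    rw [h2, mul_assoc, PowerSeries.coeff_C_mul, PowerSeries.coeff_X_pow_mul']
    split_ifs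
    · rw [PowerSeries.coeff_mk]
    · rfl
  rw [h1, mul_assoc, PowerSeries.mk_add_choose_mul_one_sub_pow_eq_one, mul_one, prodSub]

/-- the product over one block -/
theorem block (n : ℕ) (hn : 1 ≤ n) :
    ∏ j ∈ range n, (1 - (PowerSeries.X : PowerSeries ℤ) ^ (j + 1)) =
      (∏ j ∈ range n, if j ≠ 0 then (1 - (PowerSeries.X : PowerSeries ℤ) ^ j) else 1) *
        (1 - (PowerSeries.X : PowerSeries ℤ) ^ n) := by
  induction n, hn using Nat.le_induction with
  | base => simp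
  | succ n hn ih =>
    rw [Finset.prod_range_succ, ih, Finset.prod_range_succ, if_pos (by omega)]

theorem prodEx {c : ℕ} (d : Fin c → ℕ) (hd : ∀ i, 1 ≤ d i) :
    ∏ e : Ex d, (1 - (PowerSeries.X : PowerSeries ℤ) ^ (e.2.1 + 1)) =
      (∏ e : Ex2 d, (1 - (PowerSeries.X : PowerSeries ℤ) ^ e.1.2.1)) *
        ∏ i, (1 - (PowerSeries.X : PowerSeries ℤ) ^ d i) := by
  have h1 : (∏ e : Ex2 d, (1 - (PowerSeries.X : PowerSeries ℤ) ^ e.1.2.1)) =
      ∏ e : Ex d, if e.2.1 ≠ 0 then (1 - (PowerSeries.X : PowerSeries ℤ) ^ e.2.1) else 1 := by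
    rw [← Finset.prod_filter]
    exact (Finset.prod_subtype (Finset.univ.filter fun e : Ex d => e.2.1 ≠ 0) (by simp)
      (fun e : Ex d => (1 - (PowerSeries.X : PowerSeries ℤ) ^ e.2.1))).symm
  rw [h1, Fintype.prod_sigma, Fintype.prod_sigma, ← Finset.prod_mul_distrib]
  refine Finset.prod_congr rfl fun i _ => ?_
  have h2 := block (d i) (hd i)
  rw [← Fin.prod_univ_eq_prod_range (fun j => (1 - (PowerSeries.X : PowerSeries ℤ) ^ (j + 1))) (d i),
    ← Fin.prod_univ_eq_prod_range (fun j => if j ≠ 0 then (1 - (PowerSeries.X : PowerSeries ℤ) ^ j)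
      else 1) (d i)] at h2
  exact h2

/-- the left side as a coefficient -/
theorem coefA {ι : Type} [Fintype ι] [DecidableEq ι] (w : ι → ℕ) (H : ℕ → ℤ) (k : ℕ) :
    PowerSeries.coeff k (PowerSeries.mk H * (∑ j ∈ range (k + 1), (PowerSeries.X : PowerSeries ℤ) ^ j) *
      ∏ e, ∑ j ∈ range (k + 1), ((PowerSeries.X : PowerSeries ℤ) ^ w e) ^ j) =
      ∑ p ∈ ((Fintype.piFinset fun _ : ι => range (k + 1)) ×ˢ range (k + 1)).filter
        (fun p => p.2 + ∑ e, p.1 e * w e ≤ k), H (k - (p.2 + ∑ e, p.1 e * w e)) := by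
  rw [Finset.prod_univ_sum, Finset.sum_filter, Finset.sum_product, Finset.mul_sum, map_sum]
  refine Finset.sum_congr rfl fun α _ => ?_
  have h1 : ∏ e, ((PowerSeries.X : PowerSeries ℤ) ^ w e) ^ α e =
      PowerSeries.X ^ (∑ e, α e * w e) := by
    rw [← Finset.prod_pow_eq_pow_sum]
    refine Finset.prod_congr rfl fun e _ => ?_
    rw [← pow_mul, mul_comm]
  rw [h1, Finset.mul_sum, Finset.sum_mul, map_sum]
  refine Finset.sum_congr rfl fun j _ => ?_
  rw [mul_assoc, ← pow_add, PowerSeries.coeff_mul_X_pow']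
  split_ifs
  · rw [PowerSeries.coeff_mk]
  · rfl

theorem sumEq {c : ℕ} (d : Fin c → ℕ) (H : ℕ → ℤ) (k : ℕ) :
    ∑ r ∈ Finset.range (2 * k + 1), ∑ α ∈ mu d r (r - k), H (r - ∑ e, α e * (e.1.2.1 + 1)) =
      ∑ p ∈ ((Fintype.piFinset fun _ : Ex2 d => range (k + 1)) ×ˢ range (k + 1)).filter
        (fun p => p.2 + ∑ e, p.1 e * e.1.2.1 ≤ k), H (k - (p.2 + ∑ e, p.1 e * e.1.2.1)) := by
  have hs : ∀ α : Ex2 d → ℕ, ∑ e, α e * (e.1.2.1 + 1) = ∑ e, α e * e.1.2.1 + ∑ e, α e := by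
    intro α
    rw [← Finset.sum_add_distrib]
    exact Finset.sum_congr rfl fun e _ => by ring
  have hle : ∀ (α : Ex2 d → ℕ) (e : Ex2 d), α e ≤ ∑ e, α e * e.1.2.1 := by
    intro α e
    have h1 : α e ≤ α e * e.1.2.1 := Nat.le_mul_of_pos_right _ (Nat.pos_of_ne_zero e.2)
    exact h1.trans (Finset.single_le_sum (f := fun e : Ex2 d => α e * e.1.2.1)
      (fun _ _ => Nat.zero_le _) (Finset.mem_univ e))
  have hle2 : ∀ (α : Ex2 d → ℕ), ∑ e, α e ≤ ∑ e, α e * e.1.2.1 := by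
    intro α
    exact Finset.sum_le_sum fun e _ => Nat.le_mul_of_pos_right _ (Nat.pos_of_ne_zero e.2)
  have hle3 : ∀ (α : Ex2 d → ℕ) (e : Ex2 d), α e ≤ ∑ e, α e := by
    intro α e
    exact Finset.single_le_sum (f := fun e : Ex2 d => α e) (fun _ _ => Nat.zero_le _)
      (Finset.mem_univ e)
  rw [Finset.sum_sigma']
  refine Finset.sum_bij' (fun q _ => (q.2, k + ∑ e, q.2 e - q.1))
    (fun p _ => ⟨k + ∑ e, p.1 e - p.2, p.1⟩) ?_ ?_ ?_ ?_ ?_
  · rintro ⟨r, α⟩ hq
    simp only [Finset.mem_sigma, Finset.mem_range, mu, Finset.mem_filter, Fintype.mem_piFinset,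
      hs] at hq
    obtain ⟨h1, h2, h3, h4⟩ := hq
    simp only [Finset.mem_filter, Finset.mem_product, Fintype.mem_piFinset, Finset.mem_range]
    refine ⟨⟨fun e => ?_, ?_⟩, ?_⟩
    · have := hle α e
      omega
    · omega
    · omega
  · rintro ⟨α, j⟩ hp
    simp only [Finset.mem_filter, Finset.mem_product, Fintype.mem_piFinset, Finset.mem_range] at hp
    obtain ⟨⟨h1, h2⟩, h3⟩ := hp
    simp only [Finset.mem_sigma, Finset.mem_range, mu, Finset.mem_filter, Fintype.mem_piFinset, hs]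
    have h4 := hle2 α
    refine ⟨by omega, ⟨fun e => ?_, by omega, by omega⟩⟩
    have := hle3 α e
    omega
  · rintro ⟨r, α⟩ hq
    simp only [Finset.mem_sigma, Finset.mem_range, mu, Finset.mem_filter, Fintype.mem_piFinset,
      hs] at hq
    obtain ⟨h1, h2, h3, h4⟩ := hq
    have : k + ∑ e, α e - (k + ∑ e, α e - r) = r := by omega
    simp only [this]
  · rintro ⟨α, j⟩ hp
    simp only [Finset.mem_filter, Finset.mem_product, Fintype.mem_piFinset, Finset.mem_range] at hp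
    obtain ⟨⟨h1, h2⟩, h3⟩ := hp
    have : k + ∑ e, α e - (k + ∑ e, α e - j) = j := by omega
    simp only [this]
  · rintro ⟨r, α⟩ hq
    simp only [Finset.mem_sigma, Finset.mem_range, mu, Finset.mem_filter, Fintype.mem_piFinset,
      hs] at hq
    obtain ⟨h1, h2, h3, h4⟩ := hq
    simp only [hs]
    congr 1
    omega

theorem geomProd {ι : Type} [Fintype ι] (w : ι → ℕ) (k : ℕ) :
    (∏ e, ∑ j ∈ range (k + 1), ((PowerSeries.X : PowerSeries ℤ) ^ w e) ^ j) *
      ∏ e, (1 - (PowerSeries.X : PowerSeries ℤ) ^ w e) =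
      ∏ e, (1 - ((PowerSeries.X : PowerSeries ℤ) ^ w e) ^ (k + 1)) := by
  rw [← Finset.prod_mul_distrib]
  exact Finset.prod_congr rfl fun e _ => geom_sum_mul_neg _ _

theorem dvdMul (D a b : PowerSeries ℤ) (ha : D ∣ a - 1) (hb : D ∣ b - 1) : D ∣ a * b - 1 := by
  have : a * b - 1 = a * (b - 1) + (a - 1) := by ring
  rw [this]
  exact dvd_add (Dvd.dvd.mul_left hb _) ha

theorem dvdProd {ι : Type} [Fintype ι] (w : ι → ℕ) (hw : ∀ e, w e ≠ 0) (k : ℕ) :
    (PowerSeries.X : PowerSeries ℤ) ^ (k + 1) ∣ (1 - PowerSeries.X ^ (k + 1)) *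
      (∏ e, (1 - ((PowerSeries.X : PowerSeries ℤ) ^ w e) ^ (k + 1))) - 1 := by
  refine dvdMul _ _ _ ⟨-1, by ring⟩ ?_
  refine Finset.prod_induction (fun e => 1 - ((PowerSeries.X : PowerSeries ℤ) ^ w e) ^ (k + 1))
    (fun p => (PowerSeries.X : PowerSeries ℤ) ^ (k + 1) ∣ p - 1) (dvdMul _) (by simp) fun e _ => ?_
  have h : (1 - ((PowerSeries.X : PowerSeries ℤ) ^ w e) ^ (k + 1)) - 1 =
      -(((PowerSeries.X : PowerSeries ℤ) ^ w e) ^ (k + 1)) := by ring
  rw [h, dvd_neg, ← pow_mul]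
  exact pow_dvd_pow _ (Nat.le_mul_of_pos_left _ (Nat.pos_of_ne_zero (hw e)))

theorem unitP {ι : Type} [Fintype ι] (w : ι → ℕ) (hw : ∀ e, w e ≠ 0) (N : ℕ) :
    IsUnit ((1 - PowerSeries.X) * (∏ e, (1 - (PowerSeries.X : PowerSeries ℤ) ^ w e)) *
      (1 - (PowerSeries.X : PowerSeries ℤ)) ^ (N + 1)) := by
  rw [PowerSeries.isUnit_iff_constantCoeff]
  have h : ∀ e, PowerSeries.constantCoeff (1 - (PowerSeries.X : PowerSeries ℤ) ^ w e) = 1 := by
    intro e
    simp [hw e]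
  simp [h]

end RNAux

open RNAux in
theorem tRN : S_RN := by
  intro N c d hd k
  refine ⟨fun r hr => ?_, ?_⟩
  · rw [Finset.eq_empty_iff_forall_notMem]
    intro α hα
    simp only [mu, Finset.mem_filter, Fintype.mem_piFinset, Finset.mem_range] at hα
    obtain ⟨_, h2, h3⟩ := hα
    have h4 : 2 * ∑ e, α e ≤ ∑ e, α e * (e.1.2.1 + 1) := by
      rw [Finset.mul_sum]
      refine Finset.sum_le_sum fun e _ => ?_
      have := Nat.pos_of_ne_zero e.2
      nlinarith [Nat.zero_le (α e)]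
    omega
  · rw [sumEq d (fun u => hcG (fun o : Option (Ex d) => o.elim 1 fun e => e.2.1 + 1) N u) k,
      ← coefA (fun e : Ex2 d => e.1.2.1)
        (fun u => hcG (fun o : Option (Ex d) => o.elim 1 fun e => e.2.1 + 1) N u) k]
    have hH : (PowerSeries.mk fun u => hcG (fun o : Option (Ex d) => o.elim 1 fun e => e.2.1 + 1) N u) *
        (1 - (PowerSeries.X : PowerSeries ℤ)) ^ (N + 1) =
        (1 - PowerSeries.X) * ∏ e : Ex d, (1 - (PowerSeries.X : PowerSeries ℤ) ^ (e.2.1 + 1)) := by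
      have := gen (fun o : Option (Ex d) => o.elim 1 fun e => e.2.1 + 1) N
      rw [Fintype.prod_option] at this
      simpa [hcG] using this
    have hI : (PowerSeries.mk fun u => hci d N u) * (1 - (PowerSeries.X : PowerSeries ℤ)) ^ (N + 1) =
        ∏ i, (1 - (PowerSeries.X : PowerSeries ℤ) ^ d i) := gen d N
    have hE := prodEx d hd
    have h1 := geom_sum_mul_neg (PowerSeries.X : PowerSeries ℤ) (k + 1)
    have h2 := geomProd (fun e : Ex2 d => e.1.2.1) k
    have h3 := dvdProd (fun e : Ex2 d => e.1.2.1) (fun e => e.2) k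
    have hu := unitP (fun e : Ex2 d => e.1.2.1) (fun e => e.2) N
    generalize hS : (PowerSeries.mk fun u =>
      hcG (fun o : Option (Ex d) => o.elim 1 fun e => e.2.1 + 1) N u) = S at hH ⊢
    generalize hG1 : ∑ j ∈ Finset.range (k + 1), (PowerSeries.X : PowerSeries ℤ) ^ j = G1 at h1 ⊢
    generalize hG2 : (∏ e : Ex2 d, ∑ j ∈ Finset.range (k + 1),
      ((PowerSeries.X : PowerSeries ℤ) ^ e.1.2.1) ^ j) = G2 at h2 ⊢
    generalize hP : (∏ e : Ex2 d, (1 - (PowerSeries.X : PowerSeries ℤ) ^ e.1.2.1)) = P at h2 hE hu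
    generalize hQ : (∏ e : Ex2 d, (1 - ((PowerSeries.X : PowerSeries ℤ) ^ e.1.2.1) ^ (k + 1))) = Q
      at h2 h3
    generalize hR : (∏ e : Ex d, (1 - (PowerSeries.X : PowerSeries ℤ) ^ (e.2.1 + 1))) = R at hH hE
    have hI' : PowerSeries.coeff k (PowerSeries.mk fun u => hci d N u) = hci d N k :=
      PowerSeries.coeff_mk _ _
    rw [← hI']
    generalize (PowerSeries.mk fun u => hci d N u) = T at hI ⊢
    have hkey : (S * G1 * G2 - T) * ((1 - PowerSeries.X) * P *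
        (1 - (PowerSeries.X : PowerSeries ℤ)) ^ (N + 1)) =
        ((1 - PowerSeries.X ^ (k + 1)) * Q - 1) * ((1 - PowerSeries.X) * R) := by
      linear_combination (G1 * G2 * (1 - PowerSeries.X) * P) * hH +
        (G2 * P * (1 - PowerSeries.X) * R) * h1 +
        ((1 - PowerSeries.X ^ (k + 1)) * (1 - PowerSeries.X) * R) * h2 -
        ((1 - PowerSeries.X) * P) * hI + (1 - PowerSeries.X) * hE
    have hd1 : (PowerSeries.X : PowerSeries ℤ) ^ (k + 1) ∣ (S * G1 * G2 - T) * ((1 - PowerSeries.X) * P *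
        (1 - (PowerSeries.X : PowerSeries ℤ)) ^ (N + 1)) := by
      rw [hkey]
      exact Dvd.dvd.mul_right h3 _
    rw [hu.dvd_mul_right] at hd1
    have h4 := PowerSeries.X_pow_dvd_iff.1 hd1 k (Nat.lt_succ_self k)
    rw [map_sub, sub_eq_zero] at h4
    exact h4

end Pool.Agent.Lib.MP_776403_ag.SD.UN
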