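import Pool.Agent.Lib.MP_776403_ag.SD.UN.Spec7

/-!
# THEOREM UN: (RT) the formal parametrization of `X` at its point `x` (helper40)
-/

set_option autoImplicit false

open MvPolynomial

noncomputable section

namespace Pool.Agent.Lib.MP_776403_ag.SD.UN

open LI

namespace RTAux

/-- The curve `t ↦ x + t z` as a homomorphism into power series. -/
private def psi {N : ℕ} (x z : Vx N) : Sx N →ₐ[ℂ] PowerSeries ℂ :=
  (Polynomial.coeToPowerSeries.algHom ℂ).comp (lin x z)

private theorem psi_apply {N : ℕ} (x z : Vx N) (F : Sx N) :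
    psi x z F = ((lin x z F : Polynomial ℂ) : PowerSeries ℂ) := by
  unfold psi
  rw [AlgHom.comp_apply, Polynomial.coeToPowerSeries.algHom_apply]
  ext n
  simp

end RTAux

open RTAux in
/-- (RT) The formal parametrization. -/
theorem tRT : S_TKer → S_TUn → S_TCh → S_LinB → S_RT := by
  intro hTKer hTUn hTCh hLinB N c I hI _ x L
  have hPar : Par x L.F L.B := ⟨fun i => L.memx _ (L.memF i), L.injB, L.detx⟩
  refine ⟨hPar, fun T hT => ?_⟩
  have hspan : Ideal.span (Set.range L.F) ≤ I := by
    rw [Ideal.span_le]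
    rintro _ ⟨i, rfl⟩
    exact L.memF i
  -- (b)
  have hb : ∀ G ∈ I, T G = 0 := by
    intro G hG
    have h2 : Ideal.span (Set.range L.F) ≤ RingHom.ker T := by
      rw [Ideal.span_le]
      rintro _ ⟨i, rfl⟩
      exact hT.zero i
    have h1 : T (L.h * G) = 0 := h2 (L.mul G hG)
    rw [map_mul] at h1
    have h0 : T L.h ≠ 0 := by
      intro h
      have h3 := hT.c0 L.h
      rw [h, map_zero] at h3
      exact L.hx (C_eq_zero.1 h3.symm)
    exact (mul_eq_zero.1 h1).resolve_left h0
  refine ⟨hb, ?_, ?_, ?_⟩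
  · -- (c)
    intro F hF
    obtain ⟨h, hh, hm⟩ := hTKer N c x L.F L.B hPar T hT F hF
    exact (hI.mem_or_mem (hspan hm)).resolve_left fun h2 => hh (L.memx h h2)
  · -- (d)
    intro z hz F
    have hkey := hTUn N c x L.F L.B hPar T hT (fun j => z j.1) (psi x z) ?_ ?_ ?_ F
    · ext n
      rw [evz, PowerSeries.coeff_map, hkey n, psi_apply]
    · intro j
      rw [psi_apply]
      simp [lin]
    · intro i
      rw [psi_apply, (hLinB N x z (L.F i)).2.2 I hz (L.memF i), Polynomial.coe_zero]
    · intro G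
      rw [psi_apply, Polynomial.coeff_coe, Polynomial.coeff_zero_eq_eval_zero,
        (hLinB N x z G).1 0, zero_smul, add_zero]
  · -- (e)
    intro w hw F
    refine hTCh N c x L.F L.B hPar T hT w (fun i => hb _ ?_) F
    have h := hw (L.F i) (L.memF i)
    rwa [Finset.sum_congr rfl fun l _ => mul_comm (pderiv l (L.F i)) (w l)] at h

end Pool.Agent.Lib.MP_776403_ag.SD.UN
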