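import Pool.Agent.Lib.MP_776403_ag.SD.UN.SpecT

/-!
# TCh: the chain rule for the formal parametrization
-/

set_option autoImplicit false

open MvPolynomial

noncomputable section

namespace Pool.Agent.Lib.MP_776403_ag.SD.UN

open LI

namespace TChAux

variable {N r : ℕ} {B : Fin r → Fin (N + 1)}

theorem Dy_add (j : Bn B) (p q : PowerSeries (Ay B)) : Dy j (p + q) = Dy j p + Dy j q := by
  ext n : 1
  simp [Dy]

theorem Dy_mul (j : Bn B) (p q : PowerSeries (Ay B)) :
    Dy j (p * q) = Dy j p * q + p * Dy j q := by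
  ext n : 1
  simp only [Dy, PowerSeries.coeff_mk, PowerSeries.coeff_mul, map_add, map_sum,
    Derivation.leibniz, smul_eq_mul]
  rw [← Finset.sum_add_distrib]
  refine Finset.sum_congr rfl fun a _ => ?_
  ring

theorem Dy_C (j : Bn B) (a : Ay B) : Dy j (PowerSeries.C a) = PowerSeries.C (pderiv j a) := by
  ext n : 1
  simp only [Dy, PowerSeries.coeff_mk, PowerSeries.coeff_C]
  split_ifs <;> simp

theorem Dy_X (j : Bn B) : Dy j (PowerSeries.X : PowerSeries (Ay B)) = 0 := by
  ext n : 1
  simp only [Dy, PowerSeries.coeff_mk, PowerSeries.coeff_X]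
  split_ifs <;> simp

/-- The defect. -/
def E (T : Sx N →ₐ[ℂ] PowerSeries (Ay B)) (w : Fin (N + 1) → Sx N) (F : Sx N) :
    PowerSeries (Ay B) :=
  PowerSeries.X * T (∑ l, w l * pderiv l F) - ∑ j : Bn B, T (w j.1) * Dy j (T F)

variable (T : Sx N →ₐ[ℂ] PowerSeries (Ay B)) (w : Fin (N + 1) → Sx N)

theorem E_add (F G : Sx N) : E T w (F + G) = E T w F + E T w G := by
  simp only [E, map_add, Dy_add, mul_add, Finset.sum_add_distrib]
  ring

theorem E_mul (F G : Sx N) : E T w (F * G) = T F * E T w G + T G * E T w F := by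
  have h1 : ∑ l, w l * pderiv l (F * G)
      = F * (∑ l, w l * pderiv l G) + G * ∑ l, w l * pderiv l F := by
    rw [Finset.mul_sum, Finset.mul_sum, ← Finset.sum_add_distrib]
    refine Finset.sum_congr rfl fun l _ => ?_
    simp only [Derivation.leibniz, smul_eq_mul]
    ring
  have h2 : ∑ j : Bn B, T (w j.1) * Dy j (T (F * G))
      = T F * (∑ j : Bn B, T (w j.1) * Dy j (T G)) + T G * ∑ j : Bn B, T (w j.1) * Dy j (T F) := by
    rw [Finset.mul_sum, Finset.mul_sum, ← Finset.sum_add_distrib]
    refine Finset.sum_congr rfl fun j _ => ?_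
    rw [map_mul, Dy_mul]
    ring
  simp only [E]
  rw [h1, h2, map_add, map_mul, map_mul]
  ring

theorem T_C (a : ℂ) : T (C a) = PowerSeries.C (C a) := by
  have h := T.commutes a
  rw [MvPolynomial.algebraMap_eq] at h
  rw [h, PowerSeries.algebraMap_apply, MvPolynomial.algebraMap_eq]

theorem E_C (a : ℂ) : E T w (C a) = 0 := by
  simp only [E]
  rw [T_C]
  simp [Dy_C]

theorem E_eq (F : Sx N) : E T w F = ∑ l, T (pderiv l F) * E T w (X l) := by
  induction F using MvPolynomial.induction_on with
  | C a => simp [E_C]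
  | add p q hp hq =>
    rw [E_add, hp, hq, ← Finset.sum_add_distrib]
    refine Finset.sum_congr rfl fun l _ => ?_
    rw [map_add, map_add]
    ring
  | mul_X p i hp =>
    rw [E_mul, hp, Finset.mul_sum]
    have h1 : ∀ l, T (pderiv l (p * X i)) * E T w (X l)
        = T (X i) * (T (pderiv l p) * E T w (X l)) + (if l = i then T p * E T w (X i) else 0) := by
      intro l
      simp only [Derivation.leibniz, smul_eq_mul, map_add, map_mul]
      by_cases hl : l = i
      · subst hl
        simp
        ring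
      · rw [pderiv_X_of_ne (Ne.symm hl)]
        simp [hl]
        ring
    rw [Finset.sum_congr rfl fun l _ => h1 l, Finset.sum_add_distrib]
    simp
    ring

end TChAux

open TChAux in
theorem tTCh : S_TCh := by
  intro N r x f B hP T hT w hw F
  classical
  have hX : ∀ j : Bn B, E T w (X j.1) = 0 := by
    intro j
    simp only [E]
    have h1 : ∑ l, w l * pderiv l (X j.1 : Sx N) = w j.1 := by
      rw [Finset.sum_eq_single j.1]
      · simp
      · intro l _ hl
        rw [pderiv_X_of_ne (Ne.symm hl)]
        simp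
      · simp
    have h2 : ∑ i : Bn B, T (w i.1) * Dy i (T (X j.1)) = T (w j.1) * PowerSeries.X := by
      rw [Finset.sum_eq_single j]
      · rw [hT.var j, Dy_add, Dy_mul, Dy_C, Dy_C, Dy_X]
        simp
      · intro i _ hi
        rw [hT.var j, Dy_add, Dy_mul, Dy_C, Dy_C, Dy_X, pderiv_X_of_ne (Ne.symm hi)]
        simp
      · simp
    rw [h1, h2]
    ring
  have hf : ∀ i, E T w (f i) = 0 := by
    intro i
    simp only [E]
    rw [hw i, hT.zero i]
    have h0 : ∀ j : Bn B, Dy j (0 : PowerSeries (Ay B)) = 0 := by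
      intro j
      ext n : 1
      simp [Dy]
    simp [h0]
  have hsum : ∀ G : Sx N, E T w G = ∑ b, T (pderiv (B b) G) * E T w (X (B b)) := by
    intro G
    rw [E_eq]
    rw [← Finset.sum_image (s := Finset.univ) (g := B)
      (f := fun l => T (pderiv l G) * E T w (X l)) (fun a _ b _ h => hP.inj h)]
    symm
    refine Finset.sum_subset (Finset.subset_univ _) ?_
    intro l _ hl
    have hl' : l ∉ Set.range B := by
      rintro ⟨b, rfl⟩
      exact hl (Finset.mem_image_of_mem _ (Finset.mem_univ b))
    rw [hX ⟨l, hl'⟩, mul_zero]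
  have hdet : Matrix.det (Matrix.of fun i b => T (pderiv (B b) (f i))) ≠ 0 := by
    intro h0
    have h1 : Matrix.det (Matrix.of fun i b => T (pderiv (B b) (f i)))
        = T (Matrix.det (Matrix.of fun i b => pderiv (B b) (f i))) := by
      rw [AlgHom.map_det]
      rfl
    rw [h1] at h0
    have h2 := hT.c0 (Matrix.det (Matrix.of fun i b => pderiv (B b) (f i)))
    rw [h0, map_zero] at h2
    exact hP.det ((MvPolynomial.C_eq_zero (σ := Bn B)).1 h2.symm)
  have hB : (fun b => E T w (X (B b))) = 0 := by
    refine Matrix.eq_zero_of_mulVec_eq_zero hdet ?_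
    funext i
    have h := hf i
    rw [hsum] at h
    simpa [Matrix.mulVec, dotProduct] using h
  have hE : E T w F = 0 := by
    rw [hsum]
    refine Finset.sum_eq_zero fun b _ => ?_
    rw [show E T w (X (B b)) = 0 from congrFun hB b, mul_zero]
  exact sub_eq_zero.1 hE

end Pool.Agent.Lib.MP_776403_ag.SD.UN
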