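import Pool.Agent.Lib.MP_776403_ag.SD.UN.SpecT

/-! # THEOREM UN, (TEx): existence of the formal parametrization -/

set_option autoImplicit false

open MvPolynomial

noncomputable section

namespace Pool.Agent.Lib.MP_776403_ag.SD.UN

open LI

namespace TExAux

variable {ι κ : Type}

/-- all coefficients `n` are homogeneous of degree `n` -/
def Ph (p : PowerSeries (MvPolynomial ι ℂ)) : Prop := ∀ n : ℕ, (PowerSeries.coeff n p).IsHomogeneous n

lemma Ph.add {p q : PowerSeries (MvPolynomial ι ℂ)} (hp : Ph p) (hq : Ph q) : Ph (p + q) := fun n => by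
  rw [map_add]
  exact (hp n).add (hq n)

lemma Ph.mul {p q : PowerSeries (MvPolynomial ι ℂ)} (hp : Ph p) (hq : Ph q) : Ph (p * q) := fun n => by
  rw [PowerSeries.coeff_mul]
  refine IsHomogeneous.sum _ _ _ fun c hc => ?_
  have h := Finset.HasAntidiagonal.mem_antidiagonal.1 hc
  rw [← h]
  exact (hp c.1).mul (hq c.2)

lemma Ph_mon (n : ℕ) {u : MvPolynomial ι ℂ} (hu : u.IsHomogeneous n) :
    Ph (PowerSeries.X ^ n * PowerSeries.C u) := fun m => by
  rw [PowerSeries.coeff_X_pow_mul']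
  split_ifs with h
  · rw [PowerSeries.coeff_C]
    split_ifs with h'
    · have : m = n := by omega
      rw [this]
      exact hu
    · exact isHomogeneous_zero _ _ _
  · exact isHomogeneous_zero _ _ _

lemma Ph_C (a : ℂ) : Ph (PowerSeries.C (C a : MvPolynomial ι ℂ)) := by
  have h := Ph_mon 0 (isHomogeneous_C ι a)
  rwa [pow_zero, one_mul] at h

lemma Ph_var (a : ℂ) (j : ι) :
    Ph (PowerSeries.C (C a : MvPolynomial ι ℂ) + PowerSeries.C (X j) * PowerSeries.X) := by
  refine (Ph_C a).add ?_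
  have h := Ph_mon 1 (isHomogeneous_X ℂ j)
  rwa [pow_one, mul_comm] at h

lemma aeval_C' (Φ : κ → PowerSeries (MvPolynomial ι ℂ)) (a : ℂ) :
    aeval Φ (C a : MvPolynomial κ ℂ) = PowerSeries.C (C a) := by
  rw [aeval_C, PowerSeries.algebraMap_apply]
  rfl

lemma Ph_aeval {Φ : κ → PowerSeries (MvPolynomial ι ℂ)} (h : ∀ l, Ph (Φ l)) (F : MvPolynomial κ ℂ) :
    Ph (aeval Φ F) := by
  induction F using MvPolynomial.induction_on with
  | C a => rw [aeval_C']; exact Ph_C a
  | add p q hp hq => rw [map_add]; exact hp.add hq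
  | mul_X p i hp => rw [map_mul, aeval_X]; exact hp.mul (h i)

lemma c0_aeval {Φ : κ → PowerSeries (MvPolynomial ι ℂ)} {x : κ → ℂ}
    (h : ∀ l, PowerSeries.constantCoeff (Φ l) = C (x l)) (F : MvPolynomial κ ℂ) :
    PowerSeries.constantCoeff (aeval Φ F) = C (eval x F) := by
  induction F using MvPolynomial.induction_on with
  | C a => rw [aeval_C', PowerSeries.constantCoeff_C, eval_C]
  | add p q hp hq => simp only [map_add, hp, hq]
  | mul_X p i hp => simp only [map_mul, aeval_X, hp, h, eval_X]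

lemma dvd_aeval {R : Type} [CommRing R] [Algebra ℂ R] {Φ Ψ : κ → R} {e : R} (h : ∀ l, e ∣ Φ l - Ψ l)
    (F : MvPolynomial κ ℂ) : e ∣ aeval Φ F - aeval Ψ F := by
  induction F using MvPolynomial.induction_on with
  | C a => rw [aeval_C, aeval_C, sub_self]; exact dvd_zero e
  | add p q hp hq =>
    rw [map_add, map_add]
    have : aeval Φ p + aeval Φ q - (aeval Ψ p + aeval Ψ q) =
      (aeval Φ p - aeval Ψ p) + (aeval Φ q - aeval Ψ q) := by ring
    rw [this]
    exact dvd_add hp hq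
  | mul_X p i hp =>
    rw [map_mul, map_mul, aeval_X, aeval_X]
    have : aeval Φ p * Φ i - aeval Ψ p * Ψ i =
      (aeval Φ p - aeval Ψ p) * Φ i + aeval Ψ p * (Φ i - Ψ i) := by ring
    rw [this]
    exact dvd_add (Dvd.dvd.mul_right hp _) (Dvd.dvd.mul_left (h i) _)

/-- Taylor's formula of first order -/
lemma taylor {R : Type} [CommRing R] [Algebra ℂ R] [Fintype κ] (Φ U : κ → R) (e : R)
    (F : MvPolynomial κ ℂ) : ∃ q : R, aeval (fun l => Φ l + e * U l) F =
      aeval Φ F + e * ∑ l, U l * aeval Φ (pderiv l F) + e * e * q := by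
  classical
  induction F using MvPolynomial.induction_on with
  | C a =>
    refine ⟨0, ?_⟩
    simp only [aeval_C, pderiv_C, map_zero, mul_zero, Finset.sum_const_zero, add_zero]
  | add p q hp hq =>
    obtain ⟨a, ha⟩ := hp
    obtain ⟨b, hb⟩ := hq
    refine ⟨a + b, ?_⟩
    simp only [map_add, mul_add, Finset.sum_add_distrib, ha, hb]
    ring
  | mul_X p i hp =>
    obtain ⟨a, ha⟩ := hp
    have h1 : ∑ l, U l * aeval Φ (pderiv l (p * X i)) =
        (∑ l, U l * aeval Φ (pderiv l p)) * Φ i + aeval Φ p * U i := by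
      have h2 : ∀ l, U l * aeval Φ (pderiv l (p * X i)) =
          U l * aeval Φ (pderiv l p) * Φ i + (if i = l then aeval Φ p * U i else 0) := by
        intro l
        rw [pderiv_mul, pderiv_X, map_add, map_mul, map_mul, aeval_X]
        by_cases h : i = l
        · subst h
          rw [Pi.single_eq_same, map_one, if_pos rfl]
          ring
        · rw [Pi.single_eq_of_ne h, map_zero, if_neg h]
          ring
      rw [Finset.sum_congr rfl fun l _ => h2 l, Finset.sum_add_distrib, ← Finset.sum_mul,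
        Finset.sum_ite_eq Finset.univ i, if_pos (Finset.mem_univ i)]
    refine ⟨(∑ l, U l * aeval Φ (pderiv l p)) * U i + a * Φ i + e * a * U i, ?_⟩
    rw [h1, map_mul, map_mul, aeval_X, aeval_X, ha]
    ring

/-- the property of the approximations -/
structure Qk {N r : ℕ} (x : Vx N) (f : Fin r → Sx N) (B : Fin r → Fin (N + 1)) (k : ℕ)
    (Φ : Fin (N + 1) → PowerSeries (Ay B)) : Prop where
  ph : ∀ l, Ph (Φ l)
  c0 : ∀ l, PowerSeries.constantCoeff (Φ l) = C (x l)
  var : ∀ j : Bn B, Φ j.1 = PowerSeries.C (C (x j.1)) + PowerSeries.C (X j) * PowerSeries.X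
  dvd : ∀ i, PowerSeries.X ^ (k + 1) ∣ aeval Φ (f i)

lemma base {N r : ℕ} {x : Vx N} {f : Fin r → Sx N} {B : Fin r → Fin (N + 1)} (hP : Par x f B) :
    ∃ Φ : Fin (N + 1) → PowerSeries (Ay B), Qk x f B 0 Φ := by
  classical
  refine ⟨fun l => if h : l ∈ Set.range B then PowerSeries.C (C (x l)) else
    PowerSeries.C (C (x l)) + PowerSeries.C (X (⟨l, h⟩ : Bn B)) * PowerSeries.X, ?_, ?_, ?_, ?_⟩
  · intro l
    by_cases h : l ∈ Set.range B
    · rw [dif_pos h]; exact Ph_C _
    · rw [dif_neg h]; exact Ph_var _ _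
  · intro l
    by_cases h : l ∈ Set.range B
    · rw [dif_pos h, PowerSeries.constantCoeff_C]
    · rw [dif_neg h, map_add, map_mul, PowerSeries.constantCoeff_C, PowerSeries.constantCoeff_X,
        mul_zero, add_zero]
  · intro j
    rw [dif_neg j.2]
  · intro i
    rw [zero_add, pow_one, PowerSeries.X_dvd_iff, c0_aeval (x := x), hP.zero i, map_zero]
    intro l
    by_cases h : l ∈ Set.range B
    · rw [dif_pos h, PowerSeries.constantCoeff_C]
    · rw [dif_neg h, map_add, map_mul, PowerSeries.constantCoeff_C, PowerSeries.constantCoeff_X,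
        mul_zero, add_zero]

lemma step {N r : ℕ} {x : Vx N} {f : Fin r → Sx N} {B : Fin r → Fin (N + 1)} (hP : Par x f B) (k : ℕ)
    (Φ : Fin (N + 1) → PowerSeries (Ay B)) (hΦ : Qk x f B k Φ) :
    ∃ Φ' : Fin (N + 1) → PowerSeries (Ay B), Qk x f B (k + 1) Φ' ∧
      ∀ l, PowerSeries.X ^ (k + 1) ∣ Φ' l - Φ l := by
  classical
  set M : Matrix (Fin r) (Fin r) ℂ := Matrix.of fun i b => eval x (pderiv (B b) (f i)) with hM
  have hdet : IsUnit M.det := by
    have h := hP.det
    rw [RingHom.map_det] at h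
    rw [isUnit_iff_ne_zero]
    exact h
  set a : Fin r → Ay B := fun i => PowerSeries.coeff (k + 1) (aeval Φ (f i)) with ha
  have hah : ∀ i, (a i).IsHomogeneous (k + 1) := fun i => Ph_aeval hΦ.ph (f i) (k + 1)
  set u : Fin r → Ay B := fun b => -∑ i, C (M⁻¹ b i) * a i with hu
  have huh : ∀ b, (u b).IsHomogeneous (k + 1) := by
    intro b
    rw [hu]
    refine IsHomogeneous.neg (IsHomogeneous.sum _ _ _ fun i _ => ?_)
    have h := (isHomogeneous_C (Bn B) (M⁻¹ b i)).mul (hah i)
    rwa [zero_add] at h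
  have hMu : ∀ i, ∑ b, C (M i b) * u b = -a i := by
    intro i
    have h1 : ∀ b, C (M i b) * u b = -∑ i', C (M i b * M⁻¹ b i') * a i' := by
      intro b
      rw [hu]
      simp only [mul_neg, Finset.mul_sum, C_mul, mul_assoc]
    rw [Finset.sum_congr rfl fun b _ => h1 b, Finset.sum_neg_distrib, Finset.sum_comm, neg_inj]
    have h2 : ∀ i', ∑ b, C (M i b * M⁻¹ b i') * a i' = C ((M * M⁻¹) i i') * a i' := by
      intro i'
      rw [← Finset.sum_mul, Matrix.mul_apply, map_sum]
    rw [Finset.sum_congr rfl fun i' _ => h2 i', Matrix.mul_nonsing_inv M hdet]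
    rw [Finset.sum_eq_single i]
    · rw [Matrix.one_apply_eq, C_1, one_mul]
    · intro i' _ hi'
      rw [Matrix.one_apply_ne (Ne.symm hi'), C_0, zero_mul]
    · intro h
      exact absurd (Finset.mem_univ i) h
  set U : Fin (N + 1) → PowerSeries (Ay B) :=
    Function.extend B (fun b => PowerSeries.C (u b)) (fun _ => 0) with hU
  have hUB : ∀ b, U (B b) = PowerSeries.C (u b) := fun b => hP.inj.extend_apply _ _ b
  have hU0 : ∀ l, l ∉ Set.range B → U l = 0 := fun l hl =>
    Function.extend_apply' _ _ l (fun ⟨b, hb⟩ => hl ⟨b, hb⟩)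
  set Φ' : Fin (N + 1) → PowerSeries (Ay B) := fun l => Φ l + PowerSeries.X ^ (k + 1) * U l with hΦ'
  refine ⟨Φ', ⟨?_, ?_, ?_, ?_⟩, ?_⟩
  · intro l
    refine (hΦ.ph l).add ?_
    by_cases h : l ∈ Set.range B
    · obtain ⟨b, rfl⟩ := h
      rw [hUB]
      exact Ph_mon (k + 1) (huh b)
    · rw [hU0 l h, mul_zero]
      intro n
      rw [map_zero]
      exact isHomogeneous_zero _ _ _
  · intro l
    simp only [hΦ', map_add, map_mul, map_pow, PowerSeries.constantCoeff_X, hΦ.c0 l]
    rw [zero_pow (Nat.succ_ne_zero k), zero_mul, add_zero]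
  · intro j
    simp only [hΦ']
    rw [hU0 j.1 j.2, mul_zero, add_zero, hΦ.var j]
  · intro i
    obtain ⟨q, hq⟩ := taylor Φ U (PowerSeries.X ^ (k + 1)) (f i)
    have hsum : ∑ l, U l * aeval Φ (pderiv l (f i)) =
        ∑ b, PowerSeries.C (u b) * aeval Φ (pderiv (B b) (f i)) := by
      refine (Fintype.sum_of_injective B hP.inj _ _ (fun l hl => ?_) (fun b => ?_)).symm
      · rw [hU0 l hl, zero_mul]
      · rw [hUB]
    have hc : PowerSeries.constantCoeff (∑ l, U l * aeval Φ (pderiv l (f i))) = -a i := by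
      rw [hsum, map_sum, ← hMu i]
      refine Finset.sum_congr rfl fun b _ => ?_
      rw [map_mul, PowerSeries.constantCoeff_C, c0_aeval hΦ.c0, hM, Matrix.of_apply, mul_comm]
    rw [PowerSeries.X_pow_dvd_iff]
    intro m hm
    rw [hq, map_add, map_add, PowerSeries.coeff_X_pow_mul', mul_assoc, PowerSeries.coeff_X_pow_mul']
    rcases Nat.lt_or_ge m (k + 1) with h | h
    · have h1 := PowerSeries.X_pow_dvd_iff.1 (hΦ.dvd i) m h
      rw [h1, if_neg (by omega), if_neg (by omega)]
      simp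
    · have hmk : m = k + 1 := by omega
      subst hmk
      rw [if_pos le_rfl, if_pos le_rfl, Nat.sub_self, PowerSeries.coeff_zero_eq_constantCoeff_apply, hc,
        PowerSeries.coeff_X_pow_mul', if_neg (by omega)]
      simp only [ha]
      ring
  · intro l
    simp only [hΦ', add_sub_cancel_left]
    exact dvd_mul_right _ _

end TExAux

open TExAux in
theorem tTEx : S_TEx := by
  classical
  intro N r x f B hP
  obtain ⟨Φ0, hΦ0⟩ := base hP
  -- the sequence of approximations
  have hstep : ∀ (k : ℕ) (Φ : {Φ : Fin (N + 1) → PowerSeries (Ay B) // Qk x f B k Φ}),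
      ∃ Φ' : {Φ : Fin (N + 1) → PowerSeries (Ay B) // Qk x f B (k + 1) Φ},
        ∀ l, PowerSeries.X ^ (k + 1) ∣ Φ'.1 l - Φ.1 l := by
    intro k Φ
    obtain ⟨Φ', h1, h2⟩ := step hP k Φ.1 Φ.2
    exact ⟨⟨Φ', h1⟩, h2⟩
  choose nxt hnxt using hstep
  let sq : (k : ℕ) → {Φ : Fin (N + 1) → PowerSeries (Ay B) // Qk x f B k Φ} :=
    fun k => Nat.rec ⟨Φ0, hΦ0⟩ (fun k Φ => nxt k Φ) k
  have hsq : ∀ k l, PowerSeries.X ^ (k + 1) ∣ (sq (k + 1)).1 l - (sq k).1 l := fun k l => hnxt k (sq k) l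
  have hst : ∀ (m d : ℕ) (l : Fin (N + 1)),
      PowerSeries.coeff m ((sq (m + d)).1 l) = PowerSeries.coeff m ((sq m).1 l) := by
    intro m d l
    induction d with
    | zero => rfl
    | succ d ih =>
      have h := PowerSeries.X_pow_dvd_iff.1 (hsq (m + d) l) m (by omega)
      rw [map_sub, sub_eq_zero] at h
      rw [← add_assoc, h, ih]
  set Φ : Fin (N + 1) → PowerSeries (Ay B) :=
    fun l => PowerSeries.mk fun n => PowerSeries.coeff n ((sq n).1 l) with hΦ
  have hcl : ∀ k l, PowerSeries.X ^ (k + 1) ∣ Φ l - (sq k).1 l := by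
    intro k l
    rw [PowerSeries.X_pow_dvd_iff]
    intro m hm
    obtain ⟨d, rfl⟩ : ∃ d, k = m + d := ⟨k - m, by omega⟩
    rw [map_sub, hΦ, PowerSeries.coeff_mk, hst m d l, sub_self]
  have hph : ∀ l, Ph (Φ l) := by
    intro l n
    rw [hΦ, PowerSeries.coeff_mk]
    exact (sq n).2.ph l n
  have hc0 : ∀ l, PowerSeries.constantCoeff (Φ l) = C (x l) := by
    intro l
    rw [← PowerSeries.coeff_zero_eq_constantCoeff_apply, hΦ, PowerSeries.coeff_mk,
      PowerSeries.coeff_zero_eq_constantCoeff_apply]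
    exact (sq 0).2.c0 l
  refine ⟨aeval Φ, ?_, ?_, ?_, ?_⟩
  · intro j
    rw [aeval_X]
    ext1 n
    rw [hΦ, PowerSeries.coeff_mk, (sq n).2.var j]
  · intro i
    ext1 n
    have h1 : PowerSeries.X ^ (n + 1) ∣ aeval Φ (f i) := by
      have h2 := dvd_aeval (hcl n) (f i)
      have h3 := dvd_add h2 ((sq n).2.dvd i)
      rwa [sub_add_cancel] at h3
    rw [PowerSeries.X_pow_dvd_iff.1 h1 n (Nat.lt_succ_self n), map_zero]
  · intro F n
    exact Ph_aeval hph F n
  · intro F
    rw [PowerSeries.coeff_zero_eq_constantCoeff_apply]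
    exact c0_aeval hc0 F

end Pool.Agent.Lib.MP_776403_ag.SD.UN
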