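import Pool.Agent.Lib.MP_776403_ag.SD.UN.SpecT

/-!
# THEOREM UN, (TKer): the kernel of the formal parametrization
-/

set_option autoImplicit false

open MvPolynomial

noncomputable section

namespace Pool.Agent.Lib.MP_776403_ag.SD.UN

open LI

namespace TKerAux

variable {N r : ℕ}

theorem mem_pt {x : Vx N} {F : Sx N} : F ∈ ptI x ↔ eval x F = 0 := Iff.rfl

theorem sub_mem_pt (x : Vx N) (F : Sx N) : F - C (eval x F) ∈ ptI x := by
  rw [mem_pt, map_sub, eval_C, sub_self]

theorem X_mem_pt (x : Vx N) (i : Fin (N + 1)) : (X i - C (x i) : Sx N) ∈ ptI x := by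
  rw [mem_pt, map_sub, eval_C, eval_X, sub_self]

/-- Taylor's formula of order two. -/
theorem taylor (x : Vx N) (F : Sx N) :
    F - C (eval x F) - ∑ l, C (eval x (pderiv l F)) * (X l - C (x l)) ∈ ptI x ^ 2 := by
  induction F using MvPolynomial.induction_on with
  | C a =>
    have h : (C a - C (eval x (C a)) - ∑ l, C (eval x (pderiv l (C a))) * (X l - C (x l)) :
        Sx N) = 0 := by
      simp
    rw [h]
    exact Ideal.zero_mem _
  | add p q hp hq =>
    have h : (p + q - C (eval x (p + q)) -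
        ∑ l, C (eval x (pderiv l (p + q))) * (X l - C (x l)) : Sx N) =
        (p - C (eval x p) - ∑ l, C (eval x (pderiv l p)) * (X l - C (x l))) +
        (q - C (eval x q) - ∑ l, C (eval x (pderiv l q)) * (X l - C (x l))) := by
      simp only [map_add, add_mul, Finset.sum_add_distrib]
      ring
    rw [h]
    exact Ideal.add_mem _ hp hq
  | mul_X p i hp =>
    have h1 : ∀ l, eval x (pderiv l (p * X i)) =
        x i * eval x (pderiv l p) + if l = i then eval x p else 0 := by
      intro l
      rw [pderiv_mul, map_add, map_mul, map_mul, eval_X, pderiv_X, Pi.single_apply]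
      split_ifs with h2 h3 h3
      · rw [map_one]
        ring
      · exact absurd h2.symm h3
      · exact absurd h3.symm h2
      · rw [map_zero]
        ring
    have h2 : (∑ l, C (eval x (pderiv l (p * X i))) * (X l - C (x l)) : Sx N) =
        C (x i) * ∑ l, C (eval x (pderiv l p)) * (X l - C (x l)) +
          C (eval x p) * (X i - C (x i)) := by
      simp only [h1, map_add, map_mul, add_mul, Finset.sum_add_distrib, Finset.mul_sum, mul_assoc]
      congr 1
      rw [Finset.sum_eq_single i]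
      · rw [if_pos rfl]
      · intro b _ hb
        rw [if_neg hb, map_zero, zero_mul]
      · intro h
        exact absurd (Finset.mem_univ i) h
    have h : (p * X i - C (eval x (p * X i)) -
        ∑ l, C (eval x (pderiv l (p * X i))) * (X l - C (x l)) : Sx N) =
        (p - C (eval x p)) * (X i - C (x i)) +
        C (x i) * (p - C (eval x p) - ∑ l, C (eval x (pderiv l p)) * (X l - C (x l))) := by
      rw [h2, map_mul, eval_X, map_mul]
      ring
    rw [h]
    refine Ideal.add_mem _ ?_ (Ideal.mul_mem_left _ _ hp)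
    rw [pow_two]
    exact Ideal.mul_mem_mul (sub_mem_pt x p) (X_mem_pt x i)

/-- The substitution `y_j ↦ X_j - x_j`. -/
def sg (x : Vx N) (B : Fin r → Fin (N + 1)) : Ay B →ₐ[ℂ] Sx N :=
  aeval fun j : Bn B => (X j.1 - C (x j.1) : Sx N)

/-- The ideal `(f) + 𝔪^k`. -/
def bk (x : Vx N) (f : Fin r → Sx N) (k : ℕ) : Ideal (Sx N) :=
  Ideal.span (Set.range f) ⊔ ptI x ^ k

/-- The polynomials that are polynomials in the `X_j - x_j` modulo `(f) + 𝔪^k`. -/
def V (x : Vx N) (f : Fin r → Sx N) (B : Fin r → Fin (N + 1)) (k : ℕ) : Subalgebra ℂ (Sx N) :=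
  ((Ideal.Quotient.mkₐ ℂ (bk x f k)).comp (sg x B)).range.comap (Ideal.Quotient.mkₐ ℂ (bk x f k))

theorem mem_V {x : Vx N} {f : Fin r → Sx N} {B : Fin r → Fin (N + 1)} {k : ℕ} {G : Sx N} :
    G ∈ V x f B k ↔ ∃ p : Ay B, G - sg x B p ∈ bk x f k := by
  rw [V, Subalgebra.mem_comap, AlgHom.mem_range]
  constructor
  · rintro ⟨p, hp⟩
    exact ⟨p, Ideal.Quotient.eq.1 hp.symm⟩
  · rintro ⟨p, hp⟩
    exact ⟨p, (Ideal.Quotient.eq.2 hp).symm⟩

theorem V_of_mem {x : Vx N} {f : Fin r → Sx N} {B : Fin r → Fin (N + 1)} {k : ℕ} {G : Sx N}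
    (h : G ∈ bk x f k) : G ∈ V x f B k := by
  refine mem_V.2 ⟨0, ?_⟩
  rwa [map_zero, sub_zero]

theorem bk_le {x : Vx N} {f : Fin r → Sx N} (hf : ∀ i, eval x (f i) = 0) {k : ℕ} :
    bk x f (k + 1) ≤ ptI x := by
  refine sup_le ?_ (Ideal.pow_le_self (Nat.succ_ne_zero k))
  rw [Ideal.span_le]
  rintro _ ⟨i, rfl⟩
  exact hf i

theorem bk_mul {x : Vx N} {f : Fin r → Sx N} {k : ℕ} {G H : Sx N} (hG : G ∈ bk x f k)
    (hH : H ∈ ptI x) : G * H ∈ bk x f (k + 1) := by
  obtain ⟨u, hu, v, hv, rfl⟩ := Submodule.mem_sup.1 hG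
  rw [add_mul]
  refine Ideal.add_mem _ ?_ ?_
  · exact (le_sup_left : _ ≤ bk x f (k + 1)) (Ideal.mul_mem_right _ _ hu)
  · refine (le_sup_right : _ ≤ bk x f (k + 1)) ?_
    rw [pow_succ]
    exact Ideal.mul_mem_mul hv hH

/-- CLAIM 1. -/
theorem V_top {x : Vx N} {f : Fin r → Sx N} {B : Fin r → Fin (N + 1)} (hP : Par x f B) (k : ℕ) :
    V x f B (k + 1) = ⊤ := by
  classical
  induction k with
  | zero =>
    rw [eq_top_iff]
    intro G _
    refine mem_V.2 ⟨C (eval x G), ?_⟩
    have h : sg x B (C (eval x G)) = C (eval x G) := (sg x B).commutes _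
    rw [h]
    refine (le_sup_right : _ ≤ bk x f (0 + 1)) ?_
    rw [zero_add, pow_one]
    exact sub_mem_pt x G
  | succ k ih =>
    have hsq : ∀ q ∈ ptI x ^ 2, q ∈ V x f B (k + 2) := by
      intro q hq
      rw [pow_two] at hq
      refine Submodule.mul_induction_on hq ?_ ?_
      · intro u hu v hv
        obtain ⟨p, hp⟩ := mem_V.1 (show u ∈ V x f B (k + 1) by rw [ih]; trivial)
        obtain ⟨p', hp'⟩ := mem_V.1 (show v ∈ V x f B (k + 1) by rw [ih]; trivial)
        refine mem_V.2 ⟨p * p', ?_⟩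
        have h1 : sg x B p ∈ ptI x := by
          have h2 := Ideal.sub_mem _ hu (bk_le hP.zero hp)
          rwa [sub_sub_cancel] at h2
        have h2 : u * v - sg x B (p * p') =
            (u - sg x B p) * v + (v - sg x B p') * sg x B p := by
          rw [map_mul]
          ring
        rw [h2]
        exact Ideal.add_mem _ (bk_mul hp hv) (bk_mul hp' h1)
      · intro a b ha hb
        exact Subalgebra.add_mem _ ha hb
    have hC : ∀ a : ℂ, (C a : Sx N) ∈ V x f B (k + 2) := fun a => Subalgebra.algebraMap_mem _ a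
    have hX : ∀ j : Bn B, (X j.1 - C (x j.1) : Sx N) ∈ V x f B (k + 2) := by
      intro j
      refine mem_V.2 ⟨X j, ?_⟩
      have h : sg x B (X j) = X j.1 - C (x j.1) := aeval_X _ _
      rw [h, sub_self]
      exact Ideal.zero_mem _
    have hlin : ∀ i, (∑ b, C (eval x (pderiv (B b) (f i))) * (X (B b) - C (x (B b))) : Sx N) ∈
        V x f B (k + 2) := by
      intro i
      have h1 := hsq _ (taylor x (f i))
      rw [hP.zero i, map_zero, sub_zero] at h1
      have h2 : f i ∈ V x f B (k + 2) := V_of_mem ((le_sup_left : _ ≤ bk x f (k + 2))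
        (Ideal.subset_span ⟨i, rfl⟩))
      have h3 := Subalgebra.sub_mem _ h2 h1
      rw [sub_sub_cancel] at h3
      have h4 : (∑ l, C (eval x (pderiv l (f i))) * (X l - C (x l)) : Sx N) =
          ∑ b, C (eval x (pderiv (B b) (f i))) * (X (B b) - C (x (B b))) +
          ∑ l ∈ Finset.univ.filter (fun l => l ∉ Set.range B),
            C (eval x (pderiv l (f i))) * (X l - C (x l)) := by
        rw [← Finset.sum_filter_add_sum_filter_not Finset.univ (fun l => l ∈ Set.range B)]
        congr 1
        have h5 : Finset.univ.filter (fun l => l ∈ Set.range B) = Finset.univ.image B := by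
          ext l
          simp
        rw [h5, Finset.sum_image fun a _ b _ h => hP.inj h]
      rw [h4] at h3
      have h6 : (∑ l ∈ Finset.univ.filter (fun l => l ∉ Set.range B),
            C (eval x (pderiv l (f i))) * (X l - C (x l)) : Sx N) ∈ V x f B (k + 2) := by
        refine Subalgebra.sum_mem _ fun l hl => ?_
        exact Subalgebra.mul_mem _ (hC _) (hX ⟨l, (Finset.mem_filter.1 hl).2⟩)
      have h7 := Subalgebra.sub_mem _ h3 h6
      rwa [add_sub_cancel_right] at h7
    have hB : ∀ b, (X (B b) - C (x (B b)) : Sx N) ∈ V x f B (k + 2) := by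
      intro b'
      set M : Matrix (Fin r) (Fin r) ℂ :=
        Matrix.of fun i b => eval x (pderiv (B b) (f i)) with hM
      have hdet : M.det ≠ 0 := by
        have h1 := hP.det
        rw [RingHom.map_det] at h1
        exact h1
      have h1 : (∑ i, C (M.adjugate b' i) *
          ∑ b, C (eval x (pderiv (B b) (f i))) * (X (B b) - C (x (B b))) : Sx N) =
          C M.det * (X (B b') - C (x (B b'))) := by
        have h2 : (∑ i, C (M.adjugate b' i) *
            ∑ b, C (eval x (pderiv (B b) (f i))) * (X (B b) - C (x (B b))) : Sx N) =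
            ∑ b, C ((M.adjugate * M) b' b) * (X (B b) - C (x (B b))) := by
          simp only [Finset.mul_sum]
          rw [Finset.sum_comm]
          refine Finset.sum_congr rfl fun b _ => ?_
          rw [Matrix.mul_apply, map_sum, Finset.sum_mul]
          refine Finset.sum_congr rfl fun i _ => ?_
          rw [map_mul, mul_assoc]
          rfl
        rw [h2, Matrix.adjugate_mul, Finset.sum_eq_single b']
        · rw [Matrix.smul_apply, Matrix.one_apply_eq, smul_eq_mul, mul_one]
        · intro b _ hb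
          rw [Matrix.smul_apply, Matrix.one_apply_ne hb.symm, smul_zero, map_zero, zero_mul]
        · intro h
          exact absurd (Finset.mem_univ b') h
      have h2 : (∑ i, C (M.adjugate b' i) *
          ∑ b, C (eval x (pderiv (B b) (f i))) * (X (B b) - C (x (B b))) : Sx N) ∈
          V x f B (k + 2) :=
        Subalgebra.sum_mem _ fun i _ => Subalgebra.mul_mem _ (hC _) (hlin i)
      rw [h1] at h2
      have h3 := Subalgebra.mul_mem _ (hC M.det⁻¹) h2
      rwa [← mul_assoc, ← map_mul, inv_mul_cancel₀ hdet, map_one, one_mul] at h3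
    rw [eq_top_iff, ← MvPolynomial.adjoin_range_X]
    refine Algebra.adjoin_le ?_
    rintro _ ⟨l, rfl⟩
    have h1 : (X l - C (x l) : Sx N) ∈ V x f B (k + 2) := by
      by_cases hl : l ∈ Set.range B
      · obtain ⟨b, rfl⟩ := hl
        exact hB b
      · exact hX ⟨l, hl⟩
    have h2 := Subalgebra.add_mem _ h1 (hC (x l))
    rwa [sub_add_cancel] at h2

/-- `T` is divisible by `ε^k` on `(f) + 𝔪^k`. -/
theorem T_bk {x : Vx N} {f : Fin r → Sx N} {B : Fin r → Fin (N + 1)}
    {T : Sx N →ₐ[ℂ] PowerSeries (Ay B)} (hT : PT x f B T) {k : ℕ} {G : Sx N}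
    (hG : G ∈ bk x f k) : (PowerSeries.X : PowerSeries (Ay B)) ^ k ∣ T G := by
  have h1 : bk x f k ≤ (Ideal.span {(PowerSeries.X : PowerSeries (Ay B)) ^ k}).comap
      (T : Sx N →+* PowerSeries (Ay B)) := by
    refine sup_le ?_ ?_
    · rw [Ideal.span_le]
      rintro _ ⟨i, rfl⟩
      change T (f i) ∈ Ideal.span {(PowerSeries.X : PowerSeries (Ay B)) ^ k}
      rw [hT.zero i]
      exact Ideal.zero_mem _
    · have h2 : ptI x ≤ (Ideal.span {(PowerSeries.X : PowerSeries (Ay B))}).comap
          (T : Sx N →+* PowerSeries (Ay B)) := by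
        intro F hF
        rw [Ideal.mem_comap]
        change T F ∈ Ideal.span {(PowerSeries.X : PowerSeries (Ay B))}
        rw [Ideal.mem_span_singleton, PowerSeries.X_dvd_iff]
        have h3 := hT.c0 F
        rw [mem_pt.1 hF, map_zero] at h3
        rw [← PowerSeries.coeff_zero_eq_constantCoeff_apply]
        exact h3
      refine (Ideal.pow_right_mono h2 k).trans ((Ideal.le_comap_pow _ k).trans ?_)
      rw [Ideal.span_singleton_pow]
  exact Ideal.mem_span_singleton.1 (h1 hG)

theorem T_sg {x : Vx N} {f : Fin r → Sx N} {B : Fin r → Fin (N + 1)}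
    {T : Sx N →ₐ[ℂ] PowerSeries (Ay B)} (hT : PT x f B T) (p : Ay B) (m : Bn B →₀ ℕ) :
    coeff m (PowerSeries.coeff m.degree (T (sg x B p))) = coeff m p := by
  classical
  induction p using MvPolynomial.induction_on generalizing m with
  | C a =>
    have h1 : sg x B (C a) = algebraMap ℂ (Sx N) a := (sg x B).commutes a
    rw [h1, T.commutes, PowerSeries.algebraMap_apply, PowerSeries.coeff_C]
    split_ifs with h2
    · rfl
    · rw [coeff_zero, coeff_C, if_neg]
      rintro rfl
      exact h2 (map_zero _)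
  | add p q hp hq => rw [map_add, map_add, map_add, coeff_add, coeff_add, hp, hq]
  | mul_X p j hp =>
    have h1 : sg x B (X j) = X j.1 - C (x j.1) := aeval_X _ _
    have h2 : T (X j.1 - C (x j.1)) = PowerSeries.C (X j) * PowerSeries.X := by
      have h3 : T (C (x j.1)) = PowerSeries.C (C (x j.1)) := by
        have h4 := T.commutes (x j.1)
        rw [PowerSeries.algebraMap_apply] at h4
        exact h4
      rw [map_sub, hT.var j, h3, add_sub_cancel_left]
    rw [map_mul, map_mul, h1, h2, ← mul_assoc, coeff_mul_X']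
    split_ifs with h3
    · have h4 : m.degree = (m - Finsupp.single j 1).degree + 1 := by
        have h5 : m = (m - Finsupp.single j 1) + Finsupp.single j 1 := by
          rw [tsub_add_cancel_of_le]
          rw [Finsupp.single_le_iff]
          exact Nat.one_le_iff_ne_zero.2 (Finsupp.mem_support_iff.1 h3)
        conv_lhs => rw [h5]
        rw [map_add, Finsupp.degree_single]
      rw [h4, PowerSeries.coeff_succ_mul_X, mul_comm, PowerSeries.coeff_C_mul, mul_comm,
        coeff_mul_X', if_pos h3, hp]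
    · rcases Nat.eq_zero_or_pos m.degree with h4 | h4
      · rw [h4, PowerSeries.coeff_zero_mul_X, coeff_zero]
      · obtain ⟨n, hn⟩ : ∃ n, m.degree = n + 1 := ⟨m.degree - 1, by omega⟩
        rw [hn, PowerSeries.coeff_succ_mul_X, mul_comm, PowerSeries.coeff_C_mul, mul_comm,
          coeff_mul_X', if_neg h3]

/-- CLAIM 2. -/
theorem mem_bk {x : Vx N} {f : Fin r → Sx N} {B : Fin r → Fin (N + 1)} (hP : Par x f B)
    {T : Sx N →ₐ[ℂ] PowerSeries (Ay B)} (hT : PT x f B T) {F : Sx N} (hF : T F = 0) (k : ℕ) :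
    F ∈ bk x f k := by
  rcases Nat.eq_zero_or_pos k with rfl | hk
  · refine (le_sup_right : _ ≤ bk x f 0) ?_
    rw [pow_zero, Ideal.one_eq_top]
    trivial
  obtain ⟨k, rfl⟩ : ∃ k', k = k' + 1 := ⟨k - 1, by omega⟩
  obtain ⟨p, hp⟩ := mem_V.1 (show F ∈ V x f B (k + 1) by rw [V_top hP k]; trivial)
  have h1 : (PowerSeries.X : PowerSeries (Ay B)) ^ (k + 1) ∣ T (sg x B p) := by
    have h2 := T_bk hT hp
    rw [map_sub, hF, zero_sub, dvd_neg] at h2
    exact h2
  rw [PowerSeries.X_pow_dvd_iff] at h1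
  have h2 : sg x B p ∈ ptI x ^ (k + 1) := by
    rw [p.as_sum, map_sum]
    refine Ideal.sum_mem _ fun m hm => ?_
    have h3 : k + 1 ≤ m.degree := by
      by_contra h4
      push Not at h4
      have h5 := T_sg hT p m
      rw [h1 _ h4, coeff_zero] at h5
      exact (mem_support_iff.1 hm) h5.symm
    refine Ideal.pow_le_pow_right h3 ?_
    rw [sg, aeval_monomial]
    refine Ideal.mul_mem_left _ _ ?_
    rw [Finsupp.prod, Finsupp.degree_apply, ← Finset.prod_pow_eq_pow_sum]
    exact Ideal.prod_mem_prod fun j _ => Ideal.pow_mem_pow (X_mem_pt x j.1) _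
  have h3 := Ideal.add_mem _ hp ((le_sup_right : _ ≤ bk x f (k + 1)) h2)
  rwa [sub_add_cancel] at h3

end TKerAux

open TKerAux in
theorem tTKer : S_TKer := by
  intro N r x f B hP T hT F hF
  have h1 : (Ideal.Quotient.mk (Ideal.span (Set.range f)) F : Sx N ⧸ Ideal.span (Set.range f)) ∈
      (⨅ i : ℕ, ptI x ^ i • ⊤ : Submodule (Sx N) (Sx N ⧸ Ideal.span (Set.range f))) := by
    rw [Submodule.mem_iInf]
    intro k
    obtain ⟨u, hu, v, hv, huv⟩ := Submodule.mem_sup.1 (mem_bk hP hT hF k)
    have h2 : (Ideal.Quotient.mk (Ideal.span (Set.range f)) F : Sx N ⧸ Ideal.span (Set.range f)) =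
        v • (Ideal.Quotient.mk (Ideal.span (Set.range f)) 1) := by
      have h3 : v • (Ideal.Quotient.mk (Ideal.span (Set.range f)) 1) =
          Ideal.Quotient.mk (Ideal.span (Set.range f)) (v * 1) := rfl
      rw [← huv, map_add, Ideal.Quotient.eq_zero_iff_mem.2 hu, zero_add, h3, mul_one]
    rw [h2]
    exact Submodule.smul_mem_smul hv trivial
  rw [Ideal.mem_iInf_smul_pow_eq_bot_iff] at h1
  obtain ⟨⟨q, hq⟩, h2⟩ := h1
  refine ⟨1 - q, ?_, ?_⟩
  · rw [map_sub, map_one, mem_pt.1 hq, sub_zero]
    exact one_ne_zero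
  · rw [← Ideal.Quotient.eq_zero_iff_mem, sub_mul, one_mul, map_sub, sub_eq_zero, map_mul]
    exact h2.symm

end Pool.Agent.Lib.MP_776403_ag.SD.UN
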