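import Pool.Agent.Lib.MP_776403_ag.SD.UN.SpecT

/-!
# THEOREM UN: uniqueness of the formal parametrization
-/

set_option autoImplicit false

open MvPolynomial

noncomputable section

namespace Pool.Agent.Lib.MP_776403_ag.SD.UN

namespace TUnAux

/-- The difference of two homomorphisms with the same constant coefficients. -/
theorem diff {N : ℕ} {x : Vx N} (ψ ψ' : Sx N →ₐ[ℂ] PowerSeries ℂ)
    (h0 : ∀ F, PowerSeries.coeff 0 (ψ F) = eval x F)
    (h0' : ∀ F, PowerSeries.coeff 0 (ψ' F) = eval x F) (F : Sx N) :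
    ∃ G : Fin (N + 1) → PowerSeries ℂ,
      ψ F - ψ' F = ∑ l, (ψ (X l) - ψ' (X l)) * G l ∧
      ∀ l, PowerSeries.coeff 0 (G l) = eval x (pderiv l F) := by
  induction F using MvPolynomial.induction_on with
  | C a =>
    refine ⟨fun _ => 0, ?_, ?_⟩
    · have h1 : ψ (C a) = algebraMap ℂ (PowerSeries ℂ) a := ψ.commutes a
      have h2 : ψ' (C a) = algebraMap ℂ (PowerSeries ℂ) a := ψ'.commutes a
      rw [h1, h2]
      simp
    · intro l
      simp
  | add p q hp hq =>
    obtain ⟨G, hG, hG0⟩ := hp
    obtain ⟨H, hH, hH0⟩ := hq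
    refine ⟨fun l => G l + H l, ?_, ?_⟩
    · have h1 : ψ (p + q) - ψ' (p + q) = (ψ p - ψ' p) + (ψ q - ψ' q) := by
        rw [map_add, map_add]
        ring
      rw [h1, hG, hH, ← Finset.sum_add_distrib]
      exact Finset.sum_congr rfl fun l _ => by ring
    · intro l
      rw [map_add, hG0, hH0, map_add, map_add]
  | mul_X p i hp =>
    obtain ⟨G, hG, hG0⟩ := hp
    refine ⟨fun l => (if l = i then ψ p else 0) + G l * ψ' (X i), ?_, ?_⟩
    · have h1 : ψ (p * X i) - ψ' (p * X i)
          = (ψ (X i) - ψ' (X i)) * ψ p + (ψ p - ψ' p) * ψ' (X i) := by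
        rw [map_mul, map_mul]
        ring
      have h2 : ∑ l, (ψ (X l) - ψ' (X l)) * (if l = i then ψ p else 0)
          = (ψ (X i) - ψ' (X i)) * ψ p := by
        rw [Finset.sum_eq_single i]
        · rw [if_pos rfl]
        · intro l _ hl
          rw [if_neg hl, mul_zero]
        · intro h
          exact absurd (Finset.mem_univ i) h
      rw [h1, hG, Finset.sum_mul, ← h2, ← Finset.sum_add_distrib]
      exact Finset.sum_congr rfl fun l _ => by ring
    · intro l
      have hc : PowerSeries.coeff 0 (G l * ψ' (X i)) = eval x (pderiv l p) * x i := by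
        rw [PowerSeries.coeff_zero_eq_constantCoeff_apply, map_mul,
          ← PowerSeries.coeff_zero_eq_constantCoeff_apply,
          ← PowerSeries.coeff_zero_eq_constantCoeff_apply, hG0, h0', eval_X]
      have hd : eval x (pderiv l (p * X i))
          = (if l = i then eval x p else 0) + eval x (pderiv l p) * x i := by
        rw [Derivation.leibniz, map_add, smul_eq_mul, smul_eq_mul, map_mul, map_mul, eval_X,
          pderiv_X, Pi.single_apply, mul_comm (x i)]
        congr 1
        by_cases h : l = i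
        · rw [if_pos h.symm, if_pos h, map_one, mul_one]
        · rw [if_neg (fun h' => h h'.symm), if_neg h, map_zero, mul_zero]
      rw [map_add, hc, hd]
      congr 1
      by_cases h : l = i
      · rw [if_pos h, if_pos h, h0]
      · rw [if_neg h, if_neg h, map_zero]

/-- The homomorphism `ev_y ∘ T`. -/
def evT {N r : ℕ} {B : Fin r → Fin (N + 1)} (T : Sx N →ₐ[ℂ] PowerSeries (Ay B)) (y : Bn B → ℂ) :
    Sx N →ₐ[ℂ] PowerSeries ℂ :=
  { toRingHom := (PowerSeries.map (eval y)).comp (T : Sx N →+* PowerSeries (Ay B))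
    commutes' := fun a => by
      have h1 : T (algebraMap ℂ (Sx N) a) = algebraMap ℂ (PowerSeries (Ay B)) a := T.commutes a
      show PowerSeries.map (eval y) (T (algebraMap ℂ (Sx N) a)) = algebraMap ℂ (PowerSeries ℂ) a
      rw [h1]
      ext n
      rw [PowerSeries.coeff_map]
      rw [PowerSeries.algebraMap_apply, PowerSeries.algebraMap_apply, PowerSeries.coeff_C,
        PowerSeries.coeff_C]
      by_cases hn : n = 0
      · rw [if_pos hn, if_pos hn, MvPolynomial.algebraMap_eq, eval_C]
        rfl
      · rw [if_neg hn, if_neg hn, map_zero] }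

theorem evT_apply {N r : ℕ} {B : Fin r → Fin (N + 1)} (T : Sx N →ₐ[ℂ] PowerSeries (Ay B))
    (y : Bn B → ℂ) (F : Sx N) : evT T y F = PowerSeries.map (eval y) (T F) := rfl

end TUnAux

open TUnAux

theorem tTUn : S_TUn := by
  intro N r x f B hP T hT y ψ hv hz h0 F n
  have hv' : ∀ j : Bn B, evT T y (X j.1)
      = PowerSeries.C (x j.1) + PowerSeries.C (y j) * PowerSeries.X := by
    intro j
    rw [evT_apply, hT.var j, map_add, map_mul, PowerSeries.map_C, PowerSeries.map_C,
      PowerSeries.map_X, eval_C, eval_X]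
  have hz' : ∀ i, evT T y (f i) = 0 := by
    intro i
    rw [evT_apply, hT.zero i, map_zero]
  have h0' : ∀ F, PowerSeries.coeff 0 (evT T y F) = eval x F := by
    intro F
    rw [evT_apply, PowerSeries.coeff_map, hT.c0 F, eval_C]
  have hD := fun i => diff ψ (evT T y) h0 h0' (f i)
  choose G hG hG0 using hD
  set v : Fin (N + 1) → PowerSeries ℂ := fun l => ψ (X l) - evT T y (X l) with hvdef
  have hvn : ∀ l, l ∉ Set.range B → v l = 0 := by
    intro l hl
    have h1 := hv ⟨l, hl⟩
    have h2 := hv' ⟨l, hl⟩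
    show ψ (X l) - evT T y (X l) = 0
    rw [h1, h2, sub_self]
  let M : Matrix (Fin r) (Fin r) (PowerSeries ℂ) := Matrix.of fun i b => G i (B b)
  have hdet : M.det ≠ 0 := by
    intro hM
    have h1 : PowerSeries.constantCoeff (R := ℂ) M.det = 0 := by rw [hM, map_zero]
    rw [RingHom.map_det] at h1
    have h2 : (PowerSeries.constantCoeff (R := ℂ)).mapMatrix M
        = (eval x).mapMatrix (Matrix.of fun i b => pderiv (B b) (f i)) := by
      ext i b
      show PowerSeries.constantCoeff (R := ℂ) (G i (B b)) = eval x (pderiv (B b) (f i))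
      rw [← PowerSeries.coeff_zero_eq_constantCoeff_apply]
      exact hG0 i (B b)
    rw [h2, ← RingHom.map_det] at h1
    exact hP.det h1
  have hmul : M.mulVec (fun b => v (B b)) = 0 := by
    ext1 i
    have h1 := hG i
    rw [hz i, hz' i, sub_self] at h1
    have h2 : ∑ b, v (B b) * G i (B b) = ∑ l, v l * G i l :=
      Fintype.sum_of_injective B hP.inj (fun b => v (B b) * G i (B b)) (fun l => v l * G i l)
        (fun l hl => by
          show v l * G i l = 0
          rw [hvn l hl, zero_mul]) (fun b => rfl)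
    show ∑ b, G i (B b) * v (B b) = 0
    rw [h1, ← h2]
    exact Finset.sum_congr rfl fun b _ => mul_comm _ _
  have hvB := Matrix.eq_zero_of_mulVec_eq_zero hdet hmul
  have hall : ∀ l, ψ (X l) = evT T y (X l) := by
    intro l
    by_cases hl : l ∈ Set.range B
    · obtain ⟨b, rfl⟩ := hl
      exact sub_eq_zero.mp (congrFun hvB b)
    · exact sub_eq_zero.mp (hvn l hl)
  have heq : ψ = evT T y := MvPolynomial.algHom_ext hall
  rw [heq, evT_apply, PowerSeries.coeff_map]

end Pool.Agent.Lib.MP_776403_ag.SD.UN
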