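import Pool.Agent.Lib.MP_776403_ag.SD.UN.Spec7

/-!
# THEOREM UN, (RD): derivatives of regular functions along tangent fields
-/

set_option autoImplicit false

open MvPolynomial

noncomputable section

namespace Pool.Agent.Lib.MP_776403_ag.SD.UN

open LI

namespace RDAux

variable {N : ℕ}

theorem Dw_mul (w : Fin (N + 1) → Sx N) (P Q : Sx N) :
    Dw w (P * Q) = P * Dw w Q + Q * Dw w P := by
  unfold Dw
  rw [Finset.mul_sum, Finset.mul_sum, ← Finset.sum_add_distrib]
  refine Finset.sum_congr rfl fun l _ => ?_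
  rw [pderiv_mul]
  ring

theorem Dw_sub (w : Fin (N + 1) → Sx N) (P Q : Sx N) :
    Dw w (P - Q) = Dw w P - Dw w Q := by
  unfold Dw
  rw [← Finset.sum_sub_distrib]
  refine Finset.sum_congr rfl fun l _ => ?_
  rw [map_sub]
  ring

theorem Dw_mem {I : Ideal (Sx N)} {w : Fin (N + 1) → Sx N} (hw : w ∈ TF I) {P : Sx N}
    (hP : P ∈ I) : Dw w P ∈ I := by
  have h := hw P hP
  have h1 : Dw w P = ∑ i, pderiv i P * w i := Finset.sum_congr rfl fun l _ => mul_comm _ _
  rw [h1]
  exact h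

theorem Dw_hom {w : Fin (N + 1) → Sx N} {m : ℕ} (hw : ∀ l, (w l).IsHomogeneous (m + 1)) {P : Sx N}
    {n : ℕ} (hP : P.IsHomogeneous n) : (Dw w P).IsHomogeneous (n + m) := by
  rcases Nat.eq_zero_or_pos n with rfl | hn
  · have h1 : P = C (coeff 0 P) := by
      rw [← totalDegree_eq_zero_iff_eq_C]
      exact Nat.le_zero.mp hP.totalDegree_le
    have h2 : Dw w P = 0 := by
      rw [h1]
      unfold Dw
      simp
    rw [h2]
    exact isHomogeneous_zero _ _ _
  · refine IsHomogeneous.sum _ _ _ fun l _ => ?_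
    have h1 := (hw l).mul (hP.pderiv (i := l))
    have h2 : m + 1 + (n - 1) = n + m := by omega
    rwa [h2] at h1

end RDAux

open RDAux in
theorem tRD : S_RD := by
  intro N k m I x P Q h w hw hwh
  refine ⟨?_, ?_, ?_⟩
  · obtain ⟨e, hP, hQ⟩ := h.hom
    refine ⟨e + e, ?_, hQ.mul hQ⟩
    have h1 := hQ.mul (Dw_hom hwh hP)
    have h2 := hP.mul (Dw_hom hwh hQ)
    have e1 : e + (e + k + m) = e + e + (k + m) := by omega
    have e2 : e + k + (e + m) = e + e + (k + m) := by omega
    rw [e1] at h1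
    rw [e2] at h2
    exact h1.sub h2
  · rw [map_mul]
    exact mul_ne_zero h.ne h.ne
  · intro y hy hy0
    obtain ⟨P', Q', e, hP', hQ', hne, hE⟩ := h.loc y hy hy0
    refine ⟨Q' * Dw w P' - P' * Dw w Q', Q' * Q', e + e, ?_, hQ'.mul hQ', ?_, ?_⟩
    · have h1 := hQ'.mul (Dw_hom hwh hP')
      have h2 := hP'.mul (Dw_hom hwh hQ')
      have e1 : e + (e + k + m) = e + e + (k + m) := by omega
      have e2 : e + k + (e + m) = e + e + (k + m) := by omega
      rw [e1] at h1
      rw [e2] at h2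
      exact h1.sub h2
    · rw [map_mul]
      exact mul_ne_zero hne hne
    · have h1 := Dw_mem hw hE
      have h2 : (Q * Dw w P - P * Dw w Q) * (Q' * Q') - (Q' * Dw w P' - P' * Dw w Q') * (Q * Q) =
          Q * Q' * Dw w (P * Q' - P' * Q) -
            (Q' * Dw w Q + Q * Dw w Q') * (P * Q' - P' * Q) := by
        rw [Dw_sub, Dw_mul, Dw_mul]
        ring
      rw [h2]
      exact Ideal.sub_mem _ (Ideal.mul_mem_left _ _ h1) (Ideal.mul_mem_left _ _ hE)

end Pool.Agent.Lib.MP_776403_ag.SD.UN
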