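import Pool.Agent.Lib.MP_776403_ag.SD.UN.Spec7

/-!
# THEOREM UN, (RE): leading forms of expansions.
-/

set_option autoImplicit false

open MvPolynomial

noncomputable section

namespace Pool.Agent.Lib.MP_776403_ag.SD.UN

open LI

namespace REAux

variable {N : ℕ}

/-- Euler: `D_X F = n F` for forms of degree `n`. -/
lemma Dw_X {F : Sx N} {n : ℕ} (hF : F.IsHomogeneous n) :
    Dw (fun l => X l) F = (n : Sx N) * F := by
  unfold Dw
  rw [hF.sum_X_mul_pderiv, nsmul_eq_mul]

/-- The Euler field is tangent. -/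
lemma X_mem_TF {I : Ideal (Sx N)} (hI : IsHom I) : (fun l => X l) ∈ TF I := by
  intro F hF
  have h1 : ∑ i, pderiv i F * X i = Dw (fun l => X l) F := by
    unfold Dw
    exact Finset.sum_congr rfl fun i _ => mul_comm _ _
  have h2 : Dw (fun l => X l) F =
      ∑ m ∈ Finset.range (F.totalDegree + 1), (m : Sx N) * homogeneousComponent m F := by
    conv_lhs => rw [← sum_homogeneousComponent F]
    unfold Dw
    simp only [map_sum, Finset.mul_sum]
    rw [Finset.sum_comm]
    refine Finset.sum_congr rfl fun m _ => ?_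
    exact Dw_X (homogeneousComponent_isHomogeneous m F)
  change ∑ i, pderiv i F * X i ∈ I
  rw [h1, h2]
  exact Ideal.sum_mem _ fun m _ => I.mul_mem_left _ (hI F hF m)

variable {r : ℕ} {B : Fin r → Fin (N + 1)}

lemma coeff_Dy (j : Bn B) (p : PowerSeries (Ay B)) (n : ℕ) :
    PowerSeries.coeff n (Dy j p) = pderiv j (PowerSeries.coeff n p) := by
  simp [Dy, PowerSeries.coeff_mk]

lemma coeff_DyL (l : List (Bn B)) (p : PowerSeries (Ay B)) (n : ℕ) :
    PowerSeries.coeff n (DyL l p) = pdL l (PowerSeries.coeff n p) := by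
  induction l with
  | nil => rfl
  | cons a l ih =>
    change PowerSeries.coeff n (Dy a (DyL l p)) = pderiv a (pdL l (PowerSeries.coeff n p))
    rw [coeff_Dy, ih]

/-- The Euler relation for the lowest coefficient. -/
lemma euler {x : Vx N} {f : Fin r → Sx N} {T : Sx N →ₐ[ℂ] PowerSeries (Ay B)}
    (hT : PT x f B T) {τ τ' : PowerSeries (Ay B)} {n : ℕ}
    (h : PowerSeries.X * τ' = ∑ j : Bn B, T (X j.1) * Dy j τ)
    (h0 : ∀ m < n, PowerSeries.coeff m τ = 0) (h0' : ∀ m < n, PowerSeries.coeff m τ' = 0) :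
    ∑ j : Bn B, C (x j.1) * pderiv j (PowerSeries.coeff n τ) = 0 := by
  have h1 := congrArg (PowerSeries.coeff n) h
  rw [map_sum] at h1
  have h2 : PowerSeries.coeff n (PowerSeries.X * τ') = 0 := by
    cases n with
    | zero => simp
    | succ n =>
      rw [PowerSeries.coeff_succ_X_mul]
      exact h0' n (Nat.lt_succ_self n)
  rw [h2] at h1
  rw [h1]
  refine Finset.sum_congr rfl fun j _ => ?_
  rw [hT.var j, add_mul, map_add, PowerSeries.coeff_C_mul, mul_assoc, PowerSeries.coeff_C_mul,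
    coeff_Dy]
  have h3 : PowerSeries.coeff n (PowerSeries.X * Dy j τ) = 0 := by
    cases n with
    | zero => simp
    | succ n =>
      rw [PowerSeries.coeff_succ_X_mul, coeff_Dy, h0 n (Nat.lt_succ_self n), map_zero]
  rw [h3, mul_zero, add_zero]

lemma dp_zer {I : Ideal (Sx N)} {x lam : Vx N} {J : Ideal (Sx N)} (h : Cn I x lam J) {z : Vx N}
    (hz : z ∈ zer J) : dp lam z = 0 := by
  have h1 := hz (lf lam) h.lamJ
  unfold dp
  rw [← h1]
  simp [lf]

lemma isLine {I : Ideal (Sx N)} {x lam : Vx N} {J : Ideal (Sx N)} (h : Cn I x lam J) {z : Vx N}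
    (hz : z ∈ zer J) (hz0 : z ≠ 0) : IsLine I x z := by
  refine ⟨?_, h.line z hz⟩
  rw [LinearIndependent.pair_iff]
  intro s t hst
  have h1 : dp lam (s • x + t • z) = s := by
    have h2 : dp lam (s • x + t • z) = s * dp lam x + t * dp lam z := by
      unfold dp
      rw [Finset.mul_sum, Finset.mul_sum, ← Finset.sum_add_distrib]
      refine Finset.sum_congr rfl fun i _ => ?_
      simp only [Pi.add_apply, Pi.smul_apply, smul_eq_mul]
      ring
    rw [h2, h.lamx, dp_zer h hz]
    ring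
  have hs : s = 0 := by
    rw [← h1, hst]
    simp [dp]
  refine ⟨hs, ?_⟩
  rw [hs, zero_smul, zero_add] at hst
  exact (smul_eq_zero.mp hst).resolve_right hz0

end REAux

/-- (RE) LEADING FORMS. -/
theorem tRE : S_RT → S_RQ → S_RO → S_RE := by
  intro hRT hRQ hRO N c k I d hP hH hS x lam g J hLC L T hT P Q hRF τ hτ r hr
  obtain ⟨_, hRT2⟩ := hRT N c I hP hH x L
  obtain ⟨_, _, _, hw⟩ := hRT2 T hT
  obtain ⟨_, _, hom, hD⟩ := hRQ N c x L.F L.B T hT P Q hRF.ne
  have h0 : ∀ m < r, PowerSeries.coeff m τ = 0 := fun m hm =>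
    PowerSeries.X_pow_dvd_iff.mp hr m hm
  refine ⟨hom r τ hτ, ?_, ?_⟩
  · obtain ⟨e, hPe, hQe⟩ := hRF.hom
    have hE : T (Q * Q) * ((k : PowerSeries (Ay L.B)) * τ) =
        T (Q * Dw (fun l => X l) P - P * Dw (fun l => X l) Q) := by
      rw [REAux.Dw_X hPe, REAux.Dw_X hQe]
      have h1 : Q * (((e + k : ℕ) : Sx N) * P) - P * ((e : Sx N) * Q) = (k : Sx N) * (Q * P) := by
        push_cast
        ring
      rw [h1, map_mul, map_mul, map_mul, map_natCast, ← hτ]
      ring
    have hX := hD (fun l => X l) (fun F => hw _ (REAux.X_mem_TF hH) F) τ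
      ((k : PowerSeries (Ay L.B)) * τ) hτ hE
    refine REAux.euler hT hX h0 fun m hm => ?_
    have h2 : ((k : PowerSeries (Ay L.B)) * τ) = (k : ℕ) • τ := by rw [nsmul_eq_mul]
    rw [h2, map_nsmul, h0 m hm, smul_zero]
  · intro l hl z hz hz0
    have hline := REAux.isLine hLC.cn hz hz0
    have hdiv : PowerSeries.X ^ (k + (r - k)) ∣ τ := by
      have h1 : k + (r - k) = r := by omega
      rw [h1]
      exact hr
    have h3 := hRO N c k (r - k) I hP hH hS x z L T hT hline (hLC.free z hz hz0) P Q hRF τ hτ hdiv l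
      (by omega)
    have h4 := congrArg (PowerSeries.coeff r) h3
    unfold evz at h4
    rw [PowerSeries.coeff_map, REAux.coeff_DyL, map_zero] at h4
    exact h4

end Pool.Agent.Lib.MP_776403_ag.SD.UN
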