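import Pool.Agent.Lib.MP_776403_ag.SD.UN.Spec7
import Pool.Agent.Lib.MP_776403_ag.SD.SpecD
import Pool.Agent.Lib.MP_776403_ag.SD.E.CrL
import Pool.Agent.Lib.MP_776403_ag.SD.E.LineI
import Pool.Agent.Lib.MP_776403_ag.SD.E.LinB
import Pool.Agent.Lib.MP_776403_ag.SD.E.Th2
import Pool.Agent.Lib.MP_776403_ag.SD.E.Pt

/-!
# THEOREM UN, part U7 (helper7): tangent fields with prescribed restriction to a line
-/

set_option autoImplicit false

open MvPolynomial

noncomputable section

namespace Pool.Agent.Lib.MP_776403_ag.SD.UN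

open LI

namespace RF1Aux

variable {N : ℕ}

/-- Property `(*)` of a form `G` of degree `e`. -/
def St (I : Ideal (Sx N)) (x z τ τ' : Vx N) (e : ℕ) (G : Sx N) : Prop :=
  ∃ w ∈ TF I, (∀ l, (w l).IsHomogeneous (e + 1)) ∧
    ∀ (s t : ℂ) (l : Fin (N + 1)), eval (s • x + t • z) (w l) =
      eval (s • x + t • z) G * (s * τ l + t * τ' l)

theorem st_line {I : Ideal (Sx N)} {x z τ τ' : Vx N} (e : ℕ) {G : Sx N}
    (hG : ∀ s t : ℂ, eval (s • x + t • z) G = 0) : St I x z τ τ' e G := by
  refine ⟨0, Th2Aux.TF_zero, fun l => isHomogeneous_zero _ _ _, fun s t l => ?_⟩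
  rw [Pi.zero_apply, map_zero, hG, zero_mul]

theorem st_add {I : Ideal (Sx N)} {x z τ τ' : Vx N} {e : ℕ} {G H : Sx N}
    (hG : St I x z τ τ' e G) (hH : St I x z τ τ' e H) : St I x z τ τ' e (G + H) := by
  obtain ⟨w, hw, hd, he⟩ := hG
  obtain ⟨w', hw', hd', he'⟩ := hH
  refine ⟨w + w', Th2Aux.TF_add hw hw', fun l => (hd l).add (hd' l), fun s t l => ?_⟩
  rw [Pi.add_apply, map_add, he, he', map_add, add_mul]

theorem st_mul {I : Ideal (Sx N)} {x z τ τ' : Vx N} {e m : ℕ} {G a : Sx N}
    (ha : a.IsHomogeneous m) (hG : St I x z τ τ' e G) : St I x z τ τ' (m + e) (a * G) := by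
  obtain ⟨w, hw, hd, he⟩ := hG
  refine ⟨fun l => a * w l, Th2Aux.TF_mul a hw, fun l => ?_, fun s t l => ?_⟩
  · rw [add_assoc]
    exact ha.mul (hd l)
  · rw [map_mul, he, map_mul, mul_assoc]

/-- The generators. -/
def Gen (I : Ideal (Sx N)) (x z τ τ' : Vx N) : Set (Sx N) :=
  {G | ∃ e : ℕ, G.IsHomogeneous e ∧ St I x z τ τ' e G}

/-- All components of the elements of the ideal have `(*)`. -/
theorem st_span {I : Ideal (Sx N)} {x z τ τ' : Vx N} {F : Sx N}
    (hF : F ∈ Ideal.span (Gen I x z τ τ')) (m : ℕ) :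
    St I x z τ τ' m (homogeneousComponent m F) := by
  have h0 : ∀ m, St I x z τ τ' m 0 := fun m => st_line m fun s t => map_zero _
  induction hF using Submodule.span_induction generalizing m with
  | mem G hG =>
    obtain ⟨e, he, hs⟩ := hG
    rw [homogeneousComponent_of_mem he]
    split_ifs with hme
    · rw [hme]
      exact hs
    · exact h0 m
  | zero =>
    rw [map_zero]
    exact h0 m
  | add F G _ _ hF hG =>
    rw [map_add]
    exact st_add (hF m) (hG m)
  | smul a F _ hF =>
    rw [smul_eq_mul]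
    have h1 : ∀ i j : ℕ, St I x z τ τ' m
        (homogeneousComponent m (homogeneousComponent i a * homogeneousComponent j F)) := by
      intro i j
      rw [homogeneousComponent_of_mem
        ((homogeneousComponent_isHomogeneous i a).mul (homogeneousComponent_isHomogeneous j F))]
      split_ifs with hm
      · rw [hm]
        exact st_mul (homogeneousComponent_isHomogeneous i a) (hF j)
      · exact h0 m
    have h2 : a * F = ∑ i ∈ Finset.range (a.totalDegree + 1),
        ∑ j ∈ Finset.range (F.totalDegree + 1),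
          homogeneousComponent i a * homogeneousComponent j F := by
      rw [← Finset.sum_mul_sum, sum_homogeneousComponent, sum_homogeneousComponent]
    have h3 : ∀ {ι : Type} (s : Finset ι) (f : ι → Sx N), (∀ i, St I x z τ τ' m (f i)) →
        St I x z τ τ' m (∑ i ∈ s, f i) := by
      classical
      intro ι s f hf
      induction s using Finset.induction_on with
      | empty => rw [Finset.sum_empty]; exact h0 m
      | insert i s hi ih => rw [Finset.sum_insert hi]; exact st_add (hf i) ih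
    rw [h2, map_sum]
    refine h3 _ _ fun i => ?_
    rw [map_sum]
    exact h3 _ _ fun j => h1 i j

/-- Cramer's rule at a point: values of the Cramer fields. -/
theorem cramer {I : Ideal (Sx N)} {y p v : Vx N} {c : ℕ} (L : Loc I y c)
    (hv : ∀ i, ∑ l, eval p (pderiv l (L.F i)) * v l = 0) (l : Fin (N + 1)) :
    ∑ j : L.Bc, v j.1 * eval p (L.cr j.1 l) = eval p L.dt * v l := by
  classical
  by_cases hl : l ∈ Set.range L.B
  · obtain ⟨b, rfl⟩ := hl
    have h1 : ∀ j : L.Bc, L.cr j.1 (L.B b) = - L.coef b j.1 := by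
      intro j
      have e1 : L.B b ≠ j.1 := fun h => j.2 ⟨b, h⟩
      rw [Loc.cr, if_neg e1, Finset.sum_eq_single b, if_pos rfl, zero_sub]
      · intro b' _ hb'
        rw [if_neg fun h => hb' (L.injB h)]
      · intro hb
        exact absurd (Finset.mem_univ b) hb
    have h2 : ∀ i, ∑ b', eval p (pderiv (L.B b') (L.F i)) * v (L.B b') +
        ∑ j : L.Bc, eval p (pderiv j.1 (L.F i)) * v j.1 = 0 := by
      intro i
      rw [← CrLAux.sum_split L fun l => eval p (pderiv l (L.F i)) * v l]
      exact hv i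
    have h3 : ∑ i, eval p (L.M.adjugate b i) *
        (∑ b', eval p (pderiv (L.B b') (L.F i)) * v (L.B b')) = eval p L.dt * v (L.B b) := by
      calc ∑ i, eval p (L.M.adjugate b i) *
            (∑ b', eval p (pderiv (L.B b') (L.F i)) * v (L.B b'))
          = ∑ b', eval p (∑ i, L.M.adjugate b i * pderiv (L.B b') (L.F i)) * v (L.B b') := by
            simp only [Finset.mul_sum]
            rw [Finset.sum_comm]
            refine Finset.sum_congr rfl fun b' _ => ?_
            rw [map_sum, Finset.sum_mul]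
            exact Finset.sum_congr rfl fun i _ => by rw [map_mul]; ring
        _ = eval p L.dt * v (L.B b) := by
            rw [Finset.sum_eq_single b]
            · rw [CrLAux.adj_M, if_pos rfl]
            · intro b' _ hb'
              rw [CrLAux.adj_M, if_neg fun e => hb' e.symm, map_zero, zero_mul]
            · intro hb
              exact absurd (Finset.mem_univ b) hb
    have h4 : ∑ i, eval p (L.M.adjugate b i) *
        (∑ j : L.Bc, eval p (pderiv j.1 (L.F i)) * v j.1) =
        ∑ j : L.Bc, eval p (L.coef b j.1) * v j.1 := by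
      simp only [Finset.mul_sum]
      rw [Finset.sum_comm]
      refine Finset.sum_congr rfl fun j _ => ?_
      rw [Loc.coef, map_sum, Finset.sum_mul]
      exact Finset.sum_congr rfl fun i _ => by rw [map_mul]; ring
    have h5 : ∑ i, eval p (L.M.adjugate b i) *
        (∑ b', eval p (pderiv (L.B b') (L.F i)) * v (L.B b') +
        ∑ j : L.Bc, eval p (pderiv j.1 (L.F i)) * v j.1) = 0 :=
      Finset.sum_eq_zero fun i _ => by rw [h2 i, mul_zero]
    simp only [mul_add, Finset.sum_add_distrib] at h5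
    rw [h3, h4] at h5
    rw [eq_neg_of_add_eq_zero_left h5, ← Finset.sum_neg_distrib]
    refine Finset.sum_congr rfl fun j _ => ?_
    rw [h1, map_neg]
    ring
  · have h1 : ∀ j : L.Bc, L.cr j.1 l = if l = j.1 then L.dt else 0 := by
      intro j
      rw [Loc.cr, Finset.sum_eq_zero fun b _ => if_neg fun h => hl ⟨b, h⟩, sub_zero]
    rw [Finset.sum_eq_single (⟨l, hl⟩ : L.Bc)]
    · rw [h1, if_pos rfl, mul_comm]
    · intro j _ hj
      rw [h1, if_neg fun h => hj (Subtype.ext h.symm), map_zero, mul_zero]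
    · intro h
      exact absurd (Finset.mem_univ _) h

/-- Forms with prescribed restriction to the line. -/
theorem exF {x z : Vx N} (h : LinearIndependent ℂ ![x, z]) (a b : ℂ) :
    ∃ F : Sx N, F.IsHomogeneous 1 ∧ ∀ s t : ℂ, eval (s • x + t • z) F = s * a + t * b := by
  have hg : Polynomial.C a + Polynomial.C b * Polynomial.X ∈ Polynomial.degreeLT ℂ (1 + 1) := by
    rw [Polynomial.mem_degreeLT]
    refine lt_of_le_of_lt (Polynomial.degree_le_of_natDegree_le (n := 1) (by compute_degree)) ?_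
    exact_mod_cast Nat.lt_succ_self 1
  obtain ⟨F, hF, hl⟩ := (eLineI eLinB N x z h).2.2.2.1 1 _ hg
  refine ⟨F, hF, fun s t => ?_⟩
  rw [← lin_hom hF x z s t, hl, Finset.sum_range_succ, Finset.sum_range_one]
  simp only [Polynomial.coeff_add, Polynomial.coeff_C_mul, Polynomial.coeff_X,
    Polynomial.coeff_C]
  norm_num
  ring

/-- A point outside the line is separated by a linear form vanishing on the line. -/
theorem sep {x z y : Vx N} (h : ∀ σ θ : ℂ, y ≠ σ • x + θ • z) :
    ∃ F : Sx N, F.IsHomogeneous 1 ∧ (∀ s t : ℂ, eval (s • x + t • z) F = 0) ∧ eval y F ≠ 0 := by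
  have hy : y ∉ Submodule.span ℂ ({x, z} : Set (Vx N)) := by
    intro hy
    obtain ⟨σ, θ, e⟩ := Submodule.mem_span_pair.mp hy
    exact h σ θ e.symm
  have h1 : ¬ ∀ φ ∈ (Submodule.span ℂ ({x, z} : Set (Vx N))).dualAnnihilator, φ y = 0 :=
    fun h2 => hy ((Subspace.forall_mem_dualAnnihilator_apply_eq_zero_iff _ _).mp h2)
  push Not at h1
  obtain ⟨φ, hφ, hne⟩ := h1
  rw [Submodule.mem_dualAnnihilator] at hφ
  have hx : φ x = 0 := hφ x (Submodule.subset_span (by simp))
  have hz : φ z = 0 := hφ z (Submodule.subset_span (by simp))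
  have he : ∀ u : Vx N, eval u (∑ i, C (φ (Pi.single i 1)) * X i : Sx N) = φ u := by
    intro u
    rw [map_sum]
    conv_rhs => rw [← Finset.univ_sum_single u, map_sum]
    refine Finset.sum_congr rfl fun i _ => ?_
    have e1 : (Pi.single i (u i) : Vx N) = u i • (Pi.single i 1 : Vx N) := by
      rw [← Pi.single_smul, smul_eq_mul, mul_one]
    rw [map_mul, eval_C, eval_X, e1, map_smul, smul_eq_mul, mul_comm]
  refine ⟨∑ i, C (φ (Pi.single i 1)) * X i, ?_, fun s t => ?_, ?_⟩
  · refine IsHomogeneous.sum _ _ _ fun i _ => ?_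
    have := (isHomogeneous_C (Fin (N + 1)) (φ (Pi.single i 1))).mul (isHomogeneous_X ℂ i)
    rwa [zero_add] at this
  · rw [he, map_add, map_smul, map_smul, hx, hz, smul_zero, smul_zero, add_zero]
  · rw [he]
    exact hne

/-- The determinant of local equations has `(*)`. -/
theorem st_dt {I : Ideal (Sx N)} {c : ℕ} {x z τ τ' y : Vx N} (hHom : S_Hom)
    (hcr : ∀ j, ∀ L : Loc I y c, L.cr j ∈ TF I) (h : LinearIndependent ℂ ![x, z])
    (hτ : ∀ s t : ℂ, s • τ + t • τ' ∈ TS I (s • x + t • z)) (L : Loc I y c) :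
    L.dt.IsHomogeneous L.dg ∧ St I x z τ τ' L.dg L.dt := by
  have hH := hHom N c I y y L
  refine ⟨hH.1, ?_⟩
  have hex : ∀ j : Fin (N + 1), ∃ F : Sx N, F.IsHomogeneous 1 ∧
      ∀ s t : ℂ, eval (s • x + t • z) F = s * τ j + t * τ' j := fun j => exF h (τ j) (τ' j)
  choose ℓ hℓ hℓe using hex
  refine ⟨∑ j : L.Bc, fun l => ℓ j.1 * L.cr j.1 l,
    Th2Aux.TF_sum _ _ fun j => Th2Aux.TF_mul _ (hcr j.1 L), fun l => ?_, fun s t l => ?_⟩
  · rw [Finset.sum_apply]
    refine IsHomogeneous.sum _ _ _ fun j _ => ?_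
    have := (hℓ j.1).mul (hH.2.2.1 j.1 l)
    rw [add_comm L.dg 1]
    exact this
  · rw [Finset.sum_apply, map_sum]
    have hv : ∀ i, ∑ l, eval (s • x + t • z) (pderiv l (L.F i)) * (s • τ + t • τ') l = 0 :=
      fun i => hτ s t (L.F i) (L.memF i)
    have h1 := cramer L hv l
    have h2 : ∀ l, (s • τ + t • τ') l = s * τ l + t * τ' l := fun l => by
      rw [Pi.add_apply, Pi.smul_apply, Pi.smul_apply, smul_eq_mul, smul_eq_mul]
    rw [h2] at h1
    rw [← h1]
    refine Finset.sum_congr rfl fun j _ => ?_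
    rw [map_mul, hℓe, h2]

end RF1Aux

open RF1Aux in
/-- (RF1) TANGENT FIELDS WITH PRESCRIBED RESTRICTION TO A LINE. -/
theorem tRF1 : S_Loc → S_Hom → S_Cr → S_CN → LI.S_TS → S_D6' → S_RF1 := by
  intro hLoc hHom hCr _ _ hD N c I hP hI hS x z hl τ τ' hτ
  -- the ideal
  have hzero : ∀ y ∈ zer (Ideal.span (Gen I x z τ τ')), y = 0 := by
    intro y hy
    by_contra hne
    by_cases hin : ∀ σ θ : ℂ, y ≠ σ • x + θ • z
    · obtain ⟨F, hF, hF0, hFy⟩ := sep hin
      exact hFy (hy F (Ideal.subset_span ⟨1, hF, st_line 1 hF0⟩))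
    · push Not at hin
      obtain ⟨σ, θ, e⟩ := hin
      have hyI : y ∈ zer I := by
        rw [e]
        exact hl.2 σ θ
      obtain ⟨L⟩ := hLoc N c I hS y hyI hne
      have h1 := st_dt hHom (fun j L => (hCr N c I hP hI hS y L).1 j) hl.1 hτ L
      exact L.detx (hy L.dt (Ideal.subset_span ⟨L.dg, h1.1, h1.2⟩))
  obtain ⟨ρ, hρ⟩ := hD N _ hzero
  have key : ∀ m ≥ ρ, ∀ F : Sx N, F.IsHomogeneous m → St I x z τ τ' m F := by
    intro m hm F hF
    have h1 := st_span (hρ m hm F hF) m
    rwa [homogeneousComponent_of_mem hF, if_pos rfl] at h1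
  obtain ⟨α, hα, hαe⟩ := exF hl.1 1 0
  obtain ⟨β, hβ, hβe⟩ := exF hl.1 0 1
  refine ⟨ρ, fun e he => ?_⟩
  have hα' : (α ^ e).IsHomogeneous e := by
    have := hα.pow e
    rwa [one_mul] at this
  have hβ' : (β ^ e).IsHomogeneous e := by
    have := hβ.pow e
    rwa [one_mul] at this
  obtain ⟨w, hw, hd, hev⟩ := key e he _ hα'
  obtain ⟨w', hw', hd', hev'⟩ := key e he _ hβ'
  refine ⟨w, w', hw, hw', fun l => ⟨hd l, hd' l⟩, fun l => ⟨?_, ?_⟩⟩
  · refine poly_ext fun t => ?_
    have h1 := hev 1 t l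
    rw [map_pow, hαe] at h1
    rw [lin_eval]
    rw [one_smul] at h1
    rw [h1]
    simp only [Polynomial.eval_add, Polynomial.eval_C, Polynomial.eval_mul, Polynomial.eval_X]
    ring
  · refine poly_ext fun t => ?_
    have h1 := hev' 1 t l
    rw [map_pow, hβe] at h1
    rw [lin_eval]
    rw [one_smul] at h1
    rw [h1]
    simp only [Polynomial.eval_add, Polynomial.eval_C, Polynomial.eval_mul, Polynomial.eval_X,
      Polynomial.eval_pow]
    ring

end Pool.Agent.Lib.MP_776403_ag.SD.UN
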