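import Pool.Agent.Lib.MP_776403_ag.SD.UN.Spec7

/-!
# THEOREM UN, part U7: the dimension of `J^m` in degree `r` (S_RJ)
-/

set_option autoImplicit false

open MvPolynomial

noncomputable section

namespace Pool.Agent.Lib.MP_776403_ag.SD.UN

open LI

namespace RJAux

variable {N : ℕ}

/-- An ideal generated by forms is homogeneous. -/
private theorem span_hom (s : Set (Sx N)) (hs : ∀ f ∈ s, ∃ m : ℕ, f.IsHomogeneous m) :
    IsHom (Ideal.span s) := by
  intro F hF m
  let _ := MvPolynomial.gradedAlgebra (σ := Fin (N + 1)) (R := ℂ)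
  have h1 : (Ideal.span s).IsHomogeneous (homogeneousSubmodule (Fin (N + 1)) ℂ) := by
    refine Ideal.homogeneous_span _ _ ?_
    intro f hf
    obtain ⟨n, hn⟩ := hs f hf
    exact ⟨n, hn⟩
  exact homogeneousComponent_mem_of_mem h1 hF m

private theorem lf_hom (a : Vx N) : (lf a).IsHomogeneous 1 := by
  unfold lf
  refine IsHomogeneous.sum _ _ 1 fun i _ => ?_
  have h := (isHomogeneous_C (Fin (N + 1)) (a i)).mul (isHomogeneous_X ℂ i)
  rwa [zero_add] at h

/-- Components of a multiple of a form. -/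
private theorem comp_mul {R : Sx N} {D : ℕ} (hR : R.IsHomogeneous D) (g : Sx N) (r : ℕ) :
    ∃ c : Sx N, homogeneousComponent r (g * R) = c * R ∧ c.IsHomogeneous (r - D) ∧
      (r < D → c = 0) := by
  have key : homogeneousComponent r (g * R) =
      ∑ k ∈ Finset.range (g.totalDegree + 1),
        if r = k + D then homogeneousComponent k g * R else 0 := by
    conv_lhs => rw [← sum_homogeneousComponent g]
    rw [Finset.sum_mul, map_sum]
    refine Finset.sum_congr rfl fun k _ => ?_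
    have h2 : (homogeneousComponent k g * R).IsHomogeneous (k + D) :=
      (homogeneousComponent_isHomogeneous k g).mul hR
    rw [homogeneousComponent_of_mem ((mem_homogeneousSubmodule _ _).2 h2)]
  by_cases hr : r < D
  · refine ⟨0, ?_, isHomogeneous_zero _ _ _, fun _ => rfl⟩
    rw [key, zero_mul]
    exact Finset.sum_eq_zero fun k _ => if_neg (by omega)
  · refine ⟨homogeneousComponent (r - D) g, ?_, homogeneousComponent_isHomogeneous _ _,
      fun h => absurd h hr⟩
    rw [key]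
    have h1 : ∀ k ∈ Finset.range (g.totalDegree + 1),
        (if r = k + D then homogeneousComponent k g * R else 0) =
          if k = r - D then homogeneousComponent (r - D) g * R else 0 := by
      intro k _
      by_cases hk : k = r - D
      · rw [if_pos (by omega), if_pos hk, hk]
      · rw [if_neg (by omega), if_neg hk]
    rw [Finset.sum_congr rfl h1, Finset.sum_ite_eq']
    split_ifs with h3
    · rfl
    · have h4 : g.totalDegree < r - D := by
        rw [Finset.mem_range] at h3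
        omega
      rw [homogeneousComponent_eq_zero _ _ h4, zero_mul]

/-- Representatives of the degree `n` part of `S / J`. -/
private theorem compl (J : Ideal (Sx N)) (n : ℕ) : ∃ Q : Submodule ℂ (Sx N),
    Module.Finite ℂ Q ∧ Module.finrank ℂ Q ≤ Module.finrank ℂ (gr J n) ∧
    (∀ q ∈ Q, q.IsHomogeneous n) ∧
    ∀ f : Sx N, f.IsHomogeneous n → ∃ q ∈ Q, f - q ∈ J := by
  have hf : Module.Finite ℂ (homogeneousSubmodule (Fin (N + 1)) ℂ n) :=
    Module.Finite.iff_fg.2 (homogeneousSubmodule_fg _ ℂ n)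
  set ψ : homogeneousSubmodule (Fin (N + 1)) ℂ n →ₗ[ℂ] (Sx N ⧸ J) :=
    (Ideal.Quotient.mkₐ ℂ J).toLinearMap.comp
      (homogeneousSubmodule (Fin (N + 1)) ℂ n).subtype with hψ
  have hr : LinearMap.range ψ = gr J n := by
    rw [hψ, LinearMap.range_comp, Submodule.range_subtype]
    rfl
  obtain ⟨s, hs⟩ := ψ.rangeRestrict.exists_rightInverse_of_surjective
    (LinearMap.range_rangeRestrict ψ)
  have hfr : Module.Finite ℂ (LinearMap.range ψ) := inferInstance
  refine ⟨LinearMap.range ((homogeneousSubmodule (Fin (N + 1)) ℂ n).subtype.comp s),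
    inferInstance, ?_, ?_, ?_⟩
  · rw [← hr]
    exact LinearMap.finrank_range_le _
  · rintro q ⟨a, rfl⟩
    exact (s a).2
  · intro f hfh
    let f' : homogeneousSubmodule (Fin (N + 1)) ℂ n := ⟨f, hfh⟩
    refine ⟨(s (ψ.rangeRestrict f')).1, ⟨ψ.rangeRestrict f', rfl⟩, ?_⟩
    have h1 : ψ.rangeRestrict (s (ψ.rangeRestrict f')) = ψ.rangeRestrict f' :=
      LinearMap.congr_fun hs _
    have h2 : ψ (s (ψ.rangeRestrict f')) = ψ f' := congrArg Subtype.val h1
    exact Ideal.Quotient.eq.1 h2.symm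

/-- The dimension of a finite sum of subspaces. -/
private theorem sup_le_sum {ι V : Type} [AddCommGroup V] [Module ℂ V] (s : Finset ι)
    (U : ι → Submodule ℂ V) (hf : ∀ i, Module.Finite ℂ (U i)) :
    Module.Finite ℂ (s.sup U : Submodule ℂ V) ∧
      Module.finrank ℂ (s.sup U : Submodule ℂ V) ≤ ∑ i ∈ s, Module.finrank ℂ (U i) := by
  classical
  induction s using Finset.induction_on with
  | empty =>
    rw [Finset.sup_empty]
    exact ⟨inferInstance, by rw [finrank_bot]; exact Nat.zero_le _⟩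
  | insert a s ha ih =>
    obtain ⟨h1, h2⟩ := ih
    have := hf a
    rw [Finset.sup_insert, Finset.sum_insert ha]
    exact ⟨inferInstance,
      (Submodule.finrank_add_le_finrank_add_finrank _ _).trans (Nat.add_le_add_left h2 _)⟩

private theorem pow_sup {J K A : Ideal (Sx N)} (h : J ≤ K ⊔ A) (j : ℕ) :
    J ^ j ≤ K ^ j ⊔ A := by
  induction j with
  | zero => rw [pow_zero, pow_zero]; exact le_sup_left
  | succ j ih =>
    rw [pow_succ, pow_succ, Ideal.mul_le]
    intro a ha b hb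
    obtain ⟨a1, ha1, a2, ha2, rfl⟩ := Submodule.mem_sup.1 (ih ha)
    obtain ⟨b1, hb1, b2, hb2, rfl⟩ := Submodule.mem_sup.1 (h hb)
    have : (a1 + a2) * (b1 + b2) = a1 * b1 + (a1 * b2 + a2 * (b1 + b2)) := by ring
    rw [this]
    exact Submodule.add_mem_sup (Ideal.mul_mem_mul ha1 hb1)
      (A.add_mem (A.mul_mem_left _ hb2) (A.mul_mem_right _ ha2))

end RJAux

open RJAux

theorem tRJ : S_RJ := by
  intro N c I d x lam g J hL r m
  classical
  set 𝔞 : Ideal (Sx N) := aI d lam g with h𝔞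
  set G : Ex2 d → Sx N := fun e => g e.1 with hG
  set K : Ideal (Sx N) := Ideal.span (Set.range G) with hK
  set φ : Sx N →ₗ[ℂ] (Sx N ⧸ 𝔞) := (Ideal.Quotient.mkₐ ℂ 𝔞).toLinearMap with hφ
  have hGh : ∀ e : Ex2 d, (G e).IsHomogeneous (e.1.2.1 + 1) := fun e => hL.hom e.1
  have hah : IsHom 𝔞 := by
    have h1 : 𝔞 = Ideal.span ({lf lam} ∪ g '' {e | e.2.1 = 0}) := by
      rw [h𝔞, aI, ← Ideal.span_union]
    rw [h1]
    refine span_hom _ ?_
    rintro f (hf | ⟨e, he, rfl⟩)
    · exact ⟨1, by rw [Set.mem_singleton_iff.1 hf]; exact lf_hom lam⟩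
    · exact ⟨_, hL.hom e⟩
  have hJK : J ≤ K ⊔ 𝔞 := by
    rw [hL.eq, sup_le_iff, Ideal.span_le, Ideal.span_le]
    constructor
    · rintro _ ⟨e, rfl⟩
      by_cases he : e.2.1 = 0
      · exact (le_sup_right : 𝔞 ≤ K ⊔ 𝔞)
          ((le_sup_right : Ideal.span (g '' {e | e.2.1 = 0}) ≤ 𝔞) (Ideal.subset_span ⟨e, he, rfl⟩))
      · exact (le_sup_left : K ≤ K ⊔ 𝔞) (Ideal.subset_span ⟨⟨e, he⟩, rfl⟩)
    · intro f hf
      exact (le_sup_right : 𝔞 ≤ K ⊔ 𝔞)
        ((le_sup_left : Ideal.span {lf lam} ≤ 𝔞) (Ideal.subset_span hf))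
  have hKJ : K ≤ J := by
    rw [hK, Ideal.span_le]
    rintro _ ⟨e, rfl⟩
    rw [hL.eq]
    exact (le_sup_left : Ideal.span (Set.range g) ≤ _) (Ideal.subset_span ⟨e.1, rfl⟩)
  -- degrees
  let D : (Ex2 d → ℕ) → ℕ := fun α => ∑ e, α e * (e.1.2.1 + 1)
  let P : (Ex2 d → ℕ) → Sx N := fun α => ∏ e, G e ^ α e
  have hP : ∀ α, (P α).IsHomogeneous (D α) := by
    intro α
    refine IsHomogeneous.prod _ _ _ fun e _ => ?_
    have := (hGh e).pow (α e)
    rwa [mul_comm] at this
  have hPm : ∀ α, P α ∈ J ^ (∑ e, α e) := by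
    intro α
    have h1 : P α ∈ ∏ e, J ^ α e :=
      Ideal.prod_mem_prod fun e _ => Ideal.pow_mem_pow (hKJ (Ideal.subset_span ⟨e, rfl⟩)) _
    rwa [Finset.prod_pow_eq_pow_sum] at h1
  -- decomposition of the forms in `J^j + 𝔞`
  have dec : ∀ (j : ℕ) (F : Sx N), F.IsHomogeneous r → F ∈ J ^ j ⊔ 𝔞 →
      ∃ (s : Finset (Ex2 d →₀ ℕ)) (q : (Ex2 d →₀ ℕ) → Sx N),
        (∀ β ∈ s, ∑ e, β e = j ∧ D β ≤ r ∧ (q β).IsHomogeneous (r - D β)) ∧
        F - ∑ β ∈ s, q β * P β ∈ 𝔞 := by
    intro j F hF hFJ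
    have hF2 : F ∈ K ^ j ⊔ 𝔞 := (sup_le (pow_sup hJK j) le_sup_right) hFJ
    obtain ⟨y, hy, a, ha, hya⟩ := Submodule.mem_sup.1 hF2
    rw [hK, Ideal.mem_span_pow_iff_exists_isHomogeneous] at hy
    obtain ⟨p, hp, hpy⟩ := hy
    choose cc hc1 hc2 hc3 using fun β : Ex2 d →₀ ℕ => comp_mul (hP β) (p.coeff β) r
    set s : Finset (Ex2 d →₀ ℕ) := p.support.filter fun β : Ex2 d →₀ ℕ => D β ≤ r with hs
    refine ⟨s, cc, ?_, ?_⟩
    · intro β hβ
      rw [hs, Finset.mem_filter] at hβ
      refine ⟨?_, hβ.2, hc2 β⟩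
      have h1 : β.degree = j := by
        by_contra hne
        exact (mem_support_iff.mp hβ.1) (hp.coeff_eq_zero hne)
      rw [← h1, Finsupp.degree_eq_sum]
    · have h1 : homogeneousComponent r F = F := by
        rw [homogeneousComponent_of_mem ((mem_homogeneousSubmodule _ _).2 hF), if_pos rfl]
      have h2 : F = ∑ β ∈ p.support, cc β * P β + homogeneousComponent r a := by
        conv_lhs => rw [← h1, ← hya, map_add, ← hpy, eval_eq', map_sum]
        congr 1
        exact Finset.sum_congr rfl fun β _ => hc1 β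
      have h3 : ∑ β ∈ p.support, cc β * P β = ∑ β ∈ s, cc β * P β := by
        rw [hs, Finset.sum_filter]
        refine Finset.sum_congr rfl fun β _ => ?_
        split_ifs with h
        · rfl
        · rw [hc3 β (by omega), zero_mul]
      have h4 : F - ∑ β ∈ s, cc β * P β = homogeneousComponent r a := by
        rw [← h3]
        conv_lhs => rw [h2]
        ring
      rw [h4]
      exact hah a ha r
  -- the pieces
  choose Q hQf hQr hQh hQs using fun n : ℕ => compl J n
  let μ : (α : Ex2 d → ℕ) → Sx N →ₗ[ℂ] (Sx N ⧸ 𝔞) := fun α =>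
    φ.comp (LinearMap.mulRight ℂ (P α))
  let U : (Ex2 d → ℕ) → Submodule ℂ (Sx N ⧸ 𝔞) := fun α => (Q (r - D α)).map (μ α)
  have hUf : ∀ α, Module.Finite ℂ (U α) := fun α => by
    have := hQf (r - D α)
    exact Module.Finite.map _ _
  have hmu : ∀ (j : ℕ) (β : Ex2 d →₀ ℕ), m ≤ j → ∑ e, β e = j → D β ≤ r →
      (β : Ex2 d → ℕ) ∈ mu d r m := by
    intro j β hmj h1 h2
    unfold mu
    rw [Finset.mem_filter, Fintype.mem_piFinset]
    refine ⟨fun e => ?_, by rw [h1]; exact hmj, h2⟩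
    rw [Finset.mem_range]
    have h3 : β e * (e.1.2.1 + 1) ≤ D β :=
      Finset.single_le_sum (f := fun e : Ex2 d => β e * (e.1.2.1 + 1))
        (fun _ _ => Nat.zero_le _) (Finset.mem_univ e)
    have h4 : β e ≤ β e * (e.1.2.1 + 1) := Nat.le_mul_of_pos_right _ (Nat.succ_pos _)
    omega
  have hmain : ∀ t j : ℕ, r < j + t → m ≤ j → ∀ F : Sx N, F.IsHomogeneous r → F ∈ J ^ j ⊔ 𝔞 →
      φ F ∈ (mu d r m).sup U := by
    intro t
    induction t with
    | zero =>
      intro j hj _ F hF hFJ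
      obtain ⟨s, q, hs, hsa⟩ := dec j F hF hFJ
      have h1 : ∑ β ∈ s, q β * P β = 0 := by
        refine Finset.sum_eq_zero fun β hβ => ?_
        obtain ⟨h2, h3, _⟩ := hs β hβ
        exfalso
        have h4 : ∑ e, β e ≤ D β :=
          Finset.sum_le_sum fun e _ => Nat.le_mul_of_pos_right _ (Nat.succ_pos _)
        omega
      rw [h1, sub_zero] at hsa
      have h2 : φ F = 0 := Ideal.Quotient.eq_zero_iff_mem.2 hsa
      rw [h2]
      exact Submodule.zero_mem _
    | succ t ih =>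
      intro j hj hmj F hF hFJ
      obtain ⟨s, q, hs, hsa⟩ := dec j F hF hFJ
      have h1 : φ F = ∑ β ∈ s, φ (q β * P β) := by
        rw [← map_sum]
        exact Ideal.Quotient.eq.2 hsa
      rw [h1]
      refine Submodule.sum_mem _ fun β hβ => ?_
      obtain ⟨h2, h3, h4⟩ := hs β hβ
      obtain ⟨q', hq', hqJ⟩ := hQs (r - D β) (q β) h4
      have h5 : q β * P β = q' * P β + (q β - q') * P β := by ring
      rw [h5, map_add]
      refine Submodule.add_mem _ ?_ ?_
      · have h6 : U β ≤ (mu d r m).sup U := Finset.le_sup (f := U) (hmu j β hmj h2 h3)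
        exact h6 ⟨q', hq', rfl⟩
      · refine ih (j + 1) (by omega) (by omega) _ ?_ ?_
        · have h7 := (h4.sub (hQh _ q' hq')).mul (hP β)
          rwa [Nat.sub_add_cancel h3] at h7
        · refine (le_sup_left : J ^ (j + 1) ≤ J ^ (j + 1) ⊔ 𝔞) ?_
          rw [pow_succ']
          refine Ideal.mul_mem_mul hqJ ?_
          rw [← h2]
          exact hPm β
  obtain ⟨hsf, hsl⟩ := sup_le_sum (mu d r m) U hUf
  have hle : grm 𝔞 J r m ≤ (mu d r m).sup U := by
    rintro _ ⟨F, ⟨hF1, hF2⟩, rfl⟩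
    exact hmain (r + 1) m (by omega) le_rfl F hF1 hF2
  calc Module.finrank ℂ (grm 𝔞 J r m)
      ≤ Module.finrank ℂ ((mu d r m).sup U : Submodule ℂ (Sx N ⧸ 𝔞)) :=
        Submodule.finrank_mono hle
    _ ≤ ∑ α ∈ mu d r m, Module.finrank ℂ (U α) := hsl
    _ ≤ ∑ α ∈ mu d r m, Module.finrank ℂ (gr J (r - D α)) := by
        refine Finset.sum_le_sum fun α _ => ?_
        have := hQf (r - D α)
        exact (Submodule.finrank_map_le _ _).trans (hQr _)

end Pool.Agent.Lib.MP_776403_ag.SD.UN
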