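import Pool.Agent.Lib.MP_776403_ag.SD.UN.Spec7

/-!
# (RO) The order along a free line
-/

set_option autoImplicit false

open MvPolynomial

noncomputable section

namespace Pool.Agent.Lib.MP_776403_ag.SD.UN

open LI

namespace ROAux

variable {N c : ℕ}

/-- `Dy j` preserves divisibility by powers of `X`. -/
theorem dvd_Dy {r : ℕ} {B : Fin r → Fin (N + 1)} (j : Bn B) (a : ℕ) (p : PowerSeries (Ay B))
    (h : (PowerSeries.X : PowerSeries (Ay B)) ^ a ∣ p) :
    (PowerSeries.X : PowerSeries (Ay B)) ^ a ∣ Dy j p := by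
  rw [PowerSeries.X_pow_dvd_iff] at h ⊢
  intro n hn
  unfold Dy
  rw [PowerSeries.coeff_mk, h n hn, map_zero]

/-- The order of the derivatives. -/
theorem dvd_seq {r : ℕ} {B : Fin r → Fin (N + 1)} (W : ℕ → Bn B → PowerSeries (Ay B))
    (τ : ℕ → PowerSeries (Ay B))
    (h : ∀ i, PowerSeries.X * τ (i + 1) = ∑ j : Bn B, W i j * Dy j (τ i)) (a : ℕ)
    (h0 : (PowerSeries.X : PowerSeries (Ay B)) ^ a ∣ τ 0) :
    ∀ i ≤ a, (PowerSeries.X : PowerSeries (Ay B)) ^ (a - i) ∣ τ i := by
  intro i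
  induction i with
  | zero => intro _; simpa using h0
  | succ i ih =>
    intro hi
    have h1 := ih (by omega)
    have h2 : (PowerSeries.X : PowerSeries (Ay B)) ^ (a - i) ∣ PowerSeries.X * τ (i + 1) := by
      rw [h i]
      exact Finset.dvd_sum fun j _ => (dvd_Dy j _ _ h1).mul_left _
    have e : a - i = (a - (i + 1)) + 1 := by omega
    rw [e, pow_succ', mul_dvd_mul_iff_left PowerSeries.X_ne_zero] at h2
    exact h2

/-- The iterated fractions. -/
def pq (W : ℕ → Fin (N + 1) → Sx N) (P Q : Sx N) : ℕ → Sx N × Sx N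
  | 0 => (P, Q)
  | i + 1 => ((pq W P Q i).2 * Dw (W i) (pq W P Q i).1 - (pq W P Q i).1 * Dw (W i) (pq W P Q i).2,
      (pq W P Q i).2 * (pq W P Q i).2)

/-- The iterated derivatives of a regular function and their restrictions to the line. -/
theorem seq (hRT : S_RT) (hRQ : S_RQ) (hRD : S_RD) (hRR : S_RR) {I : Ideal (Sx N)}
    (hI : I.IsPrime) (hH : IsHom I) {x z : Vx N} (L : Loc I x c)
    (T : Sx N →ₐ[ℂ] PowerSeries (Ay L.B)) (hT : PT x L.F L.B T) (hl : IsLine I x z) (k e : ℕ)
    (W : ℕ → Fin (N + 1) → Sx N) (hW : ∀ i, W i ∈ TF I)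
    (hWh : ∀ i l, (W i l).IsHomogeneous (e + 1)) (P Q : Sx N) (hR : RF I x k P Q)
    (τ : PowerSeries (Ay L.B)) (hτ : T Q * τ = T P) :
    ∃ σ : ℕ → PowerSeries (Ay L.B), σ 0 = τ ∧
      (∀ i, PowerSeries.X * σ (i + 1) = ∑ j : Bn L.B, T (W i j.1) * Dy j (σ i)) ∧
      ∀ i, ∃ ρ : Polynomial ℂ, ρ.natDegree ≤ k + i * e ∧ evz z (σ i) = (ρ : PowerSeries ℂ) := by
  obtain ⟨-, hRT⟩ := hRT N c I hI hH x L
  obtain ⟨-, -, hd, he⟩ := hRT T hT
  have hRi : ∀ i, RF I x (k + i * e) (pq W P Q i).1 (pq W P Q i).2 := by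
    intro i
    induction i with
    | zero => simpa [pq] using hR
    | succ i ih =>
      have h1 := hRD N (k + i * e) e I x _ _ ih (W i) (hW i) (hWh i)
      have e1 : k + (i + 1) * e = k + i * e + e := by ring
      rw [e1]
      exact h1
  have hex : ∀ i, ∃ s : PowerSeries (Ay L.B), T (pq W P Q i).2 * s = T (pq W P Q i).1 := fun i =>
    (hRQ N c x L.F L.B T hT (pq W P Q i).1 (pq W P Q i).2 (hRi i).ne).1
  choose σ hσ using hex
  have hne : ∀ i, T (pq W P Q i).2 ≠ 0 := fun i =>
    (hRQ N c x L.F L.B T hT (pq W P Q i).1 (pq W P Q i).2 (hRi i).ne).2.1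
  refine ⟨σ, ?_, fun i => ?_, fun i => ?_⟩
  · refine mul_left_cancel₀ (hne 0) ?_
    rw [hσ 0]
    exact hτ.symm
  · exact (hRQ N c x L.F L.B T hT (pq W P Q i).1 (pq W P Q i).2 (hRi i).ne).2.2.2 (W i)
      (he (W i) (hW i)) (σ i) (σ (i + 1)) (hσ i) (hσ (i + 1))
  · obtain ⟨ρ, h1, h2⟩ := hRR N (k + i * e) I x z _ _ hl (hRi i)
    refine ⟨ρ, h1, ?_⟩
    have h3 : evz z (T (pq W P Q i).2) ≠ 0 := by
      intro h0
      have h4 := congrArg (PowerSeries.coeff 0) h0
      unfold evz at h4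
      rw [PowerSeries.coeff_map, hT.c0, eval_C, map_zero] at h4
      exact (hRi i).ne h4
    refine mul_left_cancel₀ h3 ?_
    have h5 : evz z (T (pq W P Q i).2) * evz z (σ i) = evz z (T (pq W P Q i).1) := by
      rw [← hσ i]
      unfold evz
      rw [map_mul]
    rw [h5, hd z hl.2, hd z hl.2, ← h2, Polynomial.coe_mul]

/-- The vector fields at `x`. -/
theorem exists_tau (hCr : S_Cr) {I : Ideal (Sx N)} (hI : I.IsPrime) (hH : IsHom I)
    (hS : Smooth I c) {x : Vx N} (L : Loc I x c) (κ : Bn L.B) :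
    ∃ τ : Vx N, τ ∈ TS I x ∧ ∀ j : Bn L.B, τ j.1 = if κ = j then 1 else 0 := by
  have hdt : eval x L.dt ≠ 0 := L.detx
  refine ⟨(eval x L.dt)⁻¹ • fun l => eval x (L.cr κ.1 l), ?_, fun j => ?_⟩
  · refine (TS I x).smul_mem _ ?_
    intro F hF
    have h1 := (hCr N c I hI hH hS x L).1 κ.1 F hF
    have h2 := L.memx _ h1
    rw [map_sum] at h2
    unfold dp grad
    rw [← h2]
    exact Finset.sum_congr rfl fun i _ => by rw [map_mul]
  · have h1 : (∑ b, if L.B b = j.1 then L.coef b κ.1 else 0) = 0 := by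
      refine Finset.sum_eq_zero fun b _ => ?_
      rw [if_neg]
      intro h
      exact j.2 ⟨b, h⟩
    simp only [Pi.smul_apply, smul_eq_mul]
    unfold Loc.cr
    rw [h1, sub_zero]
    by_cases h : κ = j
    · subst h
      rw [if_pos rfl, if_pos rfl]
      exact inv_mul_cancel₀ hdt
    · rw [if_neg (fun h' => h (Subtype.ext h'.symm)), if_neg h, map_zero, mul_zero]

end ROAux

open ROAux in
/-- (RO). -/
theorem tRO : LI.S_TS → S_Hom → S_Cr → S_RT → S_RQ → S_RD → S_RR → S_RF1 → S_RO1 → S_RO2 →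
    S_RO := by
  intro _hTS _hHom hCr hRT hRQ hRD hRR hRF hRO1 hRO2
  intro N c k m I hI hH hS x z L T hT hl hF P Q hR τ hτ hdiv
  have hlin : ∀ F : Sx N, evz z (T F) = (lin x z F : PowerSeries ℂ) :=
    ((hRT N c I hI hH x L).2 T hT).2.2.1 z hl.2
  -- the fields
  choose τ1 hτ1 hτ1j using exists_tau hCr hI hH hS L
  choose τ2 hτ2 using fun κ : Bn L.B => hF (τ1 κ) (hτ1 κ)
  choose e0 he0 using fun κ : Bn L.B => hRF N c I hI hH hS x z hl (τ1 κ) (τ2 κ) (hτ2 κ)
  obtain ⟨e, he⟩ : ∃ e : ℕ, ∀ κ : Bn L.B, e0 κ ≤ e :=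
    ⟨∑ κ, e0 κ, fun κ => Finset.single_le_sum (fun i _ => Nat.zero_le (e0 i)) (Finset.mem_univ κ)⟩
  choose w w' hw hw' hhom hval using fun κ : Bn L.B => he0 κ e (he κ)
  let V : Matrix (Bn L.B) (Bn L.B) (PowerSeries ℂ) := fun κ j =>
    ((Polynomial.C (τ1 κ j.1) + Polynomial.C (τ2 κ j.1) * Polynomial.X : Polynomial ℂ) :
      PowerSeries ℂ)
  have hdet : V.det ≠ 0 := by
    intro h0
    have h1 := congrArg (PowerSeries.constantCoeff (R := ℂ)) h0
    rw [RingHom.map_det, map_zero] at h1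
    have h2 : (PowerSeries.constantCoeff (R := ℂ)).mapMatrix V = 1 := by
      ext κ j
      rw [RingHom.mapMatrix_apply, Matrix.map_apply, Matrix.one_apply, ← hτ1j κ j]
      simp only [V]
      rw [← PowerSeries.coeff_zero_eq_constantCoeff_apply, Polynomial.coeff_coe]
      simp
    rw [h2, Matrix.det_one] at h1
    exact one_ne_zero h1
  -- the claim
  have key : ∀ μ : ℕ, μ < m → (∀ l : List (Bn L.B), l.length < μ → evz z (DyL l τ) = 0) →
      (fun j : Fin μ → Bn L.B => evz z (DyL (List.ofFn j).reverse τ)) = 0 := by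
    intro μ hμ ih
    refine hRO2 (Bn L.B) (PowerSeries ℂ) V hdet μ _ fun κ => ?_
    set t : (Fin μ → Bn L.B) → PowerSeries ℂ :=
      fun j => evz z (DyL (List.ofFn j).reverse τ) with ht
    -- general identity
    have gen : ∀ (W : ℕ → Fin (N + 1) → Sx N) (σ : ℕ → PowerSeries (Ay L.B)), σ 0 = τ →
        (∀ i, PowerSeries.X * σ (i + 1) = ∑ j : Bn L.B, T (W i j.1) * Dy j (σ i)) →
        PowerSeries.X ^ μ * evz z (σ μ) =
          ∑ j : Fin μ → Bn L.B, (∏ i : Fin μ, (lin x z (W i (j i).1) : PowerSeries ℂ)) * t j := by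
      intro W σ h0 h1
      have h2 := hRO1 N c L.B μ (fun i j => T (W i j.1)) σ fun i _ => h1 i
      have h3 : ∀ p ∈ Submodule.span (PowerSeries (Ay L.B))
          {p | ∃ l : List (Bn L.B), l.length < μ ∧ p = DyL l (σ 0)}, evz z p = 0 := by
        intro p hp
        induction hp using Submodule.span_induction with
        | mem p hp =>
          obtain ⟨l, hl', rfl⟩ := hp
          rw [h0]
          exact ih l hl'
        | zero => unfold evz; rw [map_zero]
        | add p q _ _ hp hq =>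
          unfold evz at hp hq ⊢
          rw [map_add, hp, hq, add_zero]
        | smul a p _ hp =>
          unfold evz at hp ⊢
          rw [smul_eq_mul, map_mul, hp, mul_zero]
      have h4 := h3 _ h2
      unfold evz at h4
      rw [map_sub, map_mul, map_pow, PowerSeries.map_X, map_sum, sub_eq_zero] at h4
      unfold evz
      rw [h4]
      refine Finset.sum_congr rfl fun j _ => ?_
      rw [map_mul, map_prod, h0]
      congr 1
      exact Finset.prod_congr rfl fun i _ => hlin _
    have hz : (0 : Fin (N + 1) → Sx N) ∈ TF I := by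
      intro F _
      simp
    -- the two families
    let W1 : ℕ → Fin (N + 1) → Sx N := fun i => if h : i < μ then w (κ ⟨i, h⟩) else 0
    let W2 : ℕ → Fin (N + 1) → Sx N := fun i => if h : i < μ then w' (κ ⟨i, h⟩) else 0
    have hW1 : ∀ i, W1 i ∈ TF I := by
      intro i
      by_cases h : i < μ
      · simp only [W1, dif_pos h]; exact hw _
      · simp only [W1, dif_neg h]; exact hz
    have hW2 : ∀ i, W2 i ∈ TF I := by
      intro i
      by_cases h : i < μ
      · simp only [W2, dif_pos h]; exact hw' _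
      · simp only [W2, dif_neg h]; exact hz
    have hW1h : ∀ i l, (W1 i l).IsHomogeneous (e + 1) := by
      intro i l
      by_cases h : i < μ
      · simp only [W1, dif_pos h]; exact (hhom _ l).1
      · simp only [W1, dif_neg h]; exact isHomogeneous_zero _ _ _
    have hW2h : ∀ i l, (W2 i l).IsHomogeneous (e + 1) := by
      intro i l
      by_cases h : i < μ
      · simp only [W2, dif_pos h]; exact (hhom _ l).2
      · simp only [W2, dif_neg h]; exact isHomogeneous_zero _ _ _
    obtain ⟨σ, hσ0, hσ, hσρ⟩ := seq hRT hRQ hRD hRR hI hH L T hT hl k e W1 hW1 hW1h P Q hR τ hτ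
    obtain ⟨σ', hσ0', hσ', hσρ'⟩ := seq hRT hRQ hRD hRR hI hH L T hT hl k e W2 hW2 hW2h P Q hR τ hτ
    have g1 := gen W1 σ hσ0 hσ
    have g2 := gen W2 σ' hσ0' hσ'
    have e1 : ∀ j : Fin μ → Bn L.B, (∏ i : Fin μ, (lin x z (W1 i (j i).1) : PowerSeries ℂ)) =
        ∏ i, V (κ i) (j i) := by
      intro j
      refine Finset.prod_congr rfl fun i _ => ?_
      simp only [W1, dif_pos i.2, V]
      rw [(hval (κ i) (j i).1).1]
    have e2 : ∀ j : Fin μ → Bn L.B, (∏ i : Fin μ, (lin x z (W2 i (j i).1) : PowerSeries ℂ)) =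
        PowerSeries.X ^ (μ * e) * ∏ i, V (κ i) (j i) := by
      intro j
      have : ∀ i : Fin μ, (lin x z (W2 i (j i).1) : PowerSeries ℂ) =
          PowerSeries.X ^ e * V (κ i) (j i) := by
        intro i
        simp only [W2, dif_pos i.2, V]
        rw [(hval (κ i) (j i).1).2, Polynomial.coe_mul, Polynomial.coe_pow, Polynomial.coe_X]
      rw [Finset.prod_congr rfl fun i _ => this i, Finset.prod_mul_distrib, Finset.prod_const,
        Finset.card_univ, Fintype.card_fin, ← pow_mul, mul_comm e μ]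
    simp only [e1] at g1
    simp only [e2] at g2
    set S : PowerSeries ℂ := ∑ j : Fin μ → Bn L.B, (∏ i, V (κ i) (j i)) * t j with hSdef
    have g2' : PowerSeries.X ^ μ * evz z (σ' μ) = PowerSeries.X ^ (μ * e) * S := by
      rw [g2, hSdef, Finset.mul_sum]
      exact Finset.sum_congr rfl fun j _ => by rw [mul_assoc]
    obtain ⟨ρ, hρd, hρ⟩ := hσρ μ
    obtain ⟨ρ', hρd', hρ'⟩ := hσρ' μ
    have hXμ : (PowerSeries.X : PowerSeries ℂ) ^ μ ≠ 0 := pow_ne_zero _ PowerSeries.X_ne_zero
    have h5 : ρ' = Polynomial.X ^ (μ * e) * ρ := by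
      apply Polynomial.coe_injective ℂ
      rw [Polynomial.coe_mul, Polynomial.coe_pow, Polynomial.coe_X]
      refine mul_left_cancel₀ hXμ ?_
      rw [← hρ', g2', ← g1, hρ]
      ring
    have hρ0 : ρ = 0 := by
      by_contra hne
      have h6 : ρ'.natDegree = μ * e + ρ.natDegree := by
        rw [h5, Polynomial.natDegree_mul (pow_ne_zero _ Polynomial.X_ne_zero) hne,
          Polynomial.natDegree_X_pow]
      have h7 : ρ.natDegree ≤ k := by omega
      have h8 := dvd_seq (fun i j => T (W1 i j.1)) σ hσ (k + m) (by rw [hσ0]; exact hdiv) μ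
        (by omega)
      rw [PowerSeries.X_pow_dvd_iff] at h8
      apply hne
      refine Polynomial.ext fun n => ?_
      rw [Polynomial.coeff_zero]
      by_cases hn : n ≤ k
      · rw [← Polynomial.coeff_coe, ← hρ]
        unfold evz
        rw [PowerSeries.coeff_map, h8 n (by omega), map_zero]
      · exact Polynomial.coeff_eq_zero_of_natDegree_lt (by omega)
    rw [← g1, hρ, hρ0, Polynomial.coe_zero, mul_zero]
  have main : ∀ μ : ℕ, μ < m → ∀ l : List (Bn L.B), l.length = μ → evz z (DyL l τ) = 0 := by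
    intro μ
    induction μ using Nat.strong_induction_on with
    | _ μ ih =>
      intro hμ l hlen
      have h1 := key l.reverse.length (by rw [List.length_reverse]; omega) fun l' hl' => by
        rw [List.length_reverse] at hl'
        exact ih l'.length (by omega) (by omega) l' rfl
      have h2 := congrFun h1 l.reverse.get
      simp only [List.ofFn_get, List.reverse_reverse, Pi.zero_apply] at h2
      exact h2
  intro l hl'
  exact main l.length hl' l rfl

end Pool.Agent.Lib.MP_776403_ag.SD.UN
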