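import Pool.Agent.Lib.MP_776403_ag.SD.UN.Spec7

/-!
# (RO1) Iterated fields, algebra of power series (THEOREM UN)
-/

set_option autoImplicit false

open MvPolynomial

noncomputable section

namespace Pool.Agent.Lib.MP_776403_ag.SD.UN

namespace RO1Aux

variable {N r : ℕ} {B : Fin r → Fin (N + 1)}

theorem dy_add (j : Bn B) (p q : PowerSeries (Ay B)) : Dy j (p + q) = Dy j p + Dy j q := by
  ext n : 1
  simp [Dy]

theorem dy_zero (j : Bn B) : Dy j (0 : PowerSeries (Ay B)) = 0 := by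
  ext n : 1
  simp [Dy]

theorem dy_sum {ι : Type*} (j : Bn B) (s : Finset ι) (f : ι → PowerSeries (Ay B)) :
    Dy j (∑ i ∈ s, f i) = ∑ i ∈ s, Dy j (f i) := by
  classical
  induction s using Finset.induction_on with
  | empty => simp [dy_zero]
  | insert a s ha ih => rw [Finset.sum_insert ha, Finset.sum_insert ha, dy_add, ih]

theorem dy_mul (j : Bn B) (p q : PowerSeries (Ay B)) :
    Dy j (p * q) = Dy j p * q + p * Dy j q := by
  ext n : 1
  simp only [Dy, PowerSeries.coeff_mk, PowerSeries.coeff_mul, map_add, map_sum, pderiv_mul,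
    Finset.sum_add_distrib]

theorem dy_X_mul (j : Bn B) (p : PowerSeries (Ay B)) :
    Dy j (PowerSeries.X * p) = PowerSeries.X * Dy j p := by
  ext n : 1
  rcases n with _ | n
  · simp [Dy]
  · simp only [Dy, PowerSeries.coeff_mk, PowerSeries.coeff_succ_X_mul]

theorem dy_X_pow_mul (j : Bn B) (m : ℕ) (p : PowerSeries (Ay B)) :
    Dy j (PowerSeries.X ^ m * p) = PowerSeries.X ^ m * Dy j p := by
  induction m with
  | zero => simp
  | succ m ih => rw [pow_succ', mul_assoc, dy_X_mul, ih, mul_assoc]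

/-- The span. -/
def Nn (m : ℕ) (p : PowerSeries (Ay B)) : Submodule (PowerSeries (Ay B)) (PowerSeries (Ay B)) :=
  Submodule.span (PowerSeries (Ay B)) {q | ∃ l : List (Bn B), l.length < m ∧ q = DyL l p}

theorem nn_mem (m : ℕ) (p : PowerSeries (Ay B)) (l : List (Bn B)) (h : l.length < m) :
    DyL l p ∈ Nn m p := Submodule.subset_span ⟨l, h, rfl⟩

theorem nn_mul (m : ℕ) (p a q : PowerSeries (Ay B)) (h : q ∈ Nn m p) : a * q ∈ Nn m p :=
  (Nn m p).smul_mem a h

theorem dy_nn (m : ℕ) (p q : PowerSeries (Ay B)) (j : Bn B) (h : q ∈ Nn m p) :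
    Dy j q ∈ Nn (m + 1) p := by
  refine Submodule.span_induction (p := fun q _ => Dy j q ∈ Nn (m + 1) p ∧ q ∈ Nn (m + 1) p)
    ?_ ?_ ?_ ?_ h |>.1
  · rintro _ ⟨l, hl, rfl⟩
    refine ⟨?_, nn_mem _ _ _ (by omega)⟩
    have : Dy j (DyL l p) = DyL (j :: l) p := rfl
    rw [this]
    exact nn_mem _ _ _ (by simp only [List.length_cons]; omega)
  · rw [dy_zero]
    exact ⟨Submodule.zero_mem _, Submodule.zero_mem _⟩
  · intro a b _ _ ha hb
    rw [dy_add]
    exact ⟨Submodule.add_mem _ ha.1 hb.1, Submodule.add_mem _ ha.2 hb.2⟩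
  · intro a b _ hb
    rw [smul_eq_mul, dy_mul]
    exact ⟨Submodule.add_mem _ (nn_mul _ _ _ _ hb.2) (nn_mul _ _ _ _ hb.1), nn_mul _ _ _ _ hb.2⟩

/-- The main term. -/
def Mt (W : ℕ → Bn B → PowerSeries (Ay B)) (p : PowerSeries (Ay B)) (m : ℕ) :
    PowerSeries (Ay B) :=
  ∑ j : Fin m → Bn B, (∏ i : Fin m, W i (j i)) * DyL (List.ofFn j).reverse p

theorem mt_succ (W : ℕ → Bn B → PowerSeries (Ay B)) (p : PowerSeries (Ay B)) (m : ℕ) :
    Mt W p (m + 1) = ∑ j' : Bn B, ∑ j : Fin m → Bn B,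
      W m j' * ((∏ i : Fin m, W i (j i)) * Dy j' (DyL (List.ofFn j).reverse p)) := by
  unfold Mt
  rw [← (Fin.snocEquiv fun _ : Fin (m + 1) => Bn B).sum_comp, Fintype.sum_prod_type]
  refine Finset.sum_congr rfl fun j' _ => Finset.sum_congr rfl fun j _ => ?_
  have h1 : (Fin.snocEquiv fun _ : Fin (m + 1) => Bn B) (j', j) =
    (Fin.snoc j j' : Fin (m + 1) → Bn B) := rfl
  rw [h1, Fin.prod_univ_castSucc, List.ofFn_succ', List.concat_eq_append, List.reverse_append]
  simp only [Fin.snoc_castSucc, Fin.snoc_last, Fin.val_castSucc, Fin.val_last,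
    List.reverse_cons, List.reverse_nil, List.nil_append, List.singleton_append]
  have h2 : DyL (j' :: (List.ofFn fun i => j i).reverse) p =
    Dy j' (DyL (List.ofFn fun i => j i).reverse p) := rfl
  rw [h2]
  ring

end RO1Aux

open RO1Aux in
theorem tRO1 : S_RO1 := by
  intro N r B μ
  induction μ with
  | zero =>
    intro W τ _
    have : (PowerSeries.X ^ 0 * τ 0 -
      ∑ j : Fin 0 → Bn B, (∏ i : Fin 0, W i (j i)) * DyL (List.ofFn j).reverse (τ 0)) = 0 := by
      simp [DyL]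
    rw [this]
    exact Submodule.zero_mem _
  | succ m ih =>
    intro W τ h
    have h0 := ih W τ fun i hi => h i (by omega)
    change PowerSeries.X ^ m * τ m - Mt W (τ 0) m ∈ Nn m (τ 0) at h0
    change PowerSeries.X ^ (m + 1) * τ (m + 1) - Mt W (τ 0) (m + 1) ∈ Nn (m + 1) (τ 0)
    have h1 : PowerSeries.X ^ (m + 1) * τ (m + 1) =
        ∑ j' : Bn B, W m j' * Dy j' (PowerSeries.X ^ m * τ m) := by
      rw [pow_succ, mul_assoc, h m (by omega), Finset.mul_sum]
      refine Finset.sum_congr rfl fun j' _ => ?_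
      rw [dy_X_pow_mul]
      ring
    have h2 : PowerSeries.X ^ m * τ m =
        Mt W (τ 0) m + (PowerSeries.X ^ m * τ m - Mt W (τ 0) m) := by ring
    rw [h1, mt_succ, ← Finset.sum_sub_distrib]
    refine Submodule.sum_mem _ fun j' _ => ?_
    rw [h2, dy_add, mul_add]
    have h3 : W m j' * Dy j' (Mt W (τ 0) m) - ∑ j : Fin m → Bn B,
        W m j' * ((∏ i : Fin m, W i (j i)) * Dy j' (DyL (List.ofFn j).reverse (τ 0))) ∈
        Nn (m + 1) (τ 0) := by
      unfold Mt
      rw [dy_sum, Finset.mul_sum, ← Finset.sum_sub_distrib]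
      refine Submodule.sum_mem _ fun j _ => ?_
      have h4 : W m j' * Dy j' ((∏ i : Fin m, W i (j i)) * DyL (List.ofFn j).reverse (τ 0)) -
          W m j' * ((∏ i : Fin m, W i (j i)) * Dy j' (DyL (List.ofFn j).reverse (τ 0))) =
          (W m j' * Dy j' (∏ i : Fin m, W i (j i))) * DyL (List.ofFn j).reverse (τ 0) := by
        rw [dy_mul]
        ring
      rw [h4]
      exact nn_mul _ _ _ _ (nn_mem _ _ _ (by simp))
    have h5 : W m j' * Dy j' (PowerSeries.X ^ m * τ m - Mt W (τ 0) m) ∈ Nn (m + 1) (τ 0) :=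
      nn_mul _ _ _ _ (dy_nn _ _ _ _ h0)
    have h6 := Submodule.add_mem _ h3 h5
    have h7 : ∀ a b c : PowerSeries (Ay B), a - b + c = a + c - b := fun a b c => by ring
    rw [h7] at h6
    exact h6

end Pool.Agent.Lib.MP_776403_ag.SD.UN
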