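import Pool.Agent.Lib.MP_776403_ag.SD.UN.Spec7

/-!
# (RO2) Tensor powers of an invertible matrix are injective (helper53)
-/

set_option autoImplicit false

open MvPolynomial

noncomputable section

namespace Pool.Agent.Lib.MP_776403_ag.SD.UN

theorem tRO2 : S_RO2 := by
  intro β R _ _ _ _ V hV μ t ht
  have key : ∀ j0 : Fin μ → β, V.det ^ μ * t j0 = 0 := by
    intro j0
    have h1 : ∑ κ : Fin μ → β, (∏ i, V.adjugate (j0 i) (κ i)) *
        ∑ j : Fin μ → β, (∏ i, V (κ i) (j i)) * t j = 0 := by
      apply Finset.sum_eq_zero
      intro κ _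
      rw [ht κ, mul_zero]
    have h2 : ∑ κ : Fin μ → β, (∏ i, V.adjugate (j0 i) (κ i)) *
        ∑ j : Fin μ → β, (∏ i, V (κ i) (j i)) * t j =
        ∑ j : Fin μ → β, (∏ i, ∑ k, V.adjugate (j0 i) k * V k (j i)) * t j := by
      simp_rw [Finset.mul_sum]
      rw [Finset.sum_comm]
      apply Finset.sum_congr rfl
      intro j _
      rw [Finset.prod_univ_sum, Fintype.piFinset_univ, Finset.sum_mul]
      apply Finset.sum_congr rfl
      intro κ _
      rw [Finset.prod_mul_distrib]
      ring
    have h3 : ∀ a b : β, ∑ k, V.adjugate a k * V k b = if a = b then V.det else 0 := by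
      intro a b
      have := congrFun (congrFun (Matrix.adjugate_mul V) a) b
      rw [Matrix.mul_apply, Matrix.smul_apply, Matrix.one_apply] at this
      rw [this]
      split_ifs <;> simp
    rw [h2] at h1
    simp_rw [h3] at h1
    rw [Finset.sum_eq_single j0] at h1
    · simpa using h1
    · intro j _ hj
      have : ∃ i, j0 i ≠ j i := by
        by_contra hcon
        push Not at hcon
        exact hj (funext fun i => (hcon i).symm)
      obtain ⟨i, hi⟩ := this
      rw [Finset.prod_eq_zero (Finset.mem_univ i) (by simp [hi]), zero_mul]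
    · intro h
      exact absurd (Finset.mem_univ _) h
  funext j0
  have := key j0
  rcases mul_eq_zero.mp this with h | h
  · exact absurd h (pow_ne_zero _ hV)
  · simpa using h

end Pool.Agent.Lib.MP_776403_ag.SD.UN
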