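import Pool.Agent.Lib.MP_776403_ag.SD.UN.Spec7

/-!
# THEOREM UN, part U7: restriction of a regular function to a line (`S_RR`)
-/

set_option autoImplicit false

open MvPolynomial

noncomputable section

namespace Pool.Agent.Lib.MP_776403_ag.SD.UN

variable {N : ℕ}

namespace RRAux

/-- The polynomials `p` with `q ∣ p * r`. -/
def den (q r : Polynomial ℂ) : Ideal (Polynomial ℂ) where
  carrier := {p | q ∣ p * r}
  zero_mem' := by
    show q ∣ 0 * r
    rw [zero_mul]
    exact dvd_zero q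
  add_mem' := by
    intro a b ha hb
    show q ∣ (a + b) * r
    rw [add_mul]
    exact dvd_add ha hb
  smul_mem' := by
    intro c a ha
    show q ∣ (c * a) * r
    rw [mul_assoc]
    exact Dvd.dvd.mul_left ha c

/-- An ideal of `ℂ[t]` without common zero contains `1`. -/
theorem one_mem (A : Ideal (Polynomial ℂ)) (h : ∀ t : ℂ, ∃ p ∈ A, Polynomial.eval t p ≠ 0) :
    (1 : Polynomial ℂ) ∈ A := by
  obtain ⟨a, ha⟩ := (IsPrincipalIdealRing.principal A).principal
  have hA : ∀ p ∈ A, a ∣ p := fun p hp => by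
    rw [ha] at hp
    exact Ideal.mem_span_singleton.mp hp
  have hd : a.degree = 0 := by
    by_contra hne
    obtain ⟨t, ht⟩ := IsAlgClosed.exists_root a hne
    obtain ⟨p, hp, hpt⟩ := h t
    obtain ⟨b, rfl⟩ := hA p hp
    apply hpt
    rw [Polynomial.eval_mul, show Polynomial.eval t a = 0 from ht, zero_mul]
  have hu : IsUnit a := Polynomial.isUnit_iff_degree_eq_zero.mpr hd
  have hA1 : A = ⊤ := by
    rw [ha]
    exact Ideal.span_singleton_eq_top.mpr hu
  rw [hA1]
  trivial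

theorem ne_zero {x z : Vx N} (h : LinearIndependent ℂ ![x, z]) {s t : ℂ} (hst : s ≠ 0 ∨ t ≠ 0) :
    s • x + t • z ≠ 0 := by
  intro h0
  have h1 := LinearIndependent.pair_iff.mp h s t h0
  rcases hst with h2 | h2
  · exact h2 h1.1
  · exact h2 h1.2

end RRAux

open RRAux

theorem tRR : S_LinB → S_RR := by
  intro hB N k I x z P Q hl hRF
  have hI : ∀ F ∈ I, lin x z F = 0 := fun F hF => (hB N x z F).2.2 I hl.2 hF
  have hloc : ∀ s t : ℂ, (s ≠ 0 ∨ t ≠ 0) → ∃ (P' Q' : Sx N) (e : ℕ), P'.IsHomogeneous (e + k) ∧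
      Q'.IsHomogeneous e ∧ eval (s • x + t • z) Q' ≠ 0 ∧ lin x z P * lin x z Q' = lin x z P' * lin x z Q := by
    intro s t hst
    obtain ⟨P', Q', e, h1, h2, h3, h4⟩ := hRF.loc (s • x + t • z) (hl.2 s t) (RRAux.ne_zero hl.1 hst)
    refine ⟨P', Q', e, h1, h2, h3, ?_⟩
    have h5 := hI _ h4
    rw [map_sub, map_mul, map_mul] at h5
    exact sub_eq_zero.mp h5
  have hQ : lin x z Q ≠ 0 := by
    intro h0
    apply hRF.ne
    have h1 := (hB N x z Q).1 0
    rw [h0, Polynomial.eval_zero, zero_smul, add_zero] at h1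
    exact h1.symm
  have hone : (1 : Polynomial ℂ) ∈ den (lin x z Q) (lin x z P) := by
    apply RRAux.one_mem
    intro t
    obtain ⟨P', Q', e, _, _, h3, h4⟩ := hloc 1 t (Or.inl one_ne_zero)
    refine ⟨lin x z Q', ?_, ?_⟩
    · show lin x z Q ∣ lin x z Q' * lin x z P
      rw [mul_comm, h4]
      exact Dvd.intro_left _ rfl
    · rw [(hB N x z Q').1 t]
      rwa [one_smul] at h3
  have hdvd : lin x z Q ∣ lin x z P := by
    have h1 : lin x z Q ∣ 1 * lin x z P := hone
    rwa [one_mul] at h1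
  obtain ⟨ρ, hρ⟩ := hdvd
  refine ⟨ρ, ?_, hρ.symm⟩
  obtain ⟨P', Q', e, h1, h2, h3, h4⟩ := hloc 0 1 (Or.inr one_ne_zero)
  rw [zero_smul, one_smul, zero_add] at h3
  have h5 : ρ * lin x z Q' = lin x z P' := by
    apply mul_left_cancel₀ hQ
    rw [← mul_assoc, ← hρ, h4, mul_comm]
  have h6 := ((hB N x z P').2.1 _ h1).1
  have h7 := (hB N x z Q').2.1 _ h2
  have h8 : (lin x z Q').coeff e ≠ 0 := by rwa [h7.2.1]
  have h9 : e ≤ (lin x z Q').natDegree := Polynomial.le_natDegree_of_ne_zero h8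
  rcases eq_or_ne ρ 0 with h0 | h0
  · rw [h0, Polynomial.natDegree_zero]
    exact Nat.zero_le k
  · have hQ0 : lin x z Q' ≠ 0 := by
      intro hz
      rw [hz, Polynomial.coeff_zero] at h8
      exact h8 rfl
    rw [← h5, Polynomial.natDegree_mul h0 hQ0] at h6
    omega

end Pool.Agent.Lib.MP_776403_ag.SD.UN
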