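import Pool.Agent.Lib.MP_776403_ag.SD.UN.SpecF
import Pool.Agent.Lib.MP_776403_ag.SD.Q1.Kr
import Pool.Agent.Lib.MP_410da7_agP.Rlo

/-!
# THEOREM UN: forms with independent gradients along a large cone generate a prime ideal
-/

set_option autoImplicit false

open MvPolynomial

noncomputable section

namespace Pool.Agent.Lib.MP_776403_ag.SD.UN

namespace FCIAux

variable {N : ℕ}

/-- Every prime ideal has dimension `≥ 0`. -/
theorem dim_zero (P : Ideal (Sx N)) (hP : P.IsPrime) : DimGe P 0 := by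
  have : Nontrivial (Sx N ⧸ P) := Ideal.Quotient.nontrivial_iff.mpr hP.ne_top
  refine ⟨Fin.elim0, ?_⟩
  rw [algebraicIndependent_empty_type_iff]
  exact (algebraMap ℂ (Sx N ⧸ P)).injective

/-- The dimension of the first member of a chain. -/
theorem dim_chain (hDr : S_FDr) : ∀ (k : ℕ) (Q : Fin (k + 1) → Ideal (Sx N)),
    (∀ i, (Q i).IsPrime) → StrictMono Q → DimGe (Q 0) k := by
  intro k
  induction k with
  | zero =>
    intro Q hQ _
    exact dim_zero _ (hQ 0)
  | succ k ih =>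
    intro Q hQ hm
    have h1 := ih (fun i => Q i.succ) (fun i => hQ _) (fun i j h => hm (Fin.succ_lt_succ_iff.mpr h))
    exact (hDr N).1 k (Q 0) _ (hQ _) (hQ _) (hm (Fin.succ_pos 0)) h1

/-- Chains through `J`. -/
theorem chain_add (hDr : S_FDr) {r k : ℕ} (P : Fin (r + 1) → Ideal (Sx N))
    (hP : ∀ i, (P i).IsPrime) (hPm : StrictMono P) (Q : Fin (k + 1) → Ideal (Sx N))
    (hQ : ∀ i, (Q i).IsPrime) (hQm : StrictMono Q) (h : P (Fin.last r) ≤ Q 0) :
    k + r ≤ N + 1 :=
  (hDr N).2 r k P hP hPm (Q1.dimGe_anti h (dim_chain hDr k Q hQ hQm))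

/-- Part of a system of parameters is a regular sequence. -/
theorem reg_part {r s : ℕ} (hrs : r + s = N + 1) (f : Fin r → Sx N) (l : Fin s → Sx N)
    (e : Fin r → ℕ) (he : ∀ i, 1 ≤ e i) (hf : ∀ i, (f i).IsHomogeneous (e i))
    (hl : ∀ i, (l i).IsHomogeneous 1)
    (h0 : ∀ y : Vx N, (∀ i, eval y (f i) = 0) → (∀ i, eval y (l i) = 0) → y = 0) :
    ∀ (j : Fin r) (z : Sx N), f j * z ∈ Ideal.span (f '' {i | i < j}) →
      z ∈ Ideal.span (f '' {i | i < j}) := by
  classical
  intro j z hz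
  let E : Fin (N + 1) → Sx N := fun t => if h : t.1 < r then f ⟨t.1, h⟩ else
    l ⟨t.1 - r, by have := t.2; omega⟩
  let dE : Fin (N + 1) → ℕ := fun t => if h : t.1 < r then e ⟨t.1, h⟩ else 1
  have hE1 : ∀ i : Fin r, E ⟨i.1, by have := i.2; omega⟩ = f i := by
    intro i
    simp only [E]
    rw [dif_pos i.2]
  have hE2 : ∀ i : Fin s, E ⟨r + i.1, by have := i.2; omega⟩ = l i := by
    intro i
    simp only [E]
    rw [dif_neg (by omega)]
    congr 1
    ext
    simp
  have hdE : ∀ t, 0 < dE t := by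
    intro t
    simp only [dE]
    split_ifs with h
    · exact he _
    · exact one_pos
  have hE : ∀ t, (E t).IsWeightedHomogeneous (fun _ => 1) (dE t) := by
    intro t
    simp only [E, dE]
    split_ifs with h
    · exact hf _
    · exact hl _
  have hE0 : ∀ a : Vx N, (∀ t, eval a (E t) = 0) → a = 0 := by
    intro a ha
    refine h0 a (fun i => ?_) (fun i => ?_)
    · rw [← hE1]
      exact ha _
    · rw [← hE2]
      exact ha _
  have hset : E '' {i | i < (⟨j.1, by have := j.2; omega⟩ : Fin (N + 1))} = f '' {i | i < j} := by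
    ext F
    constructor
    · rintro ⟨t, ht, rfl⟩
      have ht' : t.1 < j.1 := ht
      have ht'' : t.1 < r := by have := j.2; omega
      exact ⟨⟨t.1, ht''⟩, ht', (hE1 ⟨t.1, ht''⟩).symm⟩
    · rintro ⟨i, hi, rfl⟩
      have hi' : i.1 < j.1 := hi
      exact ⟨⟨i.1, by have := i.2; omega⟩, hi', hE1 i⟩
  have key := Pool.Agent.PC.stmtReg Pool.Agent.PC.stmtRlo (Fin (N + 1)) (N + 1)
    (Fintype.card_fin _) ℂ (fun _ => 1) (fun _ => one_pos) E dE hdE hE hE0
    ⟨j.1, by have := j.2; omega⟩ z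
  rw [hset, hE1] at key
  exact key hz

end FCIAux

open FCIAux

theorem tFCI : S_FRg → S_FDr → S_FLn → S_FHc → S_FCI := by
  classical
  intro hRg hDr hLn hHc N r f e J₀ he hf hJp hJh hfJ hdim hind
  set 𝔟 := Ideal.span (Set.range f) with hb
  have hbh : IsHom 𝔟 := Q1.span_hom _ (by rintro _ ⟨i, rfl⟩; exact ⟨e i, hf i⟩)
  have hbJ : 𝔟 ≤ J₀ := Ideal.span_le.mpr (by rintro _ ⟨i, rfl⟩; exact hfJ i)
  have hbf : ∀ i, f i ∈ 𝔟 := fun i => Ideal.subset_span ⟨i, rfl⟩
  -- a point
  obtain ⟨z₀, hz₀, hz₀0⟩ : ∃ z ∈ zer J₀, z ≠ 0 := by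
    by_contra hcon
    push Not at hcon
    obtain ⟨i, hi⟩ := tMono _ _ _ 1 (by omega) (show DimGeG J₀ (r + 1) from hdim)
    have hX : (X (i 0) : Sx N) ∈ J₀ := by
      refine (tNull N J₀ hJp hJh).1 _ fun z hz => ?_
      rw [hcon z hz]
      simp
    have h1 : Ideal.Quotient.mk J₀ (X (i 0)) = 0 := Ideal.Quotient.eq_zero_iff_mem.mpr hX
    exact hi.ne_zero 0 h1
  have hfz : ∀ z ∈ zer J₀, ∀ i, eval z (f i) = 0 := fun z hz i => hz _ (hfJ i)
  obtain ⟨P, hPp, hPm, hPz, hPf, hPloc⟩ := hRg N r f z₀ (hfz z₀ hz₀) (hind z₀ hz₀ hz₀0)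
  set J := P (Fin.last r) with hJ
  have hbJ' : 𝔟 ≤ J := Ideal.span_le.mpr (by rintro _ ⟨i, rfl⟩; exact hPf i)
  have hJle : ∀ R : Ideal (Sx N), R.IsPrime → 𝔟 ≤ R → z₀ ∈ zer R → J ≤ R := by
    intro R hR hbR hzR F hF
    obtain ⟨h, hh, hhF⟩ := hPloc F hF
    exact (hR.mem_or_mem (hbR hhF)).resolve_left fun hc => hh (hzR h hc)
  have hJJ0 : J ≤ J₀ := hJle J₀ hJp hbJ hz₀
  have h2r : 2 * r ≤ N := by
    have := (hDr N).2 r (r + 1) P hPp hPm (Q1.dimGe_anti hJJ0 hdim)
    omega
  -- uniqueness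
  have huniq : ∀ z ∈ zer J₀, z ≠ 0 → ∀ Q : Ideal (Sx N), Q.IsPrime → 𝔟 ≤ Q → z ∈ zer Q →
      DimGe Q (N + 1 - r) → Q = J := by
    intro z hz hz0 Q hQ hbQ hzQ hQd
    obtain ⟨P', hP'p, hP'm, hP'z, hP'f, hP'loc⟩ := hRg N r f z (hfz z hz) (hind z hz hz0)
    have hle : ∀ R : Ideal (Sx N), R.IsPrime → 𝔟 ≤ R → z ∈ zer R → P' (Fin.last r) ≤ R := by
      intro R hR hbR hzR F hF
      obtain ⟨h, hh, hhF⟩ := hP'loc F hF
      exact (hR.mem_or_mem (hbR hhF)).resolve_left fun hc => hh (hzR h hc)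
    have h1 : Q = P' (Fin.last r) := by
      by_contra hne
      have hlt : P' (Fin.last r) < Q := lt_of_le_of_ne (hle Q hQ hbQ hzQ) (Ne.symm hne)
      have hd := (hDr N).1 (N + 1 - r) _ Q (hP'p _) hQ hlt hQd
      have := (hDr N).2 r (N + 1 - r + 1) P' hP'p hP'm hd
      omega
    have h2 : P' (Fin.last r) ≤ J₀ := hle J₀ hJp hbJ hz
    have h3 : J ≤ P' (Fin.last r) := hJle _ (hP'p _)
      (Ideal.span_le.mpr (by rintro _ ⟨i, rfl⟩; exact hP'f i)) (fun F hF => hz₀ F (h2 hF))
    have h4 : P' (Fin.last r) ≤ J := hle J (hPp _) hbJ' (fun F hF => hz F (hJJ0 hF))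
    rw [h1]
    exact le_antisymm h4 h3
  -- all components
  have hcomp : ∀ y ∈ zer 𝔟, y ∈ zer J ∧ IsHom J := by
    intro y hy
    obtain ⟨Q, hQ, hQh, hbQ, hyQ, hQd⟩ := Q1.krullPt 𝔟 hbh y hy r f hbf 1 (by simp)
      (fun G hG => by rwa [one_mul])
    obtain ⟨z, hz0, hzQ, hz⟩ := mMeet N Q J₀ (N + 1 - r) (r + 1) hQ hJp hQh hJh hQd hdim (by omega)
    have h1 := huniq z hz hz0 Q hQ hbQ hzQ hQd
    rw [← h1]
    exact ⟨hyQ, hQh⟩
  have hz₀b : z₀ ∈ zer 𝔟 := fun F hF => hz₀ F (hbJ hF)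
  have hJh' : IsHom J := (hcomp z₀ hz₀b).2
  have hz₀J : z₀ ∈ zer J := (hcomp z₀ hz₀b).1
  -- the radical
  have hrad : ∀ Q : Ideal (Sx N), Q.IsPrime → 𝔟 ≤ Q → J ≤ Q := by
    intro Q hQ hbQ F hF
    have h1 : F ∈ 𝔟.radical := by
      rw [← vanishingIdeal_zeroLocus_eq_radical (K := ℂ) 𝔟, mem_vanishingIdeal_iff]
      intro z hz
      have hz' : z ∈ zer 𝔟 := by
        intro G hG
        have := mem_zeroLocus_iff.1 hz G hG
        rwa [aeval_eq_eval] at this
      rw [aeval_eq_eval]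
      exact (hcomp z hz').1 F hF
    obtain ⟨n, hn⟩ := Ideal.mem_radical_iff.1 h1
    exact hQ.mem_of_pow_mem n (hbQ hn)
  -- the Hilbert function
  have hno : NoCh 𝔟 (N + 1 - r) := by
    intro Q hQp hQm hQ0 _
    have := chain_add hDr P hPp hPm Q hQp hQm (hrad _ (hQp 0) hQ0)
    omega
  obtain ⟨l, hl, hl0⟩ := hLn N (N + 1 - r) 𝔟 hbh hno
  have hreg := reg_part (by omega : r + (N + 1 - r) = N + 1) f l e he hf hl (by
    intro y hy1 hy2
    refine hl0 y ?_ hy2
    intro G hG
    have h1 : 𝔟 ≤ ptI y := Ideal.span_le.mpr (by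
      rintro _ ⟨i, rfl⟩
      exact hy1 i)
    exact h1 hG)
  refine ⟨?_, hHc N r f e he hf hreg⟩
  -- primality
  have hform : ∀ (m : ℕ) (F : Sx N), F.IsHomogeneous m → F ∈ J → F ∈ 𝔟 := by
    intro m F hFm hF
    obtain ⟨h₀, hh₀, hh₀F⟩ := hPloc F hF
    obtain ⟨p, hp⟩ : ∃ p, eval z₀ (homogeneousComponent p h₀) ≠ 0 := by
      by_contra hcon
      push Not at hcon
      apply hh₀
      rw [← sum_homogeneousComponent h₀, map_sum]
      exact Finset.sum_eq_zero fun i _ => hcon i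
    have hhF : homogeneousComponent p h₀ * F ∈ 𝔟 := by
      have h1 := hbh _ hh₀F (p + m)
      have h2 : homogeneousComponent (p + m) (h₀ * F) = homogeneousComponent p h₀ * F := by
        have h3 := Pool.Agent.Lib.MP_410da7_ag.CYGraded_comp_mul (fun _ : Fin (N + 1) => 1)
          (p + m) m F hFm h₀
        rw [if_pos (by omega), Nat.add_sub_cancel] at h3
        exact h3
      rwa [h2] at h1
    set h := homogeneousComponent p h₀ with hh
    have hhh : h.IsHomogeneous p := homogeneousComponent_isHomogeneous p h₀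
    rcases Nat.eq_zero_or_pos p with hp0 | hp0
    · subst hp0
      rw [hh, homogeneousComponent_zero] at hhF hp
      rw [eval_C] at hp
      have h3 : F = C (coeff 0 h₀)⁻¹ * (C (coeff 0 h₀) * F) := by
        rw [← mul_assoc, ← C_mul, inv_mul_cancel₀ hp, C_1, one_mul]
      rw [h3]
      exact Ideal.mul_mem_left _ _ hhF
    · -- one more form
      have hhJ : h ∉ J := fun hc => hp (hz₀J h hc)
      have hah : IsHom (𝔟 ⊔ Ideal.span {h}) :=
        Q1.sup_hom hbh (Q1.span_hom _ (by rintro _ rfl; exact ⟨p, hhh⟩))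
      have hno' : NoCh (𝔟 ⊔ Ideal.span {h}) (N - r) := by
        intro Q hQp hQm hQ0 _
        have hJQ : J ≤ Q 0 := hrad _ (hQp 0) (le_sup_left.trans hQ0)
        have hlt : J < Q 0 := by
          refine lt_of_le_of_ne hJQ fun heq => hhJ ?_
          rw [heq]
          exact hQ0 (Ideal.mem_sup_right (Ideal.mem_span_singleton_self h))
        have hd : DimGe (Q 0) (N - r + 1) := dim_chain hDr _ Q hQp hQm
        have hd' : DimGe J (N - r + 1 + 1) := (hDr N).1 _ _ _ (hPp _) (hQp 0) hlt hd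
        have := (hDr N).2 r _ P hPp hPm hd'
        omega
      obtain ⟨l', hl', hl'0⟩ := hLn N (N - r) _ hah hno'
      have hreg' := reg_part (by omega : (r + 1) + (N - r) = N + 1)
        (Fin.snoc (α := fun _ => Sx N) f h) l' (Fin.snoc (α := fun _ => ℕ) e p)
        (by
          intro i
          refine Fin.lastCases ?_ (fun i => ?_) i
          · rw [Fin.snoc_last]
            exact hp0
          · rw [Fin.snoc_castSucc]
            exact he i)
        (by
          intro i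
          refine Fin.lastCases ?_ (fun i => ?_) i
          · rw [Fin.snoc_last, Fin.snoc_last]
            exact hhh
          · rw [Fin.snoc_castSucc, Fin.snoc_castSucc]
            exact hf i)
        hl' (by
          intro y hy1 hy2
          refine hl'0 y ?_ hy2
          intro G hG
          have h1 : 𝔟 ⊔ Ideal.span {h} ≤ ptI y := by
            refine sup_le (Ideal.span_le.mpr ?_) (Ideal.span_le.mpr ?_)
            · rintro _ ⟨i, rfl⟩
              have := hy1 (Fin.castSucc i)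
              rw [Fin.snoc_castSucc] at this
              exact this
            · rintro _ rfl
              have := hy1 (Fin.last r)
              rw [Fin.snoc_last] at this
              exact this
          exact h1 hG) (Fin.last r) F
      have hset : (Fin.snoc (α := fun _ => Sx N) f h : Fin (r + 1) → Sx N) ''
          {i | i < Fin.last r} = Set.range f := by
        ext G
        constructor
        · rintro ⟨i, hi, rfl⟩
          have hi' : i < Fin.last r := hi
          have hi2 : i.1 < r := hi'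
          have hi3 : i = Fin.castSucc ⟨i.1, hi2⟩ := by
            ext
            rfl
          rw [hi3, Fin.snoc_castSucc]
          exact ⟨_, rfl⟩
        · rintro ⟨i, rfl⟩
          exact ⟨Fin.castSucc i, Fin.castSucc_lt_last i, Fin.snoc_castSucc _ _ _⟩
      rw [hset, Fin.snoc_last] at hreg'
      exact hreg' hhF
  have hbeq : 𝔟 = J := by
    refine le_antisymm hbJ' fun F hF => ?_
    rw [← sum_homogeneousComponent F]
    exact Ideal.sum_mem _ fun m _ =>
      hform m _ (homogeneousComponent_isHomogeneous m F) (hJh' F hF m)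
  rw [hbeq]
  exact hPp _

end Pool.Agent.Lib.MP_776403_ag.SD.UN
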