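import Pool.Agent.Lib.MP_776403_ag.SD.UN.Spec7

/-!
# THEOREM UN, part U7: `S_RL`, a space of power series and its leading coefficients (helper3)
-/

set_option autoImplicit false

open MvPolynomial

noncomputable section

namespace Pool.Agent.Lib.MP_776403_ag.SD.UN

namespace RLAux

variable {V A : Type} [AddCommGroup V] [Module ℂ V] [CommRing A] [Algebra ℂ A]

/-- The subspace of the elements whose power series has order at least `r`. -/
def U (Θ : V →ₗ[ℂ] PowerSeries A) (r : ℕ) : Submodule ℂ V where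
  carrier := {a | ∀ m : ℕ, m < r → PowerSeries.coeff m (Θ a) = 0}
  zero_mem' := by
    intro m _
    rw [map_zero, map_zero]
  add_mem' := by
    intro a b ha hb m hm
    rw [map_add, map_add, ha m hm, hb m hm, add_zero]
  smul_mem' := by
    intro c a ha m hm
    have h1 : Θ (c • a) = c • Θ a := Θ.map_smul c a
    have h2 : PowerSeries.coeff m (c • Θ a) = c • PowerSeries.coeff m (Θ a) := rfl
    rw [h1, h2, ha m hm, smul_zero]

theorem mem_U (Θ : V →ₗ[ℂ] PowerSeries A) (r : ℕ) (a : V) :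
    a ∈ U Θ r ↔ ∀ m : ℕ, m < r → PowerSeries.coeff m (Θ a) = 0 := Iff.rfl

theorem mem_U' (Θ : V →ₗ[ℂ] PowerSeries A) (r : ℕ) (a : V) :
    a ∈ U Θ r ↔ PowerSeries.X ^ r ∣ Θ a := by
  rw [mem_U, PowerSeries.X_pow_dvd_iff]

/-- The leading coefficient, as a linear map. -/
def ld (Θ : V →ₗ[ℂ] PowerSeries A) (Λ : ℕ → Submodule ℂ A)
    (h : ∀ (a : V) (r : ℕ), PowerSeries.X ^ r ∣ Θ a → PowerSeries.coeff r (Θ a) ∈ Λ r) (r : ℕ) :
    U Θ r →ₗ[ℂ] Λ r where
  toFun a := ⟨PowerSeries.coeff r (Θ a.1), h a.1 r ((mem_U' Θ r a.1).1 a.2)⟩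
  map_add' := by
    intro a b
    apply Subtype.ext
    show PowerSeries.coeff r (Θ (a.1 + b.1)) = PowerSeries.coeff r (Θ a.1) + PowerSeries.coeff r (Θ b.1)
    rw [map_add, map_add]
  map_smul' := by
    intro c a
    apply Subtype.ext
    show PowerSeries.coeff r (Θ (c • a.1)) = c • PowerSeries.coeff r (Θ a.1)
    have h1 : Θ (c • a.1) = c • Θ a.1 := Θ.map_smul c a.1
    rw [h1]
    rfl

theorem step [Module.Finite ℂ V] (Θ : V →ₗ[ℂ] PowerSeries A) (Λ : ℕ → Submodule ℂ A)
    (hf : ∀ r, Module.Finite ℂ (Λ r))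
    (h : ∀ (a : V) (r : ℕ), PowerSeries.X ^ r ∣ Θ a → PowerSeries.coeff r (Θ a) ∈ Λ r) (r : ℕ) :
    Module.finrank ℂ (U Θ r) ≤ Module.finrank ℂ (U Θ (r + 1)) + Module.finrank ℂ (Λ r) := by
  have := hf r
  have h1 := LinearMap.finrank_range_add_finrank_ker (ld Θ Λ h r)
  have h2 : Module.finrank ℂ (LinearMap.range (ld Θ Λ h r)) ≤ Module.finrank ℂ (Λ r) :=
    Submodule.finrank_le _
  have h3 : Module.finrank ℂ (LinearMap.ker (ld Θ Λ h r)) ≤ Module.finrank ℂ (U Θ (r + 1)) := by
    have hk : ∀ a : LinearMap.ker (ld Θ Λ h r), a.1.1 ∈ U Θ (r + 1) := by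
      intro a m hm
      rcases Nat.lt_succ_iff_lt_or_eq.1 hm with hm' | hm'
      · exact a.1.2 m hm'
      · have ha : ld Θ Λ h r a.1 = 0 := a.2
        have ha' := congrArg Subtype.val ha
        have ha'' : PowerSeries.coeff r (Θ a.1.1) = 0 := ha'
        rw [hm']
        exact ha''
    let φ : LinearMap.ker (ld Θ Λ h r) →ₗ[ℂ] U Θ (r + 1) :=
      { toFun := fun a => ⟨a.1.1, hk a⟩
        map_add' := fun _ _ => rfl
        map_smul' := fun _ _ => rfl }
    apply LinearMap.finrank_le_finrank_of_injective (f := φ)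
    intro a b hab
    have h4 : (φ a).1 = (φ b).1 := by rw [hab]
    exact Subtype.ext (Subtype.ext h4)
  omega

end RLAux

open RLAux

theorem tRL : S_RL := by
  intro V A _ _ _ _ _ Θ R Λ hinj hf hbot h
  have h0 : U Θ 0 = ⊤ := by
    rw [eq_top_iff]
    intro a _ m hm
    exact absurd hm (Nat.not_lt_zero m)
  have h1 : ∀ n : ℕ, Module.finrank ℂ V ≤
      Module.finrank ℂ (U Θ n) + ∑ r ∈ Finset.range n, Module.finrank ℂ (Λ r) := by
    intro n
    induction n with
    | zero => rw [h0, finrank_top, Finset.range_zero, Finset.sum_empty, add_zero]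
    | succ n ih =>
      have := step Θ Λ hf h n
      rw [Finset.sum_range_succ]
      omega
  have h2 : U Θ (R + 1) = ⊥ := by
    rw [eq_bot_iff]
    intro a ha
    have h3 : ∀ m : ℕ, ∀ k : ℕ, k < m → PowerSeries.coeff k (Θ a) = 0 := by
      intro m
      induction m with
      | zero => exact fun k hk => absurd hk (Nat.not_lt_zero k)
      | succ m ih =>
        intro k hk
        rcases Nat.lt_succ_iff_lt_or_eq.1 hk with hk' | hk'
        · exact ih k hk'
        · rw [hk']
          by_cases hm : m < R + 1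
          · exact ha m hm
          · have h4 := h a m ((mem_U' Θ m a).1 ih)
            rw [hbot m (by omega)] at h4
            exact (Submodule.mem_bot ℂ).1 h4
    have h5 : Θ a = 0 := by
      ext k
      rw [h3 (k + 1) k (Nat.lt_succ_self k), map_zero]
    have h6 : Θ a = Θ 0 := by rw [h5, map_zero]
    exact (Submodule.mem_bot ℂ).2 (hinj h6)
  have h7 := h1 (R + 1)
  rw [h2, finrank_bot, zero_add] at h7
  exact h7

end Pool.Agent.Lib.MP_776403_ag.SD.UN
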