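import Pool.Agent.Lib.MP_776403_ag.SD.UN.Spec7

/-!
# THEOREM UN, assembly of `S_U7`

`RegBound` from the lines through one point, from the statements of `SD/UN/Spec7.lean`.
-/

set_option autoImplicit false

open MvPolynomial

noncomputable section

namespace Pool.Agent.Lib.MP_776403_ag.SD.UN

open LI

theorem tU7Of : S_Loc → S_U7Of := by
  intro hLoc hTEx hRT hRA hRQ hRE hRI hRJ hRN hRL N c I d hP hH hS x lam g J hLC k r f hf hli
  have hx : x ∈ zer I := hLC.cn.xI
  have hx0 : x ≠ 0 := hLC.cn.x0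
  obtain ⟨L⟩ := hLoc N c I hS x hx hx0
  obtain ⟨hPar, hT⟩ := hRT N c I hP hH x L
  obtain ⟨T, hTp⟩ := hTEx N c x L.F L.B hPar
  obtain ⟨-, hT2, -, -⟩ := hT T hTp
  obtain ⟨P, Q, hRF, hinj⟩ := hRA N I hP hH x hx hx0 k r f hf hli
  have hQne : eval x Q ≠ 0 := (hRF 0).ne
  have hτ' : ∀ i, ∃ τ : PowerSeries (Ay L.B), T Q * τ = T (P i) := fun i =>
    (hRQ N c x L.F L.B T hTp (P i) Q hQne).1
  choose τ hτ using hτ'
  have hTQ : T Q ≠ 0 := (hRQ N c x L.F L.B T hTp 0 Q hQne).2.1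
  -- the linear map
  let Θ : (Fin r → ℂ) →ₗ[ℂ] PowerSeries (Ay L.B) := Fintype.linearCombination ℂ τ
  have hΘ : ∀ a : Fin r → ℂ, T Q * Θ a = T (∑ i, C (a i) * P i) := by
    intro a
    have h1 : Θ a = ∑ i, a i • τ i := Fintype.linearCombination_apply ℂ τ a
    rw [h1, Finset.mul_sum, map_sum]
    refine Finset.sum_congr rfl fun i _ => ?_
    rw [mul_smul_comm, hτ i, ← smul_eq_C_mul, map_smul]
  have hΘinj : Function.Injective Θ := by
    rw [injective_iff_map_eq_zero]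
    intro a ha
    refine hinj a (hT2 _ ?_)
    rw [← hΘ a, ha, mul_zero]
  -- the dimensions of the spaces of leading forms
  have hle : ∀ s : ℕ, Module.finrank ℂ (LFm L J k s) ≤
      ∑ α ∈ mu d s (s - k), Module.finrank ℂ (gr J (s - ∑ e, α e * (e.1.2.1 + 1))) := fun s =>
    (hRI N c k s I d hP hH hS x lam g J hLC L).2.trans (hRJ N c I d x lam g J hLC s (s - k))
  have hfin : ∀ s : ℕ, Module.Finite ℂ (LFm L J k s) := fun s =>
    (hRI N c k s I d hP hH hS x lam g J hLC L).1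
  obtain ⟨hN1, hN2⟩ := hRN N c d hLC.one_le k
  have hbot : ∀ s : ℕ, 2 * k < s → LFm L J k s = ⊥ := by
    intro s hs
    have h0 : Module.finrank ℂ (LFm L J k s) = 0 := by
      have := hle s
      rw [hN1 s hs, Finset.sum_empty] at this
      omega
    have := hfin s
    exact Submodule.finrank_eq_zero.mp h0
  have hmain : Module.finrank ℂ (Fin r → ℂ) ≤
      ∑ s ∈ Finset.range (2 * k + 1), Module.finrank ℂ (LFm L J k s) :=
    hRL (Fin r → ℂ) (Ay L.B) Θ (2 * k) (fun s => LFm L J k s) hΘinj hfin hbot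
      fun a s hs => hRE N c k I d hP hH hS x lam g J hLC L T hTp _ Q (hRF a) (Θ a) (hΘ a) s hs
  rw [Module.finrank_fin_fun] at hmain
  calc (r : ℤ) ≤ ((∑ s ∈ Finset.range (2 * k + 1),
        Module.finrank ℂ (LFm L J k s) : ℕ) : ℤ) := by exact_mod_cast hmain
    _ ≤ ((∑ s ∈ Finset.range (2 * k + 1), ∑ α ∈ mu d s (s - k),
        Module.finrank ℂ (gr J (s - ∑ e, α e * (e.1.2.1 + 1))) : ℕ) : ℤ) := by
        exact_mod_cast Finset.sum_le_sum fun s _ => hle s
    _ = ∑ s ∈ Finset.range (2 * k + 1), ∑ α ∈ mu d s (s - k),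
        hcG (fun o : Option (Ex d) => o.elim 1 fun e => e.2.1 + 1) N
          (s - ∑ e, α e * (e.1.2.1 + 1)) := by
        push_cast
        refine Finset.sum_congr rfl fun s _ => Finset.sum_congr rfl fun α _ => ?_
        exact hLC.hf _
    _ = hci d N k := hN2

end Pool.Agent.Lib.MP_776403_ag.SD.UN
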