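import Pool.Agent.Lib.MP_776403_ag.SD.UN.C1
import Pool.Agent.Lib.MP_776403_ag.SD.U.A
import Pool.Agent.Lib.MP_776403_ag.SD.U.Ari
import Pool.Agent.Lib.MP_776403_ag.SD.U.Base
import Pool.Agent.Lib.MP_776403_ag.SD.U.Ch
import Pool.Agent.Lib.MP_776403_ag.SD.U.Cov
import Pool.Agent.Lib.MP_776403_ag.SD.U.Cut
import Pool.Agent.Lib.MP_776403_ag.SD.U.Ex
import Pool.Agent.Lib.MP_776403_ag.SD.U.FB
import Pool.Agent.Lib.MP_776403_ag.SD.U.FE2
import Pool.Agent.Lib.MP_776403_ag.SD.U.Fun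
import Pool.Agent.Lib.MP_776403_ag.SD.U.Gp
import Pool.Agent.Lib.MP_776403_ag.SD.U.Gro
import Pool.Agent.Lib.MP_776403_ag.SD.U.KrR
import Pool.Agent.Lib.MP_776403_ag.SD.U.Lf
import Pool.Agent.Lib.MP_776403_ag.SD.U.NW
import Pool.Agent.Lib.MP_776403_ag.SD.U.NW1
import Pool.Agent.Lib.MP_776403_ag.SD.U.NWg
import Pool.Agent.Lib.MP_776403_ag.SD.U.Pa
import Pool.Agent.Lib.MP_776403_ag.SD.U.Psi
import Pool.Agent.Lib.MP_776403_ag.SD.U.QD
import Pool.Agent.Lib.MP_776403_ag.SD.U.QN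
import Pool.Agent.Lib.MP_776403_ag.SD.U.Rank
import Pool.Agent.Lib.MP_776403_ag.SD.U.St
import Pool.Agent.Lib.MP_776403_ag.SD.U.TL
import Pool.Agent.Lib.MP_776403_ag.SD.U.Up
import Pool.Agent.Lib.MP_776403_ag.SD.U.V3
import Pool.Agent.Lib.MP_776403_ag.SD.U.VK
import Pool.Agent.Lib.MP_776403_ag.SD.U.VL
import Pool.Agent.Lib.MP_776403_ag.SD.U.VT
import Pool.Agent.Lib.MP_776403_ag.SD.U.WGC
import Pool.Agent.Lib.MP_776403_ag.SD.U.Z
import Pool.Agent.Lib.MP_776403_ag.SD.U.Zak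
import Pool.Agent.Lib.MP_776403_ag.SD.P2.TS
import Pool.Agent.Lib.MP_776403_ag.SD.UN.FCI
import Pool.Agent.Lib.MP_776403_ag.SD.UN.FDe
import Pool.Agent.Lib.MP_776403_ag.SD.UN.FDr
import Pool.Agent.Lib.MP_776403_ag.SD.UN.FHc
import Pool.Agent.Lib.MP_776403_ag.SD.UN.FLn
import Pool.Agent.Lib.MP_776403_ag.SD.UN.FRg
import Pool.Agent.Lib.MP_776403_ag.SD.UN.FRl
import Pool.Agent.Lib.MP_776403_ag.SD.UN.FU6a
import Pool.Agent.Lib.MP_776403_ag.SD.UN.RA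
import Pool.Agent.Lib.MP_776403_ag.SD.UN.RD
import Pool.Agent.Lib.MP_776403_ag.SD.UN.RE
import Pool.Agent.Lib.MP_776403_ag.SD.UN.RF1
import Pool.Agent.Lib.MP_776403_ag.SD.UN.RI
import Pool.Agent.Lib.MP_776403_ag.SD.UN.RJ
import Pool.Agent.Lib.MP_776403_ag.SD.UN.RL
import Pool.Agent.Lib.MP_776403_ag.SD.UN.RN
import Pool.Agent.Lib.MP_776403_ag.SD.UN.RO
import Pool.Agent.Lib.MP_776403_ag.SD.UN.RO1
import Pool.Agent.Lib.MP_776403_ag.SD.UN.RO2
import Pool.Agent.Lib.MP_776403_ag.SD.UN.RQ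
import Pool.Agent.Lib.MP_776403_ag.SD.UN.RR
import Pool.Agent.Lib.MP_776403_ag.SD.UN.RT
import Pool.Agent.Lib.MP_776403_ag.SD.UN.RZ
import Pool.Agent.Lib.MP_776403_ag.SD.UN.TCh
import Pool.Agent.Lib.MP_776403_ag.SD.UN.TEx
import Pool.Agent.Lib.MP_776403_ag.SD.UN.TKer
import Pool.Agent.Lib.MP_776403_ag.SD.UN.TUn
import Pool.Agent.Lib.MP_776403_ag.SD.UN.U5
import Pool.Agent.Lib.MP_776403_ag.SD.UN.U5a
import Pool.Agent.Lib.MP_776403_ag.SD.UN.U5b
import Pool.Agent.Lib.MP_776403_ag.SD.UN.U5c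
import Pool.Agent.Lib.MP_776403_ag.SD.UN.U5d
import Pool.Agent.Lib.MP_776403_ag.SD.UN.U6b
import Pool.Agent.Lib.MP_776403_ag.SD.UN.U6v
import Pool.Agent.Lib.MP_776403_ag.SD.UN.U7

/-!
# THEOREM UN: `n ≥ 2 deg X + 1` implies complete intersection.  Final assembly
-/

set_option autoImplicit false

open MvPolynomial

noncomputable section

namespace Pool.Agent.Lib.MP_776403_ag.SD.U

theorem uZak : S_Zak := tZak tKrR

theorem uPsi : S_Psi := tPsi tWGC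

theorem uCut : S_Cut := tCut tKrR tWGC tFB

theorem uBase : S_Base := tBase uCut uPsi uZak

theorem uQN : S_QN := tQN tWGC tFE2 tFun

theorem uNW : S_NW := tNW uQN (tNWg tNW1) tGp tWGC

theorem uTL : S_TL := tTL uBase uNW

theorem uLf : S_Lf := tLf tWGC tFB uPsi

theorem uUp : S_Up := tUp tFB uPsi uLf

theorem uEx : S_Ex := tEx tFB uNW

theorem uSt : S_St := tSt tFB uCut uEx uUp

theorem uCh : S_Ch := tCh uTL uBase uSt

theorem uVT : S_VT := tVT tVL tVK tFB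

theorem uV3 : S_V3 := tV3 uCh uVT

theorem uA : S_A := tA (tCov (tRank tGro)) (tQD tGp) (tPa tGro)

end Pool.Agent.Lib.MP_776403_ag.SD.U

namespace Pool.Agent.Lib.MP_776403_ag.SD.UN

theorem cRT : S_RT := tRT tTKer tTUn tTCh eLinB

theorem cRF1 : S_RF1 := tRF1 mLoc mHom mCr eCN P2.tTS tD6p

theorem cRO : S_RO := tRO P2.tTS mHom mCr cRT tRQ tRD (tRR eLinB) cRF1 tRO1 tRO2

theorem cRE : S_RE := tRE cRT tRQ cRO

theorem cRI : S_RI := tRI (tRZ tNull) tNull eCN P2.tTS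

theorem cU7 : S_U7 := tU7Of mLoc tTEx cRT (tRA tNull) tRQ cRE cRI tRJ tRN tRL

theorem c5a : S_5a := t5a mHom mCr eLinB

theorem cU5 : S_U5 :=
  tU5Of (t5c mSecVal eCN) (t5d mLoc mHom eLinB mLinS eMapL (eTh1 mHom eLinB) c5a (t5b mLoc c5a))

theorem cU6a : S_U6a := tFU6a tFDe

theorem cFCI : S_FCI := tFCI (tFRg tFRl) tFDr tFLn tFHc

theorem cU6v : S_U6v := tU6v tU6b cFCI

variable {N : ℕ}

/-- A point where `g` does not vanish. -/
theorem exists_x {I : Ideal (Sx N)} (hI : I.IsPrime) (hIh : IsHom I)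
    (hnd : ∀ F ∈ I, F.IsHomogeneous 1 → F = 0) {g : Sx N} (hg : g ∉ I) :
    ∃ x ∈ zer I, x ≠ 0 ∧ eval x g ≠ 0 := by
  by_contra hcon
  push Not at hcon
  have hX : (X 0 : Sx N) ∉ I := fun h => X_ne_zero (R := ℂ) (0 : Fin (N + 1))
    (hnd _ h (isHomogeneous_X ℂ 0))
  have h := (tNull N I hI hIh).1 (g * X 0) (fun z hz => by
    by_cases hz0 : z = 0
    · rw [hz0]; simp
    · rw [map_mul, hcon z hz hz0, zero_mul])
  rcases hI.mem_or_mem h with h1 | h1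
  · exact hg h1
  · exact hX h1

/-- The cut cone of lines through a point. -/
theorem exists_Fml {c a : ℕ} {I : Ideal (Sx N)} {d : Fin c → ℕ} {q : ℕ → Polynomial ℤ}
    (hU : U.UDat c a I d q) {x : Vx N} (hx : x ∈ zer I) (hx0 : x ≠ 0) :
    ∃ J₀ : Ideal (Sx N), U.Fml I J₀ c a x ∧ DimGe J₀ (N - a) := by
  obtain ⟨i0, hi0⟩ : ∃ i, x i ≠ 0 := by
    by_contra hno
    push Not at hno
    exact hx0 (funext hno)
  have haN : a ≤ N := by
    have := hU.large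
    omega
  set lam : Sx N := C (x i0)⁻¹ * X i0 with hlam
  have hl1 : lam.IsHomogeneous 1 := by
    have := (isHomogeneous_C (Fin (N + 1)) (x i0)⁻¹).mul (isHomogeneous_X ℂ i0)
    simpa using this
  have hl2 : eval x lam = 1 := by
    rw [hlam, map_mul, eval_C, eval_X, inv_mul_cancel₀ hi0]
  obtain ⟨P, hPp, hPh, hIP, hdim, hstab, hlines, hdeg⟩ := hU.cone x hx hx0
  have hdim' : DimGe P (N - a + 1) := tMono _ P _ _ (by omega) hdim
  obtain ⟨J₀, hJp, hJh, hPJ, hlJ, hJd⟩ :=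
    wCut tNull tTB N (N - a) P x lam hPp hPh hl1 hl2 hstab hdim'
  have hIJ : I ≤ J₀ := hIP.trans hPJ
  have hzJ : ∀ z ∈ zer J₀, z ∈ zer P := fun z hz F hF => hz F (hPJ hF)
  refine ⟨J₀, ⟨hJp, hJh, hIJ, hx, hx0, ⟨lam, hl1, hl2, hlJ⟩, fun z hz => hlines z (hzJ z hz),
      fun z hz hz0 => hdeg z (hzJ z hz) ?_⟩, hJd⟩
  rw [LinearIndependent.pair_iff]
  intro s t hst
  have h3 : ∀ w : Vx N, eval w lam = (x i0)⁻¹ * w i0 := fun w => by
    rw [hlam, map_mul, eval_C, eval_X]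
  have h2 : eval (s • x + t • z) lam = s := by
    have h4 := hz lam hlJ
    rw [h3] at h4
    have h5 : eval x lam = 1 := hl2
    rw [h3] at h5
    rw [h3]
    simp only [Pi.add_apply, Pi.smul_apply, smul_eq_mul]
    linear_combination s * h5 + t * h4
  rw [hst] at h2
  have hs0 : s = 0 := by
    rw [← h2, h3]
    simp
  refine ⟨hs0, ?_⟩
  rw [hs0, zero_smul, zero_add] at hst
  exact (smul_eq_zero.mp hst).resolve_right hz0

/-- THEOREM UN for `c ≥ 2`, with `U.HasDeg`. -/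
theorem cUN2 (N c D : ℕ) (I : Ideal (Sx N)) (hc : 2 ≤ c) (hN : 2 * D + c + 1 ≤ N)
    (hI : I.IsPrime) (hIh : IsHom I) (hnd : ∀ F ∈ I, F.IsHomogeneous 1 → F = 0)
    (hX : Smooth I c) (hD : U.HasDeg I (N - c) D) :
    ∃ (d : Fin c → ℕ) (G : Fin c → Sx N), (∀ i, 2 ≤ d i ∧ (G i).IsHomogeneous (d i)) ∧
      I = Ideal.span (Set.range G) := by
  obtain ⟨a, d, q, hU, hprod⟩ := U.uA N c D I hc hN hI hIh hnd hX hD
  have hsum := hU.sum
  obtain ⟨g, hg, hfree⟩ := cU6a N c I hI hIh hX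
  obtain ⟨x, hx, hx0, hgx⟩ := exists_x hI hIh hnd hg
  -- all `d i ≥ 2`
  have hlow : ∀ i, 2 ≤ d i := by
    obtain ⟨J₀, hF, hJ⟩ := exists_Fml hU hx hx0
    obtain ⟨L⟩ := eLoc N c I hX x hx hx0
    have hl := hU.large
    exact U.uTL N c a I J₀ d q x hU hF (tMono _ J₀ _ _ (by omega) hJ) ⟨L⟩
  have hbound : 2 * a + c + 1 + ∑ i, ∑ j, (d j - d i) ≤ N := by
    have h1 := U.tAri c d hc hlow
    omega
  obtain ⟨-, hV⟩ := U.uV3 N c a I d q hU hbound
  obtain ⟨lam, ξ, J, hT, hdeg⟩ := hV x hx hx0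
  -- a point of the family
  have hcn := hT.cn
  have hline : ∀ z ∈ zer J, z ≠ 0 → IsLine I x z := by
    intro z hz hz0
    refine ⟨?_, hcn.line z hz⟩
    rw [LinearIndependent.pair_iff]
    intro s t hst
    have h1 : LI.dp lam z = 0 := by
      rw [← U.V3Aux.eval_lf]
      exact hz _ hcn.lamJ
    have h2 : LI.dp lam (s • x + t • z) = s := by
      have h3 : LI.dp lam (s • x + t • z) = s * LI.dp lam x + t * LI.dp lam z := by
        simp only [LI.dp, Pi.add_apply, Pi.smul_apply, smul_eq_mul, Finset.mul_sum,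
          ← Finset.sum_add_distrib]
        exact Finset.sum_congr rfl fun i _ => by ring
      rw [h3, h1, hcn.lamx]
      ring
    rw [hst] at h2
    have hs0 : s = 0 := by
      rw [← h2]
      simp [LI.dp]
    refine ⟨hs0, ?_⟩
    rw [hs0, zero_smul, zero_add] at hst
    exact (smul_eq_zero.mp hst).resolve_right hz0
  obtain ⟨z₀, hz₀, hz₀ind⟩ := GAcmAux.exists_indep tNull J hcn.prime hcn.hom
    (tMono _ J _ _ (by omega) hT.dim) x hx0
  have hz₀0 : z₀ ≠ 0 := by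
    rintro rfl
    exact hz₀ind.ne_zero 1 (by simp)
  -- the equations
  have hξ : ∀ i, ξ i ∈ CN I x := by
    intro i
    obtain ⟨s, hTy, hs⟩ := hT.ty z₀ hz₀ hz₀0
    have h1 := (mSecVal N c I hI hIh hX x z₀ (hline z₀ hz₀ hz₀0) (d i) (s i) (hTy.sec i).1).1
      (hTy.sec i) 1 0 (Or.inl one_ne_zero)
    rw [one_smul, zero_smul, add_zero,
      U5cAux.hval_one (s i) (d i) (hTy.one_le i) (hTy.sec i).1 0] at h1
    have h2 : ξ i = fun k => (s i k).eval 0 := by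
      funext k
      rw [← hs i k, Polynomial.coeff_zero_eq_eval_zero]
    rw [h2]
    exact h1
  have hF : ∀ i, ∃ F ∈ I, grad F x = ξ i := by
    intro i
    obtain ⟨F, hFI, hFx⟩ := (mPerp N c I hI hIh hX x hx hx0).2.2.1 (ξ i) (hξ i)
    exact ⟨F, hFI, hFx.symm⟩
  choose F hFI hFx using hF
  have hone : ∀ i, 1 ≤ d i := fun i => le_trans (by norm_num) (hlow i)
  obtain ⟨J', hJ'⟩ := cU6v N c I d hI hIh hX hone x lam ξ J hT hdeg
    (fun z hz => hfree x z hz hgx) F (fun i => ⟨hFI i, hFx i⟩) (fun z hz hz0 => by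
      obtain ⟨s, hTy, hs⟩ := hT.ty z hz hz0
      exact cU5 N c I d hI hIh hX x z (hline z hz hz0) s hTy F
        (fun i => ⟨hFI i, fun l => by rw [hFx i, hs i l]⟩))
  have hreg : RegBound I d := cU7 N c I d hI hIh hX x lam _ J' hJ'
  obtain ⟨G, hG, hIG⟩ := U.tZ N c a I d q hU hlow hreg
  exact ⟨d, G, fun i => ⟨hlow i, hG i⟩, hIG⟩

/-- THEOREM UN with `U.HasDeg`. -/
theorem cUNU (N n c D : ℕ) (I : Ideal (Sx N)) (hNn : N = n + c) (hc : 1 ≤ c)
    (hI : I.IsPrime) (hIh : IsHom I) (hnd : ∀ F ∈ I, F.IsHomogeneous 1 → F = 0)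
    (hX : Smooth I c) (hD : U.HasDeg I n D) (hn : 2 * D + 1 ≤ n) :
    ∃ (d : Fin c → ℕ) (G : Fin c → Sx N), (∀ i, 2 ≤ d i ∧ (G i).IsHomogeneous (d i)) ∧
      I = Ideal.span (Set.range G) := by
  rcases Nat.lt_or_ge c 2 with h | h
  · obtain rfl : c = 1 := by omega
    exact tC1 N I hI hIh hnd hX
  · refine cUN2 N c D I h (by omega) hI hIh hnd hX ?_
    rw [show N - c = n by omega]
    exact hD

/-- THEOREM UN. -/
theorem cUN : S_UN := by
  intro N n c D I hNn hc hI hIh hnd hX hD hn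
  refine cUNU N n c D I hNn hc hI hIh hnd hX ?_ hn
  have h1 : Filter.Tendsto (fun m : ℕ => (n.factorial : ℝ) *
      ((Module.finrank ℂ (gr I m) : ℝ) / (m : ℝ) ^ n)) Filter.atTop
      (nhds ((n.factorial : ℝ) * ((D : ℝ) / (n.factorial : ℝ)))) :=
    Filter.Tendsto.const_mul _ hD
  have h2 : (n.factorial : ℝ) * ((D : ℝ) / (n.factorial : ℝ)) = D := by
    have : (n.factorial : ℝ) ≠ 0 := by exact_mod_cast n.factorial_ne_zero
    field_simp
  rw [h2] at h1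
  refine h1.congr fun m => ?_
  ring

end Pool.Agent.Lib.MP_776403_ag.SD.UN
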