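import Pool.Agent.Lib.MP_776403_ag.SD.UN.Spec
import Pool.Agent.Lib.MP_776403_ag.SD.Main
import Pool.Agent.Lib.MP_410da7_agP.Reg
import Pool.Agent.Lib.RegularUFD.Domain

/-!
# THEOREM UN, parts [F] (free lines) and [G] (the cone of lines is a complete intersection)

Statements with complete proofs in the docstrings; `S_Fxy` is proved in `SD/UN/Fxy.lean` (theorem
`SD.UN.tFxy`).  A module may use closed forms of old statements (`mKrull : S_Krull`, `mMeet : S_Meet`,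
`tNull : S_Null`, `tTB : S_TB`, `mLinS : S_LinS`, `eLinB : S_LinB`, `eCN : S_CN`, `mLoc : S_Loc`, `mCr`,
`tMono`, `tD2a : S_D2a`, `tD6p : S_D6'` in `SD/Main.lean`; `Pool.Agent.PC.stmtReg`, `Pool.Agent.PC.stmtRlo`:
`n` forms of positive degree in `n` variables with only the zero `0` are a regular sequence;
`Pool.Agent.Lib.RegularUFD.isDomain_of_regular`, `quot_regular`), and the other statements of this
file as hypotheses.
-/

set_option autoImplicit false

open MvPolynomial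

noncomputable section

namespace Pool.Agent.Lib.MP_776403_ag.SD.UN

open LI

/-- The coordinate ring of the pairs `(u, v)` of points. -/
abbrev Sxx (N : ℕ) : Type := MvPolynomial (Fin (N + 1) ⊕ Fin (N + 1)) ℂ

/-! ## [G] commutative algebra -/

/-- (FRl) Part of a regular system of parameters of a regular local ring generates prime ideals.

PROOF.  Induction on `r`, all `A`.  `m` = the maximal ideal.  `r = 0`: `A` is a domain
(`RegularUFD.isDomain_of_regular`): `P = fun _ => ⊥`, `span (range x) = span ∅ = ⊥`.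
Step `r + 1`: `x_0 ∉ m ^ 2` (the hypothesis for `a = Pi.single 0 1`: otherwise `1 ∈ m`), so
`B = A / (x_0)` is regular local (`RegularUFD.quot_regular`), and `y_i = mk (x_(i+1))`, `i : Fin r`, satisfies the
hypothesis: the maximal ideal of `B` is the image of `m` (`IsLocalRing` quotient; `comap` of a maximal ideal
along the surjective `mk` is maximal, so it is `m`); if `∑ b_i y_i ∈ m_B ^ 2 = (m ^ 2).map mk`, lift
`b_i = mk (a_i)`: `∑ a_i x_(i+1) ∈ m ^ 2 ⊔ span {x_0}`, so `a' x_0 + ∑ a_i x_(i+1) ∈ m ^ 2` for some `a'`, and the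
hypothesis (`Fin.cons a' a`, `Fin.sum_univ_succ`) gives `a_i ∈ m`, `b_i ∈ m_B`.  Induction: `P' : Fin (r + 1) →
Ideal B`.  `P = Fin.cons ⊥ (fun i => (P' i).comap mk)`: `⊥ < (P' 0).comap mk` as `0 ≠ x_0` is in it (`x_0 ∉ m ^ 2`);
`comap` along a surjective map is strictly monotone (`Ideal.comap_injective_of_surjective`); the last one is
`(span (range y)).comap mk = span (range x)`: `span (range y) = (span (range x)).map mk` (`mk x_0 = 0`),
`Ideal.comap_map_of_surjective`, `comap mk ⊥ = span {x_0} ≤ span (range x)`. -/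
def S_FRl : Prop :=
  ∀ (r : ℕ) (A : Type) [CommRing A] [IsRegularLocalRing A] (x : Fin r → A),
    (∀ i, x i ∈ IsLocalRing.maximalIdeal A) →
    (∀ a : Fin r → A, ∑ i, a i * x i ∈ IsLocalRing.maximalIdeal A ^ 2 →
      ∀ i, a i ∈ IsLocalRing.maximalIdeal A) →
    ∃ P : Fin (r + 1) → Ideal A, (∀ i, (P i).IsPrime) ∧ StrictMono P ∧
      P (Fin.last r) = Ideal.span (Set.range x)

/-- (FRg) Polynomials with independent gradients at a common zero `z`.

PROOF (S_FRl).  `A = Localization.AtPrime (ptI z)` (`ptI z` is prime: kernel of `eval z`), regular local by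
`MvPolynomial.isRegularRing_of_isRegularRing`, `IsRegularRing.isRegularLocalRing_localization` (compare
`MP_410da7_agP/Reg.lean`).  `x_i = algebraMap (f i) ∈ m` (`Localization.AtPrime.map_eq_maximalIdeal`).
Hypothesis of `S_FRl`: let `∑ a_i x_i ∈ m ^ 2`.  Common denominator
(`IsLocalization.exist_integer_multiples_of_finset`, or `IsLocalization.exists_integer_multiple` for all `i` in
`Finset.univ`): `a_i * algebraMap s = algebraMap (g i)`, `s ∉ ptI z`, a unit of `A`.  So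
`algebraMap (∑ g_i f_i) ∈ m ^ 2 = ((ptI z) ^ 2).map algebraMap` (`Ideal.map_pow`), so there is `u ∉ ptI z` with
`u ∑ g_i f_i ∈ (ptI z) ^ 2` (`IsLocalization.algebraMap_mem_map_algebraMap_iff`, as in `Reg.lean`).  Elements of
`(ptI z) ^ 2` have the gradient `0` at `z` (`Submodule.mul_induction_on` / `pow_two`; Leibniz).  The
gradient of `u ∑ g_i f_i` at `z` is `∑ u(z) g_i(z) grad (f i) z` (as `f i (z) = 0`): so `u(z) g_i(z) = 0`,
`g_i ∈ ptI z`, `a_i ∈ m`.  `S_FRl`: `P'`.  `P i = (P' i).comap algebraMap`: prime, strictly monotone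
(`IsLocalization.map_comap`: `comap` is injective), `P (last) ≤ ptI z` (`P' ≤ m`,
`IsLocalRing.le_maximalIdeal`; `comap m = ptI z`, `Localization.AtPrime.comap_maximalIdeal`).  Last claim:
`F ∈ P (last)`: `algebraMap F ∈ span (range x) = (span (range f)).map algebraMap`, and the same lemma. -/
def S_FRg : Prop :=
  ∀ (N r : ℕ) (f : Fin r → Sx N) (z : Vx N), (∀ i, eval z (f i) = 0) →
    LinearIndependent ℂ (fun i => grad (f i) z) →
    ∃ P : Fin (r + 1) → Ideal (Sx N), (∀ i, (P i).IsPrime) ∧ StrictMono P ∧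
      P (Fin.last r) ≤ ptI z ∧ (∀ i, f i ∈ P (Fin.last r)) ∧
      ∀ F ∈ P (Fin.last r), ∃ h : Sx N, eval z h ≠ 0 ∧ h * F ∈ Ideal.span (Set.range f)

/-- (FDr) The dimension drops strictly.

PROOF.  First claim: `F ∈ Q`, `F ∉ P`; `i : Fin D → Fin (N + 1)` with `mk_Q (X (i k))` algebraically independent.
`R = S / P`, a domain, `x_k = mk_P (X (i k)) ∈ R`: algebraically independent, as `R → S / Q` maps them to
independent elements (`AlgebraicIndependent.of_aeval`/`of_ringHom…`; or directly: `q(X_i) ∈ P ≤ Q`).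
CLAIM: the family `Option (Fin D) → R`, `none ↦ F̄`, `some k ↦ x_k`, is algebraically independent
(`AlgebraicIndependent.option_iff_transcendental` or a direct proof).  Let `p = ∑_j p_j T^j` be a polynomial
with coefficients in `A = Algebra.adjoin ℂ (range x)`, `p ≠ 0`, `p(F̄) = 0`; as `F̄ ≠ 0` and `R` is a domain we may
divide by a power of `T` and assume `p_0 ≠ 0`.  `p_0 = - F̄ ∑_(j ≥ 1) p_j F̄^(j-1)` is in the image of `Q`;
`p_0 = q(x)` for a polynomial `q`, so `q(X_i) ∈ Q`, `q = 0` by the independence modulo `Q`, `p_0 = 0`: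
contradiction.  `S_TB` (`tTB`, the family `mk ∘ X`, `adjoin = ⊤`; compare `tFrac`): `DimGe P (D + 1)`.
Second claim: induction on `k` (`Fin.init P`: from `DimGe (P (last)) D` and `P (castSucc last) < P last` get
`DimGe (P (castSucc last)) (D + 1)`); `k = 0`: an algebraically independent family `Fin D → Fin (N + 1) → R` is
injective (`AlgebraicIndependent.injective`), so `D ≤ N + 1`. -/
def S_FDr : Prop :=
  ∀ N : ℕ, (∀ (D : ℕ) (P Q : Ideal (Sx N)), P.IsPrime → Q.IsPrime → P < Q → DimGe Q D →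
      DimGe P (D + 1)) ∧
    ∀ (k D : ℕ) (P : Fin (k + 1) → Ideal (Sx N)), (∀ i, (P i).IsPrime) → StrictMono P →
      DimGe (P (Fin.last k)) D → D + k ≤ N + 1

/-- There is no chain of `D + 2` primes between `𝔞` and the ideal of the origin: `dim S / 𝔞 ≤ D` (at the
origin). -/
def NoCh {N : ℕ} (𝔞 : Ideal (Sx N)) (D : ℕ) : Prop :=
  ∀ P : Fin (D + 2) → Ideal (Sx N), (∀ i, (P i).IsPrime) → StrictMono P → 𝔞 ≤ P 0 →
    P (Fin.last (D + 1)) ≤ ptI 0 → False

/-- (FLn) Linear forms.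

PROOF.  Induction on `D`, all `𝔞`.  `D = 0`: let `y ∈ zer 𝔞`, `y ≠ 0`.  `Q = {F | ∀ t : ℂ, eval (t • y) F = 0}` is the
kernel of the ring homomorphism `S → ℂ[T]`, `X_i ↦ C (y_i) T`: prime; `Q ≤ ptI 0` (`t = 0`), `Q ≠ ptI 0` (`y_j ≠ 0`:
`X_j ∈ ptI 0`, `X_j ∉ Q`); `𝔞 ≤ Q`: for `F ∈ 𝔞` the components `F_m` are in `𝔞`, `F(t y) = ∑ t^m F_m(y) = 0`.  The chain
`![Q, ptI 0]` contradicts `NoCh 𝔞 0`.
Step `D + 1`: `T` = the finite set of the minimal primes `p` of `𝔞` with `p ≤ ptI 0`, `p ≠ ptI 0`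
(`Ideal.finite_minimalPrimes_of_isNoetherianRing`).  For `p ∈ T` the subspace `W_p = {a | lf a ∈ p}` of `Vx N` is
proper (if all `X_j ∈ p` then `ptI 0 ≤ p`: every polynomial without constant term is in `span (range X)`).  So there
is `a` outside all `W_p` (`Subspace.biUnion_ne_univ_of_top_notMem`, used in `SD/L/Prim.lean`).  `l = lf a`
(a form of degree `1`), `𝔞' = 𝔞 ⊔ span {l}`: `IsHom` (components of `a' * l`).  `NoCh 𝔞' D`: a chain `P` of `D + 2`
primes; `p ≤ P 0` a minimal prime of `𝔞` (`Ideal.exists_minimalPrimes_le`); `p ≤ P 0 < P (last) ≤ ptI 0`, so `p ∈ T`,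
`l ∈ P 0`, `l ∉ p`, `p < P 0`: `Fin.cons p P` contradicts `NoCh 𝔞 (D + 1)`.  Induction: `l'`; `Fin.cons l l'`. -/
def S_FLn : Prop :=
  ∀ (N D : ℕ) (𝔞 : Ideal (Sx N)), IsHom 𝔞 → NoCh 𝔞 D →
    ∃ l : Fin D → Sx N, (∀ i, (l i).IsHomogeneous 1) ∧
      ∀ y ∈ zer 𝔞, (∀ i, eval y (l i) = 0) → y = 0

/-- (FHc) Hilbert function of a regular sequence of forms.

PROOF.  Induction on `r`.  `r = 0`: `span (range f) = ⊥`, `finrank (gr ⊥ k) = binom (N + k) N`
(`S_KosI` = `tKosI` in `SD/KosI.lean` with `ι = Fin 0`: the image of `K1` is zero), `hcG e N k =` the term `A = ∅`.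
Step `r + 1`: `𝔟 = span (range (f ∘ castSucc)) = span (f '' {i | i < last})` (`IsHom 𝔟`), `g = f (last r)`,
`δ = e (last r)`, `𝔟' = span (range f) = 𝔟 ⊔ span {g}`.  (1) for `k < δ`: `gr 𝔟 k ≅ gr 𝔟' k` (a form of degree `k` in
`𝔟'` is in `𝔟`: components).  (2) for `k ≥ δ`: `0 → gr 𝔟 (k - δ) → gr 𝔟 k → gr 𝔟' k → 0` (multiplication by `g`,
injective by `hreg` for `j = last`; kernel of the second map: a form `F` of degree `k` in `𝔟'` is `b + a g`, take
components of degree `k`: `b ∈ 𝔟`, `a` a form of degree `k - δ`), so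
`finrank (gr 𝔟' k) = finrank (gr 𝔟 k) - finrank (gr 𝔟 (k - δ))`.  [Short: with `V_k` = forms of degree `k`,
`U_k = V_k ∩ 𝔟`, `U'_k = V_k ∩ 𝔟'`: `finrank (gr 𝔟 k) = dim V_k - dim U_k` (rank-nullity), and the linear map
`V_(k-δ) → V_k / U_k`, `a ↦ a g`, has the kernel `U_(k-δ)` and the image `U'_k / U_k`.]  (3) the same recursion for
`hcG`: `hcG e N k = hcG (e ∘ castSucc) N k - (if δ ≤ k then hcG (e ∘ castSucc) N (k - δ) else 0)`: split the sum over
`A : Finset (Fin (r + 1))` into `last ∉ A`, `last ∈ A` (compare `hci` in `SD/L/Hci.lean`).  The hypothesis `hreg` for the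
first `r` forms follows from the one for `r + 1` (images under `castSucc`). -/
def S_FHc : Prop :=
  ∀ (N r : ℕ) (f : Fin r → Sx N) (e : Fin r → ℕ), (∀ i, 1 ≤ e i) →
    (∀ i, (f i).IsHomogeneous (e i)) →
    (∀ (j : Fin r) (z : Sx N), f j * z ∈ Ideal.span (f '' {i | i < j}) →
      z ∈ Ideal.span (f '' {i | i < j})) →
    ∀ k, (Module.finrank ℂ (gr (Ideal.span (Set.range f)) k) : ℤ) = hcG e N k

/-- (FCI) A GENERAL THEOREM: forms `f_1, …, f_r` in a homogeneous prime `J₀` of dimension `≥ r + 1`, with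
independent gradients at all points of `J₀`, generate a prime ideal, with the Hilbert function of a
complete intersection.

PROOF (S_FRg, S_FDr, S_FLn, S_FHc, `mKrull`, `mMeet`, `tNull`, `tTB`, `stmtReg stmtRlo`).  `𝔟 = span (range f)`, `IsHom 𝔟`.
(0) There is `z₀ ∈ zer J₀`, `z₀ ≠ 0`: otherwise all `X_i ∈ J₀` (`tNull`), contradiction to `DimGe J₀ 1`.
(1) For `z ∈ zer J₀ - 0`: `S_FRg` gives a chain `P^z` of `r + 1` primes, `P_z` = the last one.  If `Q` is a prime,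
`𝔟 ≤ Q ≤ ptI z`, then `P_z ≤ Q` (`F ∈ P_z`: `h F ∈ 𝔟 ≤ Q`, `h ∉ ptI z`).  In particular `P_z ≤ J₀` (`J₀ ≤ ptI z`), so
`P_z ≤ ptI z'` for all `z' ∈ zer J₀ - 0`, so `P_z' ≤ P_z` and by symmetry `P_z' = P_z =: J`.
(2) If moreover `DimGe Q (N + 1 - r)` and `r ≤ N + 1` then `Q = P_z`: otherwise `Fin.snoc P^z Q` is a chain of `r + 2`
primes and `S_FDr` gives `(N + 1 - r) + (r + 1) ≤ N + 1`.  `2 r ≤ N`: `J ≤ J₀`; `S_FDr` (second claim, and the first one
or a chain with `J₀` if `J ≠ J₀`; `DimGe` is monotone) gives `(r + 1) + r ≤ N + 1`.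
(3) For every `y ∈ zer 𝔟` (also `y = 0`) `mKrull` (`σ = Fin (N + 1)`, weights `1`, `J = 𝔟`, `z = y`, `b = f`) gives a prime `P`,
`𝔟 ≤ P ≤ ptI y`, `IsHom P`, and by `tTB` `DimGe P (N + 1 - r)`; `mMeet` (`(N + 1 - r) + (r + 1) = N + 2`): `z ≠ 0` in
`zer P ∩ zer J₀`; `P ≤ ptI z`, so `P = P_z = J` by (2).  Hence `J ≤ ptI y`: `zer 𝔟 ⊆ zer J`; and `J` is homogeneous,
`DimGe J (N + 1 - r)`.
(4) `J ≤ 𝔟.radical` (Nullstellensatz, `vanishingIdeal_zeroLocus_eq_radical`; compare `Null.lean`), so `J ≤ Q` for every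
prime `Q ≥ 𝔟`.
(5) `NoCh 𝔟 (N + 1 - r)`: a chain `𝔟 ≤ Q_0 < … < Q_k ≤ ptI 0`, `k = N + 2 - r`; `J ≤ Q_0`.  The chain
`P_0 < … < P_(r-1) < Q_0 < … < Q_k` (`P_(r-1) < P_r = J ≤ Q_0`; for `r = 0` just the `Q`) has `r + k + 1` primes, `DimGe _ 0`, so
`r + k ≤ N + 1` by `S_FDr`: contradiction.  [Convenient: first the LEMMA: for `1 ≤ r` or not, if `Q : Fin (k + 1) → Ideal`
is a chain of primes with `J ≤ Q 0` then `r + k ≤ N + 1`; by `S_FDr`: `DimGe (Q 0) k` (induction), so `DimGe J k`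
(monotone or first claim), so `k + r ≤ N + 1` by the second claim for the chain `P^(z₀)`.]
(6) `S_FLn`: `l : Fin (N + 1 - r) → Sx N`, `zer (𝔟, l) ⊆ {0}`.  `E = Fin.append f l` (cast to `Fin (N + 1)`), forms of positive
degree with only the zero `0`; `stmtReg` (`σ = Fin (N + 1)`, `ws = 1`; `IsWeightedHomogeneous 1` is `IsHomogeneous`):
`f` is a regular sequence, and `S_FHc` gives the second claim.
(7) `𝔟 = J`: `𝔟 ≤ J` clear.  Let `F ∈ J`, a form of degree `m` (components).  By (1) `h₀ F ∈ 𝔟` with `h₀(z₀) ≠ 0`; some component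
`h` of `h₀`, of degree `p`, has `h(z₀) ≠ 0`, and `h F ∈ 𝔟` (component `p + m` of `h₀ F`).  `p = 0`: `h` is a nonzero constant,
`F ∈ 𝔟`.  `p ≥ 1`: `h ∉ J` (`z₀ ∈ zer J`).  `𝔞 = 𝔟 ⊔ span {h}`, `IsHom`.  `NoCh 𝔞 (N - r)`: for a chain
`𝔞 ≤ Q_0 < … < Q_k`, `k = N - r + 1`: `J < Q_0` (`h ∈ Q_0`); with the LEMMA of (5) for the chain `J < Q_0 < …` of
`k + 2` primes: `r + k + 1 ≤ N + 1`, contradiction.  `S_FLn`: `l' : Fin (N - r)`; `E = (f, h, l')`, `r + 1 + (N - r) = N + 1`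
forms of positive degree with only the zero `0`; `stmtReg` for `j` = the index `r` of `h`: `h F ∈ 𝔟 = span (E '' {i | i < j})`
implies `F ∈ 𝔟`. -/
def S_FCI : Prop :=
  ∀ (N r : ℕ) (f : Fin r → Sx N) (e : Fin r → ℕ) (J₀ : Ideal (Sx N)), (∀ i, 1 ≤ e i) →
    (∀ i, (f i).IsHomogeneous (e i)) → J₀.IsPrime → IsHom J₀ → (∀ i, f i ∈ J₀) →
    DimGe J₀ (r + 1) → (∀ z ∈ zer J₀, z ≠ 0 → LinearIndependent ℂ fun i => grad (f i) z) →
    (Ideal.span (Set.range f)).IsPrime ∧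
      ∀ k, (Module.finrank ℂ (gr (Ideal.span (Set.range f)) k) : ℤ) = hcG e N k

/-! ## [F] all lines through general points are free -/

/-- (FDe) Derivations extend.  `𝔮` = the ideal of a variety of pairs `(u, v)` dominating `X`, `w` a tangent field
of `X`: there is a rational tangent field `(w, H / h)` of the variety of `𝔮`.

PROOF.  `B = S / I`, `L = FractionRing (Sxx N / 𝔮)`, `B → L` (injective, by the hypothesis on `𝔮`).
(1) `Algebra.FormallySmooth B L`: `K = FractionRing B → L` (`IsFractionRing.lift`), `L` is essentially of finite type over `ℂ`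
(localization of a finitely generated algebra), so over `K` (`Algebra.EssFiniteType.of_comp`); `K` has
characteristic zero, so it is perfect: `Algebra.FormallySmooth.of_perfectField` for `K → L`;
`Algebra.FormallySmooth.of_isLocalization` for `B → K`; `Algebra.FormallySmooth.comp`.
(2) `E = DualNumber L` (or `TrivSqZeroExt L L`; use a type synonym with the `B`-algebra structure defined now): the
ring homomorphism `S → E`, `X_i ↦ (ū_i, w_i(u)‾)`, maps `F` to `(F(u), ∑ ∂_i F (u) w_i(u))` (`MvPolynomial.induction_on`), so `I`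
to `0` (`w ∈ TF I`): `B → E`.  The kernel of `E → L` has square zero, so the `B`-algebra map `id : L → L = E / ker`
lifts to `ψ : L → E` (`Algebra.FormallySmooth.exists_lift` or `liftOfSurjective`).  `ψ(a) = (a, δ a)`;
`δ(ū_i) = w_i(u)‾`, put `ω_i = δ(v̄_i)`.  For `G ∈ Sxx N`: `ψ(G(ū, v̄)) = (G, ∑ ∂G/∂u_i w_i + ∑ ∂G/∂v_i ω_i)` (induction on `G`, `ψ` is a
ring homomorphism over `ℂ`).  For `G ∈ 𝔮`: `G(ū, v̄) = 0`, so `∑ ∂G/∂u_i w_i(u) + ∑ ∂G/∂v_i ω_i = 0` in `L`.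
(3) Common denominator: `ω_i = H̄_i / h̄`, `h ∉ 𝔮`.  Multiply by `h̄`; `Sxx N / 𝔮 → L` is injective. -/
def S_FDe : Prop :=
  ∀ (N : ℕ) (I : Ideal (Sx N)) (𝔮 : Ideal (Sxx N)), I.IsPrime → 𝔮.IsPrime →
    (∀ F : Sx N, rename Sum.inl F ∈ 𝔮 ↔ F ∈ I) → ∀ w ∈ TF I,
    ∃ (h : Sxx N) (H : Fin (N + 1) → Sxx N), h ∉ 𝔮 ∧ ∀ G ∈ 𝔮,
      ∑ i, h * rename Sum.inl (w i) * pderiv (Sum.inl i) G + ∑ i, H i * pderiv (Sum.inr i) G ∈ 𝔮

/-- (U6a) PROOF of `S_U6a`.  `Bad` = the set of the pairs `(x, v)` with `IsLine I x v` and `¬ FreeL I x v`; a subset `Z`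
dominates if for every `g ∉ I` there is `(x, v) ∈ Z` with `g(x) ≠ 0`.  Suppose the claim is false: `Bad` dominates.
For `Z ⊆ Bad` let `𝔮(Z) ≤ Sxx N` be the ideal of the polynomials vanishing on `Z` (`eval (Sum.elim x v)`).  As `Sxx N` is
noetherian there is a dominating `Z ⊆ Bad` with `𝔮 = 𝔮(Z)` maximal among the `𝔮(Z')`, `Z' ⊆ Bad` dominating
(`set_has_maximal_iff_noetherian` / `WellFoundedGT`).
(1) `𝔮` is prime: `1 ∉ 𝔮` (`Z ≠ ∅`: take `g = 1`).  If `F G ∈ 𝔮`, `F, G ∉ 𝔮`: `Z = Z_F ∪ Z_G` (where `F`, resp. `G`, vanishes); if `Z_F`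
dominates then `𝔮(Z_F) > 𝔮` (contains `F`), contradiction; so there are `g_1 ∉ I` vanishing at the first components of
`Z_F`, `g_2 ∉ I` for `Z_G`; `g_1 g_2 ∉ I` vanishes on `Z`: contradiction to domination.
(2) `rename Sum.inl F ∈ 𝔮 ↔ F ∈ I`: `F ∈ I` vanishes at the `x`, `(x, v) ∈ Z` (`x ∈ zer I`); if `F ∉ I` then `F(x) ≠ 0` for some
`(x, v) ∈ Z`.
(3) Take `(x₀, v₀) ∈ Z`; `L : Loc I x₀ c` (`mLoc`).  `Δ = L.dt ∉ I`.  The fields `L.cr j`, `j : L.Bc`, are in `TF I` (`mCr`); for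
`x ∈ zer I` with `Δ(x) ≠ 0` their values at `x` span `TS I x`: for `τ ∈ TS I x`:
`Δ(x) τ = ∑_(j : L.Bc) τ_j (L.cr j)(x)` (the coordinates outside `B` agree; for `l = B b`:
`Δ(x) τ_(B b) + ∑_j coef b j (x) τ_j = 0`: from `∑_l ∂_l F_i (x) τ_l = 0` for all `i`, multiply by the adjugate of `L.M`).
(4) `S_FDe` for `w = L.cr j`: `h_j`, `H_j`.  `rename Sum.inl Δ * ∏ h_j ∉ 𝔮 = 𝔮(Z)`: there is `(x, v) ∈ Z` with `Δ(x) ≠ 0`,
`h_j(x, v) ≠ 0` for all `j`.  CLAIM: `(x, v)` is free, contradiction to `Z ⊆ Bad`.  Let `τ ∈ TS I x`, `τ = ∑ c_j (L.cr j)(x)`;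
`τ' = ∑ c_j H_j(x, v) / h_j(x, v)`.  For `s, t ∈ ℂ`, `F ∈ I` let `G = F(s u + t v) ∈ Sxx N` (`aeval` of
`C s * X (inl i) + C t * X (inr i)`): it vanishes on `Z` (lines in `X`), so `G ∈ 𝔮`; `∂G/∂u_i = s (∂_i F)(s u + t v)`,
`∂G/∂v_i = t (∂_i F)(s u + t v)`.  `S_FDe` at `(x, v) ∈ Z`:
`h_j(x,v) s ∑_i (L.cr j i)(x) ∂_i F(s x + t v) + t ∑_i H_(j,i)(x,v) ∂_i F(s x + t v) = 0`; divide by `h_j(x, v)`, multiply by `c_j`, sum:
`dp (grad F (s x + t v)) (s τ + t τ') = 0`. -/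
def S_FU6a : Prop := S_FDe → S_U6a

/-! ## The cone of lines -/

/-- (U6v) The cone of the lines through a general point is a complete intersection: `S_U6` with weaker hypotheses.

PROOF (S_U6b, S_FCI).  `g = gT d F x`; `κ : Option (Ex d) ≃ Fin r`, `r = ∑ d i + 1` (`Fintype.equivFin`; the number of
elements of `Ex d` is `∑ d i`, `Fintype.card_sigma`); `f = (o ↦ o.elim (lf lam) g) ∘ κ.symm`, degrees
`o ↦ o.elim 1 (e.2.1 + 1)`.
(1) `g e ∈ JL I x` is a form of degree `e.2.1 + 1` (`mLinS`).  For `z ∈ zer J₀`: all elements of `JL I x` vanish at `z`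
(`eval z ((linS x F).coeff n) = (lin x z F).coeff n = 0`, `mLinS`, `eLinB`, `FT.cn.line`), so `g e ∈ J₀` (`tNull`), `lf lam ∈ J₀`.
(2) `z ∈ zer J₀`, `z ≠ 0`: `IsLine I x z` (`dp lam z = 0` as `lf lam ∈ J₀`, `dp lam x = 1`), free, of degree `∑ d i`; `S_U6b`:
`∑ d i ≤ dim W`, `W` = the span of the gradients at `z` of the `(linS x F).coeff n`, `F ∈ I`.  By hypothesis an element `G` of
`JL I x` is `∑ a_e g_e + ∑ m_k j_k`, `m_k ∈ ptI z`, `j_k ∈ JL I x`, so its gradient at `z` is `∑ a_e(z) grad (g e) z` (all `g_e`,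
`j_k`, `m_k` vanish at `z`; `Submodule.mem_sup`, `Submodule.mul_induction_on`): `W` is contained in the span of the
`grad (g e) z`, which are `∑ d i` in number, so they are independent (`linearIndependent_iff_card_le_finrank_span`).
With `lam`: `grad (lf lam) z = lam`; `dp (grad (g e) z) x = 0`: `eval (z + s x) ((linS x F).coeff n) =
(lin x (z + s • x) F).coeff n = 0` for all `s` (the line contains `x + t (z + s x)`), the derivative at `s = 0`; and
`dp lam x = 1`: so `lam` is not in the span: independent.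
(3) `S_FCI` with `J₀`, `DimGe J₀ (r + 1)` (`FT.dim`): `J = span (range f) = span (range g) ⊔ span {lf lam}` is prime and
`finrank (gr J k) = hcG …` (transport of `hcG` along `κ`).  `IsHom J`.
(4) `Cn I x lam J`: `line`: `JL I x ≤ J`: fix `z₀ ∈ zer J₀ - 0` (exists: `DimGe J₀ 1`).  Nakayama
(`Submodule.exists_sub_one_mem_and_smul_le_of_fg_of_le_sup`, as in `tKrull`): there is `h`, `h(z₀) ≠ 0`, with
`h * JL I x ≤ span (range g) ≤ J`; `h ∉ J` (`J ≤ J₀ ≤ ptI z₀`); `J` prime.  So for `z ∈ zer J` all coefficients of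
`lin x z F`, `F ∈ I`, vanish, and `s x + t z ∈ zer I` (`eLinB` for the components of `F`).
(5) `free`: for `z ∈ zer J`, `z ≠ 0`: `IsLine I x z` as in (2).  `ind`: `z₀` and (2).  `tan`: `eval v (g ⟨i, 0⟩) =
(lin x v (F i)).coeff 1 = dp (grad (F i) x) v` (`d i ≥ 1`; derivative of `F(x + t v)` at `t = 0`); the `grad (F i) x = ξ i` are `c`
independent elements of `CN I x`, which has dimension `c` (`eCN`): they span it; `v ∈ TS I x` iff `dp φ v = 0` for all
`φ ∈ CN I x`. -/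
def S_U6v : Prop :=
  ∀ (N c : ℕ) (I : Ideal (Sx N)) (d : Fin c → ℕ), I.IsPrime → IsHom I → Smooth I c →
    (∀ i, 1 ≤ d i) → ∀ (x lam : Vx N) (ξ : Fin c → Vx N) (J₀ : Ideal (Sx N)),
    FT I d x lam ξ J₀ → (∀ z ∈ zer J₀, z ≠ 0 → DegEq I c (∑ i, d i) x z) →
    (∀ z : Vx N, IsLine I x z → FreeL I x z) →
    ∀ F : Fin c → Sx N, (∀ i, F i ∈ I ∧ grad (F i) x = ξ i) →
    (∀ z ∈ zer J₀, z ≠ 0 → JL I x ≤ Ideal.span (Set.range (gT d F x)) ⊔ ptI z * JL I x) →
    ∃ J : Ideal (Sx N), LC I d x lam (gT d F x) J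

end Pool.Agent.Lib.MP_776403_ag.SD.UN
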