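import Pool.Agent.Lib.MP_776403_ag.SD.Null

/-!
# Codimension one: a smooth hypersurface is given by one form
-/

set_option autoImplicit false

open MvPolynomial

noncomputable section

namespace Pool.Agent.Lib.MP_776403_ag.SD.UN

namespace C1Aux

variable {N : ℕ}

/-- A prime homogeneous ideal without linear forms has a zero. -/
theorem exists_pt {I : Ideal (Sx N)} (hI : I.IsPrime) (hIh : IsHom I)
    (hnd : ∀ F ∈ I, F.IsHomogeneous 1 → F = 0) : ∃ y ∈ zer I, y ≠ 0 := by
  by_contra hcon
  push Not at hcon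
  have h := (tNull N I hI hIh).1 (X 0) (fun z hz => by rw [hcon z hz]; simp)
  exact X_ne_zero (R := ℂ) (0 : Fin (N + 1)) (hnd _ h (isHomogeneous_X ℂ 0))

theorem irr {I : Ideal (Sx N)} (hI : I.IsPrime) {F : Sx N} (hF : F ∈ I) (hF0 : F ≠ 0) :
    ∃ P ∈ I, Irreducible P := by
  have key : ∀ F : Sx N, F ≠ 0 → F ∈ I → ∃ P ∈ I, Irreducible P := by
    intro F
    refine WfDvdMonoid.induction_on_irreducible F (fun h => absurd rfl h) (fun u hu _ h => ?_) ?_
    · exact absurd (Ideal.eq_top_of_isUnit_mem I h hu) hI.ne_top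
    · intro a i ha hi ih _ h
      rcases hI.mem_or_mem h with h1 | h1
      · exact ⟨i, h1, hi⟩
      · exact ih ha h1
  exact key F hF0 hF

end C1Aux

open C1Aux

theorem tC1 (N : ℕ) (I : Ideal (Sx N)) (hI : I.IsPrime) (hIh : IsHom I)
    (hnd : ∀ F ∈ I, F.IsHomogeneous 1 → F = 0) (hX : Smooth I 1) :
    ∃ (d : Fin 1 → ℕ) (G : Fin 1 → Sx N), (∀ i, 2 ≤ d i ∧ (G i).IsHomogeneous (d i)) ∧
      I = Ideal.span (Set.range G) := by
  obtain ⟨y, hy, hy0⟩ := exists_pt hI hIh hnd
  obtain ⟨F, f, h, e, hF, hh, hhy, hgr, hloc⟩ := hX y hy hy0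
  have hF0 : F 0 ≠ 0 := by
    intro h0
    have h1 := hgr.ne_zero 0
    apply h1
    show grad (F 0) y = 0
    rw [h0]
    funext i
    simp [grad]
  obtain ⟨P, hP, hPi⟩ := irr hI (hF 0).1 hF0
  have hPp : Prime P := hPi.prime
  have hr : Ideal.span (Set.range F) = Ideal.span {F 0} := by
    congr 1
    ext z
    simp only [Set.mem_range, Set.mem_singleton_iff]
    constructor
    · rintro ⟨i, rfl⟩
      rw [Subsingleton.elim i 0]
    · rintro rfl
      exact ⟨0, rfl⟩
  have hloc' : ∀ G ∈ I, F 0 ∣ h * G := by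
    intro G hG
    have h1 := hloc G hG
    rw [hr] at h1
    exact Ideal.mem_span_singleton.1 h1
  have hzero : ∀ G ∈ I, eval y G = 0 := fun G hG => hy G hG
  -- `P ∣ F 0`
  have hPF : P ∣ F 0 := by
    obtain ⟨a, ha⟩ := hloc' P hP
    have h1 : P ∣ F 0 * a := ⟨h, by rw [← ha]; ring⟩
    rcases hPp.dvd_or_dvd h1 with h2 | ⟨a', h2⟩
    · exact h2
    · exfalso
      rw [h2] at ha
      have h3 : h = F 0 * a' := by
        have h4 : P * h = P * (F 0 * a') := by linear_combination ha
        exact mul_left_cancel₀ hPp.ne_zero h4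
      apply hhy
      rw [h3, map_mul, hzero _ (hF 0).1, zero_mul]
  have hPh : ¬ P ∣ h := by
    rintro ⟨a, ha⟩
    apply hhy
    rw [ha, map_mul, hzero _ hP, zero_mul]
  have hIP : ∀ G ∈ I, P ∣ G := by
    intro G hG
    have h1 : P ∣ h * G := hPF.trans (hloc' G hG)
    rcases hPp.dvd_or_dvd h1 with h2 | h2
    · exact absurd h2 hPh
    · exact h2
  -- `P` is homogeneous
  have hPhom : P.IsHomogeneous P.totalDegree := by
    have hc : ∀ m : ℕ, m ≠ P.totalDegree → homogeneousComponent m P = 0 := by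
      intro m hm
      by_contra hne
      obtain ⟨a, ha⟩ := hIP _ (hIh P hP m)
      have ha0 : a ≠ 0 := by
        rintro rfl
        exact hne (by rw [ha, mul_zero])
      have h1 : (homogeneousComponent m P).totalDegree = P.totalDegree + a.totalDegree := by
        rw [ha]
        exact totalDegree_mul_of_isDomain hPp.ne_zero ha0
      have h2 : (homogeneousComponent m P).totalDegree = m :=
        (homogeneousComponent_isHomogeneous m P).totalDegree hne
      have h3 : m ≤ P.totalDegree := by
        by_contra h4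
        exact hne (homogeneousComponent_eq_zero m P (not_le.1 h4))
      omega
    have h1 : P = homogeneousComponent P.totalDegree P := by
      conv_lhs => rw [← sum_homogeneousComponent P]
      refine Finset.sum_eq_single _ (fun m _ hm => hc m hm) (fun hm => ?_)
      exact absurd (Finset.mem_range.2 (Nat.lt_succ_self _)) hm
    rw [h1]
    have h2 := homogeneousComponent_isHomogeneous P.totalDegree P
    rwa [← h1] at h2 ⊢
  have hdeg : 2 ≤ P.totalDegree := by
    by_contra hlt
    have h01 : P.totalDegree = 0 ∨ P.totalDegree = 1 := by omega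
    rcases h01 with h0 | h1
    · have h2 : P = C (P.coeff 0) := totalDegree_eq_zero_iff_eq_C.1 h0
      have h3 : IsUnit P := by
        rw [h2]
        refine IsUnit.map _ (isUnit_iff_ne_zero.2 ?_)
        intro h4
        rw [h4, map_zero] at h2
        exact hPp.ne_zero h2
      exact hPi.not_isUnit h3
    · rw [h1] at hPhom
      exact hPp.ne_zero (hnd P hP hPhom)
  refine ⟨fun _ => P.totalDegree, fun _ => P, fun _ => ⟨hdeg, hPhom⟩, ?_⟩
  rw [Set.range_const]
  refine le_antisymm (fun G hG => Ideal.mem_span_singleton.2 (hIP G hG)) ?_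
  rw [Ideal.span_singleton_le_iff_mem]
  exact hP

end Pool.Agent.Lib.MP_776403_ag.SD.UN
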