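import Pool.Agent.Lib.MP_776403_ag.SD.UN.Spec7

/-!
# `S_RA`: regular functions as fractions with a common denominator
-/

set_option autoImplicit false

open MvPolynomial

noncomputable section

namespace Pool.Agent.Lib.MP_776403_ag.SD.UN

namespace RAAux

variable {N : ℕ}

/-- Common fractions at a point. -/
theorem frac (I : Ideal (Sx N)) (k r : ℕ) (f : Fin r → (Vx N → ℂ)) (hf : ∀ i, IsReg I k (f i))
    (y : Vx N) (hy : y ∈ zer I) (hy0 : y ≠ 0) :
    ∃ (P : Fin r → Sx N) (Q : Sx N) (e : ℕ), (∀ i, (P i).IsHomogeneous (e + k)) ∧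
      Q.IsHomogeneous e ∧ eval y Q ≠ 0 ∧
      ∀ z ∈ zer I, z ≠ 0 → ∀ i, f i z * eval z Q = eval z (P i) := by
  choose P0 Q0 e0 h1 h2 h3 h4 using fun i => (hf i).2 y hy hy0
  refine ⟨fun i => P0 i * ∏ j ∈ Finset.univ.erase i, Q0 j, ∏ j, Q0 j, ∑ j, e0 j, ?_, ?_, ?_, ?_⟩
  · intro i
    have h := (h1 i).mul (IsHomogeneous.prod (Finset.univ.erase i) Q0 e0 fun j _ => h2 j)
    have hs : ∑ j, e0 j = e0 i + ∑ j ∈ Finset.univ.erase i, e0 j :=
      (Finset.add_sum_erase Finset.univ e0 (Finset.mem_univ i)).symm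
    have he : ∑ j, e0 j + k = e0 i + k + ∑ j ∈ Finset.univ.erase i, e0 j := by
      rw [hs]; ring
    rw [he]
    exact h
  · exact IsHomogeneous.prod Finset.univ Q0 e0 fun j _ => h2 j
  · rw [map_prod]
    exact Finset.prod_ne_zero_iff.2 fun j _ => h3 j
  · intro z hz hz0 i
    have hs : ∏ j, Q0 j = Q0 i * ∏ j ∈ Finset.univ.erase i, Q0 j :=
      (Finset.mul_prod_erase Finset.univ Q0 (Finset.mem_univ i)).symm
    rw [hs, map_mul, map_mul, ← h4 i z hz hz0]
    ring

/-- Homogeneity of a combination. -/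
theorem homC {r n : ℕ} (a : Fin r → ℂ) (P : Fin r → Sx N) (hP : ∀ i, (P i).IsHomogeneous n) :
    (∑ i, C (a i) * P i).IsHomogeneous n := by
  refine IsHomogeneous.sum Finset.univ _ _ fun i _ => ?_
  have h := (isHomogeneous_C (Fin (N + 1)) (a i)).mul (hP i)
  rwa [zero_add] at h

/-- The values of a combination. -/
theorem evC {r : ℕ} (a : Fin r → ℂ) (P : Fin r → Sx N) (f : Fin r → (Vx N → ℂ)) (Q : Sx N)
    (z : Vx N) (h : ∀ i, f i z * eval z Q = eval z (P i)) :
    (∑ i, a i * f i z) * eval z Q = eval z (∑ i, C (a i) * P i) := by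
  rw [map_sum, Finset.sum_mul]
  refine Finset.sum_congr rfl fun i _ => ?_
  rw [map_mul, eval_C, ← h i, mul_assoc]

end RAAux

open RAAux in
theorem tRA : S_Null → S_RA := by
  intro hN N I hI hH x hx hx0 k r f hf hlin
  obtain ⟨P, Q, e, hP, hQ, hQx, hPQ⟩ := frac I k r f hf x hx hx0
  -- the key relation
  have key : ∀ a : Fin r → ℂ, ∀ y ∈ zer I, y ≠ 0 → ∃ (P' Q' : Sx N) (e' : ℕ),
      P'.IsHomogeneous (e' + k) ∧ Q'.IsHomogeneous e' ∧ eval y Q' ≠ 0 ∧
      (∑ i, C (a i) * P i) * Q' - P' * Q ∈ I ∧ (∑ i, a i * f i y) * eval y Q' = eval y P' := by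
    intro a y hy hy0
    obtain ⟨P', Q', e', hP', hQ', hQy, hPQ'⟩ := frac I k r f hf y hy hy0
    refine ⟨∑ i, C (a i) * P' i, Q', e', homC a P' hP', hQ', hQy, ?_, ?_⟩
    · refine (hN N I hI hH).2 ⟨x, hx, hx0⟩ _ (e + k + e') ?_ ?_
      · have h1 := (homC a P hP).mul hQ'
        have h2 := (homC a P' hP').mul hQ
        have h3 : e' + k + e = e + k + e' := by ring
        rw [h3] at h2
        exact h1.sub h2
      · intro z hz hz0
        rw [map_sub, map_mul, map_mul, ← evC a P f Q z (hPQ z hz hz0),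
          ← evC a P' f Q' z (hPQ' z hz hz0)]
        ring
    · exact evC a P' f Q' y (hPQ' y hy hy0)
  refine ⟨P, Q, fun a => ⟨⟨e, homC a P hP, hQ⟩, hQx, fun y hy hy0 => ?_⟩, fun a ha => ?_⟩
  · obtain ⟨P', Q', e', h1, h2, h3, h4, _⟩ := key a y hy hy0
    exact ⟨P', Q', e', h1, h2, h3, h4⟩
  · have hz : ∑ i, a i • f i = 0 := by
      funext y
      rw [Finset.sum_apply]
      simp only [Pi.smul_apply, smul_eq_mul, Pi.zero_apply]
      by_cases hy : y ∉ zer I ∨ y = 0
      · exact Finset.sum_eq_zero fun i _ => by rw [(hf i).1 y hy, mul_zero]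
      · have hy1 : y ∈ zer I := by
          by_contra h
          exact hy (Or.inl h)
        have hy0 : y ≠ 0 := fun h => hy (Or.inr h)
        obtain ⟨P', Q', e', _, _, h3, h4, h5⟩ := key a y hy1 hy0
        have h6 : P' * Q ∈ I := by
          have h7 := I.sub_mem (I.mul_mem_right Q' ha) h4
          have h8 : (∑ i, C (a i) * P i) * Q' - ((∑ i, C (a i) * P i) * Q' - P' * Q) = P' * Q := by
            ring
          rwa [h8] at h7
        have h9 : P' ∈ I := by
          rcases hI.mem_or_mem h6 with h | h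
          · exact h
          · exact absurd (hx Q h) hQx
        have h10 : eval y P' = 0 := hy1 P' h9
        rw [h10] at h5
        exact (mul_eq_zero.1 h5).resolve_right h3
    have := Fintype.linearIndependent_iff.1 hlin a hz
    funext i
    exact this i

end Pool.Agent.Lib.MP_776403_ag.SD.UN
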