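import Pool.Agent.Lib.MP_776403_ag.SD.UN.Spec7

/-!
# THEOREM UN, (RQ): expansions of fractions.
-/

set_option autoImplicit false

open MvPolynomial

noncomputable section

namespace Pool.Agent.Lib.MP_776403_ag.SD.UN

open LI

namespace RQAux

variable {N r : ℕ} {B : Fin r → Fin (N + 1)}

lemma Dy_mul (j : Bn B) (p q : PowerSeries (Ay B)) :
    Dy j (p * q) = Dy j p * q + p * Dy j q := by
  apply PowerSeries.ext
  intro n
  rw [map_add]
  simp only [Dy, PowerSeries.coeff_mk, PowerSeries.coeff_mul, map_sum, Derivation.leibniz,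
    smul_eq_mul]
  rw [← Finset.sum_add_distrib]
  refine Finset.sum_congr rfl fun a _ => ?_
  ring

/-- The operator `∑ c_j Dy j` is a derivation. -/
lemma D_mul (c : Bn B → PowerSeries (Ay B)) (p q : PowerSeries (Ay B)) :
    ∑ j : Bn B, c j * Dy j (p * q) =
      (∑ j : Bn B, c j * Dy j p) * q + p * ∑ j : Bn B, c j * Dy j q := by
  rw [Finset.sum_mul, Finset.mul_sum, ← Finset.sum_add_distrib]
  refine Finset.sum_congr rfl fun j _ => ?_
  rw [Dy_mul]
  ring

lemma isUnit_T {x : Vx N} {f : Fin r → Sx N} {T : Sx N →ₐ[ℂ] PowerSeries (Ay B)}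
    (hT : PT x f B T) {Q : Sx N} (hQ : eval x Q ≠ 0) : IsUnit (T Q) := by
  rw [PowerSeries.isUnit_iff_constantCoeff]
  have h := hT.c0 Q
  rw [PowerSeries.coeff_zero_eq_constantCoeff_apply] at h
  rw [h]
  exact (IsUnit.mk0 _ hQ).map C

lemma hom_coeff {x : Vx N} {f : Fin r → Sx N} {T : Sx N →ₐ[ℂ] PowerSeries (Ay B)}
    (hT : PT x f B T) {P Q : Sx N} (hQ : eval x Q ≠ 0) (τ : PowerSeries (Ay B))
    (hτ : T Q * τ = T P) (n : ℕ) : (PowerSeries.coeff n τ).IsHomogeneous n := by
  induction n using Nat.strong_induction_on with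
  | _ n ih =>
    have h1 : PowerSeries.coeff n (T Q * τ) = PowerSeries.coeff n (T P) := by rw [hτ]
    rw [PowerSeries.coeff_mul] at h1
    have hmem : ((0, n) : ℕ × ℕ) ∈ Finset.HasAntidiagonal.antidiagonal n := by simp
    rw [← Finset.add_sum_erase _ _ hmem] at h1
    have h2 : C (eval x Q) * PowerSeries.coeff n τ = PowerSeries.coeff n (T P) -
        ∑ p ∈ (Finset.HasAntidiagonal.antidiagonal n).erase (0, n),
          PowerSeries.coeff p.1 (T Q) * PowerSeries.coeff p.2 τ := by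
      rw [← h1, ← hT.c0 Q]
      ring
    have h3 : (C (eval x Q) * PowerSeries.coeff n τ).IsHomogeneous n := by
      rw [h2]
      refine (hT.hom P n).sub (IsHomogeneous.sum _ _ _ fun p hp => ?_)
      rw [Finset.mem_erase, Finset.HasAntidiagonal.mem_antidiagonal] at hp
      obtain ⟨hp1, hp2⟩ := hp
      have hlt : p.2 < n := by
        rcases Nat.lt_or_ge p.2 n with h | h
        · exact h
        · exfalso
          apply hp1
          have h4 : p.2 = n := by omega
          have h5 : p.1 = 0 := by omega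
          exact Prod.ext h5 h4
      rw [← hp2]
      exact (hT.hom Q p.1).mul (ih p.2 hlt)
    have h4 : PowerSeries.coeff n τ =
        C (eval x Q)⁻¹ * (C (eval x Q) * PowerSeries.coeff n τ) := by
      rw [← mul_assoc, ← C_mul, inv_mul_cancel₀ hQ, C_1, one_mul]
    rw [h4]
    have h5 := (isHomogeneous_C (Bn B) (eval x Q)⁻¹).mul h3
    rwa [zero_add] at h5

end RQAux

theorem tRQ : S_RQ := by
  intro N r x f B T hT P Q hQ
  have hu : IsUnit (T Q) := RQAux.isUnit_T hT hQ
  refine ⟨?_, hu.ne_zero, fun n τ hτ => RQAux.hom_coeff hT hQ τ hτ n, ?_⟩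
  · obtain ⟨u, hu'⟩ := hu
    exact ⟨(u⁻¹ : (PowerSeries (Ay B))ˣ) * T P, by rw [← hu', ← mul_assoc, Units.mul_inv, one_mul]⟩
  · intro w hw τ τ' hτ hτ'
    have e1 := RQAux.D_mul (fun j : Bn B => T (w j.1)) (T Q) τ
    rw [hτ, ← hw P, ← hw Q] at e1
    have e2 : T Q * T Q * τ' = T Q * T (Dw w P) - T P * T (Dw w Q) := by
      rw [← map_mul, hτ', map_sub, map_mul, map_mul]
    have e3 : T Q * T Q * (PowerSeries.X * τ') =
        T Q * T Q * ∑ j : Bn B, T (w j.1) * Dy j τ := by
      calc T Q * T Q * (PowerSeries.X * τ') = PowerSeries.X * (T Q * T Q * τ') := by ring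
        _ = PowerSeries.X * (T Q * T (Dw w P) - T P * T (Dw w Q)) := by rw [e2]
        _ = PowerSeries.X * (T Q * T (Dw w P) - (T Q * τ) * T (Dw w Q)) := by rw [hτ]
        _ = T Q * (PowerSeries.X * T (Dw w P)) - T Q * (PowerSeries.X * T (Dw w Q) * τ) := by ring
        _ = T Q * T Q * ∑ j : Bn B, T (w j.1) * Dy j τ := by rw [e1]; ring
    exact (hu.mul hu).mul_left_cancel e3

end Pool.Agent.Lib.MP_776403_ag.SD.UN
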