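import Pool.Agent.Lib.MP_776403_ag.SD.UN.Spec

/-!
# THEOREM UN, part U5 (helper7): at a line of type `d` the Taylor forms generate the ideal of the lines

Statements with complete proofs in the docstrings; `S_Xyz` is proved in the file `SD/UN/Xyz.lean`
(theorem `SD.UN.tXyz`).  Closed forms of old statements may be used (`tNull : S_Null`, `mPerp : S_Perp`,
`eLinS`/`mLinS : S_LinS`, `eLinB : S_LinB`, `eCN : S_CN`, `mLoc : S_Loc`, `mHom : S_Hom`, `mCr : S_Cr`,
`eMapL : S_mapL`, `eTh1 : S_Hom → S_LinB → S_Th1`, …, see `SD/Main.lean`, `SD/LI/QS.lean`), and the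
other statements of this file as hypotheses.

NOTATION.  `lin = lin x z`, `F(x + t z) = lin F ∈ ℂ[t]`.
-/

set_option autoImplicit false

open MvPolynomial

noncomputable section

namespace Pool.Agent.Lib.MP_776403_ag.SD.UN

open LI

/-- The `ℂ[t]`-module generated by the gradients of the elements of `I` along the line `x + t z`. -/
def GM {N : ℕ} (I : Ideal (Sx N)) (x z : Vx N) :
    Submodule (Polynomial ℂ) (Fin (N + 1) → Polynomial ℂ) :=
  Submodule.span (Polynomial ℂ) {e | ∃ F ∈ I, e = fun l => lin x z (pderiv l F)}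

/-- (5a) Cramer's rule for sections.

PROOF.  `lin L.dt ≠ 0`: `L.dt` is homogeneous (`S_Hom`), `y = σ x + τ z`, `L.dt (y) ≠ 0` (`L.detx`), and
`eval (σ x + τ z) L.dt = ∑_j (lin L.dt).coeff j σ^(m-j) τ^j` (`S_LinB`).
`L.cr l ∈ TF I` (`S_Cr`) is homogeneous of degree `L.dg` (`S_Hom`), so by definition of `Sec`
`∑_k s k * lin (L.cr l k) = 0`; `L.cr l k = (if k = l then L.dt else 0) - ∑_b (if L.B b = k then L.coef b l else 0)`,
so `lin L.dt * s l = ∑_b lin (L.coef b l) * s (L.B b)`, and `L.coef b l = ∑_i adj(M)_(b i) ∂_l F_i` (definition). -/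
def S_5a : Prop :=
  ∀ (N c : ℕ) (I : Ideal (Sx N)), I.IsPrime → IsHom I → Smooth I c → ∀ x z y : Vx N,
    IsLine I x z → ∀ σ τ : ℂ, y = σ • x + τ • z → ∀ L : Loc I y c,
    lin x z L.dt ≠ 0 ∧ ∀ (n : ℕ), ∀ s ∈ Sec I x z n, ∀ l,
      lin x z L.dt * s l = ∑ i, (∑ b, s (L.B b) * lin x z (L.M.adjugate b i)) *
        lin x z (pderiv l (L.F i))

/-- (5b) Sections are combinations of gradients.

PROOF.  For `t₀ ∈ ℂ` the point `y = x + t₀ z` is in `zer I`, `≠ 0`; `L : Loc I y c` (`S_Loc`).  By (5a)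
`lin L.dt • s ∈ GM I x z` (`L.F i ∈ I`), and `(lin L.dt).eval t₀ = eval y L.dt ≠ 0`.  The ideal
`{p ∈ ℂ[t] | p • s ∈ GM}` has no common zero, so it contains `1` (principal ideal domain,
`ℂ` algebraically closed). -/
def S_5b : Prop :=
  ∀ (N c : ℕ) (I : Ideal (Sx N)), I.IsPrime → IsHom I → Smooth I c → ∀ x z : Vx N,
    IsLine I x z → ∀ (n : ℕ), ∀ s ∈ Sec I x z n, s ∈ GM I x z

/-- (5c) Gradients are combinations of the sections of a type.

PROOF.  For `t ∈ ℂ` the vectors `(s i)(t) = hval (s i) (d i) 1 t` are `c` independent elements of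
`CN I (x + t z)` (`S_SecVal`), which has dimension `c` (`S_CN`), so they are a basis and
`grad F (x + t z) ∈ CN` is a combination of them.  Cramer and division as in `L1_cramer`, `L1_div`
(private lemmas in `SD/L1.lean`, reprove or copy them; `ι = Fin c`, `m = N + 1`, `g i = s i`,
`s = lin grad F`).  `r` is unique because the `s i (t)` are independent for all `t`; last claim:
evaluate at `t = 0`: `grad F x = ∑ (r i)(0) s i (0)`. -/
def S_5c : Prop :=
  ∀ (N c : ℕ) (I : Ideal (Sx N)) (d : Fin c → ℕ), I.IsPrime → IsHom I → Smooth I c →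
    ∀ x z : Vx N, IsLine I x z → ∀ s : Fin c → (Fin (N + 1) → Polynomial ℂ), Ty I x z d s →
    (∀ F ∈ I, ∃ r : Fin c → Polynomial ℂ, ∀ l, lin x z (pderiv l F) = ∑ i, r i * s i l) ∧
    (∀ r : Fin c → Polynomial ℂ, (∀ l, ∑ i, r i * s i l = 0) → r = 0) ∧
    ∀ F ∈ I, ∀ r : Fin c → Polynomial ℂ, (∀ l, lin x z (pderiv l F) = ∑ i, r i * s i l) →
      ∀ i₀, (∀ l, grad F x l = (s i₀ l).coeff 0) → ∀ i, (r i).coeff 0 = if i = i₀ then 1 else 0

/-- (5d) FUNCTIONALS ARE SECTIONS OF THE DUAL.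

PROOF.  `θ F = mapL lam (linS x F)`.  As in the proof of `S_Psi1` (`E/Psi1.lean`), with `J = JL I x` and
`S_mapL` (`σ = Fin (N + 1)`): `θ` satisfies the hypotheses of `S_Th1` (with `v0 = z`): additive,
`θ(G F) = lin G θ F` for `F ∈ I` (the coefficients of `linS x F` are in `JL I x`;
`(linS x G).map (eval z) = lin G`, `S_LinS`), `natDegree ≤ m` for `F ∈ I` homogeneous of degree `m`,
`X ∣ θ F` for `F ∈ I` (constant coefficient `lam (C (F(x))) = 0`).
(1) WELL DEFINED: if `∑_k b_k lin (∂_l F_k) = 0` for all `l`, `b_k ∈ ℂ[t]`, `F_k ∈ I` then `∑_k b_k θ(F_k) = 0`: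
with `L : Loc I x c` (`S_Loc`) and `p` of `S_Th1`: `lin L.dt θ(F_k) = X ∑_b p_b lin (∂_(B b) F_k)`, so
`lin L.dt ∑ b_k θ(F_k) = X ∑_b p_b ∑_k b_k lin (∂_(B b) F_k) = 0`, and `lin L.dt ≠ 0` ((5a) for `y = x`).
So there is a `ℂ[t]`-linear map `Θ : GM I x z → ℂ[t]` with `Θ (lin grad F) = θ F` for `F ∈ I` (for instance on
finite sums; or choose for each `s i` a representation `s i = ∑_k a_k lin grad F_k` and put
`Θ(s i) = ∑ a_k θ(F_k)`), with values divisible by `X`.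
(2) `h i = Θ(s i) / X` (`s i ∈ GM`, (5b)).  If `lin grad F = ∑ r_i s_i` then `θ F = ∑ r_i Θ(s_i) = X ∑ r_i h_i`.
(3) DEGREE: `L' : Loc I z c` (`z ∈ zer I`, `z ≠ 0`), `f'`, `dg'` its degrees.  (5a) for `y = z`:
`lin L'.dt s_i = ∑_j q_j lin grad F'_j`, `q_j = ∑_b s_i (B' b) lin (adj'_(b j))` of degree
`≤ (d i - 1) + dg' - (f' j - 1)` (`S_Hom`; `s_i` has degree `< d i`, `1 ≤ d i`).  Apply `Θ`:
`lin L'.dt X h_i = ∑_j q_j θ(F'_j)`, of degree `≤ (d i - 1) + dg' + 1` (`θ(F'_j)` has degree `≤ f' j`; if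
`f' j = 0` then `F'_j` is a constant in `I`, so `0`, contradiction to `L'.detx`).  `lin L'.dt` has degree exactly
`dg'` (`L'.good z`: `L'.dt (z) ≠ 0`, `S_Hom`), so `h_i` has degree `≤ d i - 1`. -/
def S_5d : Prop :=
  ∀ (N c : ℕ) (I : Ideal (Sx N)) (d : Fin c → ℕ), I.IsPrime → IsHom I → Smooth I c →
    ∀ x z : Vx N, IsLine I x z → ∀ s : Fin c → (Fin (N + 1) → Polynomial ℂ), Ty I x z d s →
    ∀ lam : Sx N →ₗ[ℂ] ℂ, (∀ f ∈ ptI z * JL I x, lam f = 0) →
    ∃ h : Fin c → Polynomial ℂ, (∀ i, h i ∈ Polynomial.degreeLT ℂ (d i)) ∧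
      ∀ F ∈ I, ∀ r : Fin c → Polynomial ℂ, (∀ l, lin x z (pderiv l F) = ∑ i, r i * s i l) →
        mapL lam (linS x F) = Polynomial.X * ∑ i, r i * h i

/-- PROOF of `S_U5` (S_5c, S_5d).  Let `W = span (range g) ⊔ ptI z * JL I x ≤ JL I x`, `g = gT d F x`
(`linS x (F i)` has its coefficients in `JL I x`).  If `f ∈ JL I x`, `f ∉ W`, there is a linear
`lam : Sx N → ℂ` that kills `W` with `lam f ≠ 0` (`Submodule.exists_le_ker_of_notMem` for `W` as a
`ℂ`-subspace).  Take `h` of (5d).  `mapL lam (linS x F) = θ(F)`, its coefficient `n` is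
`lam ((linS x F).coeff n)` (`S_mapL`).  CLAIM `h = 0`: otherwise let `ρ` be the least `n` such that
`(h i).coeff n ≠ 0` for some `i`, attained by `i₀`; `ρ < d i₀`.  Let `r` be the coefficients of
`lin grad (F i₀) = ∑ r_i s_i` (5c); `(r i)(0) = [i = i₀]`.  The coefficient of `t^(ρ+1)` of
`θ(F i₀) = X ∑ r_i h_i` is the coefficient of `t^ρ` of `∑ r_i h_i`, which is `∑ (r_i)(0) (h_i).coeff ρ =
(h i₀).coeff ρ ≠ 0` (all coefficients of the `h_i` below `ρ` vanish), but it is `lam (g ⟨i₀, ρ⟩) = 0`.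
So `θ(F) = 0` for all `F ∈ I`, i.e. `lam` vanishes on the generators of `JL I x`; as
`lam (q f') = q(z) lam f'` for `f' ∈ JL I x` (`(q - C q(z)) f' ∈ ptI z * JL I x`), `lam` vanishes on
`JL I x` (`Submodule.span_induction` / `Ideal.span` = sums of `q f'`): contradiction. -/
def S_U5Of : Prop := S_5c → S_5d → S_U5

end Pool.Agent.Lib.MP_776403_ag.SD.UN
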